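import Pool.Agent.HB.Stmts

/-!
# Sums of powers of two and binary digits
-/

namespace HB

namespace ARI

theorem al_two_mul (x : ℕ) : al (2 * x) = al x := by
  unfold al
  rcases Nat.eq_zero_or_pos x with rfl | hx
  · rfl
  · rw [Nat.digits_def' (by norm_num) (by omega : 0 < 2 * x)]
    simp

theorem al_two_mul_add_one (x : ℕ) : al (2 * x + 1) = al x + 1 := by
  unfold al
  rw [Nat.digits_def' (by norm_num) (by omega : 0 < 2 * x + 1)]
  have h1 : (2 * x + 1) % 2 = 1 := by omega
  have h2 : (2 * x + 1) / 2 = x := by omega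
  rw [h1, h2, List.sum_cons]
  omega

theorem al_zero : al 0 = 0 := by
  simp [al]

theorem al_succ (a : ℕ) : al (a + 1) ≤ al a + 1 := by
  induction a using Nat.strong_induction_on with
  | _ a ih =>
    rcases Nat.even_or_odd' a with ⟨b, rfl | rfl⟩
    · rw [al_two_mul_add_one, al_two_mul]
    · have h : 2 * b + 1 + 1 = 2 * (b + 1) := by ring
      rw [h, al_two_mul, al_two_mul_add_one]
      have := ih b (by omega)
      omega

theorem al_add_pow (e a : ℕ) : al (a + 2 ^ e) ≤ al a + 1 := by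
  induction e generalizing a with
  | zero => simpa using al_succ a
  | succ e ih =>
    rcases Nat.even_or_odd' a with ⟨b, rfl | rfl⟩
    · have h : 2 * b + 2 ^ (e + 1) = 2 * (b + 2 ^ e) := by ring
      rw [h, al_two_mul, al_two_mul]
      exact ih b
    · have h : 2 * b + 1 + 2 ^ (e + 1) = 2 * (b + 2 ^ e) + 1 := by ring
      rw [h, al_two_mul_add_one, al_two_mul_add_one]
      have := ih b
      omega

theorem al_le_of_S2 (k N : ℕ) (h : S2 k N) : al N ≤ k := by
  induction k generalizing N with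
  | zero =>
    obtain ⟨e, he⟩ := h
    rw [he]
    simp [al_zero]
  | succ k ih =>
    obtain ⟨e, he⟩ := h
    rw [Fin.sum_univ_castSucc] at he
    have h1 := ih (∑ i : Fin k, 2 ^ e i.castSucc) ⟨fun i => e i.castSucc, rfl⟩
    have h2 := al_add_pow (e (Fin.last k)) (∑ i : Fin k, 2 ^ e i.castSucc)
    rw [← he] at h2
    omega

theorem S2_double (j k M : ℕ) (hjk : j ≤ k) (h : S2 j M) : S2 k (2 * M + (k - j)) := by
  obtain ⟨t, rfl⟩ := Nat.exists_eq_add_of_le hjk
  obtain ⟨e, he⟩ := h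
  refine ⟨Fin.append (fun i => e i + 1) (fun _ => 0), ?_⟩
  rw [Fin.sum_univ_add]
  simp only [Fin.append_left, Fin.append_right, pow_succ, pow_zero, Finset.sum_const,
    Finset.card_univ, Fintype.card_fin, smul_eq_mul, mul_one]
  rw [← Finset.sum_mul, ← he]
  omega

theorem al_half (x : ℕ) : al (x / 2) ≤ al x := by
  rcases Nat.even_or_odd' x with ⟨b, rfl | rfl⟩
  · rw [al_two_mul]
    have : 2 * b / 2 = b := by omega
    rw [this]
  · rw [al_two_mul_add_one]
    have : (2 * b + 1) / 2 = b := by omega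
    rw [this]
    omega

theorem al_div_pow (e x : ℕ) : al (x / 2 ^ e) ≤ al x := by
  induction e generalizing x with
  | zero => simp
  | succ e ih =>
    rw [pow_succ, ← Nat.div_div_eq_div_mul]
    exact (al_half _).trans (ih x)

theorem al_pred (w M : ℕ) (hM : 1 ≤ M) : w ≤ al (2 ^ w * M - 1) := by
  induction w with
  | zero => omega
  | succ w ih =>
    have h0 : 1 ≤ 2 ^ w * M := Nat.mul_pos (by positivity) hM
    have h : 2 ^ (w + 1) * M - 1 = 2 * (2 ^ w * M - 1) + 1 := by
      have : 2 ^ (w + 1) * M = 2 * (2 ^ w * M) := by ring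
      omega
    rw [h, al_two_mul_add_one]
    omega

theorem al_sub (v e N r : ℕ) (hN : 2 ^ v ∣ N) (h1 : 1 ≤ r) (hr : r ≤ 2 ^ e) (hev : e ≤ v)
    (hrN : r ≤ N) : v - e ≤ al (N - r) := by
  obtain ⟨M, rfl⟩ := hN
  obtain ⟨w, rfl⟩ := Nat.exists_eq_add_of_le hev
  have hM : 1 ≤ M := by
    rcases Nat.eq_zero_or_pos M with rfl | h
    · simp at hrN
      omega
    · exact h
  have h0 : 1 ≤ 2 ^ w * M := Nat.mul_pos (by positivity) hM
  have h2 : 2 ^ (e + w) * M = 2 ^ e * (2 ^ w * M) := by ring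
  have h3 : (2 ^ (e + w) * M - r) / 2 ^ e = 2 ^ w * M - 1 := by
    obtain ⟨Q, hQ⟩ := Nat.exists_eq_add_of_le h0
    rw [h2, hQ]
    have h4 : 2 ^ e * (1 + Q) - r = (2 ^ e - r) + 2 ^ e * Q := by
      have : 2 ^ e * (1 + Q) = 2 ^ e + 2 ^ e * Q := by ring
      omega
    rw [h4, Nat.add_mul_div_left _ _ (by positivity), Nat.div_eq_of_lt (by omega)]
    omega
  have h5 := al_div_pow e (2 ^ (e + w) * M - r)
  rw [h3] at h5
  have h6 := al_pred w M hM
  omega

end ARI

theorem t_ARI : Stmt_ARI :=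
  ⟨ARI.al_two_mul, ARI.al_le_of_S2, ARI.S2_double, ARI.al_sub⟩

end HB
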