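import Pool.Agent.Lib_helper74.Hit.Basic

/-!
# A bound for the hit problem: definitions and basic facts

`P d` is the polynomial algebra over the field with two elements, `W d` the space of the
coefficient vectors of linear forms, `lf w` the linear form of `w`.
-/

namespace HB

open MvPolynomial Pool.Agent.Lib_helper74.Hit

/-- The polynomial algebra in `d` variables over the field with two elements. -/
abbrev P (d : ℕ) : Type := MvPolynomial (Fin d) (ZMod 2)

/-- The coefficient vectors of linear forms. -/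
abbrev W (d : ℕ) : Type := Fin d → ZMod 2

variable {d : ℕ}

/-- The linear form with the coefficients `w`. -/
noncomputable def lf (w : W d) : P d := ∑ i, C (w i) * X i

/-- The product of the forms of a list. -/
noncomputable def pr (l : List (W d)) : P d := (l.map lf).prod

/-- The twist of a list of forms: the product of the `1 + a T`. -/
noncomputable def tw (l : List (W d)) : Polynomial (P d) :=
  (l.map fun a => 1 + Polynomial.C (lf a) * Polynomial.X).prod

/-- The twisted square. -/
noncomputable def Sw (w : Polynomial (P d)) (k : ℕ) (f : P d) : P d :=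
  (w * totalSq (Fin d) f).coeff k

/-- The homogeneous polynomials of degree `n`. -/
noncomputable def Hg (d n : ℕ) : Submodule (ZMod 2) (P d) := homogeneousSubmodule (Fin d) (ZMod 2) n

/-- The hits of degree `n` for the twist `w`. -/
noncomputable def Hn (w : Polynomial (P d)) (n : ℕ) : Submodule (ZMod 2) (P d) :=
  Submodule.span (ZMod 2) {g | ∃ k m : ℕ, ∃ f ∈ Hg d m, 1 ≤ k ∧ m + k = n ∧ g = Sw w k f}

/-- The degree `n` part of the ideal generated by the forms of `Λ`. -/
noncomputable def Ln (Λ : Submodule (ZMod 2) (W d)) (n : ℕ) : Submodule (ZMod 2) (P d) :=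
  Submodule.span (ZMod 2) {g | ∃ a ∈ Λ, ∃ m : ℕ, ∃ f ∈ Hg d m, m + 1 = n ∧ g = lf a * f}

/-- The twisted hits modulo the ideal of `Λ`. -/
noncomputable def Un (w : Polynomial (P d)) (Λ : Submodule (ZMod 2) (W d)) (n : ℕ) :
    Submodule (ZMod 2) (P d) := Hn w n ⊔ Ln Λ n

/-- The dimension of `V` modulo `U`. -/
noncomputable def rk {M : Type*} [AddCommGroup M] [Module (ZMod 2) M]
    (V U : Submodule (ZMod 2) M) : ℕ := Module.finrank (ZMod 2) (V.map U.mkQ)

/-- The dimension of the twisted cokernel of degree `n`. -/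
noncomputable def q (l : List (W d)) (Λ : Submodule (ZMod 2) (W d)) (n : ℕ) : ℕ :=
  rk (Hg d n) (Un (tw l) Λ n)

/-- The codimension. -/
noncomputable def cod (Λ : Submodule (ZMod 2) (W d)) : ℕ := Module.finrank (ZMod 2) (W d ⧸ Λ)

/-- The ideal generated by the forms of `Λ`. -/
noncomputable def IL (Λ : Submodule (ZMod 2) (W d)) : Ideal (P d) :=
  Ideal.span (lf '' (Λ : Set (W d)))

/-- Congruence of twists modulo `Λ`. -/
def Cg (Λ : Submodule (ZMod 2) (W d)) (w w' : Polynomial (P d)) : Prop :=
  w - w' ∈ Ideal.map (Polynomial.C : P d →+* Polynomial (P d)) (IL Λ)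

/-- The polynomials of degree `n` divisible by one of the products. -/
noncomputable def PF (φs : List (List (W d))) (n : ℕ) : Submodule (ZMod 2) (P d) :=
  Submodule.span (ZMod 2) {g | ∃ φ ∈ φs, ∃ m : ℕ, ∃ f ∈ Hg d m, φ.length + m = n ∧ g = pr φ * f}

/-- The sum of `k` powers of two. -/
def S2 (k N : ℕ) : Prop := ∃ e : Fin k → ℕ, N = ∑ i, 2 ^ e i

/-- The number of digits `1` in the binary expansion. -/
def al (n : ℕ) : ℕ := (Nat.digits 2 n).sum

variable {k : ℕ}

/-- The product of the forms `y i`, `i ∈ K`. -/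
noncomputable def pk (y : Fin k → W d) (K : Finset (Fin k)) : P d := ∏ i ∈ K, lf (y i)

/-- The product of the forms of the coset of `a` modulo the `y j`, `j ∈ K`. -/
noncomputable def FK (y : Fin k → W d) (K : Finset (Fin k)) (a : W d) : P d :=
  ∏ T ∈ K.powerset, lf (a + ∑ j ∈ T, y j)

/-- The list of the forms of the coset of `y i` modulo the `y j`, `j ∈ K`. -/
noncomputable def fl (y : Fin k → W d) (K : Finset (Fin k)) (i : Fin k) : List (W d) :=
  K.powerset.toList.map fun T => y i + ∑ j ∈ T, y j

/-- The lists of the cosets of the `y i`, `i ∉ K`. -/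
noncomputable def fls (y : Fin k → W d) (K : Finset (Fin k)) : List (List (W d)) :=
  Kᶜ.toList.map (fl y K)

/-! ### linear forms -/

theorem lf_add (a b : W d) : lf (a + b) = lf a + lf b := by
  simp [lf, add_mul, Finset.sum_add_distrib]

theorem lf_zero : lf (0 : W d) = 0 := by
  simp [lf]

theorem lf_smul (c : ZMod 2) (a : W d) : lf (c • a) = C c * lf a := by
  simp [lf, Finset.mul_sum, mul_assoc]

theorem lf_sum {ι : Type*} (s : Finset ι) (f : ι → W d) : lf (∑ i ∈ s, f i) = ∑ i ∈ s, lf (f i) := by
  classical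
  induction s using Finset.induction_on with
  | empty => simp [lf_zero]
  | insert a s ha ih => rw [Finset.sum_insert ha, Finset.sum_insert ha, lf_add, ih]

theorem lf_single (i : Fin d) : lf (Pi.single i 1) = X i := by
  classical
  unfold lf
  rw [Finset.sum_eq_single i]
  · simp
  · intro j _ hj
    simp [Pi.single_eq_of_ne hj]
  · simp

theorem lf_homog (a : W d) : (lf a).IsHomogeneous 1 := by
  apply IsHomogeneous.sum
  intro i _
  have := (isHomogeneous_C (Fin d) (a i)).mul (isHomogeneous_X (ZMod 2) i)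
  simpa using this

theorem lf_mem (a : W d) : lf a ∈ Hg d 1 := lf_homog a

theorem char2 : (2 : P d) = 0 := by
  have : (2 : P d) = C (2 : ZMod 2) := (map_ofNat C 2).symm
  rw [this]
  have h2 : (2 : ZMod 2) = 0 := by decide
  rw [h2, map_zero]

theorem add_self' (f : P d) : f + f = 0 := by
  rw [← two_mul, char2, zero_mul]

theorem sub_eq_add' (f g : P d) : f - g = f + g := by
  have := add_self' g
  rw [sub_eq_iff_eq_add, add_assoc, this, add_zero]

theorem sq_add (f g : P d) : (f + g) ^ 2 = f ^ 2 + g ^ 2 := by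
  ring_nf
  rw [char2]
  ring

theorem C_sq (c : ZMod 2) : (C c : P d) ^ 2 = C c := by
  rw [← map_pow]
  congr 1
  revert c
  decide

theorem totalSq_lf (a : W d) : totalSq (Fin d) (lf a) =
    Polynomial.C (lf a) + Polynomial.C (lf a ^ 2) * Polynomial.X := by
  have h1 : lf a ^ 2 = ∑ i, C (a i) * X i ^ 2 := by
    have : ∀ s : Finset (Fin d), (∑ i ∈ s, (C (a i) * X i : P d)) ^ 2 =
        ∑ i ∈ s, (C (a i) * X i ^ 2 : P d) := by
      classical
      intro s
      induction s using Finset.induction_on with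
      | empty => simp
      | insert b s hb ih =>
        rw [Finset.sum_insert hb, Finset.sum_insert hb, sq_add, ih, mul_pow, C_sq]
    exact this Finset.univ
  rw [h1]
  unfold lf
  rw [map_sum, map_sum, map_sum, Finset.sum_mul, ← Finset.sum_add_distrib]
  apply Finset.sum_congr rfl
  intro i _
  rw [map_mul, totalSq_X]
  have : totalSq (Fin d) (C (a i)) = Polynomial.C (C (a i)) := by
    simp [totalSq]
  rw [this, map_mul, map_mul]
  ring

theorem totalSq_lf' (a : W d) : totalSq (Fin d) (lf a) =
    Polynomial.C (lf a) * (1 + Polynomial.C (lf a) * Polynomial.X) := by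
  rw [totalSq_lf, sq, map_mul]
  ring

/-! ### homogeneous polynomials -/

theorem Hg_mul {m n : ℕ} {f g : P d} (hf : f ∈ Hg d m) (hg : g ∈ Hg d n) : f * g ∈ Hg d (m + n) :=
  IsHomogeneous.mul (show f.IsHomogeneous m from hf) (show g.IsHomogeneous n from hg)

theorem Hg_one : (1 : P d) ∈ Hg d 0 := isHomogeneous_one _ _

theorem Hg_pow {m : ℕ} {f : P d} (hf : f ∈ Hg d m) (e : ℕ) : f ^ e ∈ Hg d (m * e) :=
  IsHomogeneous.pow (show f.IsHomogeneous m from hf) e

theorem pr_nil : pr ([] : List (W d)) = 1 := rfl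

theorem pr_cons (a : W d) (l : List (W d)) : pr (a :: l) = lf a * pr l := by simp [pr]

theorem pr_append (l l' : List (W d)) : pr (l ++ l') = pr l * pr l' := by simp [pr]

theorem pr_mem (l : List (W d)) : pr l ∈ Hg d l.length := by
  induction l with
  | nil => exact Hg_one
  | cons a l ih =>
    rw [pr_cons, List.length_cons, add_comm]
    exact Hg_mul (lf_mem a) ih

theorem pr_fl (y : Fin k → W d) (K : Finset (Fin k)) (i : Fin k) : pr (fl y K i) = FK y K (y i) := by
  unfold pr fl FK
  rw [List.map_map, Finset.prod_map_toList]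
  rfl

theorem fl_length (y : Fin k → W d) (K : Finset (Fin k)) (i : Fin k) :
    (fl y K i).length = 2 ^ K.card := by
  simp [fl]

theorem pk_mem (y : Fin k → W d) (K : Finset (Fin k)) : pk y K ∈ Hg d K.card := by
  classical
  unfold pk
  induction K using Finset.induction_on with
  | empty => simpa using Hg_one
  | insert a s ha ih =>
    rw [Finset.prod_insert ha, Finset.card_insert_of_notMem ha, add_comm]
    exact Hg_mul (lf_mem _) ih

instance Hg_fin (n : ℕ) : FiniteDimensional (ZMod 2) (Hg d n) := by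
  have h : Hg d n ≤ Submodule.span (ZMod 2)
      ((fun m : Fin d →₀ ℕ => monomial m (1 : ZMod 2)) '' {m | m.degree = n}) := by
    intro f hf
    rw [f.as_sum]
    apply Submodule.sum_mem
    intro m hm
    have h1 : m.degree = n := by
      have h0 : f.IsHomogeneous n := hf
      have := h0.degree_eq_sum_deg_support hm
      rw [Finsupp.degree_apply]
      exact this.symm
    have h2 : monomial m (coeff m f) = coeff m f • monomial m (1 : ZMod 2) := by
      rw [MvPolynomial.smul_monomial, smul_eq_mul, mul_one]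
    rw [h2]
    exact Submodule.smul_mem _ _ (Submodule.subset_span ⟨m, h1, rfl⟩)
  have hfin : ({m : Fin d →₀ ℕ | m.degree = n} : Set (Fin d →₀ ℕ)).Finite := by
    apply Set.Finite.subset (Set.finite_Iic (Finsupp.equivFunOnFinite.symm fun _ => n))
    intro m hm i
    have hm' : m.degree = n := hm
    simp only [Finsupp.equivFunOnFinite_symm_apply_apply]
    rw [← hm']
    exact Finsupp.le_degree i m
  have := FiniteDimensional.span_of_finite (ZMod 2)
    (hfin.image (fun m : Fin d →₀ ℕ => monomial m (1 : ZMod 2)))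
  exact Submodule.finiteDimensional_of_le h

/-! ### twists -/

theorem tw_nil : tw ([] : List (W d)) = 1 := rfl

theorem tw_cons (a : W d) (l : List (W d)) :
    tw (a :: l) = (1 + Polynomial.C (lf a) * Polynomial.X) * tw l := by simp [tw]

theorem tw_append (l l' : List (W d)) : tw (l ++ l') = tw l * tw l' := by simp [tw]

theorem tw_perm {l l' : List (W d)} (h : l.Perm l') : tw l = tw l' := by
  unfold tw
  exact (h.map _).prod_eq

theorem Hm_fac (a : W d) : Hm 0 (1 + Polynomial.C (lf a) * Polynomial.X) := by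
  intro k
  rcases k with _ | _ | k
  · simpa using isHomogeneous_one (Fin d) (ZMod 2)
  · simp only [zero_add, Polynomial.coeff_add, Polynomial.coeff_C_mul, Polynomial.coeff_X_one,
      mul_one, Polynomial.coeff_one]
    simpa using lf_homog a
  · simp only [Polynomial.coeff_add, Polynomial.coeff_C_mul, Polynomial.coeff_one,
      Polynomial.coeff_X]
    simpa using isHomogeneous_zero _ _ _

theorem Hm_tw (l : List (W d)) : Hm 0 (tw l) := by
  induction l with
  | nil => exact Hm.one
  | cons a l ih =>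
    rw [tw_cons]
    simpa using (Hm_fac a).mul ih

theorem Hm_tw_sq (l : List (W d)) : Hm 0 (tw l ^ 2) := by
  simpa using (Hm_tw l).pow 2

theorem tw_coeff_zero (l : List (W d)) : (tw l).coeff 0 = 1 := by
  induction l with
  | nil => simp [tw]
  | cons a l ih =>
    rw [tw_cons, Polynomial.mul_coeff_zero, ih]
    simp

theorem Hm_totalSq {m : ℕ} {f : P d} (hf : f ∈ Hg d m) : Hm m (totalSq (Fin d) f) :=
  fun k => Sq_homog hf k

/-! ### twisted squares -/

theorem Sw_add (w : Polynomial (P d)) (k : ℕ) (f g : P d) :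
    Sw w k (f + g) = Sw w k f + Sw w k g := by
  simp [Sw, mul_add]

theorem Sw_zero_right (w : Polynomial (P d)) (k : ℕ) : Sw w k 0 = 0 := by
  simp [Sw]

theorem Sw_sum {ι : Type*} (w : Polynomial (P d)) (k : ℕ) (s : Finset ι) (f : ι → P d) :
    Sw w k (∑ i ∈ s, f i) = ∑ i ∈ s, Sw w k (f i) := by
  simp [Sw, Finset.mul_sum]

theorem Sw_mem {w : Polynomial (P d)} (hw : Hm 0 w) {m : ℕ} (k : ℕ) {f : P d}
    (hf : f ∈ Hg d m) : Sw w k f ∈ Hg d (m + k) := by
  have := hw.mul (Hm_totalSq hf) k
  rw [zero_add] at this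
  exact this

theorem Sw_zero {w : Polynomial (P d)} (hw : w.coeff 0 = 1) (f : P d) : Sw w 0 f = f := by
  have h := Sq_zero f
  unfold Sq at h
  rw [Sw, Polynomial.mul_coeff_zero, hw, one_mul, h]

theorem Sw_one (k : ℕ) (f : P d) : Sw 1 k f = Sq k f := by
  simp [Sw, Sq]

theorem Hn_mem {w : Polynomial (P d)} {k m n : ℕ} {f : P d} (hf : f ∈ Hg d m) (hk : 1 ≤ k)
    (hn : m + k = n) : Sw w k f ∈ Hn w n :=
  Submodule.subset_span ⟨k, m, f, hf, hk, hn, rfl⟩

theorem Ln_mem {Λ : Submodule (ZMod 2) (W d)} {a : W d} {m n : ℕ} {f : P d} (ha : a ∈ Λ)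
    (hf : f ∈ Hg d m) (hn : m + 1 = n) : lf a * f ∈ Ln Λ n :=
  Submodule.subset_span ⟨a, ha, m, f, hf, hn, rfl⟩

theorem PF_mem {φs : List (List (W d))} {φ : List (W d)} {m n : ℕ} {f : P d} (hφ : φ ∈ φs)
    (hf : f ∈ Hg d m) (hn : φ.length + m = n) : pr φ * f ∈ PF φs n :=
  Submodule.subset_span ⟨φ, hφ, m, f, hf, hn, rfl⟩

theorem Ln_mono {Λ Λ' : Submodule (ZMod 2) (W d)} (h : Λ ≤ Λ') (n : ℕ) : Ln Λ n ≤ Ln Λ' n := by
  apply Submodule.span_mono
  rintro g ⟨a, ha, m, f, hf, hn, rfl⟩
  exact ⟨a, h ha, m, f, hf, hn, rfl⟩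

end HB
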