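import Pool.Agent.HB.Stmts

/-!
# CHI: the chi trick
-/

namespace HB

open MvPolynomial Pool.Agent.Lib_helper74.Hit

variable {d : ℕ}

namespace CHI

/-! ### sums of powers of two -/

theorem s2_zero {N : ℕ} : S2 0 N ↔ N = 0 := by
  constructor
  · rintro ⟨e, rfl⟩
    simp
  · rintro rfl
    exact ⟨fun i => i.elim0, by simp⟩

theorem s2_succ {k N : ℕ} (e : ℕ) (h : S2 k N) : S2 (k + 1) (2 ^ e + N) := by
  obtain ⟨g, rfl⟩ := h
  refine ⟨Fin.cons e g, ?_⟩
  rw [Fin.sum_univ_succ]
  simp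

/-! ### powers of forms -/

theorem totalSq_pow (a : W d) (e : ℕ) : totalSq (Fin d) (lf a ^ 2 ^ e) =
    Polynomial.C (lf a ^ 2 ^ e) + Polynomial.C (lf a ^ 2 ^ (e + 1)) * Polynomial.X ^ 2 ^ e := by
  induction e with
  | zero =>
    simp only [pow_zero, pow_one, zero_add]
    exact totalSq_lf a
  | succ e ih =>
    have h2 : (2 : Polynomial (P d)) = 0 := by
      have h3 : (2 : Polynomial (P d)) = Polynomial.C (2 : P d) := (map_ofNat Polynomial.C 2).symm
      rw [h3, char2, map_zero]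
    have h1 : lf a ^ 2 ^ (e + 1) = (lf a ^ 2 ^ e) ^ 2 := by rw [← pow_mul, pow_succ]
    have h4 : lf a ^ 2 ^ (e + 1 + 1) = (lf a ^ 2 ^ (e + 1)) ^ 2 := by rw [← pow_mul, pow_succ]
    have h5 : (Polynomial.X ^ 2 ^ e : Polynomial (P d)) ^ 2 = Polynomial.X ^ 2 ^ (e + 1) := by
      rw [← pow_mul, pow_succ]
    rw [h4, ← h5]
    conv_lhs => rw [h1, map_pow, ih]
    rw [add_sq, h2, zero_mul, zero_mul, add_zero, mul_pow, ← map_pow, ← map_pow, ← h1]

theorem Sw_pow (w : Polynomial (P d)) (a : W d) (e n : ℕ) (h : P d) :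
    Sw w n (lf a ^ 2 ^ e * h) = lf a ^ 2 ^ e * Sw w n h +
      (if 2 ^ e ≤ n then lf a ^ 2 ^ (e + 1) * Sw w (n - 2 ^ e) h else 0) := by
  unfold Sw
  rw [map_mul, totalSq_pow]
  have h1 : w * ((Polynomial.C (lf a ^ 2 ^ e) + Polynomial.C (lf a ^ 2 ^ (e + 1)) *
      Polynomial.X ^ 2 ^ e) * totalSq (Fin d) h) =
      Polynomial.C (lf a ^ 2 ^ e) * (w * totalSq (Fin d) h) +
      Polynomial.C (lf a ^ 2 ^ (e + 1)) * ((w * totalSq (Fin d) h) * Polynomial.X ^ 2 ^ e) := by
    ring
  rw [h1, Polynomial.coeff_add, Polynomial.coeff_C_mul, Polynomial.coeff_C_mul,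
    Polynomial.coeff_mul_X_pow']
  split_ifs with h2
  · rfl
  · rw [mul_zero]

/-- (a) -/
theorem key (w : Polynomial (P d)) (a : W d) (m : ℕ) (h : P d) :
    lf a * Sw w m h = ∑ e ∈ Finset.range (m + 2) with 2 ^ e ≤ m + 1,
      Sw w (m + 1 - 2 ^ e) (lf a ^ 2 ^ e * h) := by
  let B : ℕ → P d := fun e => if 2 ^ e ≤ m + 1 then lf a ^ 2 ^ e * Sw w (m + 1 - 2 ^ e) h else 0
  have h1 : ∀ e, (if 2 ^ e ≤ m + 1 then Sw w (m + 1 - 2 ^ e) (lf a ^ 2 ^ e * h) else 0) =
      B (e + 1) - B e := by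
    intro e
    rw [sub_eq_add']
    by_cases h2 : 2 ^ e ≤ m + 1
    · have h3 : B e = lf a ^ 2 ^ e * Sw w (m + 1 - 2 ^ e) h := if_pos h2
      rw [if_pos h2, Sw_pow, h3, add_comm]
      refine congrArg (fun x => x + _) ?_
      by_cases h4 : 2 ^ e ≤ m + 1 - 2 ^ e
      · have h5 : 2 ^ (e + 1) ≤ m + 1 := by rw [pow_succ]; omega
        have h6 : B (e + 1) = lf a ^ 2 ^ (e + 1) * Sw w (m + 1 - 2 ^ (e + 1)) h := if_pos h5
        have h7 : m + 1 - 2 ^ e - 2 ^ e = m + 1 - 2 ^ (e + 1) := by rw [pow_succ]; omega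
        rw [if_pos h4, h6, h7]
      · have h5 : ¬ 2 ^ (e + 1) ≤ m + 1 := by rw [pow_succ]; omega
        have h6 : B (e + 1) = 0 := if_neg h5
        rw [if_neg h4, h6]
    · have h3 : B e = 0 := if_neg h2
      have h5 : ¬ 2 ^ (e + 1) ≤ m + 1 := by rw [pow_succ]; omega
      have h6 : B (e + 1) = 0 := if_neg h5
      rw [if_neg h2, h3, h6, add_zero]
  rw [Finset.sum_filter, Finset.sum_congr rfl fun e _ => h1 e, Finset.sum_range_sub]
  have h2 : ¬ 2 ^ (m + 2) ≤ m + 1 := by
    have := Nat.lt_two_pow_self (n := m + 2)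
    omega
  have h3 : B (m + 2) = 0 := if_neg h2
  have h4 : B 0 = lf a * Sw w m h := by
    have h5 : B 0 = lf a ^ 2 ^ 0 * Sw w (m + 1 - 2 ^ 0) h := if_pos (by rw [pow_zero]; omega)
    rw [h5, pow_zero, pow_one, Nat.add_sub_cancel]
  rw [h3, h4, sub_eq_add', zero_add]

/-- (b) -/
theorem mem_Hn (w : Polynomial (P d)) (κ : List (W d)) : ∀ (m p : ℕ) (h : P d), h ∈ Hg d p →
    ¬ S2 κ.length (m + κ.length) → pr κ * Sw w m h ∈ Hn w (κ.length + p + m) := by
  induction κ with
  | nil =>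
    intro m p h hh hS
    rw [List.length_nil, add_zero, s2_zero] at hS
    rw [pr_nil, one_mul, List.length_nil, zero_add]
    exact Hn_mem hh (by omega) rfl
  | cons a κ ih =>
    intro m p h hh hS
    have h1 : pr (a :: κ) * Sw w m h = pr κ * (lf a * Sw w m h) := by
      rw [pr_cons]
      ring
    rw [h1, key, Finset.mul_sum]
    apply Submodule.sum_mem
    intro e he
    rw [Finset.mem_filter] at he
    have h2 := ih (m + 1 - 2 ^ e) (2 ^ e + p) (lf a ^ 2 ^ e * h) (by
      have h3 := Hg_mul (Hg_pow (lf_mem a) (2 ^ e)) hh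
      rwa [one_mul] at h3) (by
      intro h4
      apply hS
      have h5 := s2_succ e h4
      rw [List.length_cons]
      have h6 : m + (κ.length + 1) = 2 ^ e + (m + 1 - 2 ^ e + κ.length) := by
        have := he.2
        omega
      rw [h6]
      exact h5)
    have h7 : (a :: κ).length + p + m = κ.length + (2 ^ e + p) + (m + 1 - 2 ^ e) := by
      have := he.2
      rw [List.length_cons]
      omega
    rw [h7]
    exact h2

/-! ### top coefficients -/

/-- The degree in `T` is at most `n` and the coefficient of `T ^ n` is `g`. -/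
def Tp (n : ℕ) (F : Polynomial (P d)) (g : P d) : Prop := F.natDegree ≤ n ∧ F.coeff n = g

theorem Tp.mul {m n : ℕ} {F G : Polynomial (P d)} {g h : P d} (hF : Tp m F g) (hG : Tp n G h) :
    Tp (m + n) (F * G) (g * h) := by
  refine ⟨Polynomial.natDegree_mul_le_of_le hF.1 hG.1, ?_⟩
  rw [Polynomial.coeff_mul_add_eq_of_natDegree_le hF.1 hG.1, hF.2, hG.2]

theorem Tp.one : Tp 0 (1 : Polynomial (P d)) 1 := by
  refine ⟨by simp, by simp⟩

theorem Tp.pow {m : ℕ} {F : Polynomial (P d)} {g : P d} (hF : Tp m F g) (e : ℕ) :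
    Tp (m * e) (F ^ e) (g ^ e) := by
  induction e with
  | zero => simpa using Tp.one
  | succ e ih =>
    rw [pow_succ, pow_succ, Nat.mul_succ]
    exact ih.mul hF

theorem Tp.prod {ι : Type*} (s : Finset ι) (m : ι → ℕ) (F : ι → Polynomial (P d)) (g : ι → P d)
    (h : ∀ i ∈ s, Tp (m i) (F i) (g i)) : Tp (∑ i ∈ s, m i) (∏ i ∈ s, F i) (∏ i ∈ s, g i) := by
  classical
  induction s using Finset.induction_on with
  | empty => simpa using Tp.one
  | insert a s ha ih =>
    rw [Finset.sum_insert ha, Finset.prod_insert ha, Finset.prod_insert ha]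
    exact (h a (by simp)).mul (ih fun i hi => h i (by simp [hi]))

theorem Tp.add {m : ℕ} {F G : Polynomial (P d)} {g h : P d} (hF : Tp m F g) (hG : Tp m G h) :
    Tp m (F + G) (g + h) := by
  refine ⟨Polynomial.natDegree_add_le_of_degree_le hF.1 hG.1, ?_⟩
  rw [Polynomial.coeff_add, hF.2, hG.2]

theorem natDegree_CX (a : P d) : (Polynomial.C a * Polynomial.X).natDegree ≤ 1 := by
  have h := Polynomial.natDegree_C_mul_X_pow_le a 1
  rwa [pow_one] at h

theorem Tp_fac (a : W d) : Tp 1 (1 + Polynomial.C (lf a) * Polynomial.X) (lf a) := by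
  refine ⟨?_, ?_⟩
  · refine (Polynomial.natDegree_add_le _ _).trans ?_
    rw [Polynomial.natDegree_one]
    exact max_le (by omega) (natDegree_CX _)
  · rw [Polynomial.coeff_add, Polynomial.coeff_C_mul, Polynomial.coeff_X_one, Polynomial.coeff_one]
    simp

theorem Tp_tw (l : List (W d)) : Tp l.length (tw l) (pr l) := by
  induction l with
  | nil => exact Tp.one
  | cons a l ih =>
    rw [tw_cons, pr_cons, List.length_cons, add_comm]
    exact (Tp_fac a).mul ih

theorem Tp_X (i : Fin d) : Tp 1 (totalSq (Fin d) (X i)) (X i ^ 2) := by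
  rw [totalSq_X]
  refine ⟨?_, ?_⟩
  · refine (Polynomial.natDegree_add_le _ _).trans ?_
    rw [Polynomial.natDegree_C]
    exact max_le (by omega) (natDegree_CX _)
  · rw [Polynomial.coeff_add, Polynomial.coeff_C_mul, Polynomial.coeff_X_one, Polynomial.coeff_C]
    simp

theorem Tp_monomial (s : Fin d →₀ ℕ) (c : ZMod 2) :
    Tp s.degree (totalSq (Fin d) (monomial s c)) (monomial s c ^ 2) := by
  rw [MvPolynomial.monomial_eq, map_mul, mul_pow]
  have h2 : Tp 0 (totalSq (Fin d) (C c)) (C c ^ 2) := by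
    have h3 : totalSq (Fin d) (C c) = Polynomial.C (C c) := by
      simp [totalSq]
    rw [h3, C_sq]
    refine ⟨by rw [Polynomial.natDegree_C], by rw [Polynomial.coeff_C_zero]⟩
  have h3 : Tp s.degree (totalSq (Fin d) (s.prod fun n e => X n ^ e))
      ((s.prod fun n e => X n ^ e) ^ 2) := by
    rw [Finsupp.prod, map_prod, ← Finset.prod_pow, Finsupp.degree]
    apply Tp.prod
    intro i _
    rw [map_pow, ← pow_mul, mul_comm, pow_mul]
    simpa using (Tp_X i).pow (s i)
  simpa using h2.mul h3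

theorem Tp_totalSq {m : ℕ} {f : P d} (hf : f ∈ Hg d m) : Tp m (totalSq (Fin d) f) (f ^ 2) := by
  classical
  have h0 : f.IsHomogeneous m := hf
  have key : ∀ s : Finset (Fin d →₀ ℕ), (∀ i ∈ s, i.degree = m) →
      Tp m (totalSq (Fin d) (∑ i ∈ s, monomial i (coeff i f)))
        ((∑ i ∈ s, monomial i (coeff i f)) ^ 2) := by
    intro s
    induction s using Finset.induction_on with
    | empty =>
      intro _
      rw [Finset.sum_empty, map_zero, zero_pow (by omega)]
      exact ⟨by simp, by simp⟩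
    | insert a s ha ih =>
      intro hs
      rw [Finset.sum_insert ha, map_add, sq_add]
      refine Tp.add ?_ (ih fun i hi => hs i (Finset.mem_insert_of_mem hi))
      have h1 := Tp_monomial a (coeff a f)
      rwa [hs a (Finset.mem_insert_self _ _)] at h1
  have h1 := key f.support (by
    intro i hi
    have h2 := h0.degree_eq_sum_deg_support hi
    rw [Finsupp.degree_apply]
    exact h2.symm)
  rwa [← f.as_sum] at h1

/-- (c) -/
theorem top {m : ℕ} {f : P d} (hf : f ∈ Hg d m) (l : List (W d)) :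
    Sw (tw l) (m + l.length) f = pr l * f ^ 2 := by
  rw [add_comm]
  exact ((Tp_tw l).mul (Tp_totalSq hf)).2

end CHI

theorem t_CHI : Stmt_CHI := by
  intro d κ l m f hf hS
  have h1 := CHI.mem_Hn (tw l) κ (m + l.length) m f hf (by
    intro h
    exact hS h)
  rw [CHI.top hf] at h1
  have h2 : κ.length + l.length + 2 * m = κ.length + m + (m + l.length) := by ring
  rw [h2]
  exact h1

end HB
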