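import Pool.Agent.HB.Stmts

/-!
# A bound for the hit problem: division by the forms of a list (CHO)
-/

namespace HB

open MvPolynomial Pool.Agent.Lib_helper74.Hit

namespace CHO

theorem step (h : P_PST) (d : ℕ) (v : W d) (l : List (W d)) (Λ : Submodule (ZMod 2) (W d))
    (n : ℕ) : q l Λ n ≤ q l (Λ ⊔ Submodule.span (ZMod 2) {v}) n +
      (if 1 ≤ n then q (v :: l) Λ (n - 1) else 0) := by
  have h1 := h d v l Λ n ⊥ ⊥ (by
    intro f hf
    rw [Submodule.mem_bot] at hf ⊢
    rw [hf, mul_zero])
  simp only [sup_bot_eq] at h1
  exact h1

theorem q_perm {d : ℕ} {l l' : List (W d)} (h : l.Perm l') (Λ : Submodule (ZMod 2) (W d))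
    (n : ℕ) : q l Λ n = q l' Λ n := by
  unfold q
  rw [tw_perm h]

end CHO

theorem t_CHO : Stmt_CHO := by
  intro h d o
  induction o with
  | nil =>
    intro l Λ n B _
    simp
  | cons v o' ih =>
    intro l Λ n B H
    have h1 := CHO.step h d v l Λ n
    have h2 : q l (Λ ⊔ Submodule.span (ZMod 2) {v}) n ≤ B := by
      have := H [] v n List.mem_cons_self (by simp) (by simp)
      simpa using this
    by_cases hn : 1 ≤ n
    · rw [if_pos hn] at h1
      have h3 := ih (v :: l) Λ (n - 1) B (by
        intro t v' m hv' ht htm
        have := H (t ++ [v]) v' m (List.mem_cons_of_mem _ hv')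
          (by rw [List.length_append, List.length_cons, List.length_cons, List.length_nil]; omega)
          (by rw [List.length_append, List.length_cons, List.length_nil]; omega)
        rw [List.append_assoc] at this
        exact this)
      have h4 : q (o' ++ v :: l) Λ (n - 1 - o'.length) =
          q ((v :: o') ++ l) Λ (n - (v :: o').length) := by
        rw [List.length_cons, show n - (o'.length + 1) = n - 1 - o'.length by omega]
        exact CHO.q_perm List.perm_middle Λ _
      rw [h4] at h3
      have h5 : (v :: o').length * B = o'.length * B + B := by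
        rw [List.length_cons]
        ring
      rw [h5]
      by_cases hn2 : (v :: o').length ≤ n
      · rw [if_pos hn2]
        rw [if_pos (by rw [List.length_cons] at hn2; omega)] at h3
        omega
      · rw [if_neg hn2]
        rw [if_neg (by rw [List.length_cons] at hn2; omega)] at h3
        omega
    · rw [if_neg hn] at h1
      have h5 : (v :: o').length * B = o'.length * B + B := by
        rw [List.length_cons]
        ring
      rw [h5]
      omega

end HB
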