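import Pool.Agent.HB.Stmts

/-!
# CNG: congruent twists have the same hits
-/

namespace HB

open MvPolynomial Pool.Agent.Lib_helper74.Hit

namespace CNG

variable {d : ℕ}

theorem comp_mul_lf (Λ : Submodule (ZMod 2) (W d)) (a : W d) (ha : a ∈ Λ) (h : P d) (n : ℕ) :
    homogeneousComponent n (h * lf a) ∈ Ln Λ n := by
  have h1 : h * lf a = ∑ m ∈ Finset.range (h.totalDegree + 1),
      homogeneousComponent m h * lf a := by
    rw [← Finset.sum_mul, sum_homogeneousComponent]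
  rw [h1, map_sum]
  apply Submodule.sum_mem
  intro m _
  have h2 : (homogeneousComponent m h * lf a) ∈ homogeneousSubmodule (Fin d) (ZMod 2) (m + 1) :=
    (homogeneousComponent_isHomogeneous m h).mul (lf_homog a)
  rw [homogeneousComponent_of_mem h2]
  split_ifs with h3
  · rw [mul_comm]
    exact Ln_mem ha (homogeneousComponent_isHomogeneous m h) h3.symm
  · exact Submodule.zero_mem _

theorem comp_mem (Λ : Submodule (ZMod 2) (W d)) (g : P d) (hg : g ∈ IL Λ) :
    ∀ (h : P d) (n : ℕ), homogeneousComponent n (h * g) ∈ Ln Λ n := by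
  unfold IL at hg
  refine Submodule.span_induction (p := fun g _ => ∀ (h : P d) (n : ℕ),
    homogeneousComponent n (h * g) ∈ Ln Λ n) ?_ ?_ ?_ ?_ hg
  · rintro x ⟨a, ha, rfl⟩ h n
    exact comp_mul_lf Λ a ha h n
  · intro h n
    rw [mul_zero, map_zero]
    exact Submodule.zero_mem _
  · intro x y _ _ hx hy h n
    rw [mul_add, map_add]
    exact Submodule.add_mem _ (hx h n) (hy h n)
  · intro r x _ hx h n
    rw [smul_eq_mul, ← mul_assoc]
    exact hx (h * r) n

theorem IL_hom (Λ : Submodule (ZMod 2) (W d)) (g : P d) (n : ℕ) (hg : g ∈ IL Λ)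
    (hn : g ∈ Hg d n) : g ∈ Ln Λ n := by
  have h1 := comp_mem Λ g hg 1 n
  rw [one_mul, homogeneousComponent_of_mem (show g ∈ homogeneousSubmodule (Fin d) (ZMod 2) n from hn),
    if_pos rfl] at h1
  exact h1

theorem Hn_le (Λ : Submodule (ZMod 2) (W d)) (w w' : Polynomial (P d)) (n : ℕ) (hw : Hm 0 w)
    (hw' : Hm 0 w') (h : Cg Λ w w') : Hn w n ≤ Un w' Λ n := by
  unfold Hn
  rw [Submodule.span_le]
  rintro g ⟨k, m, f, hf, hk, hn, rfl⟩
  have h1 : Sw w k f - Sw w' k f ∈ IL Λ := by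
    have h2 : (w - w') * totalSq (Fin d) f ∈
        Ideal.map (Polynomial.C : P d →+* Polynomial (P d)) (IL Λ) :=
      Ideal.mul_mem_right _ _ h
    have h3 := (Ideal.mem_map_C_iff.1 h2) k
    rw [sub_mul, Polynomial.coeff_sub] at h3
    exact h3
  have h4 : Sw w k f - Sw w' k f ∈ Hg d n := by
    rw [← hn]
    exact Submodule.sub_mem _ (Sw_mem hw k hf) (Sw_mem hw' k hf)
  have h5 := IL_hom Λ _ n h1 h4
  have h6 : Sw w k f = Sw w' k f + (Sw w k f - Sw w' k f) := by ring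
  rw [h6]
  exact Submodule.add_mem _ (Submodule.mem_sup_left (Hn_mem hf hk hn))
    (Submodule.mem_sup_right h5)

theorem Un_le (Λ : Submodule (ZMod 2) (W d)) (w w' : Polynomial (P d)) (n : ℕ) (hw : Hm 0 w)
    (hw' : Hm 0 w') (h : Cg Λ w w') : Un w Λ n ≤ Un w' Λ n :=
  sup_le (Hn_le Λ w w' n hw hw' h) le_sup_right

theorem Cg_symm (Λ : Submodule (ZMod 2) (W d)) (w w' : Polynomial (P d)) (h : Cg Λ w w') :
    Cg Λ w' w := by
  unfold Cg at h ⊢
  rw [← neg_sub]
  exact Submodule.neg_mem _ h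

end CNG

theorem t_CNG : Stmt_CNG := by
  intro d Λ w w' n hw hw' h
  exact le_antisymm (CNG.Un_le Λ w w' n hw hw' h)
    (CNG.Un_le Λ w' w n hw' hw (CNG.Cg_symm Λ w w' h))

end HB
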