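import Pool.Agent.HB.Stmts

/-!
# A bound for the hit problem: codimensions
-/

namespace HB

open MvPolynomial Pool.Agent.Lib_helper74.Hit

namespace COD

variable {d : ℕ}

theorem cod_add (M : Submodule (ZMod 2) (W d)) :
    cod M + Module.finrank (ZMod 2) M = d := by
  have h := Submodule.finrank_quotient_add_finrank M
  rw [Module.finrank_fin_fun] at h
  exact h

theorem exists_of_forall₂ {α β : Type*} {R : α → β → Prop} {l : List α} {u : List β}
    (h : List.Forall₂ R l u) : ∀ c ∈ u, ∃ a ∈ l, R a c := by
  induction h with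
  | nil => intro c hc; exact absurd hc List.not_mem_nil
  | cons h1 _ ih =>
    intro c hc
    rcases List.mem_cons.mp hc with rfl | hc
    · exact ⟨_, List.mem_cons_self, h1⟩
    · obtain ⟨a, ha, h2⟩ := ih c hc
      exact ⟨a, List.mem_cons_of_mem _ ha, h2⟩

/-- Adding the span of a finite set. -/
theorem finrank_sup_le (M : Submodule (ZMod 2) (W d)) (S : Finset (W d)) :
    Module.finrank (ZMod 2) (M ⊔ Submodule.span (ZMod 2) (S : Set (W d)) :
      Submodule (ZMod 2) (W d)) ≤ Module.finrank (ZMod 2) M + S.card := by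
  have h1 := Submodule.finrank_sup_add_finrank_inf_eq M
    (Submodule.span (ZMod 2) (S : Set (W d)))
  have h2 : Module.finrank (ZMod 2) (Submodule.span (ZMod 2) (S : Set (W d))) ≤ S.card :=
    finrank_span_finset_le_card S
  omega

theorem cod_sup_span {M : Submodule (ZMod 2) (W d)} {v : W d} (hv : v ∉ M) :
    cod (M ⊔ Submodule.span (ZMod 2) {v}) + 1 = cod M := by
  have h0 : v ≠ 0 := fun h => hv (h ▸ M.zero_mem)
  have h1 := Submodule.finrank_sup_add_finrank_inf_eq M (Submodule.span (ZMod 2) {v})
  have h2 : Module.finrank (ZMod 2) (Submodule.span (ZMod 2) {v}) = 1 := finrank_span_singleton h0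
  have h3 : M ⊓ Submodule.span (ZMod 2) {v} = ⊥ := by
    rw [eq_bot_iff]
    intro x hx
    obtain ⟨hx1, hx2⟩ := Submodule.mem_inf.mp hx
    obtain ⟨c, rfl⟩ := Submodule.mem_span_singleton.mp hx2
    by_cases hc : c = 0
    · rw [hc, zero_smul]
      exact Submodule.zero_mem _
    · exact absurd ((Submodule.smul_mem_iff M hc).mp hx1) hv
  rw [h3, h2, finrank_bot] at h1
  have h4 := cod_add M
  have h5 := cod_add (M ⊔ Submodule.span (ZMod 2) {v})
  omega

theorem exists_y (M : Submodule (ZMod 2) (W d)) :
    ∃ y : Fin (cod M) → W d, M ⊔ Submodule.span (ZMod 2) (Set.range y) = ⊤ := by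
  suffices h : ∃ y : Fin (Module.finrank (ZMod 2) (W d ⧸ M)) → W d,
      M ⊔ Submodule.span (ZMod 2) (Set.range y) = ⊤ from h
  let b := Module.finBasis (ZMod 2) (W d ⧸ M)
  have h1 : ∀ i, ∃ w : W d, M.mkQ w = b i := fun i => M.mkQ_surjective (b i)
  choose y hy using h1
  refine ⟨y, ?_⟩
  rw [← Submodule.comap_map_mkQ, Submodule.map_span, ← Set.range_comp]
  have h2 : M.mkQ ∘ y = b := funext hy
  rw [h2, b.span_eq, Submodule.comap_top]

theorem cod_fls {M : Submodule (ZMod 2) (W d)} {k : ℕ} (hk : k = cod M) (y : Fin k → W d)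
    (hy : M ⊔ Submodule.span (ZMod 2) (Set.range y) = ⊤) (K : Finset (Fin k)) (v : List (W d))
    (hv : List.Forall₂ (fun a φ => a ∈ φ) v (fls y K)) :
    cod (M ⊔ Submodule.span (ZMod 2) {a | a ∈ v}) = K.card := by
  classical
  have hset : {a | a ∈ v} = ((v.toFinset : Finset (W d)) : Set (W d)) := by
    ext a
    simp
  have hlen : v.length = k - K.card := by
    rw [hv.length_eq, fls, List.length_map, Finset.length_toList, Finset.card_compl,
      Fintype.card_fin]
  have hKk : K.card ≤ k := by
    have := K.card_le_univ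
    rwa [Fintype.card_fin] at this
  have hM := cod_add M
  rw [hset]
  have h5 := cod_add (M ⊔ Submodule.span (ZMod 2) ((v.toFinset : Finset (W d)) : Set (W d)))
  refine le_antisymm ?_ ?_
  · have h1 : (M ⊔ Submodule.span (ZMod 2) ((v.toFinset : Finset (W d)) : Set (W d))) ⊔
        Submodule.span (ZMod 2) ((K.image y : Finset (W d)) : Set (W d)) = ⊤ := by
      rw [eq_top_iff, ← hy]
      refine sup_le (le_sup_left.trans le_sup_left) ?_
      rw [Submodule.span_le]
      rintro _ ⟨i, rfl⟩
      by_cases hi : i ∈ K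
      · exact Submodule.mem_sup_right (Submodule.subset_span (by
          rw [Finset.mem_coe]
          exact Finset.mem_image_of_mem y hi))
      · have h2 : fl y K i ∈ fls y K := by
          rw [fls]
          exact List.mem_map_of_mem (by simp [hi])
        obtain ⟨a, ha, ha'⟩ := exists_of_forall₂ hv _ h2
        rw [fl, List.mem_map] at ha'
        obtain ⟨T, hT, hTa⟩ := ha'
        rw [Finset.mem_toList, Finset.mem_powerset] at hT
        have h3 : y i = a - ∑ j ∈ T, y j := by rw [← hTa, add_sub_cancel_right]
        rw [SetLike.mem_coe, h3]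
        refine Submodule.sub_mem _ ?_ (Submodule.sum_mem _ fun j hj => ?_)
        · refine Submodule.mem_sup_left (Submodule.mem_sup_right (Submodule.subset_span ?_))
          rw [Finset.mem_coe, List.mem_toFinset]
          exact ha
        · refine Submodule.mem_sup_right (Submodule.subset_span ?_)
          rw [Finset.mem_coe]
          exact Finset.mem_image_of_mem y (hT hj)
    have h2 := finrank_sup_le
      (M ⊔ Submodule.span (ZMod 2) ((v.toFinset : Finset (W d)) : Set (W d))) (K.image y)
    rw [h1, finrank_top, Module.finrank_fin_fun] at h2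
    have h3 := Finset.card_image_le (s := K) (f := y)
    omega
  · have h1 := finrank_sup_le M v.toFinset
    have h2 := v.toFinset_card_le
    omega

end COD

/-- COD: codimensions. -/
theorem t_COD : Stmt_COD := by
  intro d Λ
  refine ⟨?_, ?_, ?_, fun v hv => COD.cod_sup_span hv, COD.exists_y Λ,
    fun y hy K v hv => COD.cod_fls rfl y hy K v hv⟩
  · have := COD.cod_add Λ
    omega
  · have := COD.cod_add (⊥ : Submodule (ZMod 2) (W d))
    rwa [finrank_bot, add_zero] at this
  · intro h
    have h1 := COD.cod_add Λ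
    rw [h, zero_add] at h1
    refine Submodule.eq_top_of_finrank_eq ?_
    rw [h1, Module.finrank_fin_fun]

end HB
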