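import Pool.Agent.HB.Stmts

/-!
# A bound for the hit problem: the forms in the subspace can be dropped
-/

namespace HB

open MvPolynomial Pool.Agent.Lib_helper74.Hit

namespace DRP

variable {d : ℕ}

theorem lf_mem_map {Λ : Submodule (ZMod 2) (W d)} {a : W d} (ha : a ∈ Λ) :
    Polynomial.C (lf a) ∈ Ideal.map (Polynomial.C : P d →+* Polynomial (P d)) (IL Λ) :=
  Ideal.mem_map_of_mem _ (Ideal.subset_span ⟨a, ha, rfl⟩)

open Classical in
theorem cg_filter (Λ : Submodule (ZMod 2) (W d)) (l : List (W d)) :
    Cg Λ (tw l) (tw (l.filter fun a => a ∉ Λ)) := by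
  unfold Cg
  induction l with
  | nil => simp
  | cons a l ih =>
    by_cases ha : a ∈ Λ
    · rw [List.filter_cons_of_neg (by simpa using ha), tw_cons]
      have h : (1 + Polynomial.C (lf a) * Polynomial.X) * tw l -
          tw (l.filter fun a => a ∉ Λ) =
          (Polynomial.X * tw l) * Polynomial.C (lf a) +
            (tw l - tw (l.filter fun a => a ∉ Λ)) := by ring
      rw [h]
      exact Ideal.add_mem _ (Ideal.mul_mem_left _ _ (lf_mem_map ha)) ih
    · rw [List.filter_cons_of_pos (by simpa using ha), tw_cons, tw_cons, ← mul_sub]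
      exact Ideal.mul_mem_left _ _ ih

end DRP

/-- DRP -/
theorem t_DRP : Stmt_DRP := by
  classical
  intro hC d Λ l
  refine ⟨l.filter fun a => a ∉ Λ, List.length_filter_le _ _, ?_, ?_⟩
  · intro a ha
    simpa using (List.mem_filter.1 ha).2
  · intro n
    unfold q
    rw [hC d Λ _ _ n (Hm_tw _) (Hm_tw _) (DRP.cg_filter Λ l)]

end HB
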