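import Mathlib

/-!
# HB: Herbrand quotients and the first inequality for cyclic extensions: definitions (helper3)

`K / k` number fields, Galois, cyclic of prime power degree, `k` totally complex. `ord w x` the order of
`x ∈ Fˣ` at the prime `w`. `EU T` the group of `T`-units. `nu = N_(K/k)`, `iu` the inclusion `kˣ → Kˣ`.

Cyclic groups are given by an endomorphism `s` of an abelian group `G` (multiplicative) with `s^n = id`; all
modules are subquotients `U / V`, `V ≤ U ≤ G`.
-/

set_option autoImplicit false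

open NumberField IsDedekindDomain

namespace Pool.Agent.HB

noncomputable section

/-! ## Tate cohomology of cyclic groups -/

section
variable {G : Type} [CommGroup G]

/-- `x ↦ s x / x` -/
def DD (s : G →* G) : G →* G where
  toFun x := s x / x
  map_one' := by simp
  map_mul' x y := by rw [map_mul]; exact mul_div_mul_comm _ _ _ _

/-- `x ↦ ∏_(i < n) s^i x` -/
def NN (n : ℕ) (s : G →* G) : G →* G where
  toFun x := ∏ i ∈ Finset.range n, (⇑s)^[i] x
  map_one' := by simp [iterate_map_one]
  map_mul' x y := by simp [iterate_map_mul, Finset.prod_mul_distrib]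

/-- the order of `Ĥ⁰(U / V)` (`0` if infinite) -/
def t0 (n : ℕ) (s : G →* G) (U V : Subgroup G) : ℕ :=
  (U.map (NN n s) ⊔ V).relIndex (U ⊓ V.comap (DD s))

/-- the order of `Ĥ⁻¹(U / V)` (`0` if infinite) -/
def t1 (n : ℕ) (s : G →* G) (U V : Subgroup G) : ℕ :=
  (U.map (DD s) ⊔ V).relIndex (U ⊓ V.comap (NN n s))

/-- `U` is stable under `s` -/
def Stb (s : G →* G) (U : Subgroup G) : Prop := ∀ x ∈ U, s x ∈ U

/-- the elements fixed by `s^i` -/
def fixS (s : G →* G) (i : ℕ) : Subgroup G where
  carrier := {x | (⇑s)^[i] x = x}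
  one_mem' := by simp [iterate_map_one]
  mul_mem' := by
    intro a b ha hb
    simp only [Set.mem_ofPred_eq] at *
    rw [iterate_map_mul, ha, hb]
  inv_mem' := by
    intro a ha
    simp only [Set.mem_ofPred_eq] at *
    rw [iterate_map_inv, ha]

/-- the rank of a finitely generated subgroup -/
def rk (U : Subgroup G) : ℕ := Module.finrank ℤ (Additive U)

end

/-! ## Orders at primes, units -/

section
variable {F : Type} [Field F] [NumberField F]

/-- the order of `x` at `w` -/
def ord (w : HeightOneSpectrum (𝓞 F)) (x : Fˣ) : ℤ := -WithZero.log (w.valuation F (x : F))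

lemma val_ne (w : HeightOneSpectrum (𝓞 F)) (x : Fˣ) : w.valuation F (x : F) ≠ 0 := by
  rw [Ne, Valuation.zero_iff]; exact x.ne_zero

lemma ord_mul (w : HeightOneSpectrum (𝓞 F)) (x y : Fˣ) : ord w (x * y) = ord w x + ord w y := by
  unfold ord
  rw [Units.val_mul, map_mul, WithZero.log_mul (val_ne w x) (val_ne w y)]
  ring

@[simp] lemma ord_one (w : HeightOneSpectrum (𝓞 F)) : ord w (1 : Fˣ) = 0 := by
  have := ord_mul w (1 : Fˣ) 1
  rw [one_mul] at this
  omega

@[simp] lemma ord_inv (w : HeightOneSpectrum (𝓞 F)) (x : Fˣ) : ord w x⁻¹ = -ord w x := by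
  have := ord_mul w x x⁻¹
  rw [mul_inv_cancel, ord_one] at this
  omega

lemma ord_val (w : HeightOneSpectrum (𝓞 F)) (x : Fˣ) :
    w.valuation F (x : F) = WithZero.exp (-ord w x) := by
  unfold ord
  rw [neg_neg, WithZero.exp_log (val_ne w x)]

/-- the `T`-units -/
def EU (T : Set (HeightOneSpectrum (𝓞 F))) : Subgroup Fˣ where
  carrier := {x | ∀ w ∉ T, ord w x = 0}
  one_mem' := by intro w _; exact ord_one w
  mul_mem' := by
    intro a b ha hb w hw
    rw [ord_mul, ha w hw, hb w hw, add_zero]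
  inv_mem' := by
    intro a ha w hw
    rw [ord_inv, ha w hw, neg_zero]

/-- the primes in `T` generate the class group: every other prime is principal up to `T` -/
def GenT (T : Set (HeightOneSpectrum (𝓞 F))) : Prop :=
  ∀ w ∉ T, ∃ x : Fˣ, ord w x = 1 ∧ ∀ w' ∉ T, w' ≠ w → ord w' x = 0

/-- `F` is totally complex -/
def TC (F : Type) [Field F] [NumberField F] : Prop := ∀ v : InfinitePlace F, v.IsComplex

end

section
variable (k K : Type) [Field k] [NumberField k] [Field K] [NumberField K] [Algebra k K]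

/-- `w` lies above `v` -/
def Lies (v : HeightOneSpectrum (𝓞 k)) (w : HeightOneSpectrum (𝓞 K)) : Prop :=
  w.asIdeal.under (𝓞 k) = v.asIdeal

/-- the primes above the primes in `S` -/
def abv (S : Set (HeightOneSpectrum (𝓞 k))) : Set (HeightOneSpectrum (𝓞 K)) :=
  {w | ∃ v ∈ S, Lies k K v w}

/-- the number of primes above `v` -/
def gpr (v : HeightOneSpectrum (𝓞 k)) : ℕ := Nat.card {w : HeightOneSpectrum (𝓞 K) // Lies k K v w}

/-- the inclusion `kˣ → Kˣ` -/
def iu : kˣ →* Kˣ := Units.map (algebraMap k K : k →* K)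

/-- the norm `Kˣ → kˣ` -/
def nu : Kˣ →* kˣ := Units.map (Algebra.norm k)

/-- `v` is unramified in `K` -/
def Unr (v : HeightOneSpectrum (𝓞 k)) : Prop :=
  ∀ w : HeightOneSpectrum (𝓞 K), Lies k K v w → ∀ x : kˣ, ord w (iu k K x) = ord v x

/-- some prime above `v` has the same norm -/
def Deg1 (v : HeightOneSpectrum (𝓞 k)) : Prop :=
  ∃ w : HeightOneSpectrum (𝓞 K), Lies k K v w ∧ Ideal.absNorm w.asIdeal = Ideal.absNorm v.asIdeal

variable {k K}

/-- the automorphism `σ` on `Kˣ` -/
def su (σ : K ≃ₐ[k] K) : Kˣ →* Kˣ := Units.map ((σ : K →+* K) : K →* K)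

/-- `K / k` is cyclic of degree `n` with generator `σ` -/
structure Cyc (n : ℕ) (σ : K ≃ₐ[k] K) : Prop where
  gal : IsGalois k K
  gen : ∀ τ : K ≃ₐ[k] K, τ ∈ Subgroup.zpowers σ
  deg : Module.finrank k K = n

/-- a subgroup of `kˣ` which is a substitute for the local norm group at `v` -/
structure LocN (n : ℕ) (K : Type) [Field K] [NumberField K] [Algebra k K]
    (v : HeightOneSpectrum (𝓞 k)) (W : Subgroup kˣ) : Prop where
  nrm : ∀ z : Kˣ, nu k K z ∈ W
  opn : ∃ M : ℕ, ∀ x : kˣ, v.valuation k ((x : k) - 1) ≤ WithZero.exp (-(M : ℤ)) → x ∈ W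
  fin : W.index ≠ 0
  big : n ≤ W.index * gpr k K v

end

end

end Pool.Agent.HB
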