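import Pool.Agent.HB.Stmts

/-!
# EVN: few more forms make the twist a square
-/

namespace HB

open MvPolynomial Pool.Agent.Lib_helper74.Hit

namespace EVN

variable {d : ℕ}

theorem cg_mul {Λ : Submodule (ZMod 2) (W d)} {w w' v v' : Polynomial (P d)} (h : Cg Λ w w')
    (h' : Cg Λ v v') : Cg Λ (w * v) (w' * v') := by
  unfold Cg at *
  have e : w * v - w' * v' = (w - w') * v + w' * (v - v') := by ring
  rw [e]
  exact Ideal.add_mem _ (Ideal.mul_mem_right _ _ h) (Ideal.mul_mem_left _ _ h')

theorem cg_refl {Λ : Submodule (ZMod 2) (W d)} (w : Polynomial (P d)) : Cg Λ w w := by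
  unfold Cg
  rw [sub_self]
  exact Ideal.zero_mem _

theorem cg_fac {Λ : Submodule (ZMod 2) (W d)} {a b : W d} (h : a + b ∈ Λ) :
    Cg Λ (1 + Polynomial.C (lf b) * Polynomial.X) (1 + Polynomial.C (lf a) * Polynomial.X) := by
  unfold Cg
  have e : (1 + Polynomial.C (lf b) * Polynomial.X : Polynomial (P d)) -
      (1 + Polynomial.C (lf a) * Polynomial.X) = Polynomial.C (lf (a + b)) * Polynomial.X := by
    have h1 : lf (a + b) = lf b - lf a := by
      rw [lf_add, sub_eq_add', add_comm]
    rw [h1, map_sub]
    ring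
  rw [e]
  exact Ideal.mul_mem_right _ _ (Ideal.mem_map_of_mem _ (Ideal.subset_span ⟨a + b, h, rfl⟩))

theorem exists_pair {α : Type*} {R : α → α → Prop} : ∀ l : List α, ¬ l.Pairwise R →
    ∃ a b l1, l.Perm (a :: b :: l1) ∧ ¬ R a b := by
  intro l
  induction l with
  | nil => intro h; exact absurd List.Pairwise.nil h
  | cons x l ih =>
    intro h
    rw [List.pairwise_cons] at h
    by_cases h1 : ∀ a' ∈ l, R x a'
    · have h2 : ¬ l.Pairwise R := fun h2 => h ⟨h1, h2⟩
      obtain ⟨a, b, l1, hp, hn⟩ := ih h2
      refine ⟨a, b, x :: l1, ?_, hn⟩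
      refine (hp.cons x).trans ?_
      exact (List.Perm.swap a x (b :: l1)).trans ((List.Perm.swap b x l1).cons a)
    · push Not at h1
      obtain ⟨y, hy, hn⟩ := h1
      obtain ⟨s, t, rfl⟩ := List.append_of_mem hy
      exact ⟨x, y, s ++ t, (List.perm_middle).cons x, hn⟩

theorem card_le {Λ : Submodule (ZMod 2) (W d)} {l : List (W d)} (h0 : ∀ a ∈ l, a ∉ Λ)
    (h : l.Pairwise fun a b => a + b ∉ Λ) : l.length + 1 ≤ 2 ^ cod Λ := by
  classical
  have : Fintype (W d ⧸ Λ) := Fintype.ofFinite _
  have hc : Nat.card (W d ⧸ Λ) = 2 ^ cod Λ := by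
    unfold cod
    rw [Module.natCard_eq_pow_finrank (K := ZMod 2)]
    simp
  have hn : ((0 : W d ⧸ Λ) :: l.map Λ.mkQ).Nodup := by
    rw [List.nodup_cons]
    constructor
    · intro hm
      obtain ⟨a, ha, hz⟩ := List.mem_map.mp hm
      have : a ∈ Λ := by
        have h3 : Λ.mkQ a = 0 := hz
        rw [Submodule.mkQ_apply, Submodule.Quotient.mk_eq_zero] at h3
        exact h3
      exact h0 a ha this
    · rw [List.Nodup, List.pairwise_map]
      refine h.imp ?_
      intro a b hab he
      apply hab
      have h3 : Submodule.Quotient.mk (p := Λ) a = Submodule.Quotient.mk b := he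
      rw [Submodule.Quotient.eq] at h3
      have h4 : a + b = a - b := by
        funext i
        have : ∀ x y : ZMod 2, x + y = x - y := by decide
        exact this _ _
      rw [h4]
      exact h3
  have h5 := hn.length_le_card
  rw [← Nat.card_eq_fintype_card, hc] at h5
  simpa using h5

end EVN

open EVN

theorem t_EVN : Stmt_EVN := by
  intro d Λ l
  induction hn : l.length using Nat.strong_induction_on generalizing l with
  | _ n ih =>
    intro h0
    by_cases hp : l.Pairwise fun a b => a + b ∉ Λ
    · refine ⟨l, l, h0, h0, card_le h0 hp, by omega, ?_⟩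
      rw [tw_append, sq]
      exact cg_refl _
    · obtain ⟨a, b, l1, hperm, hab⟩ := exists_pair l hp
      rw [not_not] at hab
      have hlen : l.length = l1.length + 2 := by
        rw [hperm.length_eq]
        simp
      have h1 : ∀ c ∈ l1, c ∉ Λ := fun c hc => h0 c (hperm.mem_iff.mpr (by simp [hc]))
      obtain ⟨o, l', ho, hl', hc, he, hg⟩ := ih l1.length (by omega) l1 rfl h1
      refine ⟨o, a :: l', ho, ?_, hc, ?_, ?_⟩
      · intro c hc'
        rcases List.mem_cons.mp hc' with rfl | hc'
        · exact h0 c (hperm.mem_iff.mpr (by simp))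
        · exact hl' c hc'
      · rw [List.length_cons]
        omega
      · have e1 : tw (o ++ l) = (1 + Polynomial.C (lf a) * Polynomial.X) *
            (1 + Polynomial.C (lf b) * Polynomial.X) * tw (o ++ l1) := by
          rw [tw_append, tw_perm hperm, tw_cons, tw_cons, tw_append]
          ring
        have e2 : tw (a :: l') ^ 2 = (1 + Polynomial.C (lf a) * Polynomial.X) *
            (1 + Polynomial.C (lf a) * Polynomial.X) * tw l' ^ 2 := by
          rw [tw_cons]
          ring
        rw [e1, e2]
        exact cg_mul (cg_mul (cg_refl _) (cg_fac hab)) hg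

end HB
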