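import Pool.Agent.HB.Stmts

/-!
# The product of the forms of a coset is an additive polynomial
-/

namespace HB

open MvPolynomial

namespace FKP

variable {d k : ℕ}

theorem sum_sq {ι : Type*} (s : Finset ι) (f : ι → P d) :
    (∑ i ∈ s, f i) ^ 2 = ∑ i ∈ s, f i ^ 2 := by
  classical
  induction s using Finset.induction_on with
  | empty => simp
  | insert a s ha ih => rw [Finset.sum_insert ha, Finset.sum_insert ha, sq_add, ih]

theorem lf_add_pow (a b : W d) (n : ℕ) :
    lf (a + b) ^ 2 ^ n = lf a ^ 2 ^ n + lf b ^ 2 ^ n := by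
  induction n with
  | zero => simp [lf_add]
  | succ n ih => rw [pow_succ, pow_mul, pow_mul, pow_mul, ih, sq_add]

theorem FK_empty (y : Fin k → W d) (a : W d) : FK y ∅ a = lf a := by
  simp [FK]

theorem FK_insert (y : Fin k → W d) (s : Finset (Fin k)) (b : Fin k) (hb : b ∉ s) (a : W d) :
    FK y (insert b s) a = FK y s a * FK y s (a + y b) := by
  classical
  unfold FK
  rw [Finset.powerset_insert, Finset.prod_union, Finset.prod_image]
  · refine congrArg₂ (· * ·) rfl ?_
    apply Finset.prod_congr rfl
    intro T hT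
    have hbT : b ∉ T := fun h => hb (Finset.mem_powerset.1 hT h)
    rw [Finset.sum_insert hbT, add_assoc]
  · intro T hT T' hT' h
    have hbT : b ∉ T := fun h => hb (Finset.mem_powerset.1 hT h)
    have hbT' : b ∉ T' := fun h => hb (Finset.mem_powerset.1 hT' h)
    rw [← Finset.erase_insert hbT, ← Finset.erase_insert hbT', h]
  · rw [Finset.disjoint_left]
    intro T hT hT'
    obtain ⟨T', _, rfl⟩ := Finset.mem_image.1 hT'
    exact hb (Finset.mem_powerset.1 hT (Finset.mem_insert_self b T'))

theorem main (y : Fin k → W d) (K : Finset (Fin k)) : ∃ c : ℕ → P d,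
    (∀ n ≤ K.card, c n ∈ Hg d (2 ^ K.card - 2 ^ n)) ∧
      ∀ a, FK y K a = ∑ n ∈ Finset.range (K.card + 1), c n * lf a ^ 2 ^ n := by
  classical
  induction K using Finset.induction_on with
  | empty =>
    refine ⟨fun _ => 1, ?_, ?_⟩
    · intro n hn
      have : n = 0 := by simpa using hn
      subst this
      simpa using Hg_one
    · intro a
      rw [FK_empty]
      simp
  | insert b s hb ih =>
    obtain ⟨c, hc, hF⟩ := ih
    have hadd : ∀ a, FK y s (a + y b) = FK y s a + FK y s (y b) := by
      intro a
      rw [hF, hF a, hF (y b), ← Finset.sum_add_distrib]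
      apply Finset.sum_congr rfl
      intro n _
      rw [lf_add_pow, mul_add]
    have hFb : FK y s (y b) ∈ Hg d (2 ^ s.card) := by
      rw [hF]
      apply Submodule.sum_mem
      intro n hn
      have hn' : n ≤ s.card := Nat.lt_succ_iff.1 (Finset.mem_range.1 hn)
      have h1 := Hg_mul (hc n hn') (Hg_pow (lf_mem (y b)) (2 ^ n))
      have h2 : 2 ^ n ≤ 2 ^ s.card := Nat.pow_le_pow_right (by norm_num) hn'
      have h3 : 2 ^ s.card - 2 ^ n + 1 * 2 ^ n = 2 ^ s.card := by omega
      rwa [h3] at h1
    refine ⟨fun n => (if n = 0 then 0 else c (n - 1) ^ 2) +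
      (if n ≤ s.card then FK y s (y b) * c n else 0), ?_, ?_⟩
    · intro n hn
      rw [Finset.card_insert_of_notMem hb] at hn ⊢
      apply Submodule.add_mem
      · split_ifs with h
        · exact Submodule.zero_mem _
        · obtain ⟨m, rfl⟩ := Nat.exists_eq_succ_of_ne_zero h
          have hm : m ≤ s.card := by omega
          have h1 := Hg_pow (hc m hm) 2
          have h3 : (2 ^ s.card - 2 ^ m) * 2 = 2 ^ (s.card + 1) - 2 ^ (m + 1) := by
            rw [pow_succ, pow_succ, Nat.sub_mul]
          rw [h3] at h1
          exact h1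
      · split_ifs with h
        · have h1 := Hg_mul hFb (hc n h)
          have h2 : 2 ^ n ≤ 2 ^ s.card := Nat.pow_le_pow_right (by norm_num) h
          have h3 : 2 ^ s.card + (2 ^ s.card - 2 ^ n) = 2 ^ (s.card + 1) - 2 ^ n := by
            rw [pow_succ]
            omega
          rwa [h3] at h1
        · exact Submodule.zero_mem _
    · intro a
      rw [FK_insert y s b hb, hadd, Finset.card_insert_of_notMem hb, mul_add]
      have e1 : FK y s a * FK y s a = ∑ n ∈ Finset.range (s.card + 1 + 1),
          (if n = 0 then 0 else c (n - 1) ^ 2) * lf a ^ 2 ^ n := by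
        rw [Finset.sum_range_succ', ← sq, hF, sum_sq]
        simp only [Nat.succ_ne_zero, if_false, Nat.add_sub_cancel, if_true, zero_mul, add_zero]
        apply Finset.sum_congr rfl
        intro n _
        rw [mul_pow, pow_succ 2 n, pow_mul]
      have e2 : FK y s a * FK y s (y b) = ∑ n ∈ Finset.range (s.card + 1 + 1),
          (if n ≤ s.card then FK y s (y b) * c n else 0) * lf a ^ 2 ^ n := by
        rw [Finset.sum_range_succ]
        have h0 : ¬ (s.card + 1 ≤ s.card) := by omega
        rw [if_neg h0, zero_mul, add_zero, hF a, Finset.sum_mul]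
        apply Finset.sum_congr rfl
        intro n hn
        have hn' : n ≤ s.card := Nat.lt_succ_iff.1 (Finset.mem_range.1 hn)
        rw [if_pos hn']
        ring
      rw [e1, e2, ← Finset.sum_add_distrib]
      apply Finset.sum_congr rfl
      intro n _
      rw [add_mul]

theorem zero_of_mem (y : Fin k → W d) (K : Finset (Fin k)) (i : Fin k) (hi : i ∈ K) :
    FK y K (y i) = 0 := by
  unfold FK
  apply Finset.prod_eq_zero (i := {i})
  · rw [Finset.mem_powerset, Finset.singleton_subset_iff]
    exact hi
  · rw [Finset.sum_singleton, lf_add, add_self']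

end FKP

/-- FKP -/
theorem t_FKP : Stmt_FKP := by
  intro d k y K
  obtain ⟨c, h1, h2⟩ := FKP.main y K
  exact ⟨c, h1, h2, fun i hi => FKP.zero_of_mem y K i hi⟩

end HB
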