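import Pool.Agent.HB.StHB

/-!
# HB, module FIN: finite groups have Herbrand quotient one
-/

set_option autoImplicit false

namespace Pool.Agent.HB

namespace FIN

variable {G : Type} [CommGroup G]

lemma iter_mem {s : G →* G} {U : Subgroup G} (hU : Stb s U) {x : G} (hx : x ∈ U) (i : ℕ) :
    (⇑s)^[i] x ∈ U := by
  induction i with
  | zero => exact hx
  | succ i ih =>
    rw [Function.iterate_succ_apply']
    exact hU _ ih

lemma NN_mem {s : G →* G} {U : Subgroup G} (hU : Stb s U) (n : ℕ) {x : G} (hx : x ∈ U) :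
    NN n s x ∈ U := by
  show ∏ i ∈ Finset.range n, (⇑s)^[i] x ∈ U
  exact Subgroup.prod_mem U fun i _ => iter_mem hU hx i

lemma DD_mem {s : G →* G} {U : Subgroup G} (hU : Stb s U) {x : G} (hx : x ∈ U) : DD s x ∈ U :=
  U.div_mem (hU x hx) hx

lemma s_NN {n : ℕ} {s : G →* G} (hs : ∀ x, (⇑s)^[n] x = x) (x : G) : s (NN n s x) = NN n s x := by
  have e1 : s (NN n s x) = ∏ i ∈ Finset.range n, (⇑s)^[i + 1] x := by
    show s (∏ i ∈ Finset.range n, (⇑s)^[i] x) = _
    rw [map_prod]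
    refine Finset.prod_congr rfl fun i _ => ?_
    rw [Function.iterate_succ_apply']
  have e3 : (∏ i ∈ Finset.range n, (⇑s)^[i + 1] x) * x = (∏ i ∈ Finset.range n, (⇑s)^[i] x) * x := by
    have h1 := Finset.prod_range_succ' (fun i => (⇑s)^[i] x) n
    have h2 := Finset.prod_range_succ (fun i => (⇑s)^[i] x) n
    simp only [Function.iterate_zero, id_eq] at h1
    rw [hs x] at h2
    rw [← h1, h2]
  rw [e1]
  exact mul_right_cancel e3

lemma DD_NN {n : ℕ} {s : G →* G} (hs : ∀ x, (⇑s)^[n] x = x) (x : G) : DD s (NN n s x) = 1 := by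
  show s (NN n s x) / NN n s x = 1
  rw [s_NN hs, div_self']

lemma NN_s {n : ℕ} {s : G →* G} (hs : ∀ x, (⇑s)^[n] x = x) (x : G) : NN n s (s x) = NN n s x := by
  rw [← s_NN hs x]
  show ∏ i ∈ Finset.range n, (⇑s)^[i] (s x) = s (∏ i ∈ Finset.range n, (⇑s)^[i] x)
  rw [map_prod]
  refine Finset.prod_congr rfl fun i _ => ?_
  rw [← Function.iterate_succ_apply, Function.iterate_succ_apply']

lemma NN_DD {n : ℕ} {s : G →* G} (hs : ∀ x, (⇑s)^[n] x = x) (x : G) : NN n s (DD s x) = 1 := by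
  show NN n s (s x / x) = 1
  rw [map_div, NN_s hs, div_self']

/-- `[f U V : V] = [U : U ⊓ f⁻¹ V]` -/
lemma ix (f : G →* G) (U V : Subgroup G) :
    V.relIndex (U.map f ⊔ V) = (U ⊓ V.comap f).relIndex U := by
  rw [Subgroup.relIndex_sup_right, ← Subgroup.relIndex_comap, Subgroup.inf_relIndex_left]

end FIN

open FIN in
/-- (FIN) finite groups have Herbrand quotient `1` -/
theorem th_FIN : Sh_FIN := by
  intro G _ n s hs U V hVU hU hV hfin
  have a0 : U.map (NN n s) ⊔ V ≤ U ⊓ V.comap (DD s) := by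
    refine sup_le ?_ (le_inf hVU fun x hx => DD_mem hV hx)
    rintro _ ⟨x, hx, rfl⟩
    refine ⟨NN_mem hU n hx, ?_⟩
    show DD s (NN n s x) ∈ V
    rw [DD_NN hs]
    exact V.one_mem
  have a1 : U.map (DD s) ⊔ V ≤ U ⊓ V.comap (NN n s) := by
    refine sup_le ?_ (le_inf hVU fun x hx => NN_mem hV n hx)
    rintro _ ⟨x, hx, rfl⟩
    refine ⟨DD_mem hU hx, ?_⟩
    show NN n s (DD s x) ∈ V
    rw [NN_DD hs]
    exact V.one_mem
  have e0 : V.relIndex (U.map (NN n s) ⊔ V) * t0 n s U V *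
      (U ⊓ V.comap (DD s)).relIndex U = V.relIndex U := by
    unfold t0
    rw [Subgroup.relIndex_mul_relIndex _ _ _ le_sup_right a0,
      Subgroup.relIndex_mul_relIndex _ _ _ (le_sup_right.trans a0) inf_le_left]
  have e1 : V.relIndex (U.map (DD s) ⊔ V) * t1 n s U V *
      (U ⊓ V.comap (NN n s)).relIndex U = V.relIndex U := by
    unfold t1
    rw [Subgroup.relIndex_mul_relIndex _ _ _ le_sup_right a1,
      Subgroup.relIndex_mul_relIndex _ _ _ (le_sup_right.trans a1) inf_le_left]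
  rw [← ix (DD s) U V] at e0
  rw [← ix (NN n s) U V] at e1
  set p := V.relIndex (U.map (NN n s) ⊔ V) with hp
  set q := V.relIndex (U.map (DD s) ⊔ V) with hq
  have hp0 : p ≠ 0 := by
    intro h
    rw [h, zero_mul, zero_mul] at e0
    exact hfin e0.symm
  have hq0 : q ≠ 0 := by
    intro h
    rw [h, mul_zero] at e0
    exact hfin e0.symm
  refine ⟨?_, ?_⟩
  · have h1 : (p * q) * t0 n s U V = (p * q) * t1 n s U V := by
      calc (p * q) * t0 n s U V = p * t0 n s U V * q := by ring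
        _ = q * t1 n s U V * p := by rw [e0, e1]
        _ = (p * q) * t1 n s U V := by ring
    exact Nat.eq_of_mul_eq_mul_left (Nat.pos_of_ne_zero (mul_ne_zero hp0 hq0)) h1
  · intro h
    rw [h, mul_zero, zero_mul] at e0
    exact hfin e0.symm

end Pool.Agent.HB
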