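import Pool.Agent.HB.StHB
import Mathlib.RingTheory.DedekindDomain.Factorization
import Mathlib.RingTheory.ClassGroup.Basic

/-!
# HB: module FIQ (helper7)

The first inequality for unramified cyclic extensions of degree a power of a prime.
-/

set_option autoImplicit false

open NumberField IsDedekindDomain
open scoped nonZeroDivisors

namespace Pool.Agent.HB

section
variable {R : Type} [CommRing R] [IsDedekindDomain R]

/-- every ideal class contains an integral ideal prime to a finite set of primes -/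
theorem fiq_cls (S : Finset (HeightOneSpectrum R)) (c : ClassGroup R) :
    ∃ (a : Ideal R) (ha : a ≠ ⊥), (∀ v ∈ S, ¬ a ≤ v.asIdeal) ∧
      ClassGroup.mk0 ⟨a, mem_nonZeroDivisors_of_ne_zero ha⟩ = c := by
  classical
  obtain ⟨b, hb⟩ := ClassGroup.mk0_surjective c⁻¹
  have hb0 : (b : Ideal R) ≠ ⊥ := nonZeroDivisors.coe_ne_zero b
  rcases S.eq_empty_or_nonempty with rfl | hne
  · obtain ⟨a, ha⟩ := ClassGroup.mk0_surjective c
    exact ⟨a, nonZeroDivisors.coe_ne_zero a, by simp, ha⟩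
  set P : Ideal R := ∏ v ∈ S, v.asIdeal with hP
  have hP0 : P ≠ 0 := Finset.prod_ne_zero_iff.mpr (fun v _ => v.ne_bot)
  have hPv : ∀ v ∈ S, P ≤ v.asIdeal := fun v hv =>
    Ideal.le_of_dvd (Finset.dvd_prod_of_mem (fun v : HeightOneSpectrum R => v.asIdeal) hv)
  obtain ⟨x, hx⟩ := IsDedekindDomain.exists_sup_span_eq
    (I := (b : Ideal R) * P) (J := (b : Ideal R)) Ideal.mul_le_left (mul_ne_zero hb0 hP0)
  have hxb : (b : Ideal R) ∣ Ideal.span {x} := by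
    rw [Ideal.dvd_iff_le]
    exact le_trans le_sup_right hx.le
  obtain ⟨a, ha⟩ := hxb
  have hcop : P ⊔ a = ⊤ := by
    have h1 : (b : Ideal R) * (P ⊔ a) = (b : Ideal R) * ⊤ := by
      rw [Ideal.mul_sup, ← ha, hx, Ideal.mul_top]
    exact mul_left_cancel₀ (show (b : Ideal R) ≠ 0 from hb0) h1
  have hpr : ∀ v ∈ S, ¬ a ≤ v.asIdeal := by
    intro v hv hle
    exact v.isPrime.ne_top (top_le_iff.mp (hcop ▸ sup_le (hPv v hv) hle))
  have ha0 : a ≠ ⊥ := by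
    rintro rfl
    obtain ⟨v, hv⟩ := hne
    exact hpr v hv bot_le
  refine ⟨a, ha0, hpr, ?_⟩
  have hx0 : x ≠ 0 := by
    rintro rfl
    rw [Ideal.span_singleton_eq_bot.mpr rfl] at ha
    exact mul_ne_zero (show (b : Ideal R) ≠ 0 from hb0) ha0 ha.symm
  have h1 : ClassGroup.mk0 (b * ⟨a, mem_nonZeroDivisors_of_ne_zero ha0⟩) = 1 := by
    rw [ClassGroup.mk0_eq_one_iff]
    exact ⟨⟨x, by simpa using ha.symm⟩⟩
  rw [map_mul, hb] at h1
  exact (inv_mul_eq_one.mp h1).symm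

end

theorem th_FIQ (hSEX : Sh_SEX) (hLOU : Sh_LOU) (hNON : Sh_NON) (hPSI : Sh_PSI)
    (hORD : Sh_ORD) : Sh_FIQ := by
  intro k K _ _ _ _ _ l m σ hl hσ hTC hU
  classical
  obtain ⟨S, -, hG, hGK⟩ := hSEX k K ∅
  choose W hW hWu using fun v => hLOU k K (l ^ m) σ hσ v (hU v)
  obtain ⟨hi, hle⟩ := hNON k K l m σ hl hσ hTC S (fun v _ => hU v) hG W (fun v _ => hW v)
  set Wt : Subgroup kˣ := (⨅ v ∈ S, W v) ⊔ EU (S : Set (HeightOneSpectrum (𝓞 k))) with hWt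
  obtain ⟨-, -, hord, -, -⟩ := hORD k
  have hin : ∀ x : kˣ, (∀ v ∈ S, ord v x = 0) → x ∈ Wt := by
    intro x hx
    refine Subgroup.mem_sup_left ?_
    simp only [Subgroup.mem_iInf]
    exact fun v hv => hWu v x (hx v hv)
  have hn : ∀ z : Kˣ, nu k K z ∈ Wt := by
    intro z
    refine Subgroup.mem_sup_left ?_
    simp only [Subgroup.mem_iInf]
    exact fun v _ => (hW v).nrm z
  obtain ⟨ψ, h1, h2, h3, h4⟩ := hPSI k K (l ^ m) σ (pow_ne_zero _ hl.ne_zero) hσ S hG hGK Wt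
    le_sup_right hn
  -- the value at a principal ideal
  have hprod : ∀ a b : Ideal (𝓞 k), (∀ v ∈ S, ¬ a ≤ v.asIdeal) → (∀ v ∈ S, ¬ b ≤ v.asIdeal) →
      ∀ v ∈ S, ¬ a * b ≤ v.asIdeal := by
    intro a b ha hb v hv h
    rcases (Ideal.IsPrime.mul_le v.isPrime).mp h with h' | h'
    · exact ha v hv h'
    · exact hb v hv h'
  have hgen : ∀ (a : Ideal (𝓞 k)) (ha : a ≠ ⊥),
      ClassGroup.mk0 ⟨a, mem_nonZeroDivisors_of_ne_zero ha⟩ = 1 → (∀ v ∈ S, ¬ a ≤ v.asIdeal) →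
      ψ a = 1 := by
    intro a ha hcl hS
    rw [ClassGroup.mk0_eq_one_iff] at hcl
    obtain ⟨y, hy⟩ := hcl.principal
    have hy' : a = Ideal.span {y} := hy
    subst hy'
    have hy0 : y ≠ 0 := by
      rintro rfl
      exact ha (by simp)
    have hyk : (y : k) ≠ 0 := by
      intro h
      exact hy0 (RingOfIntegers.coe_eq_zero_iff.mp h)
    have hyv : ∀ v ∈ S, y ∉ v.asIdeal := by
      intro v hv h
      exact hS v hv ((Ideal.span_singleton_le_iff_mem _).mpr h)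
    rw [h2 (Units.mk0 (y : k) hyk) y rfl hyv]
    rw [QuotientGroup.eq_one_iff]
    refine hin _ ?_
    intro v hv
    obtain ⟨g1, g2⟩ := hord (Units.mk0 (y : k) hyk) y rfl v
    by_contra hne
    exact hyv v hv (g2.mp (lt_of_le_of_ne g1 (Ne.symm hne)))
  have hwd : ∀ (a b : Ideal (𝓞 k)) (ha : a ≠ ⊥) (hb : b ≠ ⊥),
      ClassGroup.mk0 ⟨a, mem_nonZeroDivisors_of_ne_zero ha⟩ =
        ClassGroup.mk0 ⟨b, mem_nonZeroDivisors_of_ne_zero hb⟩ →
      (∀ v ∈ S, ¬ a ≤ v.asIdeal) → (∀ v ∈ S, ¬ b ≤ v.asIdeal) → ψ a = ψ b := by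
    intro a b ha hb hab hSa hSb
    obtain ⟨c, hc, hSc, hcc⟩ := fiq_cls S
      (ClassGroup.mk0 (R := 𝓞 k) ⟨a, mem_nonZeroDivisors_of_ne_zero ha⟩)⁻¹
    have hac : a * c ≠ ⊥ := mul_ne_zero (show a ≠ 0 from ha) hc
    have hbc : b * c ≠ ⊥ := mul_ne_zero (show b ≠ 0 from hb) hc
    have e1 : ψ (a * c) = 1 := by
      refine hgen _ hac ?_ (hprod a c hSa hSc)
      have : (⟨a * c, mem_nonZeroDivisors_of_ne_zero hac⟩ : (Ideal (𝓞 k))⁰) =
        ⟨a, mem_nonZeroDivisors_of_ne_zero ha⟩ * ⟨c, mem_nonZeroDivisors_of_ne_zero hc⟩ := rfl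
      rw [this, map_mul, hcc, mul_inv_cancel]
    have e2 : ψ (b * c) = 1 := by
      refine hgen _ hbc ?_ (hprod b c hSb hSc)
      have : (⟨b * c, mem_nonZeroDivisors_of_ne_zero hbc⟩ : (Ideal (𝓞 k))⁰) =
        ⟨b, mem_nonZeroDivisors_of_ne_zero hb⟩ * ⟨c, mem_nonZeroDivisors_of_ne_zero hc⟩ := rfl
      rw [this, map_mul, hcc, ← hab, mul_inv_cancel]
    rw [h1 a c ha hc hSa hSc] at e1
    rw [h1 b c hb hc hSb hSc] at e2
    exact (mul_eq_one_iff_eq_inv.mp e1).trans (mul_eq_one_iff_eq_inv.mp e2).symm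
  choose rep rep0 repS repc using fiq_cls (R := 𝓞 k) S
  have hval : ∀ (a : Ideal (𝓞 k)) (ha : a ≠ ⊥), (∀ v ∈ S, ¬ a ≤ v.asIdeal) →
      ψ (rep (ClassGroup.mk0 ⟨a, mem_nonZeroDivisors_of_ne_zero ha⟩)) = ψ a := by
    intro a ha hSa
    exact hwd _ _ (rep0 _) ha (repc _) (repS _) hSa
  let Ψ : ClassGroup (𝓞 k) →* kˣ ⧸ Wt := MonoidHom.mk' (fun c => ψ (rep c)) (by
    intro c d
    rw [← h1 _ _ (rep0 c) (rep0 d) (repS c) (repS d)]
    have hcd : rep c * rep d ≠ ⊥ := mul_ne_zero (show rep c ≠ 0 from rep0 c) (rep0 d)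
    refine hwd _ _ (rep0 _) hcd ?_ (repS _) (hprod _ _ (repS c) (repS d))
    have : (⟨rep c * rep d, mem_nonZeroDivisors_of_ne_zero hcd⟩ : (Ideal (𝓞 k))⁰) =
        ⟨rep c, mem_nonZeroDivisors_of_ne_zero (rep0 c)⟩ *
          ⟨rep d, mem_nonZeroDivisors_of_ne_zero (rep0 d)⟩ := rfl
    rw [this, map_mul, repc, repc, repc])
  have hsur : Function.Surjective Ψ := by
    intro g
    obtain ⟨a, ha, hSa, hag⟩ := h3 g
    exact ⟨ClassGroup.mk0 ⟨a, mem_nonZeroDivisors_of_ne_zero ha⟩, (hval a ha hSa).trans hag⟩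
  refine ⟨Ψ.ker, S, ?_, ?_⟩
  · rw [Subgroup.index_ker, MonoidHom.range_eq_top.mpr hsur]
    have : Nat.card (⊤ : Subgroup (kˣ ⧸ Wt)) = Nat.card (kˣ ⧸ Wt) :=
      Nat.card_congr (Subgroup.topEquiv.toEquiv)
    rw [this]
    exact hle
  · intro v hv hd
    rw [MonoidHom.mem_ker]
    have hSv : ∀ v' ∈ S, ¬ v.asIdeal ≤ v'.asIdeal := by
      intro v' hv' hle'
      have := v.isMaximal.eq_of_le v'.isPrime.ne_top hle'
      exact hv (HeightOneSpectrum.ext this ▸ hv')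
    exact (hval v.asIdeal v.ne_bot hSv).trans (h4 v hv hd)

end Pool.Agent.HB
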