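import Pool.Agent.HB.StHB

/-!
# HB, module INV: the rank of the fixed `S`-units
-/

set_option autoImplicit false

open NumberField IsDedekindDomain

namespace Pool.Agent.HB

namespace INV

lemma rk_map {G H : Type} [CommGroup G] [CommGroup H] (f : G →* H) (hf : Function.Injective f)
    (U : Subgroup G) : rk (U.map f) = rk U := by
  unfold rk
  exact ((MulEquiv.toAdditive (U.equivMapOfInjective f hf)).toIntLinearEquiv.finrank_eq).symm

lemma lies_trans {k F K : Type} [Field k] [NumberField k] [Field F] [NumberField F] [Field K]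
    [NumberField K] [Algebra k F] [Algebra F K] [Algebra k K] [IsScalarTower k F K]
    {v : HeightOneSpectrum (𝓞 k)} {u : HeightOneSpectrum (𝓞 F)} {w : HeightOneSpectrum (𝓞 K)}
    (hu : Lies F K u w) : Lies k F v u ↔ Lies k K v w := by
  unfold Lies at *
  have h : (w.asIdeal.under (𝓞 F)).under (𝓞 k) = w.asIdeal.under (𝓞 k) := Ideal.under_under _
  rw [← hu, h]

lemma iu_inj (F K : Type) [Field F] [NumberField F] [Field K] [NumberField K] [Algebra F K] :
    Function.Injective (iu F K) := by
  intro x y h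
  apply Units.ext
  apply (algebraMap F K).injective
  exact congrArg (fun z : Kˣ => (z : K)) h

lemma su_iter {k K : Type} [Field k] [NumberField k] [Field K] [NumberField K] [Algebra k K]
    (σ : K ≃ₐ[k] K) (i : ℕ) (x : Kˣ) : (((⇑(su σ))^[i] x : Kˣ) : K) = (⇑σ)^[i] (x : K) := by
  induction i generalizing x with
  | zero => rfl
  | succ i ih =>
    rw [Function.iterate_succ_apply, Function.iterate_succ_apply, ih]
    rfl

lemma exists_fix {k K : Type} [Field k] [NumberField k] [Field K] [NumberField K] [Algebra k K]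
    (σ : K ≃ₐ[k] K) (N : ℕ) : ∃ F : IntermediateField k K, ∀ x : K, x ∈ F ↔ (⇑σ)^[N] x = x := by
  refine ⟨IntermediateField.fixedField (Subgroup.zpowers (σ ^ N)), fun x => ?_⟩
  have hco : (σ ^ N) x = (⇑σ)^[N] x := by
    rw [AlgEquiv.coe_pow]
  rw [IntermediateField.mem_fixedField_iff]
  constructor
  · intro h
    rw [← hco]
    exact h _ (Subgroup.mem_zpowers _)
  · intro h f hf
    obtain ⟨i, rfl⟩ := Subgroup.mem_zpowers_iff.1 hf
    have h1 : (σ ^ N) ∈ MulAction.stabilizer (K ≃ₐ[k] K) x := by
      rw [MulAction.mem_stabilizer_iff]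
      show (σ ^ N) x = x
      rw [hco, h]
    have h2 := Subgroup.zpow_mem _ h1 i
    rw [MulAction.mem_stabilizer_iff] at h2
    exact h2

/-- `K` over the fixed field of `σ^N` is cyclic -/
lemma cyc_top {k K : Type} [Field k] [NumberField k] [Field K] [NumberField K] [Algebra k K]
    {n : ℕ} {σ : K ≃ₐ[k] K} (hC : Cyc n σ) (N : ℕ) (F : IntermediateField k K)
    (hF : ∀ x : K, x ∈ F ↔ (⇑σ)^[N] x = x) :
    ∃ τ : K ≃ₐ[F] K, Cyc (Module.finrank F K) τ := by
  have := hC.gal
  have : FiniteDimensional k K := Module.Finite.of_restrictScalars_finite ℚ k K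
  have hco : ∀ x : K, (σ ^ N) x = (⇑σ)^[N] x := by
    intro x
    rw [AlgEquiv.coe_pow]
  have hFf : F = IntermediateField.fixedField (Subgroup.zpowers (σ ^ N)) := by
    ext x
    rw [hF, IntermediateField.mem_fixedField_iff]
    constructor
    · intro h f hf
      obtain ⟨i, rfl⟩ := Subgroup.mem_zpowers_iff.1 hf
      have h1 : (σ ^ N) ∈ MulAction.stabilizer (K ≃ₐ[k] K) x := by
        rw [MulAction.mem_stabilizer_iff]
        show (σ ^ N) x = x
        rw [hco, h]
      have h2 := Subgroup.zpow_mem _ h1 i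
      rw [MulAction.mem_stabilizer_iff] at h2
      exact h2
    · intro h
      rw [← hco]
      exact h _ (Subgroup.mem_zpowers _)
  have hfix : F.fixingSubgroup = Subgroup.zpowers (σ ^ N) := by
    rw [hFf]
    exact IntermediateField.fixingSubgroup_fixedField _
  have hmem : σ ^ N ∈ F.fixingSubgroup := by
    rw [hfix]
    exact Subgroup.mem_zpowers _
  refine ⟨IntermediateField.fixingSubgroupEquiv F ⟨σ ^ N, hmem⟩, ?_, ?_, rfl⟩
  · infer_instance
  · intro τ
    have h1 : (((IntermediateField.fixingSubgroupEquiv F).symm τ : F.fixingSubgroup) :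
        K ≃ₐ[k] K) ∈ Subgroup.zpowers (σ ^ N) := by
      rw [← hfix]
      exact Subtype.property _
    obtain ⟨i, hi⟩ := Subgroup.mem_zpowers_iff.1 h1
    refine Subgroup.mem_zpowers_iff.2 ⟨i, ?_⟩
    rw [← map_zpow]
    apply (IntermediateField.fixingSubgroupEquiv F).symm.injective
    rw [MulEquiv.symm_apply_apply]
    apply Subtype.ext
    rw [← hi]
    rfl

end INV

open INV in
/-- (INV) the rank of the fixed `S`-units -/
theorem th_INV (hSUR : Sh_SUR) (hGJ : Sh_GJ) (hPLC : Sh_PLC) (hORN : Sh_ORN) (hORG : Sh_ORG) :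
    Sh_INV := by
  classical
  intro k K _ _ _ _ _ l m σ hl hC hTC S
  obtain ⟨-, -, -, -, -, -, -, o7, o8⟩ := hORG k K (l ^ m) σ hC
  refine ⟨?_, ?_⟩
  · have hfin : (abv k K (S : Set (HeightOneSpectrum (𝓞 k)))).Finite := by
      have : abv k K (S : Set (HeightOneSpectrum (𝓞 k))) =
          ⋃ v ∈ S, {w : HeightOneSpectrum (𝓞 K) | Lies k K v w} := by
        ext w
        simp [abv]
      rw [this]
      refine Set.Finite.biUnion S.finite_toSet ?_
      intro v _
      exact Set.finite_coe_iff.1 (o7 v)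
    have h := (hSUR K hfin.toFinset).1
    rw [Set.Finite.coe_toFinset] at h
    exact h
  · intro j hj
    obtain ⟨F, hF⟩ := exists_fix σ (l ^ j)
    obtain ⟨τ, hτ⟩ := cyc_top hC _ F hF
    obtain ⟨g1, g2⟩ := hGJ k K l m σ hl hC j hj F hF
    obtain ⟨-, p2⟩ := hPLC k F hTC
    obtain ⟨-, -, -, -, r5, -⟩ := hORN F K _ τ hτ
    obtain ⟨-, -, -, -, -, q5, q6, -, -⟩ := hORG F K _ τ hτ
    have hfv : ∀ v : HeightOneSpectrum (𝓞 k),
        {u : HeightOneSpectrum (𝓞 F) | Lies k F v u}.Finite := by
      intro v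
      refine Set.finite_coe_iff.1 (Nat.finite_of_card_ne_zero ?_)
      have h1 : Nat.card {u : HeightOneSpectrum (𝓞 F) // Lies k F v u} = gpr k F v := rfl
      have h2 : min (l ^ j) (gpr k K v) ≠ 0 := by
        have h3 := (o8 v).2
        have h4 : l ^ j ≠ 0 := pow_ne_zero _ hl.ne_zero
        omega
      rw [← g2 v, ← h1] at h2
      exact h2
    have hcard : ∀ v : HeightOneSpectrum (𝓞 k), (hfv v).toFinset.card = gpr k F v := by
      intro v
      unfold gpr
      rw [← Set.ncard_eq_toFinset_card _ (hfv v)]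
      rfl
    set T : Finset (HeightOneSpectrum (𝓞 F)) := S.biUnion (fun v => (hfv v).toFinset) with hT
    have hTc : T.card = ∑ v ∈ S, min (l ^ j) (gpr k K v) := by
      rw [hT, Finset.card_biUnion]
      · refine Finset.sum_congr rfl fun v _ => ?_
        rw [hcard, g2]
      · intro v _ v' _ hne
        refine Finset.disjoint_left.2 ?_
        intro u h1 h2
        rw [Set.Finite.mem_toFinset] at h1 h2
        refine hne (HeightOneSpectrum.ext ?_)
        have h1' : u.asIdeal.under (𝓞 k) = v.asIdeal := h1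
        have h2' : u.asIdeal.under (𝓞 k) = v'.asIdeal := h2
        rw [← h1', ← h2']
    have hTa : (T : Set (HeightOneSpectrum (𝓞 F))) =
        abv k F (S : Set (HeightOneSpectrum (𝓞 k))) := by
      ext u
      simp [hT, abv]
    have hrk := (hSUR F T).2
    rw [hTa, hTc, p2, g1] at hrk
    rw [← hrk]
    congr 1
    rw [← rk_map (iu F K) (iu_inj F K)]
    congr 1
    ext x
    constructor
    · rintro ⟨hx1, hx2⟩
      have hx3 : (⇑σ)^[l ^ j] (x : K) = x := by
        rw [← su_iter]
        exact congrArg (fun z : Kˣ => (z : K)) hx2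
      have hx4 : (x : K) ∈ F := (hF _).2 hx3
      have hy0 : (⟨(x : K), hx4⟩ : F) ≠ 0 := by
        intro h
        exact x.ne_zero (congrArg Subtype.val h)
      refine ⟨Units.mk0 _ hy0, ?_, ?_⟩
      · intro u hu
        obtain ⟨w, hw⟩ := q5 u
        obtain ⟨e, he, hew⟩ := r5 u w hw
        have h1 := hew (Units.mk0 _ hy0)
        have h2 : iu F K (Units.mk0 _ hy0) = x := by
          apply Units.ext
          rfl
        have h3 : w ∉ abv k K (S : Set (HeightOneSpectrum (𝓞 k))) := by
          rintro ⟨v, hv, hvw⟩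
          exact hu ⟨v, hv, (lies_trans hw).2 hvw⟩
        rw [h2, hx1 w h3] at h1
        have h4 : (e : ℤ) ≠ 0 := by
          exact_mod_cast (by omega : e ≠ 0)
        exact (mul_eq_zero.1 h1.symm).resolve_left h4
      · apply Units.ext
        rfl
    · rintro ⟨y, hy, rfl⟩
      refine ⟨?_, ?_⟩
      · intro w hw
        obtain ⟨u, hu⟩ := q6 w
        obtain ⟨e, he, hew⟩ := r5 u w hu
        have h3 : u ∉ abv k F (S : Set (HeightOneSpectrum (𝓞 k))) := by
          rintro ⟨v, hv, hvw⟩
          exact hw ⟨v, hv, (lies_trans hu).1 hvw⟩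
        rw [hew, hy u h3, mul_zero]
      · show (⇑(su σ))^[l ^ j] (iu F K y) = iu F K y
        apply Units.ext
        rw [su_iter]
        exact (hF _).1 (y : F).2

end Pool.Agent.HB
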