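import Pool.Agent.HB.StHB

/-!
# (ORD): elementary facts on orders at primes (helper41)
-/

set_option autoImplicit false

open NumberField IsDedekindDomain

namespace Pool.Agent.HB

namespace ORDx

variable {F : Type} [Field F] [NumberField F]

lemma ord_nonneg_iff (w : HeightOneSpectrum (𝓞 F)) (x : Fˣ) :
    0 ≤ ord w x ↔ w.valuation F (x : F) ≤ 1 := by
  rw [ord_val, ← WithZero.exp_zero, WithZero.exp_le_exp]
  omega

lemma ord_pos_iff (w : HeightOneSpectrum (𝓞 F)) (x : Fˣ) :
    0 < ord w x ↔ w.valuation F (x : F) < 1 := by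
  rw [ord_val, ← WithZero.exp_zero, WithZero.exp_lt_exp]
  omega

lemma ord_zero_iff (w : HeightOneSpectrum (𝓞 F)) (x : Fˣ) :
    ord w x = 0 ↔ w.valuation F (x : F) = 1 := by
  rw [ord_val, ← WithZero.exp_zero, WithZero.exp_inj]
  omega

lemma fin_supp (x : Fˣ) : {w : HeightOneSpectrum (𝓞 F) | ord w x ≠ 0}.Finite := by
  have h1 := HeightOneSpectrum.Support.finite (𝓞 F) (x : F)
  have h2 := HeightOneSpectrum.Support.finite (𝓞 F) ((x⁻¹ : Fˣ) : F)
  refine (h1.union h2).subset ?_
  intro w hw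
  have hw' : ord w x ≠ 0 := hw
  rcases lt_or_gt_of_ne hw' with h | h
  · left
    change 1 < w.valuation F (x : F)
    rw [ord_val, ← WithZero.exp_zero, WithZero.exp_lt_exp]
    omega
  · right
    change 1 < w.valuation F ((x⁻¹ : Fˣ) : F)
    rw [ord_val, ord_inv, ← WithZero.exp_zero, WithZero.exp_lt_exp]
    omega

lemma int_iff (x : Fˣ) :
    (∀ w : HeightOneSpectrum (𝓞 F), 0 ≤ ord w x) ↔ ∃ y : 𝓞 F, (y : F) = x := by
  constructor
  · intro h
    have := HeightOneSpectrum.mem_integers_of_valuation_le_one (R := 𝓞 F) F (x : F)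
      (fun v => (ord_nonneg_iff v x).1 (h v))
    obtain ⟨y, hy⟩ := this
    exact ⟨y, hy⟩
  · rintro ⟨y, hy⟩ w
    rw [ord_nonneg_iff, ← hy]
    exact w.valuation_le_one y

lemma crt_int (T : Finset (HeightOneSpectrum (𝓞 F))) (a : HeightOneSpectrum (𝓞 F) → ℕ) :
    ∃ y : 𝓞 F, y ≠ 0 ∧ ∀ w ∈ T, w.intValuation y = WithZero.exp (-(a w : ℤ)) := by
  classical
  rcases T.eq_empty_or_nonempty with rfl | hT
  · exact ⟨1, one_ne_zero, by simp⟩
  choose p hp using fun w : HeightOneSpectrum (𝓞 F) => w.intValuation_exists_uniformizer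
  obtain ⟨y, hy⟩ := IsDedekindDomain.exists_forall_sub_mem_ideal (s := T)
    (fun w : HeightOneSpectrum (𝓞 F) => w.asIdeal) (fun w => a w + 1)
    (fun w _ => w.prime)
    (fun i _ j _ hij h => hij (HeightOneSpectrum.ext h))
    (fun w => p w ^ a w)
  have key : ∀ w ∈ T, w.intValuation y = WithZero.exp (-(a w : ℤ)) := by
    intro w hw
    have h1 := hy w hw
    have h2 : w.intValuation (y - p w ^ a w) ≤ WithZero.exp (-((a w + 1 : ℕ) : ℤ)) :=
      (w.intValuation_le_pow_iff_mem _ _).2 h1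
    have h3 : w.intValuation (p w ^ a w) = WithZero.exp (-(a w : ℤ)) := by
      rw [map_pow, hp w, ← WithZero.exp_nsmul]
      congr 1
      simp
    have h4 : w.intValuation (y - p w ^ a w) < w.intValuation (p w ^ a w) := by
      rw [h3]
      refine lt_of_le_of_lt h2 ?_
      rw [WithZero.exp_lt_exp]
      push_cast
      omega
    have h5 := Valuation.map_add_eq_of_lt_left w.intValuation h4
    rw [add_sub_cancel] at h5
    rw [h5, h3]
  refine ⟨y, ?_, key⟩
  rintro rfl
  obtain ⟨w, hw⟩ := hT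
  have := key w hw
  rw [map_zero] at this
  exact WithZero.exp_ne_zero this.symm

lemma crt (T : Finset (HeightOneSpectrum (𝓞 F))) (c : HeightOneSpectrum (𝓞 F) → ℤ) :
    ∃ x : Fˣ, ∀ w ∈ T, ord w x = c w := by
  obtain ⟨y, hy0, hy⟩ := crt_int T (fun w => (c w).toNat)
  obtain ⟨z, hz0, hz⟩ := crt_int T (fun w => (-c w).toNat)
  have hy1 : (y : F) ≠ 0 := by exact_mod_cast hy0
  have hz1 : (z : F) ≠ 0 := by exact_mod_cast hz0
  refine ⟨Units.mk0 (y : F) hy1 * (Units.mk0 (z : F) hz1)⁻¹, ?_⟩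
  intro w hw
  have e1 : ord w (Units.mk0 (y : F) hy1) = ((c w).toNat : ℤ) := by
    unfold ord
    rw [Units.val_mk0]
    have : w.valuation F (y : F) = w.intValuation y := w.valuation_of_algebraMap y
    rw [this, hy w hw, WithZero.log_exp]
    ring
  have e2 : ord w (Units.mk0 (z : F) hz1) = ((-c w).toNat : ℤ) := by
    unfold ord
    rw [Units.val_mk0]
    have : w.valuation F (z : F) = w.intValuation z := w.valuation_of_algebraMap z
    rw [this, hz w hw, WithZero.log_exp]
    ring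
  rw [ord_mul, ord_inv, e1, e2]
  omega

lemma near_one (w : HeightOneSpectrum (𝓞 F)) (x : Fˣ) (M : ℕ) (hM : 1 ≤ M)
    (h : w.valuation F ((x : F) - 1) ≤ WithZero.exp (-(M : ℤ))) : ord w x = 0 := by
  rw [ord_zero_iff]
  have h1 : w.valuation F ((x : F) - 1) < w.valuation F (1 : F) := by
    rw [map_one, ← WithZero.exp_zero]
    refine lt_of_le_of_lt h ?_
    rw [WithZero.exp_lt_exp]
    omega
  have h5 := Valuation.map_add_eq_of_lt_left (w.valuation F) h1
  rw [add_sub_cancel, map_one] at h5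
  exact h5

end ORDx

open ORDx in
theorem th_ORD : Sh_ORD := by
  intro F _ _
  refine ⟨fin_supp, int_iff, ?_, crt, near_one⟩
  intro x y hxy w
  refine ⟨?_, ?_⟩
  · rw [ord_nonneg_iff, ← hxy]
    exact w.valuation_le_one y
  · rw [ord_pos_iff, ← hxy]
    exact w.valuation_lt_one_iff_mem y

end Pool.Agent.HB
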