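import Pool.Agent.HB.H_ORN
import Pool.Agent.HB.H_ORD
import Pool.Agent.HB.H_INV

/-!
# HB, module GJ: the number of primes of an intermediate field above `v` (helper70)
-/

set_option autoImplicit false

open NumberField IsDedekindDomain

namespace Pool.Agent.HB

namespace GJ

/-- the size of an orbit -/
lemma card_orbit {α : Type} (f : α → α) (P : α → Prop) (x : α) {n : ℕ} (hn : 0 < n)
    (hx : f^[n] x = x) (hP : P x) (hst : ∀ y, P y → P (f y))
    (htr : ∀ y, P y → ∃ i : ℕ, f^[i] x = y) :
    Nat.card {y // P y} = Function.minimalPeriod f x := by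
  have hpos : 0 < Function.minimalPeriod f x :=
    Function.minimalPeriod_pos_of_mem_periodicPts ⟨n, hn, hx⟩
  have hPi : ∀ i : ℕ, P (f^[i] x) := by
    intro i
    induction i with
    | zero => exact hP
    | succ i ih =>
      rw [Function.iterate_succ_apply']
      exact hst _ ih
  have hbij : Function.Bijective (fun i : Fin (Function.minimalPeriod f x) =>
      (⟨f^[(i : ℕ)] x, hPi i⟩ : {y // P y})) := by
    constructor
    · intro i j hij
      have h1 : f^[(i : ℕ)] x = f^[(j : ℕ)] x := congrArg Subtype.val hij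
      apply Fin.ext
      exact Function.iterate_injOn_Iio_minimalPeriod i.2 j.2 h1
    · rintro ⟨y, hy⟩
      obtain ⟨i, hi⟩ := htr y hy
      refine ⟨⟨i % Function.minimalPeriod f x, Nat.mod_lt _ hpos⟩, ?_⟩
      apply Subtype.ext
      show f^[i % Function.minimalPeriod f x] x = y
      rw [Function.iterate_mod_minimalPeriod_eq, hi]
  rw [← Nat.card_congr (Equiv.ofBijective _ hbij), Nat.card_eq_fintype_card, Fintype.card_fin]

/-- the orders determine the prime -/
lemma prime_ext {F : Type} [Field F] [NumberField F] {w w' : HeightOneSpectrum (𝓞 F)}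
    (h : ∀ x : Fˣ, ord w x = ord w' x) : w = w' := by
  apply HeightOneSpectrum.ext
  ext y
  by_cases hy : y = 0
  · rw [hy]
    simp
  · have hy' : (y : F) ≠ 0 := by
      intro h0
      exact hy (RingOfIntegers.ext h0)
    have h3 := (th_ORD F).2.2.1 (Units.mk0 (y : F) hy') y rfl
    rw [← (h3 w).2, ← (h3 w').2, h]

/-- `K` over the fixed field of `σ^N` is cyclic, with the action of the generator -/
lemma cyc_top' {k K : Type} [Field k] [NumberField k] [Field K] [NumberField K] [Algebra k K]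
    {n : ℕ} {σ : K ≃ₐ[k] K} (hC : Cyc n σ) (N : ℕ) (F : IntermediateField k K)
    (hF : ∀ x : K, x ∈ F ↔ (⇑σ)^[N] x = x) :
    Module.finrank F K = orderOf (σ ^ N) ∧
    ∃ τ : K ≃ₐ[F] K, Cyc (Module.finrank F K) τ ∧ ∀ x : K, τ x = (⇑σ)^[N] x := by
  have := hC.gal
  have : FiniteDimensional k K := Module.Finite.of_restrictScalars_finite ℚ k K
  have hco : ∀ x : K, (σ ^ N) x = (⇑σ)^[N] x := by
    intro x
    rw [AlgEquiv.coe_pow]
  have hFf : F = IntermediateField.fixedField (Subgroup.zpowers (σ ^ N)) := by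
    ext x
    rw [hF, IntermediateField.mem_fixedField_iff]
    constructor
    · intro h f hf
      obtain ⟨i, rfl⟩ := Subgroup.mem_zpowers_iff.1 hf
      have h1 : (σ ^ N) ∈ MulAction.stabilizer (K ≃ₐ[k] K) x := by
        rw [MulAction.mem_stabilizer_iff]
        show (σ ^ N) x = x
        rw [hco, h]
      have h2 := Subgroup.zpow_mem _ h1 i
      rw [MulAction.mem_stabilizer_iff] at h2
      exact h2
    · intro h
      rw [← hco]
      exact h _ (Subgroup.mem_zpowers _)
  have hfix : F.fixingSubgroup = Subgroup.zpowers (σ ^ N) := by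
    rw [hFf]
    exact IntermediateField.fixingSubgroup_fixedField _
  have hmem : σ ^ N ∈ F.fixingSubgroup := by
    rw [hfix]
    exact Subgroup.mem_zpowers _
  refine ⟨?_, IntermediateField.fixingSubgroupEquiv F ⟨σ ^ N, hmem⟩, ⟨?_, ?_, rfl⟩, ?_⟩
  · have h1 := IntermediateField.finrank_fixedField_eq_card (F := k) (E := K)
      (H := Subgroup.zpowers (σ ^ N))
    rw [← hFf, Nat.card_zpowers] at h1
    exact h1
  · infer_instance
  · intro τ
    have h1 : (((IntermediateField.fixingSubgroupEquiv F).symm τ : F.fixingSubgroup) :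
        K ≃ₐ[k] K) ∈ Subgroup.zpowers (σ ^ N) := by
      rw [← hfix]
      exact Subtype.property _
    obtain ⟨i, hi⟩ := Subgroup.mem_zpowers_iff.1 h1
    refine Subgroup.mem_zpowers_iff.2 ⟨i, ?_⟩
    rw [← map_zpow]
    apply (IntermediateField.fixingSubgroupEquiv F).symm.injective
    rw [MulEquiv.symm_apply_apply]
    apply Subtype.ext
    rw [← hi]
    rfl
  · intro x
    exact hco x

end GJ

open GJ in
/-- (GJ) the number of primes of an intermediate field above `v` -/
theorem th_GJ (hORG : Sh_ORG) : Sh_GJ := by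
  classical
  intro k K _ _ _ _ _ l m σ hl hC j hj F hF
  obtain ⟨hfr, τ, hτ, hτx⟩ := cyc_top' hC (l ^ j) F hF
  have hlj : l ^ j ≠ 0 := pow_ne_zero _ hl.ne_zero
  have hFin : FiniteDimensional k K := Module.Finite.of_restrictScalars_finite ℚ k K
  have hdeg : Module.finrank k F = l ^ j := by
    have h1 : Module.finrank k F * Module.finrank F K = l ^ m := by
      rw [Module.finrank_mul_finrank, hC.deg]
    have h2 : orderOf (σ ^ (l ^ j)) = l ^ (m - j) := by
      rw [orderOf_pow' _ hlj, ORN.card_eq hC, Nat.gcd_eq_right (pow_dvd_pow l hj),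
        Nat.pow_div hj hl.pos]
    rw [hfr, h2] at h1
    have h3 : l ^ m = l ^ j * l ^ (m - j) := by
      rw [← pow_add]
      congr 1
      omega
    rw [h3] at h1
    exact Nat.eq_of_mul_eq_mul_right (pow_pos hl.pos _) h1
  refine ⟨hdeg, fun v => ?_⟩
  obtain ⟨π, p1, p2, p3, p4, p5, p6, p7, p8⟩ := hORG k K (l ^ m) σ hC
  obtain ⟨π', q1, q2, q3, q4, q5, q6, q7, q8⟩ := hORG F K _ τ hτ
  -- the permutations
  have hπi : ∀ (i : ℕ) (w : HeightOneSpectrum (𝓞 K)) (x : Kˣ),
      ord ((⇑π)^[i] w) ((⇑(su σ))^[i] x) = ord w x := by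
    intro i
    induction i with
    | zero => intro w x; rfl
    | succ i ih =>
      intro w x
      rw [Function.iterate_succ_apply', Function.iterate_succ_apply', p1, ih]
  have hsu : ∀ x : Kˣ, su τ x = (⇑(su σ))^[l ^ j] x := by
    intro x
    apply Units.ext
    rw [ORN.su_iter, ← hτx]
    rfl
  have hsur : Function.Surjective (su τ) := by
    intro y
    refine ⟨su τ.symm y, ?_⟩
    apply Units.ext
    show τ (τ.symm (y : K)) = y
    exact τ.apply_symm_apply _
  have hππ : (⇑π' : HeightOneSpectrum (𝓞 K) → HeightOneSpectrum (𝓞 K)) = (⇑π)^[l ^ j] := by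
    funext w
    apply prime_ext
    intro x
    obtain ⟨y, rfl⟩ := hsur x
    rw [q1, hsu, hπi]
  -- the size of the fibres
  have hlm : 0 < l ^ m := pow_pos hl.pos _
  have hfr0 : 0 < Module.finrank F K := by
    have h1 : Module.finrank k F * Module.finrank F K = l ^ m := by
      rw [Module.finrank_mul_finrank, hC.deg]
    rcases Nat.eq_zero_or_pos (Module.finrank F K) with h0 | h0
    · rw [h0, mul_zero] at h1
      omega
    · exact h0
  set g : ℕ := gpr k K v with hg
  have hg0 : g ≠ 0 := (p8 v).2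
  have hgd : g ∣ l ^ m := (p8 v).1
  have hmp : ∀ w : HeightOneSpectrum (𝓞 K), Lies k K v w → Function.minimalPeriod π w = g := by
    intro w hw
    have h1 := card_orbit (⇑π) (fun w' => Lies k K v w') w hlm (p4 w) hw (p2 v)
      (fun w' hw' => p3 v w w' hw hw')
    exact h1.symm
  have hfib : ∀ u : HeightOneSpectrum (𝓞 F), Lies k F v u →
      Nat.card {w : HeightOneSpectrum (𝓞 K) // Lies F K u w} = g / Nat.gcd g (l ^ j) := by
    intro u hu
    obtain ⟨w, hw⟩ := q5 u
    have hw' : Lies k K v w := (INV.lies_trans hw).1 hu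
    have h1 := card_orbit (⇑π') (fun w' => Lies F K u w') w hfr0 (q4 w) hw (q2 u)
      (fun w' hw' => q3 u w w' hw hw')
    rw [h1, hππ, Function.minimalPeriod_iterate_eq_div_gcd hlj, hmp w hw']
  -- the fibration
  have hX := p7 v
  have hbel : ∀ w : {w : HeightOneSpectrum (𝓞 K) // Lies k K v w},
      ∃ u : {u : HeightOneSpectrum (𝓞 F) // Lies k F v u}, Lies F K u.1 w.1 := by
    rintro ⟨w, hw⟩
    obtain ⟨u, hu⟩ := q6 w
    exact ⟨⟨u, (INV.lies_trans hu).2 hw⟩, hu⟩
  choose f hf using hbel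
  have hfs : Function.Surjective f := by
    rintro ⟨u, hu⟩
    obtain ⟨w, hw⟩ := q5 u
    have hw' : Lies k K v w := (INV.lies_trans hw).1 hu
    refine ⟨⟨w, hw'⟩, ?_⟩
    apply Subtype.ext
    exact ORN.lies_unique (hf ⟨w, hw'⟩) hw
  have hY : Finite {u : HeightOneSpectrum (𝓞 F) // Lies k F v u} := Finite.of_surjective f hfs
  let e : {w : HeightOneSpectrum (𝓞 K) // Lies k K v w} ≃
      (Σ u : {u : HeightOneSpectrum (𝓞 F) // Lies k F v u},
        {w : HeightOneSpectrum (𝓞 K) // Lies F K u.1 w}) :=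
    { toFun := fun w => ⟨f w, ⟨w.1, hf w⟩⟩
      invFun := fun p => ⟨p.2.1, (INV.lies_trans p.2.2).1 p.1.2⟩
      left_inv := fun w => rfl
      right_inv := by
        rintro ⟨⟨u, hu⟩, ⟨w, hw⟩⟩
        have hw' : Lies k K v w := (INV.lies_trans hw).1 hu
        have h1 : f ⟨w, hw'⟩ = ⟨u, hu⟩ := by
          apply Subtype.ext
          exact ORN.lies_unique (hf ⟨w, hw'⟩) hw
        refine Sigma.ext h1 ?_
        simp only
        have h2 : ∀ (a b : {u : HeightOneSpectrum (𝓞 F) // Lies k F v u}) (_ : a = b)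
            (ha : Lies F K a.1 w) (hb : Lies F K b.1 w),
            HEq (⟨w, ha⟩ : {w : HeightOneSpectrum (𝓞 K) // Lies F K a.1 w})
              (⟨w, hb⟩ : {w : HeightOneSpectrum (𝓞 K) // Lies F K b.1 w}) := by
          rintro a b rfl ha hb
          exact HEq.rfl
        exact h2 _ _ h1 _ _ }
  have hcard : g = gpr k F v * (g / Nat.gcd g (l ^ j)) := by
    have : Fintype {u : HeightOneSpectrum (𝓞 F) // Lies k F v u} := Fintype.ofFinite _
    have hfin : ∀ u : {u : HeightOneSpectrum (𝓞 F) // Lies k F v u},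
        Finite {w : HeightOneSpectrum (𝓞 K) // Lies F K u.1 w} := fun u => q7 u.1
    have h1 : g = Nat.card {w : HeightOneSpectrum (𝓞 K) // Lies k K v w} := rfl
    rw [Nat.card_congr e, Nat.card_sigma] at h1
    rw [Finset.sum_congr rfl fun u _ => hfib u.1 u.2, Finset.sum_const, smul_eq_mul] at h1
    have h2 : gpr k F v = (Finset.univ : Finset {u : HeightOneSpectrum (𝓞 F) // Lies k F v u}).card := by
      rw [Finset.card_univ, ← Nat.card_eq_fintype_card]
      rfl
    rw [h2]
    exact h1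
  -- conclusion
  obtain ⟨c, -, hc⟩ := (Nat.dvd_prime_pow hl).1 hgd
  have hgg : Nat.gcd g (l ^ j) = min (l ^ j) g := by
    rw [hc]
    rcases le_total c j with h | h
    · rw [Nat.gcd_eq_left (pow_dvd_pow l h), min_eq_right (Nat.pow_le_pow_right hl.pos h)]
    · rw [Nat.gcd_eq_right (pow_dvd_pow l h), min_eq_left (Nat.pow_le_pow_right hl.pos h)]
  rw [← hgg]
  have hd : Nat.gcd g (l ^ j) ∣ g := Nat.gcd_dvd_left _ _
  have hq : 0 < g / Nat.gcd g (l ^ j) :=
    Nat.div_pos (Nat.le_of_dvd (Nat.pos_of_ne_zero hg0) hd)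
      (Nat.gcd_pos_of_pos_left _ (Nat.pos_of_ne_zero hg0))
  have hgm : g = Nat.gcd g (l ^ j) * (g / Nat.gcd g (l ^ j)) := (Nat.mul_div_cancel' hd).symm
  exact Nat.eq_of_mul_eq_mul_right hq (hcard.symm.trans hgm)

end Pool.Agent.HB
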