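import Pool.Agent.HB.StHB

/-! HB, module HSU (helper11): the Herbrand quotient of the `S`-units. -/

set_option autoImplicit false

open NumberField IsDedekindDomain
open scoped nonZeroDivisors

namespace Pool.Agent.HB

private lemma hsu_min (l j c : ℕ) (hl : l.Prime) :
    min (l ^ (j + 1)) (l ^ c) =
      min (l ^ j) (l ^ c) + (l ^ (j + 1)).totient * (if j < c then 1 else 0) := by
  have h1 : (l ^ (j + 1)).totient = l ^ j * (l - 1) := Nat.totient_prime_pow_succ hl j
  have hl1 : 1 ≤ l := hl.one_lt.le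
  rw [h1]
  by_cases h : j < c
  · rw [if_pos h, mul_one, min_eq_left (Nat.pow_le_pow_right hl1 h),
      min_eq_left (Nat.pow_le_pow_right hl1 h.le)]
    obtain ⟨l', rfl⟩ : ∃ l', l = l' + 1 := ⟨l - 1, by omega⟩
    rw [Nat.add_sub_cancel, pow_succ]
    ring
  · rw [if_neg h, mul_zero, add_zero]
    have h2 : c ≤ j := not_lt.1 h
    rw [min_eq_right (Nat.pow_le_pow_right hl1 (by omega)),
      min_eq_right (Nat.pow_le_pow_right hl1 h2)]

private lemma hsu_cnt (m c : ℕ) (h : c ≤ m) :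
    ∑ j ∈ Finset.range m, (if j < c then 1 else 0) = c := by
  rw [← Finset.sum_filter, Finset.sum_const, smul_eq_mul, mul_one]
  have : Finset.filter (fun j => j < c) (Finset.range m) = Finset.range c := by
    ext j
    simp only [Finset.mem_filter, Finset.mem_range]
    omega
  rw [this, Finset.card_range]

theorem th_HSU (h1 : Sh_LAT) (h2 : Sh_INV) (h3 : Sh_ORN) (h4 : Sh_ORG) : Sh_HSU := by
  intro k K _ _ _ _ _ l m σ hl hc htc S
  obtain ⟨π, hπ1, hπ2, -, -, -, -, -, hg⟩ := h4 k K (l ^ m) σ hc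
  obtain ⟨-, -, -, hsn, -⟩ := h3 k K (l ^ m) σ hc
  obtain ⟨hfin, hrk⟩ := h2 k K l m σ hl hc htc S
  set U := EU (abv k K (S : Set (HeightOneSpectrum (𝓞 k)))) with hU
  have hst : Stb (su σ) U := by
    intro x hx w hw
    have e : ord w (su σ x) = ord (π.symm w) x := by
      rw [← hπ1 (π.symm w) x, Equiv.apply_symm_apply]
    rw [e]
    apply hx
    rintro ⟨v, hv, hl⟩
    exact hw ⟨v, hv, by simpa using hπ2 v _ hl⟩
  obtain ⟨ht0, ht1, a, ha, hm⟩ := h1 Kˣ l m (su σ) hl hsn U hst hfin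
  refine ⟨ht0, ?_⟩
  choose c hcm hce using fun v => (Nat.dvd_prime_pow hl).1 (hg v).1
  have hlpos : 0 < l := hl.pos
  set B := Fintype.card (InfinitePlace k) with hB
  have hBpos : 1 ≤ B := Fintype.card_pos
  -- the rank of the fixed units at level 0
  have hr0 : rk (U ⊓ fixS (su σ) 1) + 1 = B + S.card := by
    have := hrk 0 (Nat.zero_le m)
    rw [pow_zero] at this
    rw [this, one_mul]
    congr 1
    rw [Finset.card_eq_sum_ones]
    refine Finset.sum_congr rfl fun v _ => ?_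
    rw [hce v]
    exact min_eq_left (Nat.one_le_pow _ _ hlpos)
  -- the numbers a j
  have haj : ∀ j < m, a j = B + ∑ v ∈ S, (if j < c v then 1 else 0) := by
    intro j hj
    have e1 := hrk j hj.le
    have e2 := hrk (j + 1) hj
    have e3 := ha j hj
    have e4 : ∑ v ∈ S, min (l ^ (j + 1)) (gpr k K v) = ∑ v ∈ S, min (l ^ j) (gpr k K v) +
        (l ^ (j + 1)).totient * ∑ v ∈ S, (if j < c v then 1 else 0) := by
      rw [Finset.mul_sum, ← Finset.sum_add_distrib]
      refine Finset.sum_congr rfl fun v _ => ?_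
      rw [hce v]
      exact hsu_min l j (c v) hl
    have e5 : l ^ (j + 1) * B = l ^ j * B + (l ^ (j + 1)).totient * B := by
      rw [Nat.totient_prime_pow_succ hl j]
      obtain ⟨l', rfl⟩ : ∃ l', l = l' + 1 := ⟨l - 1, by omega⟩
      rw [Nat.add_sub_cancel, pow_succ]
      ring
    have hpos : 0 < (l ^ (j + 1)).totient := Nat.totient_pos.2 (pow_pos hlpos _)
    have e6 : (l ^ (j + 1)).totient * a j =
        (l ^ (j + 1)).totient * (B + ∑ v ∈ S, (if j < c v then 1 else 0)) := by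
      rw [mul_add]
      omega
    exact Nat.eq_of_mul_eq_mul_left hpos e6
  have hsum : ∑ j ∈ Finset.range m, a j = m * B + ∑ v ∈ S, c v := by
    rw [Finset.sum_congr rfl fun j hj => haj j (Finset.mem_range.1 hj), Finset.sum_add_distrib,
      Finset.sum_const, Finset.card_range, smul_eq_mul, Finset.sum_comm]
    congr 1
    exact Finset.sum_congr rfl fun v _ => hsu_cnt m (c v) (hcm v)
  have hprod : (∏ v ∈ S, (l ^ m / gpr k K v)) * l ^ (∑ v ∈ S, c v) = l ^ (m * S.card) := by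
    rw [← Finset.prod_pow_eq_pow_sum, ← Finset.prod_mul_distrib, pow_mul, ← Finset.prod_const]
    refine Finset.prod_congr rfl fun v _ => ?_
    rw [hce v]
    exact Nat.div_mul_cancel (pow_dvd_pow l (hcm v))
  have hkey : t0 (l ^ m) (su σ) U ⊥ * l ^ m * (l ^ (∑ v ∈ S, c v) * l ^ (m * B)) =
      (t1 (l ^ m) (su σ) U ⊥ * ∏ v ∈ S, (l ^ m / gpr k K v)) *
        (l ^ (∑ v ∈ S, c v) * l ^ (m * B)) := by
    have e7 : t0 (l ^ m) (su σ) U ⊥ * l ^ m * (l ^ (∑ v ∈ S, c v) * l ^ (m * B)) =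
        (t0 (l ^ m) (su σ) U ⊥ * l ^ (∑ j ∈ Finset.range m, a j)) * l ^ m := by
      rw [hsum, pow_add]
      ring
    have e8 : (t1 (l ^ m) (su σ) U ⊥ * ∏ v ∈ S, (l ^ m / gpr k K v)) *
        (l ^ (∑ v ∈ S, c v) * l ^ (m * B)) =
        t1 (l ^ m) (su σ) U ⊥ * (((∏ v ∈ S, (l ^ m / gpr k K v)) * l ^ (∑ v ∈ S, c v)) *
          l ^ (m * B)) := by ring
    rw [e7, e8, hm, hprod, ← pow_add, mul_assoc, ← pow_add]
    congr 2
    have : m * rk (U ⊓ fixS (su σ) 1) + m = m * (rk (U ⊓ fixS (su σ) 1) + 1) := by ring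
    rw [this, hr0]
    ring
  exact Nat.eq_of_mul_eq_mul_right (Nat.mul_pos (pow_pos hlpos _) (pow_pos hlpos _)) hkey

end Pool.Agent.HB
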