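import Pool.Agent.HB.StHB

/-!
# HB: (IXW) the index of the intersection (helper75)
-/

set_option autoImplicit false

open NumberField IsDedekindDomain
open scoped nonZeroDivisors

namespace Pool.Agent.HB

/-- two subgroups whose join is everything -/
private theorem ixw_inf {G : Type} [CommGroup G] (A B : Subgroup G) (h : A ⊔ B = ⊤) :
    (B ⊓ A).index = B.index * A.index := by
  rw [← Subgroup.relIndex_mul_index (H := B ⊓ A) (K := A) inf_le_right,
    Subgroup.inf_relIndex_right]
  congr 1
  rw [← Subgroup.relIndex_sup_right, h, Subgroup.relIndex_top_right]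

theorem th_IXW (h : Sh_WAP) : Sh_IXW := by
  classical
  intro k K _ _ _ _ _ n S W hW
  choose! M hM using fun v (hv : v ∈ S) => (hW v hv).opn
  have key : ∀ T : Finset (HeightOneSpectrum (𝓞 k)), T ⊆ S →
      (⨅ v ∈ T, W v).index = ∏ v ∈ T, (W v).index := by
    intro T
    induction T using Finset.induction_on with
    | empty =>
      intro _
      simp
    | insert v T hv ih =>
      intro hT
      have hT' : T ⊆ S := fun w hw => hT (Finset.mem_insert_of_mem hw)
      have hvS : v ∈ S := hT (Finset.mem_insert_self _ _)
      rw [Finset.prod_insert hv, ← ih hT', Finset.iInf_insert]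
      apply ixw_inf
      rw [eq_top_iff]
      intro y _
      obtain ⟨x, hx⟩ := h k (insert v T) (fun w => if w = v then y else 1) (S.sup M)
      have hle : ∀ w ∈ S, (WithZero.exp (-((S.sup M : ℕ) : ℤ)) : WithZero (Multiplicative ℤ)) ≤
          WithZero.exp (-(M w : ℤ)) := by
        intro w hw
        rw [WithZero.exp_le_exp]
        have := Finset.le_sup (f := M) hw
        have h2 : (M w : ℤ) ≤ ((S.sup M : ℕ) : ℤ) := by exact_mod_cast this
        omega
      have h1 : x ∈ ⨅ w ∈ T, W w := by
        simp only [Subgroup.mem_iInf]
        intro w hw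
        have hwv : w ≠ v := fun e => hv (e ▸ hw)
        have h3 := hx w (Finset.mem_insert_of_mem hw)
        simp only [hwv, if_false, inv_one, mul_one] at h3
        exact hM w (hT' hw) x (h3.trans (hle w (hT' hw)))
      have h2 : x * y⁻¹ ∈ W v := by
        have h3 := hx v (Finset.mem_insert_self _ _)
        simp only [if_true] at h3
        exact hM v hvS (x * y⁻¹) (h3.trans (hle v hvS))
      have e : y = x * (x * y⁻¹)⁻¹ := by
        rw [mul_inv_rev, inv_inv]
        rw [mul_comm y, ← mul_assoc, mul_inv_cancel, one_mul]
      rw [e]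
      exact mul_mem (Subgroup.mem_sup_left h1) (Subgroup.mem_sup_right (inv_mem h2))
  exact key S (Finset.Subset.refl S)

end Pool.Agent.HB
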