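import Pool.Agent.HB.StHB

/-!
# HB: (JT1) the first inequality for cyclic extensions of prime power degree (helper35)
-/

set_option autoImplicit false

open NumberField IsDedekindDomain
open scoped nonZeroDivisors

namespace Pool.Agent.HB

private theorem jt1_le_prod {R : Type} [CommRing R] [IsDedekindDomain R]
    (S : Finset (HeightOneSpectrum R)) (M : HeightOneSpectrum R → ℕ) (v : HeightOneSpectrum R)
    (hv : v ∈ S) : (∏ w ∈ S, w.asIdeal ^ (M w + 1)) ≤ v.asIdeal ^ (M v + 1) :=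
  Ideal.le_of_dvd (Finset.dvd_prod_of_mem (fun w : HeightOneSpectrum R => w.asIdeal ^ (M w + 1)) hv)

private theorem jt1_prime {R : Type} [CommRing R] [IsDedekindDomain R]
    (S : Finset (HeightOneSpectrum R)) (M : HeightOneSpectrum R → ℕ) (a : Ideal R)
    (h : IsCoprime a (∏ w ∈ S, w.asIdeal ^ (M w + 1))) : ∀ v ∈ S, ¬ a ≤ v.asIdeal := by
  intro v hv hle
  rw [Ideal.isCoprime_iff_sup_eq] at h
  have h2 : (∏ w ∈ S, w.asIdeal ^ (M w + 1)) ≤ v.asIdeal :=
    (jt1_le_prod S M v hv).trans (Ideal.pow_le_self (Nat.succ_ne_zero _))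
  have h3 := sup_le hle h2
  rw [h] at h3
  exact v.isPrime.ne_top (top_le_iff.1 h3)

private theorem jt1_coprime {R : Type} [CommRing R] [IsDedekindDomain R]
    (S : Finset (HeightOneSpectrum R)) (M : HeightOneSpectrum R → ℕ) (a : Ideal R)
    (h : ∀ v ∈ S, ¬ a ≤ v.asIdeal) : IsCoprime a (∏ w ∈ S, w.asIdeal ^ (M w + 1)) := by
  refine IsCoprime.prod_right fun v hv => IsCoprime.pow_right ?_
  rw [Ideal.isCoprime_iff_sup_eq]
  exact v.isMaximal.out.2 _ (right_lt_sup.2 (h v hv))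

private theorem jt1_cong {k : Type} [Field k] [NumberField k] (v : HeightOneSpectrum (𝓞 k))
    (M : ℕ) (x y : 𝓞 k) (x' y' : kˣ) (hx : (x : k) = x') (hy : (y : k) = y')
    (hxy : x - y ∈ v.asIdeal ^ (M + 1)) (hyv : y ∉ v.asIdeal) :
    v.valuation k (((y'⁻¹ * x' : kˣ) : k) - 1) ≤ WithZero.exp (-(M : ℤ)) := by
  have h1 : ((y'⁻¹ * x' : kˣ) : k) - 1 = ((x - y : 𝓞 k) : k) * (y' : k)⁻¹ := by
    have e : ((x - y : 𝓞 k) : k) = (x : k) - (y : k) := map_sub (algebraMap (𝓞 k) k) x y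
    rw [Units.val_mul, Units.val_inv_eq_inv_val, e, hx, hy, sub_mul,
      mul_inv_cancel₀ y'.ne_zero, mul_comm]
  have h2 : v.valuation k (y' : k) = 1 := by
    rw [← hy]
    refine le_antisymm (v.valuation_le_one y) (not_lt.1 fun hlt => hyv ?_)
    exact (v.valuation_lt_one_iff_mem y).1 hlt
  have h3 : v.valuation k ((x - y : 𝓞 k) : k) ≤ WithZero.exp (-((M + 1 : ℕ) : ℤ)) := by
    have h4 := (v.intValuation_le_pow_iff_mem (x - y) (M + 1)).2 hxy
    have h5 : v.valuation k ((x - y : 𝓞 k) : k) = v.intValuation (x - y) :=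
      v.valuation_of_algebraMap (x - y)
    rw [h5]; exact h4
  rw [h1, map_mul, map_inv₀, h2, inv_one, mul_one]
  refine h3.trans ?_
  rw [WithZero.exp_le_exp]
  push_cast
  omega

theorem th_JT1 (hRMF : Sh_RMF) (hSEX : Sh_SEX) (hLOC : Sh_LOC) (hNON : Sh_NON) (hPSI : Sh_PSI) :
    Sh_JT1 := by
  intro k K _ _ _ _ _ l m σ hl hcyc htc
  obtain ⟨S₀, hS₀⟩ := hRMF k K
  obtain ⟨S, hSS, hG1, hG2⟩ := hSEX k K S₀
  choose W hW using fun v => hLOC k K (l ^ m) σ hcyc v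
  have hU : ∀ v ∉ S, Unr k K v := fun v hv => hS₀ v fun h => hv (hSS h)
  obtain ⟨hidx, hbig⟩ := hNON k K l m σ hl hcyc htc S hU hG1 W fun v _ => hW v
  obtain ⟨ψ, hm, hx, hs, hd⟩ := hPSI k K (l ^ m) σ (pow_ne_zero _ hl.ne_zero) hcyc S hG1 hG2
    ((⨅ v ∈ S, W v) ⊔ EU (S : Set (HeightOneSpectrum (𝓞 k)))) le_sup_right fun z =>
      (le_sup_left : (⨅ v ∈ S, W v) ≤ _) (by
        rw [Subgroup.mem_iInf]
        intro v
        rw [Subgroup.mem_iInf]
        intro _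
        exact (hW v).nrm z)
  choose M hM using fun v => (hW v).opn
  have hfin : ((⨅ v ∈ S, W v) ⊔ EU (S : Set (HeightOneSpectrum (𝓞 k)))).FiniteIndex := ⟨hidx⟩
  refine ⟨∏ v ∈ S, v.asIdeal ^ (M v + 1),
    kˣ ⧸ ((⨅ v ∈ S, W v) ⊔ EU (S : Set (HeightOneSpectrum (𝓞 k)))),
    inferInstance, inferInstance, ψ, ?_, hbig, ?_, ?_, ?_, ?_⟩
  · rw [← Ideal.zero_eq_bot, Finset.prod_ne_zero_iff]
    intro v _
    exact pow_ne_zero _ v.ne_bot
  · intro a b ha hb hca hcb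
    exact hm a b ha hb (jt1_prime S M a hca) (jt1_prime S M b hcb)
  · intro x y hx0 hy0 hcx hxy
    have hxk : (x : k) ≠ 0 := by simpa using hx0
    have hyk : (y : k) ≠ 0 := by simpa using hy0
    have hxv : ∀ v ∈ S, x ∉ v.asIdeal := fun v hv hmem =>
      jt1_prime S M _ hcx v hv ((Ideal.span_singleton_le_iff_mem _).2 hmem)
    have hyv : ∀ v ∈ S, y ∉ v.asIdeal := by
      intro v hv hmem
      have h2 : x - y ∈ v.asIdeal :=
        ((jt1_le_prod S M v hv).trans (Ideal.pow_le_self (Nat.succ_ne_zero _))) hxy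
      have h3 := v.asIdeal.add_mem h2 hmem
      rw [sub_add_cancel] at h3
      exact hxv v hv h3
    rw [hx (Units.mk0 (x : k) hxk) x rfl hxv, hx (Units.mk0 (y : k) hyk) y rfl hyv]
    symm
    rw [QuotientGroup.eq]
    refine (le_sup_left : (⨅ v ∈ S, W v) ≤ _) ?_
    rw [Subgroup.mem_iInf]
    intro v
    rw [Subgroup.mem_iInf]
    intro hv
    exact hM v _ (jt1_cong v (M v) x y _ _ rfl rfl (jt1_le_prod S M v hv hxy) (hyv v hv))
  · intro g
    obtain ⟨a, ha, hp, hg⟩ := hs g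
    exact ⟨a, ha, jt1_coprime S M a hp, hg⟩
  · intro v hcop hdeg
    exact hd v (fun hv => jt1_prime S M _ hcop v hv le_rfl) hdeg

end Pool.Agent.HB
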