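import Pool.Agent.HB.StHB

/-!
# HB, module KMU: the Herbrand quotient of `Kˣ / U`, `U` the units at `v`
-/

set_option autoImplicit false

open NumberField IsDedekindDomain Function

namespace Pool.Agent.HB

noncomputable section

namespace KMU

/-- sums of a periodic function over several periods -/
lemma sum_periods (a : ℕ → ℤ) (P : ℕ) (ha : ∀ i, a (i + P) = a i) (q : ℕ) :
    ∑ i ∈ Finset.range (P * q), a i = q * ∑ i ∈ Finset.range P, a i := by
  have hm : ∀ m j, a (P * m + j) = a j := by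
    intro m
    induction m with
    | zero => intro j; rw [mul_zero, zero_add]
    | succ m ih =>
      intro j
      have h1 : P * (m + 1) + j = (P * m + j) + P := by ring
      rw [h1, ha, ih]
  induction q with
  | zero => simp
  | succ q ih =>
    rw [mul_add, mul_one, Finset.sum_range_add, ih]
    simp only [hm]
    push_cast
    ring

lemma sum_shift (a : ℕ → ℤ) (P : ℕ) (ha : a P = a 0) :
    ∑ i ∈ Finset.range P, a (i + 1) = ∑ i ∈ Finset.range P, a i := by
  have h1 := Finset.sum_range_succ a P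
  have h2 := Finset.sum_range_succ' a P
  rw [h2, ha] at h1
  linarith

variable {F : Type} [Field F] [NumberField F]

lemma ord_div (w : HeightOneSpectrum (𝓞 F)) (x y : Fˣ) : ord w (x / y) = ord w x - ord w y := by
  rw [div_eq_mul_inv, ord_mul, ord_inv, sub_eq_add_neg]

lemma ord_prod (w : HeightOneSpectrum (𝓞 F)) (n : ℕ) (x : ℕ → Fˣ) :
    ord w (∏ i ∈ Finset.range n, x i) = ∑ i ∈ Finset.range n, ord w (x i) := by
  induction n with
  | zero => simp
  | succ n ih => rw [Finset.prod_range_succ, ord_mul, ih, Finset.sum_range_succ]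

section
variable {π : Equiv.Perm (HeightOneSpectrum (𝓞 F))} {s : Fˣ →* Fˣ} {n : ℕ}

lemma ord_iter (h1 : ∀ w x, ord (π w) (s x) = ord w x) (i : ℕ) (w : HeightOneSpectrum (𝓞 F))
    (x : Fˣ) : ord ((⇑π)^[i] w) ((⇑s)^[i] x) = ord w x := by
  induction i with
  | zero => rfl
  | succ i ih => rw [iterate_succ_apply', iterate_succ_apply', h1, ih]

/-- the order of the norm -/
lemma ord_NN (h1 : ∀ w x, ord (π w) (s x) = ord w x) (hn : ∀ w, (⇑π)^[n] w = w)
    (w : HeightOneSpectrum (𝓞 F)) (x : Fˣ) :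
    ord w (NN n s x) = ∑ i ∈ Finset.range n, ord ((⇑π)^[i] w) x := by
  change ord w (∏ i ∈ Finset.range n, (⇑s)^[i] x) = _
  rw [ord_prod, ← sum_shift (fun i => ord ((⇑π)^[i] w) x) n (by simp only [hn, iterate_zero, id]),
    ← Finset.sum_range_reflect]
  refine Finset.sum_congr rfl fun i hi => ?_
  have hi' := Finset.mem_range.1 hi
  have h3 : (⇑π)^[n - 1 - i] ((⇑π)^[i + 1] w) = w := by
    rw [← iterate_add_apply]
    have : n - 1 - i + (i + 1) = n := by omega
    rw [this, hn]
  have h4 := ord_iter h1 (n - 1 - i) ((⇑π)^[i + 1] w) x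
  rw [h3] at h4
  exact h4

lemma ord_NN_shift (h1 : ∀ w x, ord (π w) (s x) = ord w x) (hn : ∀ w, (⇑π)^[n] w = w)
    (w : HeightOneSpectrum (𝓞 F)) (x : Fˣ) (j : ℕ) :
    ord ((⇑π)^[j] w) (NN n s x) = ord w (NN n s x) := by
  induction j with
  | zero => rfl
  | succ j ih =>
    rw [← ih, iterate_succ_apply', ord_NN h1 hn, ord_NN h1 hn,
      ← sum_shift (fun i => ord ((⇑π)^[i] ((⇑π)^[j] w)) x) n
        (by simp only [hn, iterate_zero, id])]
    rfl

end

end KMU

open KMU

/-- KMU. -/
theorem th_KMU (hORG : Sh_ORG) (hORD : Sh_ORD) : Sh_KMU := by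
  intro k K _ _ _ _ _ n σ hC v U hU
  classical
  obtain ⟨π, h1, h2, h3, hn, h5, -, h7, h8⟩ := hORG k K n σ hC
  obtain ⟨-, -, -, hA, -⟩ := hORD K
  obtain ⟨w₀, hw₀⟩ := h5 v
  have hfin : FiniteDimensional k K := Module.Finite.of_restrictScalars_finite ℚ k K
  have hn0 : 0 < n := by
    rw [← hC.deg]
    exact Module.finrank_pos
  set s := su σ with hs
  have hper : IsPeriodicPt (⇑π) n w₀ := hn w₀
  set P := minimalPeriod (⇑π) w₀ with hP
  have hP0 : 0 < P := hper.minimalPeriod_pos hn0
  obtain ⟨q, hq⟩ : P ∣ n := hper.minimalPeriod_dvd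
  have hq0 : q ≠ 0 := by
    rintro rfl
    omega
  have hPw : (⇑π)^[P] w₀ = w₀ := iterate_minimalPeriod
  have hX : ∀ j, Lies k K v ((⇑π)^[j] w₀) := by
    intro j
    induction j with
    | zero => exact hw₀
    | succ j ih => rw [iterate_succ_apply']; exact h2 _ _ ih
  have hXs : ∀ w, Lies k K v w → ∃ i, i < P ∧ (⇑π)^[i] w₀ = w := by
    intro w hw
    obtain ⟨i, hi⟩ := h3 v w₀ w hw₀ hw
    refine ⟨i % P, Nat.mod_lt _ hP0, ?_⟩
    rw [iterate_mod_minimalPeriod_eq]
    exact hi
  have hinj : ∀ i j, i < P → j < P → (⇑π)^[i] w₀ = (⇑π)^[j] w₀ → i = j := by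
    intro i j hi hj h
    exact (iterate_eq_iterate_iff_of_lt_minimalPeriod hi hj).1 h
  -- the number of primes
  have hg : gpr k K v = P := by
    have hb : Bijective (fun i : Fin P =>
        (⟨(⇑π)^[(i : ℕ)] w₀, hX i⟩ : {w : HeightOneSpectrum (𝓞 K) // Lies k K v w})) := by
      constructor
      · intro i j h
        exact Fin.ext (hinj i j i.2 j.2 (congrArg Subtype.val h))
      · rintro ⟨w, hw⟩
        obtain ⟨i, hi, h⟩ := hXs w hw
        exact ⟨⟨i, hi⟩, Subtype.ext h⟩
    unfold gpr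
    rw [← Nat.card_eq_of_bijective _ hb, Nat.card_eq_fintype_card, Fintype.card_fin]
  -- the order of the norm
  have hNq : ∀ x : Kˣ, ord w₀ (NN n s x) =
      q * ∑ i ∈ Finset.range P, ord ((⇑π)^[i] w₀) x := by
    intro x
    rw [ord_NN h1 hn, hq]
    refine sum_periods (fun i => ord ((⇑π)^[i] w₀) x) P (fun i => ?_) q
    simp only [iterate_add_apply, hPw]
  have hNc : ∀ (x : Kˣ) w, Lies k K v w → ord w (NN n s x) = ord w₀ (NN n s x) := by
    intro x w hw
    obtain ⟨i, -, rfl⟩ := hXs w hw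
    exact ord_NN_shift h1 hn w₀ x i
  -- constant orders
  have hcon : ∀ x : Kˣ, DD s x ∈ U → ∀ w, Lies k K v w → ord w x = ord w₀ x := by
    intro x hx w hw
    obtain ⟨i, -, rfl⟩ := hXs w hw
    clear hw
    induction i with
    | zero => rfl
    | succ i ih =>
      rw [← ih]
      have h := (hU _).1 hx ((⇑π)^[i + 1] w₀) (hX _)
      change ord _ (s x / x) = 0 at h
      rw [ord_div, iterate_succ_apply', h1] at h
      rw [iterate_succ_apply']
      linarith
  have hDU : ∀ x : Kˣ, (∀ w, Lies k K v w → ord w x = ord w₀ x) → DD s x ∈ U := by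
    intro x hx
    rw [hU]
    intro w hw
    obtain ⟨i, hi⟩ := h3 v w₀ w hw₀ hw
    have hwi : w = π ((⇑π)^[i + (n - 1)] w₀) := by
      rw [← iterate_succ_apply' (⇑π)]
      have h9 : (i + (n - 1)).succ = i + n := by omega
      rw [h9, iterate_add_apply, hn, hi]
    change ord w (s x / x) = 0
    rw [ord_div, hx w hw, hwi, h1, hx _ (hX _), sub_self]
  have hT : Set.Finite {w | Lies k K v w} := Set.finite_coe_iff.1 (h7 v)
  have happ : ∀ c : HeightOneSpectrum (𝓞 K) → ℤ, ∃ x : Kˣ, ∀ w, Lies k K v w → ord w x = c w := by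
    intro c
    obtain ⟨x, hx⟩ := hA hT.toFinset c
    exact ⟨x, fun w hw => hx w (hT.mem_toFinset.2 hw)⟩
  have hUD : ∀ x ∈ U, DD s x ∈ U := fun x hx => hDU x fun w hw => by
    rw [(hU x).1 hx w hw, (hU x).1 hx w₀ hw₀]
  refine ⟨?_, ?_⟩
  · -- `t0`
    have hqn : t0 n s ⊤ U = q := by
      unfold t0 Subgroup.relIndex
      set A : Subgroup Kˣ := ⊤ ⊓ U.comap (DD s) with hAdef
      set H : Subgroup Kˣ := (⊤ : Subgroup Kˣ).map (NN n s) ⊔ U with hH
      have hAm : ∀ x, x ∈ A ↔ DD s x ∈ U := by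
        intro x
        rw [hAdef, Subgroup.mem_inf]
        exact ⟨fun h => h.2, fun h => ⟨Subgroup.mem_top x, h⟩⟩
      have : NeZero q := ⟨hq0⟩
      let f : A →* Multiplicative (ZMod q) :=
        { toFun := fun x => Multiplicative.ofAdd ((ord w₀ (x : Kˣ) : ℤ) : ZMod q)
          map_one' := by
            rw [Subgroup.coe_one, ord_one, Int.cast_zero]
            rfl
          map_mul' := fun x y => by
            rw [Subgroup.coe_mul, ord_mul, Int.cast_add, ofAdd_add] }
      have hf : ∀ x : A, f x = 1 ↔ (q : ℤ) ∣ ord w₀ (x : Kˣ) := by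
        intro x
        rw [← ZMod.intCast_zmod_eq_zero_iff_dvd]
        exact ofAdd_eq_one
      have hker : f.ker = H.subgroupOf A := by
        ext x
        rw [MonoidHom.mem_ker, hf, Subgroup.mem_subgroupOf, hH]
        constructor
        · rintro ⟨c, hc⟩
          obtain ⟨z, hz⟩ := happ fun w => if w = w₀ then c else 0
          have hz0 : ord w₀ (NN n s z) = ord w₀ (x : Kˣ) := by
            rw [hNq, hc]
            congr 1
            rw [Finset.sum_eq_single_of_mem 0 (Finset.mem_range.2 hP0)]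
            · change ord w₀ z = c
              rw [hz w₀ hw₀, if_pos rfl]
            · intro i hi hi0
              rw [hz _ (hX i), if_neg]
              intro h
              exact hi0 (hinj i 0 (Finset.mem_range.1 hi) hP0 h)
          refine Subgroup.mem_sup.2 ⟨NN n s z, Subgroup.mem_map_of_mem _ (Subgroup.mem_top z),
            (x : Kˣ) / NN n s z, ?_, by rw [mul_div_cancel]⟩
          rw [hU]
          intro w hw
          rw [ord_div, hNc z w hw, hcon _ ((hAm _).1 x.2) w hw, hz0, sub_self]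
        · intro hx
          obtain ⟨y, hy, u, hu, hyu⟩ := Subgroup.mem_sup.1 hx
          obtain ⟨z, -, rfl⟩ := hy
          rw [← hyu, ord_mul, (hU u).1 hu w₀ hw₀, add_zero, hNq]
          exact dvd_mul_right _ _
      have hsurj : Surjective f := by
        intro c
        obtain ⟨c', hc'⟩ := ZMod.intCast_surjective (Multiplicative.toAdd c)
        obtain ⟨x, hx⟩ := happ fun _ => c'
        refine ⟨⟨x, (hAm x).2 (hDU x fun w hw => by rw [hx w hw, hx w₀ hw₀])⟩, ?_⟩
        change Multiplicative.ofAdd ((ord w₀ x : ℤ) : ZMod q) = c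
        rw [hx w₀ hw₀, hc']
        rfl
      rw [← hker, Subgroup.index_ker, MonoidHom.range_eq_top.2 hsurj]
      rw [Nat.card_congr (Subgroup.topEquiv (G := Multiplicative (ZMod q))).toEquiv]
      exact Nat.card_zmod q
    rw [hqn, hg, hq, mul_comm]
  · -- `t1`
    unfold t1
    rw [Subgroup.relIndex_eq_one]
    intro x hx
    have hx2 : NN n s x ∈ U := hx.2
    have hsum : ∑ i ∈ Finset.range P, ord ((⇑π)^[i] w₀) x = 0 := by
      have h := hNq x
      rw [(hU _).1 hx2 w₀ hw₀] at h
      have hq0' : (q : ℤ) ≠ 0 := by exact_mod_cast hq0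
      exact (mul_eq_zero.1 h.symm).resolve_left hq0'
    let F : ℕ → ℤ := fun i => -∑ j ∈ Finset.range i, ord ((⇑π)^[j + 1] w₀) x
    have hF0 : F 0 = 0 := by simp [F]
    have hFP : F P = 0 := by
      have h := sum_shift (fun i => ord ((⇑π)^[i] w₀) x) P (by simp only [hPw, iterate_zero, id])
      change -∑ j ∈ Finset.range P, ord ((⇑π)^[j + 1] w₀) x = 0
      rw [h, hsum, neg_zero]
    have hFs : ∀ i, F i - F (i + 1) = ord ((⇑π)^[i + 1] w₀) x := by
      intro i
      simp only [F]
      rw [Finset.sum_range_succ]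
      ring
    obtain ⟨y, hy⟩ := happ fun w => if h : ∃ i, i < P ∧ (⇑π)^[i] w₀ = w then F h.choose else 0
    have hy' : ∀ i, i < P → ord ((⇑π)^[i] w₀) y = F i := by
      intro i hi
      have hex : ∃ i', i' < P ∧ (⇑π)^[i'] w₀ = (⇑π)^[i] w₀ := ⟨i, hi, rfl⟩
      rw [hy _ (hX i), dif_pos hex]
      rw [hinj _ _ hex.choose_spec.1 hi hex.choose_spec.2]
    have hy'' : ∀ i, i ≤ P → ord ((⇑π)^[i] w₀) y = F i := by
      intro i hi
      rcases hi.lt_or_eq with h | rfl
      · exact hy' i h
      · rw [hPw, hFP]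
        have := hy' 0 hP0
        rw [hF0] at this
        exact this
    refine Subgroup.mem_sup.2 ⟨DD s y, Subgroup.mem_map_of_mem _ (Subgroup.mem_top y),
      x / DD s y, ?_, by rw [mul_div_cancel]⟩
    rw [hU]
    intro w hw
    obtain ⟨i, hi, hiw⟩ : ∃ i, i < P ∧ (⇑π)^[i + 1] w₀ = w := by
      obtain ⟨i, hi, rfl⟩ := hXs w hw
      rcases Nat.eq_zero_or_pos i with rfl | h0
      · refine ⟨P - 1, by omega, ?_⟩
        rw [Nat.sub_add_cancel hP0, hPw]
        rfl
      · exact ⟨i - 1, by omega, by rw [Nat.sub_add_cancel h0]⟩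
    subst hiw
    rw [ord_div]
    change _ - ord _ (s y / y) = 0
    rw [ord_div, hy'' (i + 1) hi, iterate_succ_apply', h1, hy' i hi, hFs, iterate_succ_apply',
      sub_self]

end

end Pool.Agent.HB
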