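import Pool.Agent.HB.StHB

/-!
# HB, module LAT: the Herbrand quotient of a finitely generated group with torsion (helper29)

`U₁ = U^w` with `w` the order of the torsion subgroup of `U`.
-/

set_option autoImplicit false

namespace Pool.Agent.HB

noncomputable section

namespace LAT

variable {G : Type} [CommGroup G]

/-- the inclusion as a linear map -/
def inc {A B : Subgroup G} (h : A ≤ B) : Additive A →ₗ[ℤ] Additive B :=
  (MonoidHom.toAdditive (Subgroup.inclusion h)).toIntLinearMap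

lemma inc_inj {A B : Subgroup G} (h : A ≤ B) : Function.Injective (inc h) :=
  fun _ _ hxy => Subgroup.inclusion_injective h hxy

lemma fin_mono {A B : Subgroup G} (h : A ≤ B) (hf : Module.Finite ℤ (Additive B)) :
    Module.Finite ℤ (Additive A) := by
  have : IsNoetherian ℤ (Additive B) := isNoetherian_of_isNoetherianRing_of_finite ℤ (Additive B)
  exact Module.Finite.of_injective (inc h) (inc_inj h)

lemma tors_quot {A B : Subgroup G} (h : A ≤ B) (w : ℕ) (hw : w ≠ 0) (hp : ∀ x ∈ B, x ^ w ∈ A) :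
    Module.IsTorsion ℤ (Additive B ⧸ LinearMap.range (inc h)) := by
  intro x
  obtain ⟨y, rfl⟩ := Submodule.Quotient.mk_surjective _ x
  refine ⟨⟨(w : ℤ), mem_nonZeroDivisors_of_ne_zero (by exact_mod_cast hw)⟩, ?_⟩
  show (w : ℤ) • Submodule.Quotient.mk y = (0 : Additive B ⧸ LinearMap.range (inc h))
  rw [← Submodule.Quotient.mk_smul, Submodule.Quotient.mk_eq_zero]
  refine ⟨Additive.ofMul ⟨((Additive.toMul y : B) : G) ^ w, hp _ (Additive.toMul y).2⟩, ?_⟩
  rw [natCast_zsmul]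
  rfl

lemma rk_eq {A B : Subgroup G} (h : A ≤ B) (hf : Module.Finite ℤ (Additive B)) (w : ℕ)
    (hw : w ≠ 0) (hp : ∀ x ∈ B, x ^ w ∈ A) : rk A = rk B := by
  have h1 := Submodule.finrank_quotient_add_finrank (LinearMap.range (inc h))
  have h2 : Module.finrank ℤ (Additive B ⧸ LinearMap.range (inc h)) = 0 :=
    Module.finrank_eq_zero_iff_isTorsion.2 (tors_quot h w hw hp)
  have h3 : Module.finrank ℤ (LinearMap.range (inc h)) = Module.finrank ℤ (Additive A) :=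
    (LinearEquiv.ofInjective (inc h) (inc_inj h)).symm.finrank_eq
  rw [h2, h3, zero_add] at h1
  exact h1

lemma ix_ne {A B : Subgroup G} (h : A ≤ B) (hf : Module.Finite ℤ (Additive B)) (w : ℕ)
    (hw : w ≠ 0) (hp : ∀ x ∈ B, x ^ w ∈ A) : A.relIndex B ≠ 0 := by
  have h1 : Finite (Additive B ⧸ LinearMap.range (inc h)) :=
    Module.finite_of_fg_torsion _ (tors_quot h w hw hp)
  have h2 : Finite (B ⧸ A.subgroupOf B) := by
    let f : (B ⧸ A.subgroupOf B) → (Additive B ⧸ LinearMap.range (inc h)) :=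
      Quotient.lift (fun x => Submodule.Quotient.mk (Additive.ofMul x)) (by
        intro x y hxy
        rw [Submodule.Quotient.eq]
        have h3 : x⁻¹ * y ∈ A.subgroupOf B := QuotientGroup.leftRel_apply.1 hxy
        have h4 : x / y ∈ A.subgroupOf B := by
          have e : x / y = (x⁻¹ * y)⁻¹ := by
            rw [mul_inv_rev, inv_inv, div_eq_mul_inv, mul_comm]
          rw [e]
          exact inv_mem h3
        exact ⟨Additive.ofMul ⟨((x / y : B) : G), h4⟩, rfl⟩)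
    refine Finite.of_injective f ?_
    intro a b hab
    obtain ⟨x, rfl⟩ := QuotientGroup.mk_surjective a
    obtain ⟨y, rfl⟩ := QuotientGroup.mk_surjective b
    have h5 : (Submodule.Quotient.mk (Additive.ofMul x) :
      Additive B ⧸ LinearMap.range (inc h)) = Submodule.Quotient.mk (Additive.ofMul y) := hab
    rw [Submodule.Quotient.eq] at h5
    obtain ⟨z, hz⟩ := h5
    rw [QuotientGroup.eq]
    have h6 : x / y ∈ A.subgroupOf B := by
      have h7 : (Additive.toMul (inc h z) : B) = x / y := congrArg Additive.toMul hz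
      rw [← h7]
      exact (Additive.toMul z).2
    have e : x⁻¹ * y = (x / y)⁻¹ := by rw [inv_div, div_eq_mul_inv, mul_comm]
    rw [e]
    exact inv_mem h6
  unfold Subgroup.relIndex
  exact Subgroup.index_ne_zero_of_finite

/-- the exponent of the torsion subgroup -/
lemma expo (U : Subgroup G) (hf : Module.Finite ℤ (Additive U)) :
    ∃ w : ℕ, w ≠ 0 ∧ ∀ x ∈ U, ∀ j : ℕ, j ≠ 0 → x ^ j = 1 → x ^ w = 1 := by
  have : IsNoetherian ℤ (Additive U) := isNoetherian_of_isNoetherianRing_of_finite ℤ (Additive U)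
  have h1 : Finite (Submodule.torsion ℤ (Additive U)) :=
    Module.finite_of_fg_torsion _ (Submodule.torsion_isTorsion)
  refine ⟨Nat.card (Submodule.torsion ℤ (Additive U)), Nat.card_pos.ne', ?_⟩
  intro x hx j hj hxj
  have h2 : Additive.ofMul (⟨x, hx⟩ : U) ∈ Submodule.torsion ℤ (Additive U) := by
    refine ⟨⟨(j : ℤ), mem_nonZeroDivisors_of_ne_zero (by exact_mod_cast hj)⟩, ?_⟩
    show (j : ℤ) • Additive.ofMul (⟨x, hx⟩ : U) = 0
    rw [natCast_zsmul, ← ofMul_pow]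
    have h3 : (⟨x, hx⟩ : U) ^ j = 1 := Subtype.ext hxj
    rw [h3]
    rfl
  have h4 := card_nsmul_eq_zero' (x := (⟨Additive.ofMul (⟨x, hx⟩ : U), h2⟩ :
    Submodule.torsion ℤ (Additive U)))
  have h5 := congrArg Subtype.val h4
  have h6 := congrArg (fun y : Additive U => ((Additive.toMul y : U) : G)) h5
  exact h6

end LAT

open LAT in
/-- (LAT) the Herbrand quotient from the ranks of the fixed subgroups -/
theorem th_LAT (h1 : Sh_HQ) (h2 : Sh_FIN) (h3 : Sh_LTF) : Sh_LAT := by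
  intro G _ l m s hl hs U hU hf
  obtain ⟨w, hw, hexp⟩ := expo U hf
  set U₁ : Subgroup G := U.map (powMonoidHom w) with hU₁
  have hle : U₁ ≤ U := by
    rintro _ ⟨x, hx, rfl⟩
    exact pow_mem hx w
  have hst : Stb s U₁ := by
    rintro _ ⟨x, hx, rfl⟩
    refine ⟨s x, hU x hx, ?_⟩
    show (s x) ^ w = s (x ^ w)
    rw [map_pow]
  have hf₁ : Module.Finite ℤ (Additive U₁) := fin_mono hle hf
  have htf : ∀ x ∈ U₁, ∀ j : ℕ, j ≠ 0 → x ^ j = 1 → x = 1 := by
    rintro _ ⟨x, hx, rfl⟩ j hj hxj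
    have h4 : x ^ (w * j) = 1 := by
      rw [pow_mul]
      exact hxj
    exact hexp x hx (w * j) (mul_ne_zero hw hj) h4
  have hrk : ∀ i : ℕ, rk (U₁ ⊓ fixS s i) = rk (U ⊓ fixS s i) := by
    intro i
    refine rk_eq (inf_le_inf_right _ hle) (fin_mono inf_le_left hf) w hw ?_
    rintro x ⟨hxU, hxF⟩
    exact ⟨⟨x, hxU, rfl⟩, pow_mem hxF w⟩
  have hix : U₁.relIndex U ≠ 0 := ix_ne hle hf w hw fun x hx => ⟨x, hx, rfl⟩
  obtain ⟨hF1, hF2⟩ := h2 G (l ^ m) s hs U U₁ hle hU hst hix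
  obtain ⟨hA, hB, a, ha, hab⟩ := h3 G l m s hl hs U₁ hst hf₁ htf
  have hbot : Stb s (⊥ : Subgroup G) := by
    intro x hx
    rw [Subgroup.mem_bot] at hx ⊢
    rw [hx, map_one]
  obtain ⟨hC, hD, hQ⟩ := h1 G (l ^ m) s hs U U₁ ⊥ bot_le hle hU hst hbot hF2 (hF1 ▸ hF2) hA hB
  refine ⟨hC, hD, a, ?_, ?_⟩
  · intro j hj
    rw [← hrk, ← hrk]
    exact ha j hj
  · rw [← hrk 1]
    rw [hF1] at hQ hF2
    have e1 : t0 (l ^ m) s U ⊥ * t1 (l ^ m) s U₁ ⊥ = t1 (l ^ m) s U ⊥ * t0 (l ^ m) s U₁ ⊥ := by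
      apply Nat.eq_of_mul_eq_mul_left (Nat.pos_of_ne_zero hF2)
      calc t1 (l ^ m) s U U₁ * (t0 (l ^ m) s U ⊥ * t1 (l ^ m) s U₁ ⊥)
          = t0 (l ^ m) s U ⊥ * (t1 (l ^ m) s U U₁ * t1 (l ^ m) s U₁ ⊥) := by ring
        _ = t1 (l ^ m) s U ⊥ * (t1 (l ^ m) s U U₁ * t0 (l ^ m) s U₁ ⊥) := hQ
        _ = t1 (l ^ m) s U U₁ * (t1 (l ^ m) s U ⊥ * t0 (l ^ m) s U₁ ⊥) := by ring
    apply Nat.eq_of_mul_eq_mul_left (Nat.pos_of_ne_zero hB)
    calc t1 (l ^ m) s U₁ ⊥ * (t0 (l ^ m) s U ⊥ * l ^ (∑ j ∈ Finset.range m, a j))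
        = (t0 (l ^ m) s U ⊥ * t1 (l ^ m) s U₁ ⊥) * l ^ (∑ j ∈ Finset.range m, a j) := by ring
      _ = t1 (l ^ m) s U ⊥ * (t0 (l ^ m) s U₁ ⊥ * l ^ (∑ j ∈ Finset.range m, a j)) := by
          rw [e1]; ring
      _ = t1 (l ^ m) s U ⊥ * (t1 (l ^ m) s U₁ ⊥ * l ^ (m * rk (U₁ ⊓ fixS s 1))) := by rw [hab]
      _ = t1 (l ^ m) s U₁ ⊥ * (t1 (l ^ m) s U ⊥ * l ^ (m * rk (U₁ ⊓ fixS s 1))) := by ring

end

end Pool.Agent.HB
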