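import Pool.Agent.HB.StHB

/-!
# HB, module LOC: the local first inequality
-/

set_option autoImplicit false

open NumberField IsDedekindDomain

namespace Pool.Agent.HB

namespace LOC

variable {G : Type} [CommGroup G]

/-- the index does not change if a subgroup of `A` is added to `B` -/
lemma relIndex_sup_le (A B V : Subgroup G) (hVA : V ≤ A) :
    A.relIndex (B ⊔ V) = A.relIndex B := by
  rw [← Subgroup.relIndex_sup_right (H := B ⊔ V) (K := A),
    ← Subgroup.relIndex_sup_right (H := B) (K := A), sup_assoc, sup_eq_right.2 hVA]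

variable {k K : Type} [Field k] [NumberField k] [Field K] [NumberField K] [Algebra k K]

/-- the degree is not zero -/
lemma n_ne {n : ℕ} {σ : K ≃ₐ[k] K} (hC : Cyc n σ) : n ≠ 0 := by
  have : FiniteDimensional k K := Module.Finite.of_restrictScalars_finite ℚ k K
  rw [← hC.deg]
  exact Module.finrank_pos.ne'

/-- an element of `k` which is integral at `v` is integral above `v` -/
lemma intV {v : HeightOneSpectrum (𝓞 k)}
    (h : ∀ w, Lies k K v w → ∃ e : ℕ, 1 ≤ e ∧ ∀ x : kˣ, ord w (iu k K x) = e * ord v x)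
    {y : k} (hy : v.valuation k y ≤ 1) : IntV k K v (algebraMap k K y) := by
  intro w hw
  obtain ⟨e, he, h1⟩ := h w hw
  by_cases hy0 : y = 0
  · rw [hy0, map_zero, map_zero]
    exact zero_le_one
  have h2 := h1 (Units.mk0 y hy0)
  have h3 := ord_val v (Units.mk0 y hy0)
  rw [Units.val_mk0] at h3
  rw [h3, ← WithZero.exp_zero, WithZero.exp_le_exp] at hy
  have h4 := ord_val w (iu k K (Units.mk0 y hy0))
  have h5 : ((iu k K (Units.mk0 y hy0) : Kˣ) : K) = algebraMap k K y := rfl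
  rw [h5] at h4
  rw [h4, ← WithZero.exp_zero, WithZero.exp_le_exp, h2]
  have h6 : 0 ≤ ord v (Units.mk0 y hy0) := by omega
  have h7 : 0 ≤ (e : ℤ) * ord v (Units.mk0 y hy0) := mul_nonneg (Int.natCast_nonneg e) h6
  omega

end LOC

open LOC in
/-- (LOC) the local first inequality. -/
theorem th_LOC (hHQ : Sh_HQ) (hFIN : Sh_FIN) (hNBL : Sh_NBL) (hVGP : Sh_VGP) (hSTR : Sh_STR)
    (hKMU : Sh_KMU) (hORN : Sh_ORN) : Sh_LOC := by
  intro k K _ _ _ _ _ n σ hC v
  obtain ⟨π, θ, c, hpi, hint, hind, hspan, hlam⟩ := hNBL k K n σ hC v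
  have hNB : NB n σ v π θ c := ⟨hpi, hint, hind, hspan, hlam⟩
  obtain ⟨V, U, hV, hU, hVU, sV, sU, hfin⟩ := hVGP k K n σ hC v π θ c hNB (c + 1) le_rfl
  obtain ⟨-, hfix, hnrm, hper, hord, -⟩ := hORN k K n σ hC
  obtain ⟨hk0, hk1⟩ := hKMU k K n σ hC v U hU
  have hn := n_ne hC
  have ht0U : t0 n (su σ) ⊤ U ≠ 0 := by
    intro h
    rw [h, zero_mul] at hk0
    exact hn hk0.symm
  obtain ⟨hf, hf0⟩ := hFIN Kˣ n (su σ) hper U V hVU sU sV hfin
  obtain ⟨hT0, hT1, hT⟩ := hHQ Kˣ n (su σ) hper ⊤ U V hVU le_top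
    (fun x _ => Subgroup.mem_top _) sU sV ht0U (by rw [hk1]; exact one_ne_zero) hf0
    (by rw [← hf]; exact hf0)
  have hT2 : t0 n (su σ) ⊤ V = t1 n (su σ) ⊤ V * t0 n (su σ) ⊤ U := by
    rw [hk1, one_mul, ← hf] at hT
    apply Nat.eq_of_mul_eq_mul_right (Nat.pos_of_ne_zero hf0)
    rw [hT]
    ring
  set A : Subgroup Kˣ := (⊤ : Subgroup Kˣ).map (NN n (su σ)) ⊔ V with hA
  have hB : (⊤ : Subgroup Kˣ) ⊓ V.comap (DD (su σ)) = (iu k K).range ⊔ V := by
    rw [top_inf_eq]
    apply le_antisymm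
    · intro α hα
      have h1 : InVM n σ v π θ (c + 1) (su σ α / α) := (hV _).1 hα
      obtain ⟨y, hy⟩ := hSTR k K n σ hC v π θ c hNB (c + 1) le_rfl α h1
      rw [← mul_div_cancel (iu k K y) α]
      exact Subgroup.mul_mem_sup ⟨y, rfl⟩ ((hV _).2 hy)
    · refine sup_le ?_ ?_
      · rintro _ ⟨y, rfl⟩
        show su σ (iu k K y) / iu k K y ∈ V
        rw [(hfix (iu k K y)).2 ⟨y, rfl⟩, div_self']
        exact one_mem _
      · intro x hx
        exact V.div_mem (sV x hx) hx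
  have hidx : (A.comap (iu k K)).index = t0 n (su σ) ⊤ V := by
    rw [Subgroup.index_comap]
    unfold t0
    rw [hB, ← hA, relIndex_sup_le A _ V le_sup_right]
  refine ⟨A.comap (iu k K), ?_, ?_, ?_, ?_⟩
  · intro z
    show iu k K (nu k K z) ∈ A
    rw [hnrm z]
    exact Subgroup.mem_sup_left ⟨z, Subgroup.mem_top z, rfl⟩
  · refine ⟨c + 1 + c, fun x hx => ?_⟩
    show iu k K x ∈ A
    apply Subgroup.mem_sup_right
    rw [hV]
    have hpi0 : (π : k) ≠ 0 := π.ne_zero
    have hvpi : v.valuation k (π : k) = WithZero.exp (-1) := by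
      rw [ord_val, hpi]
    set y : k := ((x : k) - 1) / (π : k) ^ (c + 1 + c) with hy
    have hy1 : v.valuation k y ≤ 1 := by
      rw [hy, map_div₀, map_pow, hvpi, ← WithZero.exp_nsmul]
      refine (div_le_one₀ (WithZero.exp_pos)).2 ?_
      refine hx.trans (le_of_eq ?_)
      congr 1
      simp
    refine ⟨algebraMap k K (π : k) ^ c * algebraMap k K y, hlam _ (intV (hord v) hy1), ?_⟩
    have h1 : ((iu k K x : Kˣ) : K) = algebraMap k K (x : k) := rfl
    have h2 : (x : k) = 1 + (π : k) ^ (c + 1) * ((π : k) ^ c * y) := by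
      rw [hy, ← mul_assoc, ← pow_add, mul_div_cancel₀ _ (pow_ne_zero _ hpi0)]
      ring
    rw [h1]
    conv_lhs => rw [h2]
    simp only [map_add, map_mul, map_pow, map_one]
  · rw [hidx]
    exact hT0
  · rw [hidx, hT2]
    calc n = t0 n (su σ) ⊤ U * gpr k K v := hk0.symm
      _ ≤ t1 n (su σ) ⊤ V * t0 n (su σ) ⊤ U * gpr k K v := by
        apply Nat.mul_le_mul_right
        exact Nat.le_mul_of_pos_left _ (Nat.pos_of_ne_zero hT1)

end Pool.Agent.HB
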