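import Pool.Agent.HB.StHB

/-!
# Module HB_LOU: the unramified case of the local first inequality
-/

set_option autoImplicit false

open NumberField IsDedekindDomain

namespace Pool.Agent.HB

noncomputable section

namespace LOU

/-- the order as a homomorphism -/
def ordHom {F : Type} [Field F] [NumberField F] (v : HeightOneSpectrum (𝓞 F)) :
    Fˣ →* Multiplicative ℤ where
  toFun x := Multiplicative.ofAdd (ord v x)
  map_one' := by simp
  map_mul' x y := by rw [ord_mul, ofAdd_add]

/-- the multiples of `d`, multiplicatively -/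
def mulS (d : ℕ) : Subgroup (Multiplicative ℤ) := AddSubgroup.toSubgroup (AddSubgroup.zmultiples (d : ℤ))

theorem mem_mulS (d : ℕ) (a : ℤ) : Multiplicative.ofAdd a ∈ mulS d ↔ (d : ℤ) ∣ a := by
  have h : Multiplicative.ofAdd a ∈ mulS d ↔ a ∈ AddSubgroup.zmultiples (d : ℤ) := Iff.rfl
  rw [h, Int.mem_zmultiples_iff]

theorem index_mulS (d : ℕ) : (mulS d).index = d := by
  have h : (mulS d).index = (AddSubgroup.zmultiples (d : ℤ)).index := rfl
  rw [h, Int.index_zmultiples, Int.natAbs_natCast]

end LOU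

open LOU in
theorem th_LOU (hORN : Sh_ORN) (hORG : Sh_ORG) (hORD : Sh_ORD) : Sh_LOU := by
  intro k K _ _ _ _ _ n σ hσ v hv
  obtain ⟨-, -, -, -, -, -, -, hN⟩ := hORN k K n σ hσ
  obtain ⟨π, -, -, -, -, -, -, -, hG⟩ := hORG k K n σ hσ
  obtain ⟨-, -, -, hap, hone⟩ := hORD k
  obtain ⟨hg1, hg0⟩ := hG v
  have hn0 : n ≠ 0 := by
    have h1 := hσ.deg
    have := hσ.gal
    have : FiniteDimensional ℚ K := inferInstance
    have h2 : FiniteDimensional k K := FiniteDimensional.right ℚ k K
    rw [← h1]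
    exact (Module.finrank_pos (R := k) (M := K)).ne'
  set d : ℕ := n / gpr k K v with hd
  have hdg : d * gpr k K v = n := Nat.div_mul_cancel hg1
  have hd0 : d ≠ 0 := by
    intro h
    rw [h, zero_mul] at hdg
    exact hn0 hdg.symm
  have hsurj : Function.Surjective (ordHom (F := k) v) := by
    intro a
    obtain ⟨x, hx⟩ := hap {v} (fun _ => Multiplicative.toAdd a)
    refine ⟨x, ?_⟩
    have := hx v (Finset.mem_singleton_self v)
    show Multiplicative.ofAdd (ord v x) = a
    rw [this]
    rfl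
  have hidx : ((mulS d).comap (ordHom (F := k) v)).index = d := by
    rw [Subgroup.index_comap_of_surjective _ hsurj, index_mulS]
  have hmem : ∀ x : kˣ, x ∈ (mulS d).comap (ordHom (F := k) v) ↔ (d : ℤ) ∣ ord v x := by
    intro x
    rw [Subgroup.mem_comap]
    exact mem_mulS d (ord v x)
  have hzero : ∀ x : kˣ, ord v x = 0 → x ∈ (mulS d).comap (ordHom (F := k) v) := by
    intro x hx
    rw [hmem, hx]
    exact dvd_zero _
  refine ⟨(mulS d).comap (ordHom (F := k) v), ⟨?_, ?_, ?_, ?_⟩, hzero⟩
  · intro z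
    rw [hmem]
    exact hN v hv z
  · exact ⟨1, fun x hx => hzero x (hone v x 1 le_rfl hx)⟩
  · rw [hidx]
    exact hd0
  · rw [hidx, hdg]

end

end Pool.Agent.HB
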