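import Pool.Agent.HB.StHB

/-!
# HB, module LTF (helper20): the Herbrand quotient of a lattice
-/

set_option autoImplicit false

open scoped nonZeroDivisors

namespace Pool.Agent.HB

noncomputable section

namespace LTF

section
variable {G : Type} [CommGroup G]

/-- the two additive groups attached to a subgroup -/
def eqv (S : Subgroup G) : Additive S ≃+ Subgroup.toAddSubgroup S where
  toFun x := ⟨Additive.ofMul ((Additive.toMul x : S) : G), (Additive.toMul x).2⟩
  invFun x := Additive.ofMul ⟨Additive.toMul (x : Additive G), x.2⟩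
  left_inv _ := rfl
  right_inv _ := rfl
  map_add' _ _ := rfl

theorem rk_eqv (S : Subgroup G) : rk S = Module.finrank ℤ (Subgroup.toAddSubgroup S) :=
  (eqv S).toIntLinearEquiv.finrank_eq

theorem fin_eqv (S : Subgroup G) (h : Module.Finite ℤ (Additive S)) :
    Module.Finite ℤ (Subgroup.toAddSubgroup S) :=
  Module.Finite.equiv (eqv S).toIntLinearEquiv

/-- torsion-free -/
def TF (U : Subgroup G) : Prop := ∀ x ∈ U, ∀ j : ℕ, j ≠ 0 → x ^ j = 1 → x = 1

theorem tf_eqv (S : Subgroup G) (h : TF S) :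
    Module.IsTorsionFree ℤ (Subgroup.toAddSubgroup S) := by
  refine Module.IsTorsionFree.of_smul_eq_zero fun r x hx => ?_
  by_contra hc
  push Not at hc
  obtain ⟨hr, hx0⟩ := hc
  apply hx0
  have h1 : (Additive.toMul (x : Additive G)) ^ r = 1 := by
    have := congrArg (fun y : Subgroup.toAddSubgroup S => Additive.toMul (y : Additive G)) hx
    simpa using this
  have h2 : (Additive.toMul (x : Additive G)) ^ r.natAbs = 1 := by
    rcases Int.natAbs_eq r with h3 | h3
    · rw [h3, zpow_natCast] at h1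
      exact h1
    · rw [h3, zpow_neg, zpow_natCast, inv_eq_one] at h1
      exact h1
  have h3 := h _ x.2 r.natAbs (by simpa using hr) h2
  apply Subtype.ext
  exact h3

theorem pow_index (n : ℕ) (L : Subgroup G) (hf : Module.Finite ℤ (Additive L)) (ht : TF L) :
    (L.map (powMonoidHom n)).relIndex L = n ^ rk L := by
  have := fin_eqv L hf
  have := tf_eqv L ht
  have h3 : Module.Free ℤ (Subgroup.toAddSubgroup L) := Module.free_of_finite_type_torsion_free'
  have h4 : Module.Free ℤ (AddSubgroup.toIntSubmodule (Subgroup.toAddSubgroup L)) := h3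
  have h5 : Module.Finite ℤ (AddSubgroup.toIntSubmodule (Subgroup.toAddSubgroup L)) := fin_eqv L hf
  have h1 := AddSubgroup.relIndex_map_nsmul (M := Additive G) n (Subgroup.toAddSubgroup L)
  rw [rk_eqv]
  refine Eq.trans ?_ (h1.trans ?_)
  · rw [← Subgroup.relIndex_toAddSubgroup]
    rfl
  · rfl

theorem rk_eq {A B : Subgroup G} (h : A ≤ B) (hi : A.relIndex B ≠ 0)
    (hf : Module.Finite ℤ (Additive B)) (ht : TF B) : rk A = rk B := by
  have := fin_eqv B hf
  have := tf_eqv B ht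
  rw [rk_eqv, rk_eqv]
  have : (Subgroup.toAddSubgroup A).IsFiniteRelIndex (Subgroup.toAddSubgroup B) := by
    refine ⟨?_⟩
    rw [Subgroup.relIndex_toAddSubgroup]
    exact hi
  exact AddSubgroup.finrank_eq_of_isFiniteRelIndex h

theorem fin_mono {A B : Subgroup G} (h : A ≤ B) (hf : Module.Finite ℤ (Additive B)) :
    Module.Finite ℤ (Additive A) := by
  have : IsNoetherian ℤ (Additive B) := isNoetherian_of_isNoetherianRing_of_finite ℤ (Additive B)
  exact Module.Finite.of_injective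
    ((MonoidHom.toAdditive (Subgroup.inclusion h)).toIntLinearMap)
    (fun x y hxy => Subgroup.inclusion_injective h hxy)

theorem mem_fixS {s : G →* G} {i : ℕ} {x : G} : x ∈ fixS s i ↔ (⇑s)^[i] x = x := Iff.rfl

theorem DD_apply (s : G →* G) (x : G) : DD s x = s x / x := rfl

theorem NN_apply (n : ℕ) (s : G →* G) (x : G) : NN n s x = ∏ i ∈ Finset.range n, (⇑s)^[i] x := rfl

theorem ker_DD (s : G →* G) : (DD s).ker = fixS s 1 := by
  ext x
  rw [MonoidHom.mem_ker, DD_apply, div_eq_one, mem_fixS]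
  rfl

theorem t0_bot (n : ℕ) (s : G →* G) (U : Subgroup G) :
    t0 n s U ⊥ = (U.map (NN n s)).relIndex (U ⊓ fixS s 1) := by
  unfold t0
  rw [sup_bot_eq, MonoidHom.comap_bot, ker_DD]

theorem t1_bot (n : ℕ) (s : G →* G) (U : Subgroup G) :
    t1 n s U ⊥ = (U.map (DD s)).relIndex (U ⊓ (NN n s).ker) := by
  unfold t1
  rw [sup_bot_eq, MonoidHom.comap_bot]

theorem iter_mem {s : G →* G} {U : Subgroup G} (hU : Stb s U) (i : ℕ) :
    ∀ x ∈ U, (⇑s)^[i] x ∈ U := by
  induction i with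
  | zero => intro x hx; exact hx
  | succ i ih =>
    intro x hx
    rw [Function.iterate_succ_apply']
    exact hU _ (ih x hx)

theorem NN_mem {s : G →* G} {U : Subgroup G} (hU : Stb s U) (n : ℕ) (x : G) (hx : x ∈ U) :
    NN n s x ∈ U := by
  rw [NN_apply]
  exact Subgroup.prod_mem _ (fun i _ => iter_mem hU i x hx)

theorem fix_mul {s : G →* G} {q : ℕ} {x : G} (hx : (⇑s)^[q] x = x) (c : ℕ) :
    (⇑s)^[q * c] x = x := by
  rw [Function.iterate_mul]
  exact Function.iterate_fixed hx c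

theorem NN_mul {s : G →* G} {q : ℕ} {x : G} (hx : (⇑s)^[q] x = x) (c : ℕ) :
    NN (q * c) s x = (NN q s x) ^ c := by
  induction c with
  | zero => simp [NN_apply]
  | succ c ih =>
    rw [pow_succ, ← ih, NN_apply, NN_apply, NN_apply, Nat.mul_succ, Finset.prod_range_add]
    congr 1
    refine Finset.prod_congr rfl fun i _ => ?_
    rw [Nat.add_comm, Function.iterate_add_apply, fix_mul hx]

theorem NN_fix {s : G →* G} {q : ℕ} {x : G} (hx : (⇑s)^[q] x = x) : s (NN q s x) = NN q s x := by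
  have h1 : s (NN q s x) = ∏ i ∈ Finset.range q, (⇑s)^[i + 1] x := by
    rw [NN_apply, map_prod]
    exact Finset.prod_congr rfl fun i _ => (Function.iterate_succ_apply' _ _ _).symm
  have h2 := Finset.prod_range_succ (fun i => (⇑s)^[i] x) q
  have h3 := Finset.prod_range_succ' (fun i => (⇑s)^[i] x) q
  rw [h2] at h3
  simp only [hx, Function.iterate_zero, id_eq] at h3
  rw [h1, NN_apply]
  exact (mul_right_cancel h3).symm

end

/-! ## transfer along injective maps -/

section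
variable {G G' : Type} [CommGroup G] [CommGroup G']

theorem f_iter {f : G' →* G} {s' : G' →* G'} {s : G →* G} (h : ∀ x, f (s' x) = s (f x)) (i : ℕ) :
    ∀ x, f ((⇑s')^[i] x) = (⇑s)^[i] (f x) := by
  induction i with
  | zero => intro x; rfl
  | succ i ih =>
    intro x
    rw [Function.iterate_succ_apply', Function.iterate_succ_apply', h, ih]

theorem f_NN {f : G' →* G} {s' : G' →* G'} {s : G →* G} (h : ∀ x, f (s' x) = s (f x)) (n : ℕ)
    (x : G') : f (NN n s' x) = NN n s (f x) := by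
  rw [NN_apply, NN_apply, map_prod]
  exact Finset.prod_congr rfl fun i _ => f_iter h i x

theorem f_DD {f : G' →* G} {s' : G' →* G'} {s : G →* G} (h : ∀ x, f (s' x) = s (f x))
    (x : G') : f (DD s' x) = DD s (f x) := by
  rw [DD_apply, DD_apply, map_div, h]

theorem map_NN {f : G' →* G} {s' : G' →* G'} {s : G →* G} (h : ∀ x, f (s' x) = s (f x)) (n : ℕ)
    (U : Subgroup G') : (U.map f).map (NN n s) = (U.map (NN n s')).map f := by
  rw [Subgroup.map_map, Subgroup.map_map]
  congr 1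
  ext x
  exact (f_NN h n x).symm

theorem map_DD {f : G' →* G} {s' : G' →* G'} {s : G →* G} (h : ∀ x, f (s' x) = s (f x))
    (U : Subgroup G') : (U.map f).map (DD s) = (U.map (DD s')).map f := by
  rw [Subgroup.map_map, Subgroup.map_map]
  congr 1
  ext x
  exact (f_DD h x).symm

theorem map_fix {f : G' →* G} (hf : Function.Injective f) {s' : G' →* G'} {s : G →* G}
    (h : ∀ x, f (s' x) = s (f x)) (i : ℕ) (U : Subgroup G') :
    (U.map f) ⊓ fixS s i = (U ⊓ fixS s' i).map f := by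
  ext y
  simp only [Subgroup.mem_inf, Subgroup.mem_map, mem_fixS]
  constructor
  · rintro ⟨⟨x, hx, rfl⟩, h2⟩
    refine ⟨x, ⟨hx, hf ?_⟩, rfl⟩
    rw [f_iter h, h2]
  · rintro ⟨x, ⟨hx, hx2⟩, rfl⟩
    refine ⟨⟨x, hx, rfl⟩, ?_⟩
    rw [← f_iter h, hx2]

theorem map_kerN {f : G' →* G} (hf : Function.Injective f) {s' : G' →* G'} {s : G →* G}
    (h : ∀ x, f (s' x) = s (f x)) (n : ℕ) (U : Subgroup G') :
    (U.map f) ⊓ (NN n s).ker = (U ⊓ (NN n s').ker).map f := by
  ext y
  simp only [Subgroup.mem_inf, Subgroup.mem_map, MonoidHom.mem_ker]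
  constructor
  · rintro ⟨⟨x, hx, rfl⟩, h2⟩
    refine ⟨x, ⟨hx, hf ?_⟩, rfl⟩
    rw [f_NN h, h2, map_one]
  · rintro ⟨x, ⟨hx, hx2⟩, rfl⟩
    refine ⟨⟨x, hx, rfl⟩, ?_⟩
    rw [← f_NN h, hx2, map_one]

theorem t0_map {f : G' →* G} (hf : Function.Injective f) {s' : G' →* G'} {s : G →* G}
    (h : ∀ x, f (s' x) = s (f x)) (n : ℕ) (U : Subgroup G') :
    t0 n s (U.map f) ⊥ = t0 n s' U ⊥ := by
  rw [t0_bot, t0_bot, map_NN h, map_fix hf h, Subgroup.relIndex_map_map_of_injective _ _ hf]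

theorem t1_map {f : G' →* G} (hf : Function.Injective f) {s' : G' →* G'} {s : G →* G}
    (h : ∀ x, f (s' x) = s (f x)) (n : ℕ) (U : Subgroup G') :
    t1 n s (U.map f) ⊥ = t1 n s' U ⊥ := by
  rw [t1_bot, t1_bot, map_DD h, map_kerN hf h, Subgroup.relIndex_map_map_of_injective _ _ hf]

theorem rk_map {f : G' →* G} (hf : Function.Injective f) (U : Subgroup G') :
    rk (U.map f) = rk U :=
  ((MulEquiv.toAdditive (Subgroup.equivMapOfInjective U f hf)).toIntLinearEquiv.finrank_eq).symm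

end

/-- the conclusion -/
def Con {G : Type} [CommGroup G] (l m : ℕ) (s : G →* G) (U : Subgroup G) : Prop :=
  t0 (l ^ m) s U ⊥ ≠ 0 ∧ t1 (l ^ m) s U ⊥ ≠ 0 ∧ ∃ a : ℕ → ℕ,
    (∀ j < m, rk (U ⊓ fixS s (l ^ (j + 1))) =
      rk (U ⊓ fixS s (l ^ j)) + (l ^ (j + 1)).totient * a j) ∧
    t0 (l ^ m) s U ⊥ * l ^ (∑ j ∈ Finset.range m, a j) =
      t1 (l ^ m) s U ⊥ * l ^ (m * rk (U ⊓ fixS s 1))

theorem Con_map {G G' : Type} [CommGroup G] [CommGroup G'] {f : G' →* G}
    (hf : Function.Injective f) {s' : G' →* G'} {s : G →* G}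
    (h : ∀ x, f (s' x) = s (f x)) {l m : ℕ} {U : Subgroup G'} (hC : Con l m s' U) :
    Con l m s (U.map f) := by
  unfold Con at *
  rw [t0_map hf h, t1_map hf h]
  simp only [map_fix hf h, rk_map hf]
  exact hC

/-- the endomorphism on the fixed group -/
def sF {G : Type} [CommGroup G] (s : G →* G) (q : ℕ) : fixS s q →* fixS s q :=
  (s.comp (fixS s q).subtype).codRestrict (fixS s q) (fun x => by
    have hx := x.2
    rw [mem_fixS] at hx ⊢
    change (⇑s)^[q] (s x) = s x
    rw [← Function.iterate_succ_apply, Function.iterate_succ_apply', hx])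

theorem step (h1 : Sh_HQ) (h2 : Sh_LTZ) {l : ℕ} (hl : l.Prime) (m : ℕ)
    (ih : ∀ (G : Type) [CommGroup G] (s : G →* G), (∀ x, (⇑s)^[l ^ m] x = x) →
      ∀ U : Subgroup G, Stb s U → Module.Finite ℤ (Additive U) → TF U → Con l m s U)
    (G : Type) [CommGroup G] (s : G →* G) (hs : ∀ x, (⇑s)^[l ^ (m + 1)] x = x)
    (U : Subgroup G) (hU : Stb s U) (hfin : Module.Finite ℤ (Additive U)) (htf : TF U) :
    Con l (m + 1) s U := by
  have hn : l ^ (m + 1) = l ^ m * l := pow_succ l m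
  have hUV : U ⊓ fixS s (l ^ m) ≤ U := inf_le_left
  have hVs : Stb s (U ⊓ fixS s (l ^ m)) := by
    rintro x ⟨hx1, hx2⟩
    refine ⟨hU x hx1, ?_⟩
    exact (sF s (l ^ m) ⟨x, hx2⟩).2
  have hVfin : Module.Finite ℤ (Additive ↥(U ⊓ fixS s (l ^ m))) := fin_mono hUV hfin
  have hVtf : TF (U ⊓ fixS s (l ^ m)) := fun x hx => htf x (hUV hx)
  -- LTZ
  have hZ := h2 G l (m + 1) s hl (Nat.le_add_left 1 m) hs U (U ⊓ fixS s (l ^ m)) hUV hU hVs hfin
    (by
      intro x hx j hj hxj
      refine ⟨hx, ?_⟩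
      have h3 : (⇑s)^[l ^ m] (x ^ j) = x ^ j := hxj.2
      rw [iterate_map_pow] at h3
      have h4 : ((⇑s)^[l ^ m] x / x) ^ j = 1 := by
        rw [div_pow, h3, div_self']
      have h5 := htf _ (U.div_mem (iter_mem hU _ x hx) hx) j hj h4
      exact div_eq_one.mp h5)
    (by
      intro x hx
      refine ⟨Subgroup.prod_mem _ (fun i _ => iter_mem hU _ x hx), ?_⟩
      change (⇑s)^[l ^ m] _ = _
      have h3 : (⇑s)^[l ^ m] (∏ i ∈ Finset.range l, (⇑s)^[i * l ^ (m + 1 - 1)] x) =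
          ∏ i ∈ Finset.range l, (⇑s)^[(i + 1) * l ^ m] x := by
        have h9 : ∀ (i : ℕ) (g : ℕ → G) (c : Finset ℕ),
            (⇑s)^[i] (∏ t ∈ c, g t) = ∏ t ∈ c, (⇑s)^[i] (g t) := by
          intro i
          induction i with
          | zero => intro g c; rfl
          | succ i ih2 =>
            intro g c
            rw [Function.iterate_succ_apply', ih2, map_prod]
            exact Finset.prod_congr rfl fun t _ => (Function.iterate_succ_apply' _ _ _).symm
        rw [h9]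
        refine Finset.prod_congr rfl fun i _ => ?_
        rw [← Function.iterate_add_apply]
        congr 1
        rw [Nat.add_sub_cancel]
        ring
      have h4 := Finset.prod_range_succ (fun i => (⇑s)^[i * l ^ m] x) l
      have h5 := Finset.prod_range_succ' (fun i => (⇑s)^[i * l ^ m] x) l
      rw [h4] at h5
      have h6 : (⇑s)^[l * l ^ m] x = x := by
        rw [mul_comm, ← pow_succ]
        exact hs x
      rw [h6] at h5
      simp only [zero_mul, Function.iterate_zero, id_eq] at h5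
      rw [h3, Nat.add_sub_cancel]
      exact (mul_right_cancel h5).symm)
  obtain ⟨z0, a, z1, zr⟩ := hZ
  -- induction hypothesis
  have hI : Con l m s (U ⊓ fixS s (l ^ m)) := by
    have h3 := ih (fixS s (l ^ m)) (sF s (l ^ m))
      (by
        intro x
        apply Subtype.ext
        have := f_iter (f := (fixS s (l ^ m)).subtype) (s' := sF s (l ^ m)) (s := s)
          (fun _ => rfl) (l ^ m) x
        rw [Subgroup.subtype_apply] at this
        rw [this]
        exact x.2)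
      (U.subgroupOf (fixS s (l ^ m)))
      (by
        intro x hx
        rw [Subgroup.mem_subgroupOf] at hx ⊢
        exact hU _ hx)
      (by
        have h4 : Module.Finite ℤ (Additive ↥((U.subgroupOf (fixS s (l ^ m))).map
            (fixS s (l ^ m)).subtype)) := by
          rw [Subgroup.subgroupOf_map_subtype]
          exact hVfin
        exact Module.Finite.equiv (MulEquiv.toAdditive (Subgroup.equivMapOfInjective
          (U.subgroupOf (fixS s (l ^ m))) (fixS s (l ^ m)).subtype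
            (Subgroup.subtype_injective _))).toIntLinearEquiv.symm)
      (by
        intro x hx j hj hxj
        rw [Subgroup.mem_subgroupOf] at hx
        apply Subtype.ext
        exact htf _ hx j hj (congrArg Subtype.val hxj))
    have h4 := Con_map (f := (fixS s (l ^ m)).subtype) (Subgroup.subtype_injective _)
      (s' := sF s (l ^ m)) (s := s) (fun _ => rfl) h3
    rw [Subgroup.subgroupOf_map_subtype] at h4
    exact h4
  obtain ⟨i0, i1, b, ib, ie⟩ := hI
  have hmono : ∀ j ≤ m, (U ⊓ fixS s (l ^ m)) ⊓ fixS s (l ^ j) = U ⊓ fixS s (l ^ j) := by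
    intro j hj
    rw [inf_assoc]
    congr 1
    rw [inf_eq_right]
    intro x hx
    rw [mem_fixS] at hx ⊢
    obtain ⟨c, rfl⟩ := Nat.exists_eq_add_of_le hj
    rw [pow_add]
    exact fix_mul hx _
  have hm1 : (U ⊓ fixS s (l ^ m)) ⊓ fixS s 1 = U ⊓ fixS s 1 := by
    have := hmono 0 (Nat.zero_le m)
    rwa [pow_zero] at this
  -- t1 on U'
  have hT1 : t1 (l ^ (m + 1)) s (U ⊓ fixS s (l ^ m)) ⊥ = t1 (l ^ m) s (U ⊓ fixS s (l ^ m)) ⊥ := by
    rw [t1_bot, t1_bot]
    congr 1
    ext x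
    simp only [Subgroup.mem_inf, MonoidHom.mem_ker]
    constructor
    · rintro ⟨⟨hx1, hx2⟩, hx3⟩
      refine ⟨⟨hx1, hx2⟩, ?_⟩
      rw [hn, NN_mul hx2] at hx3
      exact htf _ (NN_mem hU _ x hx1) l hl.ne_zero hx3
    · rintro ⟨⟨hx1, hx2⟩, hx3⟩
      refine ⟨⟨hx1, hx2⟩, ?_⟩
      rw [hn, NN_mul hx2, hx3, one_pow]
  -- t0 on U'
  have hT0 : t0 (l ^ (m + 1)) s (U ⊓ fixS s (l ^ m)) ⊥ =
      t0 (l ^ m) s (U ⊓ fixS s (l ^ m)) ⊥ * l ^ rk (U ⊓ fixS s 1) := by
    have hi := i0
    rw [t0_bot] at hi ⊢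
    rw [t0_bot]
    rw [hm1] at hi ⊢
    have hLK : (U ⊓ fixS s (l ^ m)).map (NN (l ^ m) s) ≤ U ⊓ fixS s 1 := by
      rintro y ⟨x, ⟨hx1, hx2⟩, rfl⟩
      exact ⟨NN_mem hU _ x hx1, NN_fix hx2⟩
    have hKf : Module.Finite ℤ (Additive ↥(U ⊓ fixS s 1)) := fin_mono inf_le_left hfin
    have hKt : TF (U ⊓ fixS s 1) := fun x hx => htf x hx.1
    have h3 : (U ⊓ fixS s (l ^ m)).map (NN (l ^ (m + 1)) s) =
        ((U ⊓ fixS s (l ^ m)).map (NN (l ^ m) s)).map (powMonoidHom l) := by
      ext y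
      simp only [Subgroup.mem_map]
      constructor
      · rintro ⟨x, hx, rfl⟩
        refine ⟨_, ⟨x, hx, rfl⟩, ?_⟩
        rw [powMonoidHom_apply, hn, NN_mul hx.2]
      · rintro ⟨_, ⟨x, hx, rfl⟩, rfl⟩
        refine ⟨x, hx, ?_⟩
        rw [powMonoidHom_apply, hn, NN_mul hx.2]
    rw [h3]
    have h4 := pow_index l ((U ⊓ fixS s (l ^ m)).map (NN (l ^ m) s)) (fin_mono hLK hKf)
      (fun x hx => hKt x (hLK hx))
    have h5 : ((U ⊓ fixS s (l ^ m)).map (NN (l ^ m) s)).map (powMonoidHom l) ≤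
        (U ⊓ fixS s (l ^ m)).map (NN (l ^ m) s) := by
      rintro _ ⟨x, hx, rfl⟩
      exact Subgroup.pow_mem _ hx l
    rw [← Subgroup.relIndex_mul_relIndex _ _ _ h5 hLK, h4, rk_eq hLK hi hKf hKt]
    ring
  -- HQ
  have hq := h1 G (l ^ (m + 1)) s hs U (U ⊓ fixS s (l ^ m)) ⊥ bot_le hUV hU hVs
    (by
      intro x hx
      rw [Subgroup.mem_bot] at hx ⊢
      rw [hx, map_one])
    (by rw [z0]; exact one_ne_zero)
    (by rw [z1]; exact pow_ne_zero _ hl.ne_zero)
    (by rw [hT0]; exact mul_ne_zero i0 (pow_ne_zero _ hl.ne_zero))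
    (by rw [hT1]; exact i1)
  obtain ⟨q0, q1, qe⟩ := hq
  refine ⟨q0, q1, fun j => if j = m then a else b j, ?_, ?_⟩
  · intro j hj
    rcases eq_or_ne j m with rfl | hjm
    · simp only [if_true]
      have h3 : U ⊓ fixS s (l ^ (j + 1)) = U := by
        rw [inf_eq_left]
        intro x _
        exact hs x
      rw [h3]
      exact zr
    · simp only [if_neg hjm]
      have hj' : j < m := by omega
      have := ib j hj'
      rw [hmono _ (by omega), hmono _ (by omega)] at this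
      exact this
  · rw [Finset.sum_range_succ, if_pos rfl]
    have h3 : ∑ x ∈ Finset.range m, (if x = m then a else b x) = ∑ x ∈ Finset.range m, b x := by
      refine Finset.sum_congr rfl fun x hx => ?_
      rw [if_neg (Finset.mem_range.mp hx).ne]
    rw [h3]
    rw [z0, z1, hT0, hT1] at qe
    rw [hm1] at ie
    have h6 : t1 (l ^ m) s (U ⊓ fixS s (l ^ m)) ⊥ *
        (t0 (l ^ (m + 1)) s U ⊥ * l ^ (∑ x ∈ Finset.range m, b x + a)) =
        t1 (l ^ m) s (U ⊓ fixS s (l ^ m)) ⊥ *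
        (t1 (l ^ (m + 1)) s U ⊥ * l ^ ((m + 1) * rk (U ⊓ fixS s 1))) := by
      calc t1 (l ^ m) s (U ⊓ fixS s (l ^ m)) ⊥ *
            (t0 (l ^ (m + 1)) s U ⊥ * l ^ (∑ x ∈ Finset.range m, b x + a)) =
          (t0 (l ^ (m + 1)) s U ⊥ * (l ^ a * t1 (l ^ m) s (U ⊓ fixS s (l ^ m)) ⊥)) *
            l ^ (∑ x ∈ Finset.range m, b x) := by rw [pow_add]; ring
        _ = (t1 (l ^ (m + 1)) s U ⊥ * (1 * (t0 (l ^ m) s (U ⊓ fixS s (l ^ m)) ⊥ *
            l ^ rk (U ⊓ fixS s 1)))) * l ^ (∑ x ∈ Finset.range m, b x) := by rw [qe]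
        _ = t1 (l ^ (m + 1)) s U ⊥ * l ^ rk (U ⊓ fixS s 1) *
            (t0 (l ^ m) s (U ⊓ fixS s (l ^ m)) ⊥ * l ^ (∑ x ∈ Finset.range m, b x)) := by ring
        _ = t1 (l ^ (m + 1)) s U ⊥ * l ^ rk (U ⊓ fixS s 1) *
            (t1 (l ^ m) s (U ⊓ fixS s (l ^ m)) ⊥ * l ^ (m * rk (U ⊓ fixS s 1))) := by rw [ie]
        _ = _ := by rw [add_mul, pow_add, one_mul]; ring
    exact Nat.eq_of_mul_eq_mul_left (Nat.pos_of_ne_zero i1) h6

theorem base {G : Type} [CommGroup G] (l : ℕ) (s : G →* G) (hs : ∀ x, (⇑s)^[l ^ 0] x = x)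
    (U : Subgroup G) : Con l 0 s U := by
  have h0 : ∀ x, s x = x := by
    intro x
    have := hs x
    rwa [pow_zero] at this
  have hN : NN (l ^ 0) s = MonoidHom.id G := by
    ext x
    rw [pow_zero, NN_apply]
    simp
  have hD : DD s = 1 := by
    ext x
    rw [DD_apply, h0, div_self']
    rfl
  have e0 : t0 (l ^ 0) s U ⊥ = 1 := by
    unfold t0
    rw [hN, hD, Subgroup.map_id, sup_bot_eq]
    exact Subgroup.relIndex_eq_one.mpr inf_le_left
  have e1 : t1 (l ^ 0) s U ⊥ = 1 := by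
    unfold t1
    rw [hN, hD, Subgroup.comap_id, inf_bot_eq]
    exact Subgroup.relIndex_eq_one.mpr bot_le
  refine ⟨by rw [e0]; exact one_ne_zero, by rw [e1]; exact one_ne_zero, fun _ => 0, ?_, ?_⟩
  · intro j hj
    omega
  · rw [e0, e1]
    simp

theorem all (h1 : Sh_HQ) (h2 : Sh_LTZ) {l : ℕ} (hl : l.Prime) (m : ℕ) :
    ∀ (G : Type) [CommGroup G] (s : G →* G), (∀ x, (⇑s)^[l ^ m] x = x) →
      ∀ U : Subgroup G, Stb s U → Module.Finite ℤ (Additive U) → TF U → Con l m s U := by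
  induction m with
  | zero => intro G _ s hs U _ _ _; exact base l s hs U
  | succ m ih => exact fun G _ s hs U hU hf ht => step h1 h2 hl m ih G s hs U hU hf ht

end LTF

theorem th_LTF (h1 : Sh_HQ) (h2 : Sh_LTZ) : Sh_LTF :=
  fun G _ _ m s hl hs U hU hf ht => LTF.all h1 h2 hl m G s hs U hU hf ht

end

end Pool.Agent.HB
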