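import Pool.Agent.HB.StHB

/-!
# HB, module LTZ (helper12): lattices over `ℤ[ζ]`
-/

set_option autoImplicit false

open Polynomial

namespace Pool.Agent.HB

noncomputable section

namespace Ltz

/-! ## the polynomial identities -/

theorem poly (l m : ℕ) (hl : l.Prime) (hm : 1 ≤ m) :
    ∃ g u v h : ℤ[X], (X - C 1) ^ (l ^ m).totient = cyclotomic (l ^ m) ℤ + C (l : ℤ) * g ∧
      g * u + cyclotomic (l ^ m) ℤ * v = 1 ∧
      cyclotomic (l ^ m) ℤ = C (l : ℤ) + (X - C 1) * h := by
  haveI : Fact l.Prime := ⟨hl⟩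
  obtain ⟨m', rfl⟩ : ∃ m', m = m' + 1 := ⟨m - 1, by omega⟩
  set Φ : ℤ[X] := cyclotomic (l ^ (m' + 1)) ℤ with hΦ
  set φ : ℕ := (l ^ (m' + 1)).totient with hφ
  have hφe : φ = l ^ (m' + 1) - l ^ m' := by
    rw [hφ, Nat.totient_prime_pow_succ hl, pow_succ, Nat.mul_sub, mul_one]
  have hφ0 : 0 < φ := Nat.totient_pos.2 (pow_pos hl.pos _)
  have hΦ1 : Φ.eval 1 = (l : ℤ) := by
    rw [hΦ]; exact eval_one_cyclotomic_prime_pow m'
  have h1 : Φ.map (Int.castRingHom (ZMod l)) = ((X - C 1) ^ φ : ℤ[X]).map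
      (Int.castRingHom (ZMod l)) := by
    rw [hΦ, map_cyclotomic_int]
    have h2 := cyclotomic_mul_prime_pow_eq (ZMod l) (p := l) (m := 1)
      (fun h => hl.one_lt.ne' (Nat.dvd_one.1 h)) (k := m' + 1) (Nat.succ_pos _)
    rw [mul_one, cyclotomic_one, Nat.add_sub_cancel] at h2
    rw [h2, hφe]
    simp
  obtain ⟨g, hg⟩ : C (l : ℤ) ∣ ((X - C 1) ^ φ - Φ : ℤ[X]) := by
    rw [C_dvd_iff_dvd_coeff]
    intro i
    have h2 : (((X - C 1) ^ φ - Φ : ℤ[X]).map (Int.castRingHom (ZMod l))).coeff i = 0 := by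
      rw [Polynomial.map_sub, h1, sub_self, coeff_zero]
    rw [coeff_map] at h2
    exact (ZMod.intCast_zmod_eq_zero_iff_dvd _ _).1 h2
  have hg' : (X - C 1 : ℤ[X]) ^ φ = Φ + C (l : ℤ) * g := by rw [← hg]; ring
  have hl0 : (l : ℤ) ≠ 0 := by exact_mod_cast hl.ne_zero
  have hg1 : g.eval 1 = -1 := by
    have h2 := congrArg (eval 1) hg'
    rw [eval_pow, eval_sub, eval_X, eval_C, sub_self, zero_pow hφ0.ne', eval_add, eval_mul,
      eval_C, hΦ1] at h2
    have h3 : (l : ℤ) * (g.eval 1 + 1) = 0 := by linarith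
    rcases mul_eq_zero.1 h3 with h4 | h4
    · exact absurd h4 hl0
    · linarith
  obtain ⟨k, hk⟩ : (X - C 1 : ℤ[X]) ∣ g + 1 := by
    rw [dvd_iff_isRoot, IsRoot, eval_add, hg1, eval_one]; norm_num
  obtain ⟨w, hw⟩ : g ∣ (g + 1) ^ φ - 1 := by
    have h2 := sub_dvd_pow_sub_pow (g + 1) 1 φ
    rwa [add_sub_cancel_right, one_pow] at h2
  have h5 : (g + 1) ^ φ = (Φ + C (l : ℤ) * g) * k ^ φ := by rw [hk, mul_pow, hg']
  obtain ⟨h, hh⟩ : (X - C 1 : ℤ[X]) ∣ Φ - C (Φ.eval 1) := X_sub_C_dvd_sub_C_eval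
  refine ⟨g, C (l : ℤ) * k ^ φ - w, k ^ φ, h, hg', ?_, ?_⟩
  · have h6 : (g + 1) ^ φ = 1 + g * w := by rw [← hw]; ring
    have h7 := h5.symm.trans h6
    linear_combination h7
  · rw [← hh, hΦ1]; ring

/-! ## the additive statement -/

theorem prod_range_mul {M : Type} [CommMonoid M] (F : ℕ → M) (l q : ℕ) :
    ∏ i ∈ Finset.range (l * q), F i =
      ∏ j ∈ Finset.range q, ∏ i ∈ Finset.range l, F (i * q + j) := by
  rw [Finset.prod_comm]
  induction l with
  | zero => simp
  | succ n ih => rw [Nat.succ_mul, Finset.prod_range_add, ih, Finset.prod_range_succ]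

theorem natCard_range {Y : Type} [AddCommGroup Y] [Module.Finite ℤ Y] [Module.Free ℤ Y]
    (d : Y →ₗ[ℤ] Y) (hd : Function.Injective d) :
    Nat.card (Y ⧸ LinearMap.range d) = (LinearMap.det d).natAbs := by
  have h := Submodule.natAbs_det_equiv (LinearMap.range d) (LinearEquiv.ofInjective d hd)
  rw [← h]
  congr 1

theorem key {Y : Type} [AddCommGroup Y] [Module.Finite ℤ Y] [Module.Free ℤ Y]
    (f : Module.End ℤ Y) (l m : ℕ) (hl : l.Prime) (hm : 1 ≤ m)
    (hf : aeval f (cyclotomic (l ^ m) ℤ) = 0) :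
    Function.Injective (f - 1 : Module.End ℤ Y) ∧
    ∃ a, (LinearMap.det (f - 1)).natAbs = l ^ a ∧
      Module.finrank ℤ Y = (l ^ m).totient * a := by
  obtain ⟨g, u, v, h, h1, h2, h3⟩ := poly l m hl hm
  set F : Module.End ℤ Y := f - 1 with hF
  set φ : ℕ := (l ^ m).totient with hφ
  set r := Module.finrank ℤ Y with hr
  have hX : aeval f (X - C 1 : ℤ[X]) = F := by
    rw [map_sub, aeval_X, aeval_C, map_one]
  have e1 : F ^ φ = (l : ℤ) • aeval f g := by
    have := congrArg (aeval f) h1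
    rw [map_pow, hX, map_add, hf, zero_add, map_mul, aeval_C] at this
    rw [this, Algebra.algebraMap_eq_smul_one, smul_mul_assoc, one_mul]
  have e2 : aeval f g * aeval f u = 1 := by
    have := congrArg (aeval f) h2
    rwa [map_add, map_mul, map_mul, hf, zero_mul, add_zero, map_one] at this
  have e3 : (l : ℤ) • (1 : Module.End ℤ Y) = aeval f (-h) * F := by
    have h4 : C (l : ℤ) = cyclotomic (l ^ m) ℤ + (-h) * (X - C 1) := by
      linear_combination -h3
    have := congrArg (aeval f) h4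
    rw [map_add, hf, zero_add, map_mul, hX, aeval_C, Algebra.algebraMap_eq_smul_one] at this
    exact this
  have hl0 : (l : ℤ) ≠ 0 := by exact_mod_cast hl.ne_zero
  have hinj : Function.Injective F := by
    rw [← LinearMap.ker_eq_bot, LinearMap.ker_eq_bot']
    intro y hy
    have := LinearMap.congr_fun e3 y
    rw [LinearMap.smul_apply, Module.End.one_apply, Module.End.mul_apply, hy, map_zero] at this
    exact (smul_eq_zero.1 this).resolve_left hl0
  refine ⟨hinj, ?_⟩
  have d3 : (l : ℤ) ^ r = LinearMap.det (aeval f (-h)) * LinearMap.det F := by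
    have := congrArg LinearMap.det e3
    rwa [LinearMap.det_smul, map_one, mul_one, map_mul] at this
  have d1 : LinearMap.det F ^ φ = (l : ℤ) ^ r * LinearMap.det (aeval f g) := by
    have := congrArg LinearMap.det e1
    rwa [LinearMap.det_smul, map_pow] at this
  have d2 : IsUnit (LinearMap.det (aeval f g)) := by
    have := congrArg LinearMap.det e2
    rw [map_mul, map_one] at this
    exact IsUnit.of_mul_eq_one _ this
  have n3 : l ^ r = (LinearMap.det (aeval f (-h))).natAbs * (LinearMap.det F).natAbs := by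
    have := congrArg Int.natAbs d3
    rwa [Int.natAbs_pow, Int.natAbs_natCast, Int.natAbs_mul] at this
  have n1 : (LinearMap.det F).natAbs ^ φ = l ^ r := by
    have := congrArg Int.natAbs d1
    rwa [Int.natAbs_pow, Int.natAbs_mul, Int.natAbs_pow, Int.natAbs_natCast,
      Int.natAbs_of_isUnit d2, mul_one] at this
  obtain ⟨a, -, ha⟩ := (Nat.dvd_prime_pow hl).1 (Dvd.intro_left _ n3.symm)
  refine ⟨a, ha, ?_⟩
  rw [ha, ← pow_mul] at n1
  have := Nat.pow_right_injective hl.two_le n1
  rw [← this, mul_comm]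

end Ltz

open Ltz

theorem th_LTZ : Sh_LTZ := by
  intro G _ l m s hl hm hs U V hVU hsU hsV hfin htor hΦ
  have hit : ∀ (i : ℕ) (x : G), x ∈ U → (⇑s)^[i] x ∈ U := by
    intro i
    induction i with
    | zero => exact fun x hx => hx
    | succ n ih =>
      intro x hx
      rw [Function.iterate_succ_apply]
      exact ih _ (hsU x hx)
  have hDit : ∀ (i : ℕ) (x : G), x ∈ U → s x / x ∈ V → (⇑s)^[i] x / x ∈ V := by
    intro i
    induction i with
    | zero => intro x _ _; simp
    | succ n ih =>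
      intro x hx hd
      rw [Function.iterate_succ_apply']
      have h1 : s ((⇑s)^[n] x) / x = s ((⇑s)^[n] x / x) * (s x / x) := by
        rw [_root_.map_div, div_mul_div_cancel]
      rw [h1]
      exact mul_mem (hsV _ (ih x hx hd)) hd
  -- H0
  have hker : U ⊓ V.comap (DD s) ≤ V := by
    rintro x ⟨hx, hd⟩
    have hd' : s x / x ∈ V := hd
    refine htor x hx l hl.ne_zero ?_
    have h1 : ∏ i ∈ Finset.range l, ((⇑s)^[i * l ^ (m - 1)] x / x) ∈ V :=
      prod_mem fun i _ => hDit _ x hx hd'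
    rw [Finset.prod_div_distrib, Finset.prod_const, Finset.card_range] at h1
    have h2 := div_mem (hΦ x hx) h1
    rwa [div_div_cancel] at h2
  refine ⟨Subgroup.relIndex_eq_one.2 (hker.trans le_sup_right), ?_⟩
  -- the quotient module
  let Vu : Subgroup U := V.subgroupOf U
  let N : Submodule ℤ (Additive U) := AddSubgroup.toIntSubmodule (Subgroup.toAddSubgroup Vu)
  have hN : ∀ x : U, (Additive.ofMul x : Additive U) ∈ N ↔ (x : G) ∈ V := fun x => Iff.rfl
  let sU : U →* U := (s.comp U.subtype).codRestrict U (fun x => hsU x x.2)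
  have hsUc : ∀ x : U, ((sU x : U) : G) = s x := fun x => rfl
  let t : Module.End ℤ (Additive U) := (MonoidHom.toAdditive sU).toIntLinearMap
  have ht : ∀ x : U, t (Additive.ofMul x) = Additive.ofMul (sU x) := fun x => rfl
  have htN : N ≤ N.comap t := by
    intro x hx
    exact hsV _ hx
  let f : Module.End ℤ (Additive U ⧸ N) := N.mapQ N t htN
  have hfm : ∀ x : Additive U, f (N.mkQ x) = N.mkQ (t x) := fun x => rfl
  have hti : ∀ (i : ℕ) (x : U), (t ^ i) (Additive.ofMul x) =
      Additive.ofMul (⟨(⇑s)^[i] x, hit i x x.2⟩ : U) := by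
    intro i
    induction i with
    | zero => intro x; rfl
    | succ n ih =>
      intro x
      rw [pow_succ', Module.End.mul_apply, ih, ht]
      congr 1
      refine Subtype.ext ?_
      rw [hsUc]
      simp only [Function.iterate_succ_apply']
  have hfi : ∀ (i : ℕ) (x : Additive U), (f ^ i) (N.mkQ x) = N.mkQ ((t ^ i) x) := by
    intro i
    induction i with
    | zero => intro x; rfl
    | succ n ih =>
      intro x
      rw [pow_succ', Module.End.mul_apply, ih, hfm, pow_succ', Module.End.mul_apply]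
  haveI : Module.Finite ℤ (Additive U ⧸ N) := inferInstance
  have htf : ∀ (j : ℤ) (y : Additive U ⧸ N), j ≠ 0 → j • y = 0 → y = 0 := by
    intro j y hj hjy
    obtain ⟨x, rfl⟩ := N.mkQ_surjective y
    have h1 : (j.natAbs : ℤ) • N.mkQ x = 0 := by
      rcases Int.natAbs_eq j with h | h
      · rw [← h]; exact hjy
      · have : ((j.natAbs : ℕ) : ℤ) = -j := by omega
        rw [this, neg_smul, hjy, neg_zero]
    rw [← map_smul, Submodule.mkQ_apply, Submodule.Quotient.mk_eq_zero] at h1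
    rw [Submodule.mkQ_apply, Submodule.Quotient.mk_eq_zero]
    have h2 : ((x.toMul : U) : G) ^ j.natAbs ∈ V := by
      rw [natCast_zsmul] at h1
      exact h1
    exact htor _ x.toMul.2 _ (by omega) h2
  haveI : Module.IsTorsionFree ℤ (Additive U ⧸ N) := by
    refine Module.IsTorsionFree.mk ?_
    intro j hj y y' hyy
    have hj0 : j ≠ 0 := hj.ne_zero
    have : j • (y - y') = 0 := by rw [smul_sub]; exact sub_eq_zero.2 hyy
    exact sub_eq_zero.1 (htf j _ hj0 this)
  haveI : Module.Free ℤ (Additive U ⧸ N) := inferInstance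
  have hcyc : aeval f (cyclotomic (l ^ m) ℤ) = 0 := by
    obtain ⟨m', rfl⟩ : ∃ m', m = m' + 1 := ⟨m - 1, by omega⟩
    rw [cyclotomic_prime_pow_eq_geom_sum hl, map_sum]
    refine LinearMap.ext fun y => ?_
    obtain ⟨x, rfl⟩ := N.mkQ_surjective y
    rw [LinearMap.sum_apply, LinearMap.zero_apply]
    have h1 : ∀ i ∈ Finset.range l, (aeval f (((X : ℤ[X]) ^ l ^ m') ^ i)) (N.mkQ x) =
        N.mkQ (Additive.ofMul
          (⟨(⇑s)^[i * l ^ m'] x.toMul, hit _ _ x.toMul.2⟩ : U)) := by
      intro i _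
      rw [map_pow, map_pow, aeval_X, ← pow_mul, mul_comm, hfi]
      congr 1
      exact hti _ x.toMul
    rw [Finset.sum_congr rfl h1, ← map_sum, Submodule.mkQ_apply, Submodule.Quotient.mk_eq_zero]
    have h2 := hΦ _ x.toMul.2
    rw [Nat.add_sub_cancel] at h2
    rw [← ofMul_prod]
    rw [hN]
    push_cast
    exact h2
  obtain ⟨hinj, a, ha, hra⟩ := key f l m hl hm hcyc
  refine ⟨a, ?_, ?_⟩
  · rw [← ha, ← natCard_range _ hinj]
    -- the norm kills
    have hNN : U ⊓ V.comap (NN (l ^ m) s) = U := by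
      refine inf_eq_left.2 fun x hx => ?_
      show ∏ i ∈ Finset.range (l ^ m), (⇑s)^[i] x ∈ V
      obtain ⟨m', rfl⟩ : ∃ m', m = m' + 1 := ⟨m - 1, by omega⟩
      have h1 : ∏ i ∈ Finset.range (l ^ (m' + 1)), (⇑s)^[i] x =
          ∏ j ∈ Finset.range (l ^ m'), ∏ i ∈ Finset.range l, (⇑s)^[i * l ^ m'] ((⇑s)^[j] x) := by
        rw [pow_succ, mul_comm (l ^ m') l, prod_range_mul]
        refine Finset.prod_congr rfl fun j _ => Finset.prod_congr rfl fun i _ => ?_
        rw [Function.iterate_add_apply]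
      rw [h1]
      refine prod_mem fun j _ => ?_
      have h2 := hΦ _ (hit j x hx)
      rwa [Nat.add_sub_cancel] at h2
    show ((U.map (DD s) ⊔ V).relIndex (U ⊓ V.comap (NN (l ^ m) s))) = _
    rw [hNN]
    have hF : ∀ x : U, (f - 1) (N.mkQ (Additive.ofMul x)) =
        N.mkQ (Additive.ofMul (sU x / x)) := by
      intro x
      rw [LinearMap.sub_apply, Module.End.one_apply, hfm, ht, ← map_sub, ofMul_div]
    have hmem : ∀ x : U, N.mkQ (Additive.ofMul x) ∈ LinearMap.range (f - 1) ↔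
        (x : G) ∈ U.map (DD s) ⊔ V := by
      intro x
      rw [LinearMap.mem_range, Subgroup.mem_sup]
      constructor
      · rintro ⟨y, hy⟩
        obtain ⟨z, rfl⟩ := N.mkQ_surjective y
        have h1 := hF z.toMul
        rw [ofMul_toMul] at h1
        rw [h1] at hy
        have h2 : N.mkQ (Additive.ofMul x) - N.mkQ (Additive.ofMul (sU z.toMul / z.toMul)) = 0 :=
          sub_eq_zero.2 hy.symm
        rw [← map_sub, Submodule.mkQ_apply, Submodule.Quotient.mk_eq_zero, ← ofMul_div, hN] at h2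
        refine ⟨DD s z.toMul, ⟨z.toMul, z.toMul.2, rfl⟩, _, h2, ?_⟩
        push_cast
        exact mul_div_cancel _ _
      · rintro ⟨y, ⟨z, hz, rfl⟩, w, hw, hyw⟩
        refine ⟨N.mkQ (Additive.ofMul (⟨z, hz⟩ : U)), ?_⟩
        rw [hF, ← sub_eq_zero, ← map_sub, Submodule.mkQ_apply, Submodule.Quotient.mk_eq_zero,
          ← ofMul_div, hN]
        have h3 : (((sU ⟨z, hz⟩ / ⟨z, hz⟩) / x : U) : G) = w⁻¹ := by
          push_cast
          rw [← hyw]
          show DD s z / (DD s z * w) = w⁻¹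
          rw [div_mul_cancel_left]
        rw [h3]
        exact inv_mem hw
    have hH : Subgroup.toAddSubgroup ((U.map (DD s) ⊔ V).subgroupOf U) =
        (LinearMap.range (f - 1)).toAddSubgroup.comap N.mkQ.toAddMonoidHom := by
      ext x
      exact (hmem x.toMul).symm
    have h5 := AddSubgroup.index_comap_of_surjective (f := N.mkQ.toAddMonoidHom)
      (LinearMap.range (f - 1)).toAddSubgroup N.mkQ_surjective
    rw [← hH, Subgroup.index_toAddSubgroup] at h5
    exact h5
  · have h1 := N.finrank_quotient_add_finrank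
    have h2 : Module.finrank ℤ N = rk V := by
      let e : Additive Vu ≃+ Additive V :=
        MulEquiv.toAdditive (Subgroup.subgroupOfEquivOfLe hVU)
      exact (e.toIntLinearEquiv : Additive Vu ≃ₗ[ℤ] Additive V).finrank_eq
    have h3 : rk U = Module.finrank ℤ (Additive U) := rfl
    rw [h3, ← h1, hra, h2, add_comm]

end

end Pool.Agent.HB
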