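import Pool.Agent.HB.StHB

/-!
# HB, module NBL: a normal basis and its lattice (helper81)

`x` integral above `v` is `a / s` with `a` an integer of `K` and `s ∉ v` an integer of `k`; the integers of `K`
are a finitely generated module over the integers of `k`, so one exponent is enough.
-/

set_option autoImplicit false

open NumberField IsDedekindDomain

namespace Pool.Agent.HB

noncomputable section

namespace NBL

section
variable {k K : Type} [Field k] [NumberField k] [Field K] [NumberField K] [Algebra k K]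

lemma am (x : 𝓞 k) : algebraMap k K (x : k) = ((algebraMap (𝓞 k) (𝓞 K) x : 𝓞 K) : K) := rfl

/-- a prime above another prime does not contain a power of `v` -/
lemma sep (v : HeightOneSpectrum (𝓞 k)) (w : HeightOneSpectrum (𝓞 K)) (h : ¬ Lies k K v w)
    (e : ℕ) : ∃ t ∈ v.asIdeal ^ e, algebraMap (𝓞 k) (𝓞 K) t ∉ w.asIdeal := by
  by_contra hc
  push Not at hc
  have hp : (w.asIdeal.under (𝓞 k)).IsPrime := inferInstance
  have h1 : v.asIdeal ^ e ≤ w.asIdeal.under (𝓞 k) := fun t ht => hc t ht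
  have h2 : v.asIdeal ≤ w.asIdeal.under (𝓞 k) := Ideal.IsPrime.le_of_pow_le h1
  exact h (v.isMaximal.eq_of_le hp.ne_top h2).symm

omit [NumberField k] in
/-- a denominator -/
lemma den (y : K) : ∃ d : ℤ, d ≠ 0 ∧ ∃ b : 𝓞 K, (b : K) = (d : K) * y := by
  have h1 : IsAlgebraic ℤ y :=
    (IsFractionRing.isAlgebraic_iff ℤ ℚ K).2 (Algebra.IsAlgebraic.isAlgebraic y)
  obtain ⟨d, hd0, hd⟩ := h1.exists_integral_multiple
  refine ⟨d, hd0, ⟨d • y, hd⟩, ?_⟩
  show d • y = _
  rw [zsmul_eq_mul]

/-- an element which is integral above `v` is a fraction with denominator prime to `v` -/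
lemma frac (v : HeightOneSpectrum (𝓞 k)) (y : K) (hy : IntV k K v y) :
    ∃ s : 𝓞 k, s ∉ v.asIdeal ∧ ∃ a : 𝓞 K, algebraMap k K (s : k) * y = (a : K) := by
  obtain ⟨d', hd0', b, hb'⟩ := den y
  obtain ⟨d, hd⟩ : ∃ d : 𝓞 k, d = (d' : 𝓞 k) := ⟨_, rfl⟩
  have hd0 : d ≠ 0 := by
    rw [hd]
    exact_mod_cast hd0'
  have hb : (b : K) = algebraMap k K (d : k) * y := by
    rw [hb', hd]
    simp
  have hdI0 : Ideal.span {d} ≠ (0 : Ideal (𝓞 k)) := by
    rwa [Ne, Ideal.zero_eq_bot, Ideal.span_singleton_eq_bot]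
  obtain ⟨𝔟, hb1, hb2⟩ := (FiniteMultiplicity.of_prime_left v.prime
    hdI0).exists_eq_pow_mul_and_not_dvd
  set e := multiplicity v.asIdeal (Ideal.span {d}) with he
  rw [Ideal.dvd_iff_le] at hb2
  obtain ⟨s, hs, hsv⟩ := SetLike.not_le_iff_exists.1 hb2
  refine ⟨s, hsv, ?_⟩
  have hint : ∀ w : HeightOneSpectrum (𝓞 K),
      w.valuation K (algebraMap k K (s : k) * y) ≤ 1 := by
    intro w
    by_cases hw : Lies k K v w
    · rw [map_mul, am]
      exact mul_le_one' (w.valuation_le_one _) (hy w hw)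
    · obtain ⟨t, ht, htw⟩ := sep v w hw e
      have h1 : t * s ∈ Ideal.span {d} := by
        rw [hb1]
        exact Ideal.mul_mem_mul ht hs
      obtain ⟨r, hr⟩ := Ideal.mem_span_singleton'.1 h1
      have h2 : w.valuation K (algebraMap k K (t : k)) = 1 := by
        rw [am]
        refine le_antisymm (w.valuation_le_one _) ?_
        rw [← not_lt, w.valuation_lt_one_iff_mem]
        exact htw
      have h3 : algebraMap k K (t : k) * (algebraMap k K (s : k) * y) =
          (((algebraMap (𝓞 k) (𝓞 K) r) * b : 𝓞 K) : K) := by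
        have h4 : (r : k) * (d : k) = (t : k) * (s : k) := by
          exact_mod_cast congrArg (fun z : 𝓞 k => (z : k)) hr
        have h5 : (((algebraMap (𝓞 k) (𝓞 K) r) * b : 𝓞 K) : K) =
          ((algebraMap (𝓞 k) (𝓞 K) r : 𝓞 K) : K) * (b : K) := rfl
        rw [h5, hb, ← am, ← mul_assoc, ← map_mul, ← h4, map_mul, mul_assoc]
      have h5 : w.valuation K (algebraMap k K (t : k) * (algebraMap k K (s : k) * y)) ≤ 1 := by
        rw [h3]
        exact w.valuation_le_one _
      rw [map_mul, h2, one_mul] at h5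
      exact h5
  obtain ⟨a, ha⟩ := HeightOneSpectrum.mem_integers_of_valuation_le_one K _ hint
  exact ⟨a, ha.symm⟩

/-- powers of a uniformizer make an element integral -/
lemma bnd (v : HeightOneSpectrum (𝓞 k)) (π : kˣ) (hπ : ord v π = 1) (z : k) :
    ∃ c : ℕ, ∀ c' ≥ c, v.valuation k ((π : k) ^ c' * z) ≤ 1 := by
  by_cases hz : z = 0
  · exact ⟨0, fun c' _ => by rw [hz, mul_zero, map_zero]; exact zero_le_one⟩
  · refine ⟨(-ord v (Units.mk0 z hz)).toNat, fun c' hc' => ?_⟩
    have h1 : v.valuation k (π : k) = WithZero.exp (-1 : ℤ) := by rw [ord_val, hπ]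
    have h2 : v.valuation k z = WithZero.exp (-ord v (Units.mk0 z hz)) := by
      rw [← ord_val]; rfl
    rw [map_mul, map_pow, h1, h2, ← WithZero.exp_nsmul, ← WithZero.exp_add, ← WithZero.exp_zero,
      WithZero.exp_le_exp, nsmul_eq_mul]
    omega

/-- powers of an automorphism -/
lemma pow_app (σ : K ≃ₐ[k] K) (i : ℕ) (x : K) : (σ ^ i) x = (⇑σ)^[i] x := by
  induction i with
  | zero => rfl
  | succ i ih =>
    rw [pow_succ', AlgEquiv.mul_apply, ih, Function.iterate_succ_apply']

/-- the normal basis, indexed by exponents -/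
lemma basis (n : ℕ) (σ : K ≃ₐ[k] K) (h : Cyc n σ) : ∃ (θ : 𝓞 K) (b : Module.Basis (Fin n) k K),
    ∀ i : Fin n, b i = (⇑σ)^[(i : ℕ)] (θ : K) := by
  classical
  have := h.gal
  have hfin : Module.Finite k K := Module.Finite.of_restrictScalars_finite ℚ k K
  have hn : 0 < n := by
    rw [← h.deg]
    exact Module.finrank_pos
  set θ₀ : K := IsGalois.normalBasis k K 1 with hθ₀
  obtain ⟨d, hd0, θ, hθ⟩ := den θ₀
  have hcard : orderOf σ = n := by
    rw [orderOf_eq_card_of_forall_mem_zpowers h.gen, IsGalois.card_aut_eq_finrank, h.deg]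
  have hinj : Function.Injective (fun i : Fin n => σ ^ (i : ℕ)) := by
    intro i j hij
    have h1 : σ ^ (i : ℕ) = σ ^ (j : ℕ) := hij
    have h2 := (pow_inj_mod (x := σ)).1 h1
    rw [hcard, Nat.mod_eq_of_lt i.2, Nat.mod_eq_of_lt j.2] at h2
    exact Fin.ext h2
  have hli0 := (IsGalois.normalBasis k K).linearIndependent.comp _ hinj
  have hli : LinearIndependent k (fun i : Fin n => (⇑σ)^[(i : ℕ)] (θ : K)) := by
    have hdk : (d : k) ≠ 0 := by exact_mod_cast hd0
    have h1 := hli0.units_smul (fun _ => Units.mk0 (d : k) hdk)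
    convert h1 using 1
    ext i
    show (⇑σ)^[(i : ℕ)] (θ : K) = (d : k) • (IsGalois.normalBasis k K (σ ^ (i : ℕ)))
    rw [IsGalois.normalBasis_apply, ← hθ₀, ← pow_app, hθ, map_mul, map_intCast,
      Algebra.smul_def, map_intCast]
  have hne : Nonempty (Fin n) := ⟨⟨0, hn⟩⟩
  refine ⟨θ, basisOfLinearIndependentOfCardEqFinrank hli (by
    rw [Fintype.card_fin, h.deg]), fun i => ?_⟩
  rw [coe_basisOfLinearIndependentOfCardEqFinrank]

/-- one exponent for all integers -/
lemma unif (v : HeightOneSpectrum (𝓞 k)) (π : kˣ) (hπ : ord v π = 1) (n : ℕ)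
    (b : Module.Basis (Fin n) k K) :
    ∃ c : ℕ, ∀ (a : 𝓞 K) (i : Fin n), v.valuation k ((π : k) ^ c * b.repr (a : K) i) ≤ 1 := by
  classical
  obtain ⟨S, hS⟩ := (inferInstance : Module.Finite (𝓞 k) (𝓞 K)).fg_top
  choose C hC using bnd v π hπ
  refine ⟨S.sup fun β => Finset.univ.sup fun i => C (b.repr (β : K) i), ?_⟩
  set c := S.sup fun β => Finset.univ.sup fun i => C (b.repr (β : K) i) with hc
  intro a
  have ha : a ∈ Submodule.span (𝓞 k) (S : Set (𝓞 K)) := by
    rw [hS]; exact Submodule.mem_top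
  induction ha using Submodule.span_induction with
  | mem x hx =>
    intro i
    refine hC _ _ ?_
    refine le_trans ?_ (Finset.le_sup (f := fun β : 𝓞 K => Finset.univ.sup fun i : Fin n =>
      C (b.repr (β : K) i)) hx)
    exact Finset.le_sup (f := fun i : Fin n => C (b.repr (x : K) i)) (Finset.mem_univ i)
  | zero =>
    intro i
    simp
  | add x y _ _ hx hy =>
    intro i
    have e : (π : k) ^ c * b.repr ((x + y : 𝓞 K) : K) i =
        (π : k) ^ c * b.repr (x : K) i + (π : k) ^ c * b.repr (y : K) i := by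
      have h1 : ((x + y : 𝓞 K) : K) = (x : K) + (y : K) := rfl
      rw [h1, map_add, Finsupp.add_apply, mul_add]
    rw [e]
    exact (v.valuation k).map_add_le (hx i) (hy i)
  | smul r x _ hx =>
    intro i
    have e : (π : k) ^ c * b.repr ((r • x : 𝓞 K) : K) i =
        (r : k) * ((π : k) ^ c * b.repr (x : K) i) := by
      have h1 : ((r • x : 𝓞 K) : K) = (r : k) • (x : K) := by
        have h2 : ((algebraMap (𝓞 k) (𝓞 K) r * x : 𝓞 K) : K) =
          ((algebraMap (𝓞 k) (𝓞 K) r : 𝓞 K) : K) * (x : K) := rfl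
        rw [Algebra.smul_def, h2, ← am, Algebra.smul_def]
      rw [h1, map_smul, Finsupp.smul_apply, smul_eq_mul]
      ring
    rw [e, map_mul]
    exact mul_le_one' (v.valuation_le_one r) (hx i)

/-- a sum over the exponents -/
lemma sum_eq (n : ℕ) (σ : K ≃ₐ[k] K) (θ : K) (a : ℕ → k) :
    ∑ i ∈ Finset.range n, algebraMap k K (a i) * (⇑σ)^[i] θ =
      ∑ i : Fin n, a (i : ℕ) • (⇑σ)^[(i : ℕ)] θ := by
  rw [Finset.sum_range]
  exact Finset.sum_congr rfl fun i _ => (Algebra.smul_def _ _).symm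

end

end NBL

open NBL in
theorem th_NBL : Sh_NBL := by
  intro k K _ _ _ _ _ n σ hcyc v
  classical
  obtain ⟨π₀, hπ₀⟩ := v.valuation_exists_uniformizer k
  have hπne : π₀ ≠ 0 := by
    rintro rfl
    rw [map_zero] at hπ₀
    exact WithZero.exp_ne_zero hπ₀.symm
  obtain ⟨π, hπe⟩ : ∃ π : kˣ, (π : k) = π₀ := ⟨Units.mk0 π₀ hπne, rfl⟩
  have hπ : ord v π = 1 := by
    unfold ord
    rw [hπe, hπ₀, WithZero.log_exp]
    ring
  obtain ⟨θ, b, hb⟩ := basis n σ hcyc
  obtain ⟨c, hc⟩ := unif v π hπ n b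
  have hsum : ∀ x : K, x = ∑ i ∈ Finset.range n,
      algebraMap k K ((fun j : ℕ => if h : j < n then b.repr x ⟨j, h⟩ else 0) i) *
        (⇑σ)^[i] (θ : K) := by
    intro x
    rw [sum_eq]
    conv_lhs => rw [← b.sum_repr x]
    refine Finset.sum_congr rfl fun i _ => ?_
    rw [hb i]
    simp
  refine ⟨π, (θ : K), c, hπ, fun w _ => w.valuation_le_one θ, ?_, fun x => ⟨_, hsum x⟩, ?_⟩
  · intro a ha i hi
    rw [sum_eq] at ha
    have h1 := Fintype.linearIndependent_iff.1 b.linearIndependent (fun i : Fin n => a (i : ℕ)) (by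
      rw [← ha]
      exact Finset.sum_congr rfl fun i _ => by rw [hb i]) ⟨i, hi⟩
    exact h1
  · intro x hx
    obtain ⟨s, hs, a, ha⟩ := frac v x hx
    have hsv : v.valuation k (s : k) = 1 := by
      refine le_antisymm (v.valuation_le_one _) ?_
      rw [← not_lt, v.valuation_lt_one_iff_mem]
      exact hs
    have hs0 : (s : k) ≠ 0 := by
      intro h
      rw [h, map_zero] at hsv
      exact zero_ne_one hsv
    refine ⟨fun j => (s : k)⁻¹ * ((π : k) ^ c *
      (if h : j < n then b.repr (a : K) ⟨j, h⟩ else 0)), ?_, ?_⟩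
    · intro i
      rw [map_mul, map_inv₀, hsv, inv_one, one_mul]
      by_cases h : i < n
      · rw [dif_pos h]
        exact hc a _
      · rw [dif_neg h, mul_zero, map_zero]
        exact zero_le_one
    · have hsK : algebraMap k K (s : k) ≠ 0 := by
        rwa [Ne, map_eq_zero]
      have h2 := hsum (a : K)
      have h3 : x = (algebraMap k K (s : k))⁻¹ * (a : K) := by
        rw [← ha, ← mul_assoc, inv_mul_cancel₀ hsK, one_mul]
      rw [h3]
      conv_lhs => rw [h2]
      rw [Finset.mul_sum, Finset.mul_sum]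
      refine Finset.sum_congr rfl fun i _ => ?_
      simp only [map_mul, map_inv₀, map_pow]
      ring

end

end Pool.Agent.HB
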