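import Pool.Agent.HB.StHB

/-!
# HB, module NON (helper54): the first inequality
-/

set_option autoImplicit false

open NumberField IsDedekindDomain

namespace Pool.Agent.HB

noncomputable section

theorem th_NON (hIXW : Sh_IXW) (hSUN : Sh_SUN) (hORG : Sh_ORG) : Sh_NON := by
  intro k K _ _ _ _ _ l m σ hl hC hTC S hU hG W hW
  obtain ⟨n, hn⟩ : ∃ n, n = l ^ m := ⟨_, rfl⟩
  have hn0 : n ≠ 0 := by rw [hn]; exact pow_ne_zero _ hl.ne_zero
  have hsun := hSUN k K l m σ hl hC hTC S hU hG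
  obtain ⟨π, -, -, -, -, -, -, -, hgp⟩ := hORG k K (l ^ m) σ hC
  rw [← hn] at hsun hgp hW ⊢
  have hix := hIXW k K n S W hW
  obtain ⟨W', hW'⟩ : ∃ W', W' = ⨅ v ∈ S, W v := ⟨_, rfl⟩
  obtain ⟨Ek, hEk⟩ : ∃ Ek, Ek = EU (S : Set (HeightOneSpectrum (𝓞 k))) := ⟨_, rfl⟩
  obtain ⟨N, hN⟩ : ∃ N, N = (EU (abv k K (S : Set (HeightOneSpectrum (𝓞 k))))).map (nu k K) :=
    ⟨_, rfl⟩
  rw [← hW'] at hix ⊢
  rw [← hEk] at hsun ⊢
  rw [← hN] at hsun
  have hWi : W'.index ≠ 0 := by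
    rw [hix, Finset.prod_ne_zero_iff]
    exact fun v hv => (hW v hv).fin
  have hprod : ∏ v ∈ S, (n / gpr k K v) ≤ W'.index := by
    rw [hix]
    refine Finset.prod_le_prod' fun v hv => ?_
    refine Nat.div_le_of_le_mul ?_
    rw [mul_comm]
    exact (hW v hv).big
  have hprod0 : ∏ v ∈ S, (n / gpr k K v) ≠ 0 := by
    rw [Finset.prod_ne_zero_iff]
    intro v _
    have h1 := hgp v
    have h2 : gpr k K v ≤ n := Nat.le_of_dvd (Nat.pos_of_ne_zero hn0) h1.1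
    exact (Nat.div_pos h2 (Nat.pos_of_ne_zero h1.2)).ne'
  have hNW : N ≤ W' := by
    rw [hN, hW']
    rintro x ⟨z, -, rfl⟩
    simp only [Subgroup.mem_iInf]
    exact fun v hv => (hW v hv).nrm z
  have hdvd : W'.relIndex Ek ∣ N.relIndex Ek := Subgroup.relIndex_dvd_of_le_left Ek hNW
  have hb0 : N.relIndex Ek ≠ 0 := by
    intro h
    rw [h, zero_mul] at hsun
    exact hprod0 hsun.symm
  have hab : W'.relIndex Ek ≤ N.relIndex Ek := Nat.le_of_dvd (Nat.pos_of_ne_zero hb0) hdvd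
  have hmul : W'.relIndex Ek * (W' ⊔ Ek).index = W'.index := by
    have h1 := Subgroup.relIndex_mul_index (le_sup_left : W' ≤ W' ⊔ Ek)
    rw [sup_comm W' Ek, Subgroup.relIndex_sup_right] at h1
    rw [sup_comm W' Ek]
    exact h1
  refine ⟨fun h => hWi ?_, ?_⟩
  · rw [← hmul, h, mul_zero]
  · refine Nat.le_of_mul_le_mul_left ?_ (Nat.pos_of_ne_zero hb0)
    calc N.relIndex Ek * n = ∏ v ∈ S, (n / gpr k K v) := hsun
      _ ≤ W'.index := hprod
      _ = W'.relIndex Ek * (W' ⊔ Ek).index := hmul.symm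
      _ ≤ N.relIndex Ek * (W' ⊔ Ek).index := Nat.mul_le_mul_right _ hab

end

end Pool.Agent.HB
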