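import Pool.Agent.HB.StHB

/-!
# HB, module ORG: orders and Galois conjugation (helper90)
-/

set_option autoImplicit false
set_option linter.unusedSectionVars false

open NumberField IsDedekindDomain
open scoped nonZeroDivisors Pointwise

namespace Pool.Agent.HB

noncomputable section

section
variable {k K : Type} [Field k] [NumberField k] [Field K] [NumberField K] [Algebra k K]

omit [NumberField k] [NumberField K] in
private lemma org_coe_smul (σ : K ≃ₐ[k] K) (x : 𝓞 K) : ((σ • x : 𝓞 K) : K) = σ (x : K) := rfl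

/-- the action of `σ` on the primes -/
private def orgFun (σ : K ≃ₐ[k] K) (w : HeightOneSpectrum (𝓞 K)) : HeightOneSpectrum (𝓞 K) where
  asIdeal := σ • w.asIdeal
  isPrime := by
    have := w.isPrime
    infer_instance
  ne_bot := by
    intro h
    apply w.ne_bot
    rw [eq_bot_iff]
    intro x hx
    have h1 : σ • x ∈ σ • w.asIdeal := Ideal.smul_mem_pointwise_smul_iff.mpr hx
    rw [h, Ideal.mem_bot] at h1
    rw [Ideal.mem_bot]
    exact (smul_eq_zero_iff_eq σ).mp h1

omit [NumberField k] [NumberField K] in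
private lemma orgFun_as (σ : K ≃ₐ[k] K) (w : HeightOneSpectrum (𝓞 K)) :
    (orgFun σ w).asIdeal = σ • w.asIdeal := rfl

private def orgPerm (σ : K ≃ₐ[k] K) : Equiv.Perm (HeightOneSpectrum (𝓞 K)) where
  toFun := orgFun σ
  invFun := orgFun σ⁻¹
  left_inv w := by
    apply HeightOneSpectrum.ext
    rw [orgFun_as, orgFun_as, inv_smul_smul]
  right_inv w := by
    apply HeightOneSpectrum.ext
    rw [orgFun_as, orgFun_as, smul_inv_smul]

omit [NumberField k] [NumberField K] in
private lemma orgPerm_as (σ : K ≃ₐ[k] K) (w : HeightOneSpectrum (𝓞 K)) :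
    (orgPerm σ w).asIdeal = σ • w.asIdeal := rfl

private lemma orgPerm_iter (σ : K ≃ₐ[k] K) (w : HeightOneSpectrum (𝓞 K)) (i : ℕ) :
    ((⇑(orgPerm σ))^[i] w).asIdeal = (σ ^ i) • w.asIdeal := by
  induction i with
  | zero => simp
  | succ i ih =>
    rw [Function.iterate_succ_apply', orgPerm_as, ih, smul_smul, pow_succ']

private lemma org_pow_mem (σ : K ≃ₐ[k] K) (w : HeightOneSpectrum (𝓞 K)) (r : 𝓞 K) (n : ℕ) :
    σ • r ∈ (orgPerm σ w).asIdeal ^ n ↔ r ∈ w.asIdeal ^ n := by
  rw [orgPerm_as, ← smul_pow', Ideal.smul_mem_pointwise_smul_iff]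

private lemma org_int (σ : K ≃ₐ[k] K) (w : HeightOneSpectrum (𝓞 K)) (r : 𝓞 K) :
    (orgPerm σ w).intValuation (σ • r) = w.intValuation r := by
  by_cases hr : r = 0
  · subst hr
    simp
  have hr' : σ • r ≠ 0 := by
    intro h
    exact hr ((smul_eq_zero_iff_eq σ).mp h)
  have key : ∀ n : ℕ, (orgPerm σ w).intValuation (σ • r) ≤ WithZero.exp (-(n : ℤ)) ↔
      w.intValuation r ≤ WithZero.exp (-(n : ℤ)) := by
    intro n
    rw [HeightOneSpectrum.intValuation_le_pow_iff_mem, HeightOneSpectrum.intValuation_le_pow_iff_mem,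
      org_pow_mem]
  rw [HeightOneSpectrum.intValuation_eq_exp_neg_multiplicity _ hr'] at key ⊢
  rw [HeightOneSpectrum.intValuation_eq_exp_neg_multiplicity _ hr] at key ⊢
  apply le_antisymm
  · exact (key _).mpr le_rfl
  · exact (key _).mp le_rfl

private lemma org_val (σ : K ≃ₐ[k] K) (w : HeightOneSpectrum (𝓞 K)) (x : K) :
    (orgPerm σ w).valuation K (σ x) = w.valuation K x := by
  obtain ⟨a, b, hb, rfl⟩ := IsFractionRing.div_surjective (A := 𝓞 K) x
  rw [map_div₀, map_div₀, map_div₀]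
  have h1 : ∀ a : 𝓞 K, (orgPerm σ w).valuation K (σ (algebraMap (𝓞 K) K a)) =
      w.valuation K (algebraMap (𝓞 K) K a) := by
    intro a
    have h2 : σ (algebraMap (𝓞 K) K a) = algebraMap (𝓞 K) K (σ • a) := rfl
    rw [h2, HeightOneSpectrum.valuation_of_algebraMap, HeightOneSpectrum.valuation_of_algebraMap,
      org_int]
  rw [h1 a, h1 b]

private lemma org_lies (σ : K ≃ₐ[k] K) (v : HeightOneSpectrum (𝓞 k)) (w : HeightOneSpectrum (𝓞 K))
    (h : Lies k K v w) : Lies k K v (orgPerm σ w) := by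
  unfold Lies at *
  rw [← h]
  ext x
  rw [Ideal.under, Ideal.mem_comap, Ideal.under, Ideal.mem_comap, orgPerm_as]
  have h2 : algebraMap (𝓞 k) (𝓞 K) x = σ • algebraMap (𝓞 k) (𝓞 K) x := by
    apply RingOfIntegers.ext
    rw [org_coe_smul]
    have h3 : ((algebraMap (𝓞 k) (𝓞 K) x : 𝓞 K) : K) = algebraMap k K (x : k) := rfl
    rw [h3, AlgEquiv.commutes]
  conv_lhs => rw [h2]
  rw [Ideal.smul_mem_pointwise_smul_iff]

end

theorem th_ORG : Sh_ORG := by
  intro k K _ _ _ _ _ n σ hcyc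
  have hgal := hcyc.gal
  have hcard : Nat.card (K ≃ₐ[k] K) = n := by
    rw [IsGalois.card_aut_eq_finrank, hcyc.deg]
  have hpow : σ ^ n = 1 := by
    rw [← hcard]
    exact pow_card_eq_one'
  have hfin : ∀ v : HeightOneSpectrum (𝓞 k), (Ideal.primesOver v.asIdeal (𝓞 K)).Finite := by
    intro v
    have := v.isMaximal
    exact IsDedekindDomain.primesOver_finite v.asIdeal (𝓞 K)
  have heq : ∀ v : HeightOneSpectrum (𝓞 k),
      Nonempty ({w : HeightOneSpectrum (𝓞 K) // Lies k K v w} ≃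
        Ideal.primesOver v.asIdeal (𝓞 K)) := by
    intro v
    refine ⟨{ toFun := fun w => ⟨w.1.asIdeal, w.1.isPrime, ⟨w.2.symm⟩⟩
              invFun := fun P => ⟨⟨P.1, P.2.1, ?_⟩, P.2.2.over.symm⟩
              left_inv := fun w => rfl
              right_inv := fun P => rfl }⟩
    intro h0
    apply v.ne_bot
    have h1 := P.2.2.over
    rw [h1, h0]
    exact Ideal.under_bot (𝓞 k) (𝓞 K)
  have hex : ∀ v : HeightOneSpectrum (𝓞 k), ∃ w : HeightOneSpectrum (𝓞 K), Lies k K v w := by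
    intro v
    have := v.isMaximal
    obtain ⟨e⟩ := heq v
    obtain ⟨P⟩ := (inferInstance : Nonempty (Ideal.primesOver v.asIdeal (𝓞 K)))
    exact ⟨(e.symm P).1, (e.symm P).2⟩
  have hfinS : ∀ v : HeightOneSpectrum (𝓞 k),
      Finite {w : HeightOneSpectrum (𝓞 K) // Lies k K v w} := by
    intro v
    obtain ⟨e⟩ := heq v
    have := (hfin v).to_subtype
    exact Finite.of_equiv _ e.symm
  refine ⟨orgPerm σ, ?_, ?_, ?_, ?_, hex, ?_, hfinS, ?_⟩
  · intro w x
    unfold ord
    have h1 : ((su σ x : Kˣ) : K) = σ (x : K) := rfl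
    rw [h1, org_val]
  · intro v w h
    exact org_lies σ v w h
  · intro v w w' hw hw'
    have := w.isPrime
    have := w'.isPrime
    have h1 : w.asIdeal.LiesOver v.asIdeal := ⟨hw.symm⟩
    have h2 : w'.asIdeal.LiesOver v.asIdeal := ⟨hw'.symm⟩
    obtain ⟨τ, hτ⟩ := Ideal.exists_smul_eq_of_isGaloisGroup v.asIdeal w.asIdeal w'.asIdeal (K ≃ₐ[k] K)
    have h3 := hcyc.gen τ
    rw [← mem_powers_iff_mem_zpowers] at h3
    obtain ⟨i, hi⟩ := h3
    refine ⟨i, ?_⟩
    apply HeightOneSpectrum.ext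
    rw [orgPerm_iter, ← hτ]
    simp only at hi
    rw [hi]
  · intro w
    apply HeightOneSpectrum.ext
    rw [orgPerm_iter, hpow, one_smul]
  · intro w
    exact ⟨HeightOneSpectrum.under (𝓞 k) w, rfl⟩
  · intro v
    obtain ⟨e⟩ := heq v
    have := v.isMaximal
    have hg : gpr k K v = Nat.card (Ideal.primesOver v.asIdeal (𝓞 K)) := Nat.card_congr e
    have hne : Nonempty {w : HeightOneSpectrum (𝓞 K) // Lies k K v w} := by
      obtain ⟨w, hw⟩ := hex v
      exact ⟨⟨w, hw⟩⟩
    refine ⟨?_, ?_⟩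
    · rw [hg]
      obtain ⟨P⟩ := (inferInstance : Nonempty (Ideal.primesOver v.asIdeal (𝓞 K)))
      have htr := Ideal.isPretransitive_of_isGaloisGroup (B := 𝓞 K) v.asIdeal (K ≃ₐ[k] K)
      have h5 := @MulAction.index_stabilizer_of_transitive (K ≃ₐ[k] K) _ _
        Ideal.instMulActionElemPrimesOver P htr
      rw [← h5, ← hcard]
      exact Subgroup.index_dvd_card _
    · have := hfinS v
      unfold gpr
      exact Nat.card_pos.ne'

end

end Pool.Agent.HB
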