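import Pool.Agent.HB.StHB

/-!
# HB, module ORN: orders, the inclusion and the norm
-/

set_option autoImplicit false

open NumberField IsDedekindDomain
open scoped nonZeroDivisors

namespace Pool.Agent.HB

namespace ORN

/-- every automorphism is a power `σ^i`, `i < n` -/
lemma card_eq {k K : Type} [Field k] [NumberField k] [Field K] [NumberField K] [Algebra k K]
    {n : ℕ} {σ : K ≃ₐ[k] K} (h : Cyc n σ) : orderOf σ = n := by
  have h1 := h.gal
  rw [orderOf_eq_card_of_forall_mem_zpowers h.gen, ← h.deg, IsGalois.card_aut_eq_finrank]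

lemma pow_apply' {k K : Type} [Field k] [Field K] [Algebra k K] (σ : K ≃ₐ[k] K) (i : ℕ) (x : K) :
    (σ ^ i) x = (⇑σ)^[i] x := by
  induction i with
  | zero => rfl
  | succ i ih => rw [pow_succ', AlgEquiv.mul_apply, ih, Function.iterate_succ_apply']

lemma exists_pow {k K : Type} [Field k] [NumberField k] [Field K] [NumberField K] [Algebra k K]
    {n : ℕ} {σ : K ≃ₐ[k] K} (h : Cyc n σ) (τ : K ≃ₐ[k] K) : ∃ i < n, τ = σ ^ i := by
  classical
  have h1 := h.gen τ
  rw [mem_zpowers_iff_mem_range_orderOf, Finset.mem_image] at h1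
  obtain ⟨i, hi, rfl⟩ := h1
  rw [Finset.mem_range, card_eq h] at hi
  exact ⟨i, hi, rfl⟩

lemma su_iter {k K : Type} [Field k] [NumberField k] [Field K] [NumberField K] [Algebra k K]
    (σ : K ≃ₐ[k] K) (i : ℕ) (x : Kˣ) : (((⇑(su σ))^[i] x : Kˣ) : K) = (⇑σ)^[i] (x : K) := by
  induction i with
  | zero => rfl
  | succ i ih =>
    rw [Function.iterate_succ_apply', Function.iterate_succ_apply', ← ih]
    rfl

lemma prod_aut {k K : Type} [Field k] [NumberField k] [Field K] [NumberField K] [Algebra k K]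
    {n : ℕ} {σ : K ≃ₐ[k] K} (h : Cyc n σ) (x : K) :
    algebraMap k K (Algebra.norm k x) = ∏ i ∈ Finset.range n, (⇑σ)^[i] x := by
  classical
  have h1 := h.gal
  rw [Algebra.norm_eq_prod_automorphisms]
  symm
  refine Finset.prod_bij (fun i _ => σ ^ i) (fun i _ => Finset.mem_univ _) ?_ ?_ ?_
  · intro i hi j hj hij
    rw [Finset.mem_range] at hi hj
    rw [← card_eq h] at hi hj
    exact pow_injOn_Iio_orderOf hi hj hij
  · intro τ _
    obtain ⟨i, hi, rfl⟩ := exists_pow h τ
    exact ⟨i, Finset.mem_range.2 hi, rfl⟩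
  · intro i _
    rw [pow_apply']

lemma ord_prod {F : Type} [Field F] [NumberField F] (w : HeightOneSpectrum (𝓞 F)) {ι : Type}
    (s : Finset ι) (f : ι → Fˣ) : ord w (∏ i ∈ s, f i) = ∑ i ∈ s, ord w (f i) := by
  classical
  induction s using Finset.induction_on with
  | empty => simp
  | insert a s ha ih => rw [Finset.prod_insert ha, Finset.sum_insert ha, ord_mul, ih]

/-- the sum over the orbit, averaged -/
lemma average {X : Type} [Fintype X] (π : Equiv.Perm X) (n : ℕ) (hn : ∀ x, (⇑π)^[n] x = x)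
    (htr : ∀ x y : X, ∃ i : ℕ, (⇑π)^[i] x = y) (φ : X → ℤ) (x : X) :
    (Fintype.card X : ℤ) * ∑ i ∈ Finset.range n, φ ((⇑π)^[i] x) = n * ∑ y, φ y := by
  have hshift : ∀ y, ∑ i ∈ Finset.range n, φ ((⇑π)^[i] (π y)) =
      ∑ i ∈ Finset.range n, φ ((⇑π)^[i] y) := by
    intro y
    have h1 : ∑ i ∈ Finset.range (n + 1), φ ((⇑π)^[i] y) =
        ∑ i ∈ Finset.range n, φ ((⇑π)^[i] (π y)) + φ y := by
      rw [Finset.sum_range_succ']
      simp only [Function.iterate_succ_apply, Function.iterate_zero_apply]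
    have h2 : ∑ i ∈ Finset.range (n + 1), φ ((⇑π)^[i] y) =
        ∑ i ∈ Finset.range n, φ ((⇑π)^[i] y) + φ y := by
      rw [Finset.sum_range_succ, hn]
    linarith
  have hiter : ∀ (j : ℕ) (y : X), ∑ i ∈ Finset.range n, φ ((⇑π)^[i] ((⇑π)^[j] y)) =
      ∑ i ∈ Finset.range n, φ ((⇑π)^[i] y) := by
    intro j y
    induction j with
    | zero => rfl
    | succ j ih => rw [Function.iterate_succ_apply', hshift, ih]
  have hconst : ∀ y : X, ∑ i ∈ Finset.range n, φ ((⇑π)^[i] y) =
      ∑ i ∈ Finset.range n, φ ((⇑π)^[i] x) := by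
    intro y
    obtain ⟨j, rfl⟩ := htr x y
    exact hiter j x
  have hsum : ∑ y : X, ∑ i ∈ Finset.range n, φ ((⇑π)^[i] y) =
      (Fintype.card X : ℤ) * ∑ i ∈ Finset.range n, φ ((⇑π)^[i] x) := by
    rw [Finset.sum_congr rfl fun y _ => hconst y, Finset.sum_const, Finset.card_univ, nsmul_eq_mul]
  rw [← hsum, Finset.sum_comm]
  have : ∀ i ∈ Finset.range n, ∑ y : X, φ ((⇑π)^[i] y) = ∑ y, φ y := by
    intro i _
    have := Equiv.sum_comp (π ^ i) φ
    rw [← this]
    refine Finset.sum_congr rfl fun y _ => ?_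
    rw [Equiv.Perm.iterate_eq_pow]
  rw [Finset.sum_congr rfl this, Finset.sum_const, Finset.card_range, nsmul_eq_mul]

lemma lies_unique {k K : Type} [Field k] [NumberField k] [Field K] [NumberField K] [Algebra k K]
    {v v' : HeightOneSpectrum (𝓞 k)} {w : HeightOneSpectrum (𝓞 K)} (h : Lies k K v w)
    (h' : Lies k K v' w) : v = v' := by
  apply HeightOneSpectrum.ext
  exact h.symm.trans h'

lemma ord_iter {k K : Type} [Field k] [NumberField k] [Field K] [NumberField K] [Algebra k K]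
    {σ : K ≃ₐ[k] K} (π : Equiv.Perm (HeightOneSpectrum (𝓞 K)))
    (hπ : ∀ w x, ord (π w) (su σ x) = ord w x) (i : ℕ) (w : HeightOneSpectrum (𝓞 K)) (z : Kˣ) :
    ord w ((⇑(su σ))^[i] z) = ord ((⇑π.symm)^[i] w) z := by
  induction i generalizing w with
  | zero => rfl
  | succ i ih =>
    rw [Function.iterate_succ_apply', Function.iterate_succ_apply]
    have h1 := hπ (π.symm w) ((⇑(su σ))^[i] z)
    rw [Equiv.apply_symm_apply] at h1
    rw [h1, ih]

/-- the order of the norm -/
lemma ord_norm {k K : Type} [Field k] [NumberField k] [Field K] [NumberField K] [Algebra k K]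
    {n : ℕ} {σ : K ≃ₐ[k] K} (hc : Cyc n σ) (π : Equiv.Perm (HeightOneSpectrum (𝓞 K)))
    (hπ : ∀ w x, ord (π w) (su σ x) = ord w x)
    (hl : ∀ v w, Lies k K v w → Lies k K v (π w))
    (htr : ∀ v w w', Lies k K v w → Lies k K v w' → ∃ i : ℕ, (⇑π)^[i] w = w')
    (hn : ∀ w, (⇑π)^[n] w = w) (hbelow : ∀ w, ∃ v, Lies k K v w)
    (v : HeightOneSpectrum (𝓞 k)) [Fintype {w : HeightOneSpectrum (𝓞 K) // Lies k K v w}]
    (w : HeightOneSpectrum (𝓞 K)) (hw : Lies k K v w) (z : Kˣ) :
    (gpr k K v : ℤ) * ord w (iu k K (nu k K z)) =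
      n * ∑ w' : {w : HeightOneSpectrum (𝓞 K) // Lies k K v w}, ord w'.1 z := by
  have hiff : ∀ w, Lies k K v (π w) ↔ Lies k K v w := by
    intro w
    constructor
    · intro h
      obtain ⟨v', hv'⟩ := hbelow w
      rwa [lies_unique h (hl v' w hv')]
    · exact hl v w
  set ρ : Equiv.Perm {w : HeightOneSpectrum (𝓞 K) // Lies k K v w} := π.subtypePerm hiff with hρ
  have hval : ∀ (i : ℕ) (x : {w : HeightOneSpectrum (𝓞 K) // Lies k K v w}),
      ((⇑ρ)^[i] x).1 = (⇑π)^[i] x.1 := by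
    intro i x
    induction i with
    | zero => rfl
    | succ i ih =>
      rw [Function.iterate_succ_apply', Function.iterate_succ_apply', ← ih]
      rfl
  have hvals : ∀ (i : ℕ) (x : {w : HeightOneSpectrum (𝓞 K) // Lies k K v w}),
      ((⇑ρ.symm)^[i] x).1 = (⇑π.symm)^[i] x.1 := by
    intro i x
    induction i with
    | zero => rfl
    | succ i ih =>
      rw [Function.iterate_succ_apply', Function.iterate_succ_apply', ← ih]
      apply π.injective
      rw [Equiv.apply_symm_apply]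
      have : ∀ y, π (ρ.symm y).1 = y.1 := fun y => by
        have h2 : (ρ (ρ.symm y)).1 = y.1 := by rw [Equiv.apply_symm_apply]
        exact h2
      exact this _
  have hρn : ∀ x, (⇑ρ)^[n] x = x := fun x => Subtype.ext (by rw [hval, hn])
  have hinv : ∀ (i : ℕ) (x : {w : HeightOneSpectrum (𝓞 K) // Lies k K v w}),
      (⇑ρ.symm)^[i] ((⇑ρ)^[i] x) = x := by
    intro i x
    exact (Function.LeftInverse.iterate ρ.symm_apply_apply i) x
  have h1 := average ρ.symm n (fun x => by
      have := hinv n x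
      rwa [hρn] at this) (fun x y => by
      obtain ⟨i, hi⟩ := htr v y.1 x.1 y.2 x.2
      refine ⟨i, ?_⟩
      have h2 : (⇑ρ)^[i] y = x := Subtype.ext (by rw [hval, hi])
      rw [← h2, hinv]) (fun x => ord x.1 z) ⟨w, hw⟩
  rw [Fintype.card_eq_nat_card] at h1
  rw [gpr, ← h1]
  congr 1
  have h3 : iu k K (nu k K z) = ∏ i ∈ Finset.range n, (⇑(su σ))^[i] z := by
    apply Units.ext
    rw [Units.coe_prod]
    rw [Finset.prod_congr rfl fun i _ => su_iter σ i z]
    exact prod_aut hc (z : K)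
  rw [h3, ord_prod]
  refine Finset.sum_congr rfl fun i _ => ?_
  rw [hvals, ord_iter π hπ]

end ORN

open ORN in
theorem th_ORN (h : Sh_ORG) : Sh_ORN := by
  intro k K _ _ _ _ _ n σ hc
  obtain ⟨π, hπ, hl, htr, hn, hex, hbelow, hfin, hg⟩ := h k K n σ hc
  have hgal := hc.gal
  have hP1 : ∀ x : K, (∀ i : ℕ, (⇑σ)^[i] x = x) → ∃ y : k, algebraMap k K y = x := by
    intro x hx
    have h1 : x ∈ (⊥ : IntermediateField k K) := by
      rw [IsGalois.mem_bot_iff_fixed]
      intro τ
      obtain ⟨i, -, rfl⟩ := exists_pow hc τ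
      rw [pow_apply']
      exact hx i
    rw [IntermediateField.mem_bot] at h1
    exact h1
  have hP3 : ∀ z : Kˣ, iu k K (nu k K z) = NN n (su σ) z := by
    intro z
    apply Units.ext
    have h1 : NN n (su σ) z = ∏ i ∈ Finset.range n, (⇑(su σ))^[i] z := rfl
    rw [h1, Units.coe_prod]
    rw [Finset.prod_congr rfl fun i _ => su_iter σ i z]
    exact prod_aut hc (z : K)
  have hP5 : ∀ (v : HeightOneSpectrum (𝓞 k)) (w : HeightOneSpectrum (𝓞 K)), Lies k K v w →
      1 ≤ v.asIdeal.ramificationIdx' w.asIdeal ∧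
      ∀ x : kˣ, ord w (iu k K x) = (v.asIdeal.ramificationIdx' w.asIdeal : ℕ) * ord v x := by
    intro v w hvw
    have hlies : w.asIdeal.LiesOver v.asIdeal := ⟨hvw.symm⟩
    refine ⟨Nat.one_le_iff_ne_zero.2
      (Ideal.IsDedekindDomain.ramificationIdx'_ne_zero_of_liesOver w.asIdeal v.ne_bot), ?_⟩
    intro x
    have h1 := HeightOneSpectrum.valuation_liesOver K v w (x : k)
    unfold ord
    have h2 : ((iu k K x : Kˣ) : K) = algebraMap k K (x : k) := rfl
    rw [h2, ← h1, WithZero.log_pow, nsmul_eq_mul]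
    ring
  have hgne : ∀ v, (gpr k K v : ℤ) ≠ 0 := fun v => by exact_mod_cast (hg v).2
  refine ⟨hP1, ?_, hP3, ?_, ?_, ?_, ?_, ?_⟩
  · intro x
    constructor
    · intro hx
      obtain ⟨y, hy⟩ := hP1 (x : K) (fun i => by
        rw [← su_iter]
        congr 1
        exact Function.iterate_fixed hx i)
      have hy0 : y ≠ 0 := by
        rintro rfl
        rw [map_zero] at hy
        exact x.ne_zero hy.symm
      exact ⟨Units.mk0 y hy0, Units.ext hy⟩
    · rintro ⟨y, rfl⟩
      apply Units.ext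
      exact σ.commutes (y : k)
  · intro x
    apply Units.ext
    rw [su_iter, ← pow_apply', ← card_eq hc, pow_orderOf_eq_one]
    rfl
  · intro v w hvw
    exact ⟨_, hP5 v w hvw⟩
  · intro v z hz
    obtain ⟨w, hw⟩ := hex v
    have := hfin v
    have := Fintype.ofFinite {w : HeightOneSpectrum (𝓞 K) // Lies k K v w}
    have h1 := ord_norm hc π hπ hl htr hn hbelow v w hw z
    rw [Finset.sum_eq_zero (fun w' _ => hz w'.1 w'.2), mul_zero] at h1
    have h2 := (mul_eq_zero.1 h1).resolve_left (hgne v)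
    obtain ⟨he, h3⟩ := hP5 v w hw
    rw [h3] at h2
    refine (mul_eq_zero.1 h2).resolve_left ?_
    exact_mod_cast (by omega : v.asIdeal.ramificationIdx' w.asIdeal ≠ 0)
  · intro v w z hw hN h1 h0
    classical
    have := hfin v
    have := Fintype.ofFinite {w : HeightOneSpectrum (𝓞 K) // Lies k K v w}
    have h2 := ord_norm hc π hπ hl htr hn hbelow v w hw z
    rw [Finset.sum_eq_single (⟨w, hw⟩ : {w : HeightOneSpectrum (𝓞 K) // Lies k K v w})
      (fun w' _ hne => h0 w'.1 w'.2 fun he => hne (Subtype.ext he))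
      (fun hne => absurd (Finset.mem_univ _) hne)] at h2
    simp only [h1] at h2
    obtain ⟨he, h3⟩ := hP5 v w hw
    rw [h3] at h2
    -- `g e f = n`, `f = 1`
    have hlies : w.asIdeal.LiesOver v.asIdeal := ⟨hw.symm⟩
    have hwp : w.asIdeal.IsPrime := w.isPrime
    have hvp : v.asIdeal.IsPrime := v.isPrime
    have hvm : v.asIdeal.IsMaximal := v.isPrime.isMaximal v.ne_bot
    have hwm : w.asIdeal.IsMaximal := w.isPrime.isMaximal w.ne_bot
    have hfund := Ideal.ncard_primesOver_mul_ramificationIdxIn_mul_inertiaDegIn v.asIdeal (𝓞 K)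
      (K ≃ₐ[k] K)
    rw [Ideal.ramificationIdxIn_eq_ramificationIdx v.asIdeal w.asIdeal (K ≃ₐ[k] K),
      Ideal.inertiaDegIn_eq_inertiaDeg v.asIdeal w.asIdeal (K ≃ₐ[k] K),
      ← Ideal.ramificationIdx'_eq_ramificationIdx v.asIdeal w.asIdeal v.ne_bot,
      ← Ideal.inertiaDeg'_eq_inertiaDeg v.asIdeal w.asIdeal, IsGalois.card_aut_eq_finrank, hc.deg]
      at hfund
    have hf : Ideal.inertiaDeg' v.asIdeal w.asIdeal = 1 := by
      have h4 := Ideal.absNorm_eq_pow_inertiaDeg'_of_liesOver w.asIdeal v.asIdeal hvp v.ne_bot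
      rw [hN] at h4
      have h5 : 1 < Ideal.absNorm v.asIdeal := by
        have h6 : Ideal.absNorm v.asIdeal ≠ 0 := by
          rw [Ne, Ideal.absNorm_eq_zero_iff]
          exact v.ne_bot
        have h7 : Ideal.absNorm v.asIdeal ≠ 1 := by
          rw [Ne, Ideal.absNorm_eq_one_iff]
          exact v.isPrime.ne_top
        omega
      have h6 : Ideal.absNorm v.asIdeal ^ 1 =
          Ideal.absNorm v.asIdeal ^ Ideal.inertiaDeg' v.asIdeal w.asIdeal := by
        rw [pow_one]; exact h4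
      exact (Nat.pow_right_injective h5 h6).symm
    have hg' : (v.asIdeal.primesOver (𝓞 K)).ncard = gpr k K v := by
      rw [gpr, ← Nat.card_coe_set_eq]
      refine Nat.card_congr ⟨fun P => ⟨⟨P.1, P.2.1, ?_⟩, ?_⟩, fun w => ⟨w.1.asIdeal, w.1.isPrime,
        ⟨w.2.symm⟩⟩, fun P => rfl, fun w => rfl⟩
      · have := P.2.2
        exact Ideal.ne_bot_of_liesOver_of_ne_bot v.ne_bot P.1
      · exact P.2.2.over.symm
    rw [hg', hf, mul_one] at hfund
    rw [← hfund] at h2
    push_cast at h2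
    have h8 : ((gpr k K v : ℤ) * (v.asIdeal.ramificationIdx' w.asIdeal : ℕ)) *
        (ord v (nu k K z) - 1) = 0 := by linarith
    have h9 := (mul_eq_zero.1 h8).resolve_left (mul_ne_zero (hgne v) (by
      exact_mod_cast (by omega : v.asIdeal.ramificationIdx' w.asIdeal ≠ 0)))
    linarith
  · intro v hv z
    obtain ⟨w, hw⟩ := hex v
    have := hfin v
    have := Fintype.ofFinite {w : HeightOneSpectrum (𝓞 K) // Lies k K v w}
    have h1 := ord_norm hc π hπ hl htr hn hbelow v w hw z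
    rw [hv w hw] at h1
    obtain ⟨c, hc'⟩ := (hg v).1
    have hgpos : 0 < gpr k K v := Nat.pos_of_ne_zero (hg v).2
    rw [hc', Nat.mul_div_cancel_left c hgpos]
    rw [hc'] at h1
    push_cast at h1
    rw [mul_assoc] at h1
    have h2 := mul_left_cancel₀ (hgne v) h1
    exact ⟨_, h2⟩

end Pool.Agent.HB
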