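import Pool.Agent.HB.StHB

/-!
# HB: module PLC, the number of infinite places (helper48)
-/

set_option autoImplicit false

open NumberField IsDedekindDomain

namespace Pool.Agent.HB

namespace PLC

lemma card_tc (F : Type) [Field F] [NumberField F] (h : TC F) :
    2 * Fintype.card (InfinitePlace F) = Module.finrank ℚ F := by
  classical
  have h1 := InfinitePlace.card_add_two_mul_card_eq_rank F
  have h2 := InfinitePlace.card_eq_nrRealPlaces_add_nrComplexPlaces F
  have h3 : InfinitePlace.nrRealPlaces F = 0 := by
    unfold InfinitePlace.nrRealPlaces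
    rw [Fintype.card_eq_zero_iff]
    exact ⟨fun w => (InfinitePlace.not_isReal_iff_isComplex.2 (h w.1)) w.2⟩
  omega

end PLC

/-- (PLC) the number of infinite places -/
theorem th_PLC : Sh_PLC := by
  intro k F _ _ _ _ _ hk
  have hF : TC F := by
    intro v
    rw [← InfinitePlace.not_isReal_iff_isComplex]
    intro hv
    exact (InfinitePlace.not_isReal_iff_isComplex.2 (hk (v.comap (algebraMap k F))))
      (InfinitePlace.IsReal.comap (algebraMap k F) hv)
  refine ⟨hF, ?_⟩
  have h1 := PLC.card_tc k hk
  have h2 := PLC.card_tc F hF
  have h3 := Module.finrank_mul_finrank ℚ k F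
  have h4 : 2 * Fintype.card (InfinitePlace F) =
      2 * (Module.finrank k F * Fintype.card (InfinitePlace k)) := by
    rw [h2, ← h3, ← h1]
    ring
  omega

end Pool.Agent.HB
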