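import Pool.Agent.HB.StHB

/-!
# (PSI): the map from the ideals prime to `S` onto `kˣ / Wt` (helper76)
-/

set_option autoImplicit false

open NumberField IsDedekindDomain

namespace Pool.Agent.HB

namespace PSIx

section
variable {F : Type} [Field F] [NumberField F]

/-- the multiplicity of `v` in the ideal `a` -/
noncomputable def cnt (v : HeightOneSpectrum (𝓞 F)) (a : Ideal (𝓞 F)) : ℕ :=
  open scoped Classical in
  (Associates.mk v.asIdeal).count (Associates.mk a).factors

lemma cnt_mul (v : HeightOneSpectrum (𝓞 F)) (a b : Ideal (𝓞 F)) (ha : a ≠ ⊥) (hb : b ≠ ⊥) :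
    cnt v (a * b) = cnt v a + cnt v b := by
  classical
  unfold cnt
  rw [← Associates.mk_mul_mk]
  exact Associates.count_mul (Associates.mk_ne_zero.2 ha) (Associates.mk_ne_zero.2 hb)
    v.associates_irreducible

lemma cnt_zero_iff (v : HeightOneSpectrum (𝓞 F)) (a : Ideal (𝓞 F)) (ha : a ≠ ⊥) :
    cnt v a = 0 ↔ ¬ a ≤ v.asIdeal := by
  classical
  have h := Associates.count_ne_zero_iff_dvd (a := a) (p := v.asIdeal) ha v.irreducible
  rw [Ideal.dvd_iff_le] at h
  unfold cnt
  rw [← h, not_not]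

lemma cnt_self (v : HeightOneSpectrum (𝓞 F)) : cnt v v.asIdeal = 1 := by
  classical
  exact Associates.count_self v.associates_irreducible

lemma cnt_other (v w : HeightOneSpectrum (𝓞 F)) (h : v ≠ w) : cnt v w.asIdeal = 0 := by
  classical
  refine Associates.count_eq_zero_of_ne v.associates_irreducible w.associates_irreducible ?_
  intro h1
  apply h
  apply HeightOneSpectrum.ext
  exact associated_iff_eq.1 (Associates.mk_eq_mk_iff_associated.1 h1)

lemma cnt_top (v : HeightOneSpectrum (𝓞 F)) : cnt v (⊤ : Ideal (𝓞 F)) = 0 := by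
  rw [cnt_zero_iff v ⊤ (by simp)]
  intro h
  exact v.isPrime.ne_top (top_le_iff.1 h)

lemma cnt_span (v : HeightOneSpectrum (𝓞 F)) (x : Fˣ) (y : 𝓞 F) (h : (y : F) = x) :
    ord v x = cnt v (Ideal.span {y}) := by
  classical
  have hy : y ≠ 0 := by
    rintro rfl
    exact x.ne_zero (by rw [← h]; simp)
  unfold ord cnt
  have e : v.valuation F (x : F) = v.intValuation y := by
    rw [← h]; exact v.valuation_of_algebraMap y
  rw [e, v.intValuation_if_neg hy, WithZero.log_exp, neg_neg]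

lemma cnt_fin (a : Ideal (𝓞 F)) (ha : a ≠ ⊥) :
    {v : HeightOneSpectrum (𝓞 F) | cnt v a ≠ 0}.Finite := by
  classical
  have h := Associates.finite_factors (I := a) ha
  rw [Filter.eventually_cofinite] at h
  refine h.subset ?_
  intro v hv
  have hv' : cnt v a ≠ 0 := hv
  show ¬ (((Associates.mk v.asIdeal).count (Associates.mk a).factors : ℕ) : ℤ) = 0
  exact_mod_cast hv'

/-- `ord` as a homomorphism -/
noncomputable def ordH (w : HeightOneSpectrum (𝓞 F)) : Fˣ →* Multiplicative ℤ where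
  toFun x := Multiplicative.ofAdd (ord w x)
  map_one' := by rw [ord_one]; rfl
  map_mul' x y := by rw [ord_mul]; rfl

lemma ord_zpow (w : HeightOneSpectrum (𝓞 F)) (x : Fˣ) (n : ℤ) : ord w (x ^ n) = n * ord w x := by
  have h := map_zpow (ordH w) x n
  have h2 := congrArg Multiplicative.toAdd h
  rw [toAdd_zpow] at h2
  simpa [ordH] using h2

lemma ord_pow (w : HeightOneSpectrum (𝓞 F)) (x : Fˣ) (n : ℕ) : ord w (x ^ n) = n * ord w x := by
  have := ord_zpow w x n
  rwa [zpow_natCast] at this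

/-- elements with prescribed orders outside `S` -/
lemma ex_ord (S : Finset (HeightOneSpectrum (𝓞 F)))
    (hS : GenT (S : Set (HeightOneSpectrum (𝓞 F)))) (c : HeightOneSpectrum (𝓞 F) → ℤ)
    (T : Finset (HeightOneSpectrum (𝓞 F))) :
    ∃ x : Fˣ, ∀ v ∉ S, (v ∈ T → ord v x = c v) ∧ (v ∉ T → ord v x = 0) := by
  classical
  induction T using Finset.induction_on with
  | empty => exact ⟨1, fun v _ => ⟨fun h => absurd h (Finset.notMem_empty _), fun _ => ord_one v⟩⟩
  | insert w T hw ih =>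
    obtain ⟨x, hx⟩ := ih
    by_cases hwS : w ∈ S
    · refine ⟨x, fun v hv => ⟨fun h => ?_, fun h => ?_⟩⟩
      · rcases Finset.mem_insert.1 h with rfl | h
        · exact absurd hwS hv
        · exact (hx v hv).1 h
      · exact (hx v hv).2 fun h' => h (Finset.mem_insert_of_mem h')
    · obtain ⟨y, hy1, hy2⟩ := hS w (by simpa using hwS)
      refine ⟨x * y ^ (c w), fun v hv => ⟨fun h => ?_, fun h => ?_⟩⟩
      · rcases Finset.mem_insert.1 h with rfl | h1
        · rw [ord_mul, ord_zpow, hy1, (hx v hv).2 hw]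
          ring
        · have hne : v ≠ w := fun h2 => hw (h2 ▸ h1)
          rw [ord_mul, ord_zpow, hy2 v (by simpa using hv) hne, (hx v hv).1 h1]
          ring
      · have hne : v ≠ w := by rintro rfl; exact h (Finset.mem_insert_self _ _)
        rw [ord_mul, ord_zpow, hy2 v (by simpa using hv) hne,
          (hx v hv).2 fun h' => h (Finset.mem_insert_of_mem h')]
        ring

/-- ideals with prescribed multiplicities -/
lemma ex_ideal (e : HeightOneSpectrum (𝓞 F) → ℕ) (T : Finset (HeightOneSpectrum (𝓞 F))) :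
    ∃ a : Ideal (𝓞 F), a ≠ ⊥ ∧ ∀ v, (v ∈ T → cnt v a = e v) ∧ (v ∉ T → cnt v a = 0) := by
  classical
  induction T using Finset.induction_on with
  | empty =>
    exact ⟨⊤, by simp, fun v => ⟨fun h => absurd h (Finset.notMem_empty _), fun _ => cnt_top v⟩⟩
  | insert w T hw ih =>
    obtain ⟨a, ha, hx⟩ := ih
    have hpow : ∀ n : ℕ, w.asIdeal ^ n ≠ ⊥ ∧ cnt w (w.asIdeal ^ n) = n ∧
        ∀ v, v ≠ w → cnt v (w.asIdeal ^ n) = 0 := by
      intro n
      induction n with
      | zero =>
        refine ⟨by simp, ?_, fun v _ => ?_⟩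
        · rw [pow_zero, Ideal.one_eq_top, cnt_top]
        · rw [pow_zero, Ideal.one_eq_top, cnt_top]
      | succ n ihn =>
        obtain ⟨i1, i2, i3⟩ := ihn
        refine ⟨?_, ?_, fun v hv => ?_⟩
        · rw [pow_succ]
          exact mul_ne_zero i1 w.ne_bot
        · rw [pow_succ, cnt_mul w _ _ i1 w.ne_bot, i2, cnt_self]
        · rw [pow_succ, cnt_mul v _ _ i1 w.ne_bot, i3 v hv, cnt_other v w hv]
    obtain ⟨p1, p2, p3⟩ := hpow (e w)
    refine ⟨a * w.asIdeal ^ (e w), mul_ne_zero ha p1, fun v => ⟨fun h => ?_, fun h => ?_⟩⟩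
    · rcases Finset.mem_insert.1 h with rfl | h1
      · rw [cnt_mul v _ _ ha p1, (hx v).2 hw, p2, zero_add]
      · have hne : v ≠ w := fun h2 => hw (h2 ▸ h1)
        rw [cnt_mul v _ _ ha p1, (hx v).1 h1, p3 v hne, add_zero]
    · have hne : v ≠ w := by rintro rfl; exact h (Finset.mem_insert_self _ _)
      rw [cnt_mul v _ _ ha p1, p3 v hne, (hx v).2 fun h' => h (Finset.mem_insert_of_mem h')]

open Classical in
/-- the map `ψ` -/
noncomputable def psi (S : Finset (HeightOneSpectrum (𝓞 F))) (Wt : Subgroup Fˣ)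
    (a : Ideal (𝓞 F)) : Fˣ ⧸ Wt :=
  if h : ∃ x : Fˣ, ∀ v ∉ S, ord v x = cnt v a then QuotientGroup.mk h.choose else 1

lemma psi_eq (S : Finset (HeightOneSpectrum (𝓞 F))) (Wt : Subgroup Fˣ)
    (hW : EU (S : Set (HeightOneSpectrum (𝓞 F))) ≤ Wt) (a : Ideal (𝓞 F)) (x : Fˣ)
    (hx : ∀ v ∉ S, ord v x = cnt v a) : psi S Wt a = QuotientGroup.mk x := by
  have h : ∃ x : Fˣ, ∀ v ∉ S, ord v x = cnt v a := ⟨x, hx⟩
  unfold psi
  rw [dif_pos h, QuotientGroup.eq]
  apply hW
  intro v hv
  have hv' : v ∉ S := by simpa using hv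
  rw [ord_mul, ord_inv, hx v hv', h.choose_spec v hv']
  ring

lemma psi_ex (S : Finset (HeightOneSpectrum (𝓞 F)))
    (hS : GenT (S : Set (HeightOneSpectrum (𝓞 F)))) (a : Ideal (𝓞 F)) (ha : a ≠ ⊥) :
    ∃ x : Fˣ, ∀ v ∉ S, ord v x = cnt v a := by
  obtain ⟨x, hx⟩ := ex_ord S hS (fun v => (cnt v a : ℤ)) (cnt_fin a ha).toFinset
  refine ⟨x, fun v hv => ?_⟩
  by_cases h : v ∈ (cnt_fin a ha).toFinset
  · exact (hx v hv).1 h
  · rw [(hx v hv).2 h]
    have h' : cnt v a = 0 := by
      by_contra hc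
      exact h ((cnt_fin a ha).mem_toFinset.2 hc)
    rw [h']
    rfl

end

end PSIx

open PSIx in
theorem th_PSI (hORD : Sh_ORD) (hORN : Sh_ORN) : Sh_PSI := by
  intro k K _ _ _ _ _ n σ hn hσ S hS hT Wt hE hN
  classical
  obtain ⟨-, -, -, -, -, n6, n7, -⟩ := hORN k K n σ hσ
  refine ⟨psi S Wt, ?_, ?_, ?_, ?_⟩
  · intro a b ha hb _ _
    obtain ⟨x, hx⟩ := psi_ex S hS a ha
    obtain ⟨y, hy⟩ := psi_ex S hS b hb
    rw [psi_eq S Wt hE a x hx, psi_eq S Wt hE b y hy, psi_eq S Wt hE (a * b) (x * y)]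
    · rfl
    · intro v hv
      rw [ord_mul, hx v hv, hy v hv, cnt_mul v a b ha hb]
      push_cast
      ring
  · intro x y hxy _
    exact psi_eq S Wt hE _ x fun v _ => cnt_span v x y hxy
  · intro g
    obtain ⟨x, rfl⟩ := QuotientGroup.mk_surjective g
    have hfin : {w : HeightOneSpectrum (𝓞 k) | ord w x ≠ 0}.Finite := (hORD k).1 x
    -- make all orders outside `S` nonnegative with `n`-th powers
    obtain ⟨t, ht⟩ := ex_ord S hS (fun v => ((-ord v x).toNat : ℤ)) hfin.toFinset
    have htn : t ^ n ∈ Wt := by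
      have h := hN (iu k K t)
      have e : nu k K (iu k K t) = t ^ n := by
        apply Units.ext
        show Algebra.norm k (algebraMap k K (t : k)) = _
        rw [Algebra.norm_algebraMap, hσ.deg]
        simp
      rwa [e] at h
    have hy : ∀ v ∉ S, 0 ≤ ord v (x * t ^ n) := by
      intro v hv
      rw [ord_mul, ord_pow]
      by_cases h : v ∈ hfin.toFinset
      · rw [(ht v hv).1 h]
        have h1 : (1 : ℤ) ≤ n := by
          have := Nat.pos_of_ne_zero hn
          exact_mod_cast this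
        have h2 : (0 : ℤ) ≤ ((-ord v x).toNat : ℤ) := Int.natCast_nonneg _
        have h3 : -ord v x ≤ ((-ord v x).toNat : ℤ) := Int.self_le_toNat _
        nlinarith
      · rw [(ht v hv).2 h]
        have h' : ord v x = 0 := by
          by_contra hc
          exact h (hfin.mem_toFinset.2 hc)
        rw [h']
        simp
    have hfin2 : {w : HeightOneSpectrum (𝓞 k) | ord w (x * t ^ n) ≠ 0}.Finite :=
      (hORD k).1 (x * t ^ n)
    obtain ⟨a, ha, hc⟩ := ex_ideal (fun v => (ord v (x * t ^ n)).toNat) (hfin2.toFinset \ S)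
    refine ⟨a, ha, fun v hv => ?_, ?_⟩
    · rw [← cnt_zero_iff v a ha]
      exact (hc v).2 fun h => (Finset.mem_sdiff.1 h).2 hv
    · rw [psi_eq S Wt hE a (x * t ^ n)]
      · rw [QuotientGroup.eq]
        have e : (x * t ^ n)⁻¹ * x = (t ^ n)⁻¹ := by
          rw [mul_inv, mul_assoc, mul_comm _ x, ← mul_assoc, inv_mul_cancel, one_mul]
        rw [e]
        exact Wt.inv_mem htn
      · intro v hv
        by_cases h : v ∈ hfin2.toFinset
        · rw [(hc v).1 (Finset.mem_sdiff.2 ⟨h, hv⟩), Int.toNat_of_nonneg (hy v hv)]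
        · rw [(hc v).2 fun h' => h (Finset.mem_sdiff.1 h').1]
          by_contra hcc
          exact h (hfin2.mem_toFinset.2 (by simpa using hcc))
  · intro v hv hD
    obtain ⟨w, hw, hwn⟩ := hD
    have huniq : ∀ v' : HeightOneSpectrum (𝓞 k), ∀ w' : HeightOneSpectrum (𝓞 K),
        Lies k K v w' → Lies k K v' w' → v' = v := by
      intro v' w' h1 h2
      apply HeightOneSpectrum.ext
      unfold Lies at h1 h2
      rw [← h1, ← h2]
    have habv : ∀ v' ∉ S, ∀ w' : HeightOneSpectrum (𝓞 K), Lies k K v' w' →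
        w' ∉ abv k K (S : Set (HeightOneSpectrum (𝓞 k))) := by
      rintro v' hv' w' h1 ⟨v'', h2, h3⟩
      have e : v'' = v' := by
        apply HeightOneSpectrum.ext
        unfold Lies at h1 h3
        rw [← h1, ← h3]
      rw [e] at h2
      exact hv' (by simpa using h2)
    obtain ⟨z, hz1, hz2⟩ := hT w (habv v hv w hw)
    rw [psi_eq S Wt hE v.asIdeal (nu k K z)]
    · rw [QuotientGroup.eq_one_iff]
      exact hN z
    · intro v' hv'
      by_cases hvv : v' = v
      · subst hvv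
        rw [n7 v' w z hw hwn hz1 fun w' h1 h2 => hz2 w' (habv v' hv' w' h1) h2, cnt_self]
        rfl
      · rw [n6 v' z fun w' h1 => hz2 w' (habv v' hv' w' h1) ?_, cnt_other v' v hvv]
        · rfl
        · rintro rfl
          exact hvv (huniq v' w' hw h1)

end Pool.Agent.HB
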