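import Pool.Agent.HB.StHB
import Mathlib.RingTheory.DedekindDomain.Different
import Mathlib.NumberTheory.RamificationInertia.Valuation

/-!
# HB: module RMF (helper7)

Almost all primes are unramified.
-/

set_option autoImplicit false

open NumberField IsDedekindDomain
open scoped nonZeroDivisors

namespace Pool.Agent.HB

theorem rmf_dvd (k K : Type) [Field k] [NumberField k] [Field K] [NumberField K] [Algebra k K]
    (p : Ideal (𝓞 k)) [p.IsMaximal] (P : Ideal (𝓞 K)) (hp : p ≠ ⊥)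
    (hP : P ^ 2 ∣ p.map (algebraMap (𝓞 k) (𝓞 K))) : P ∣ differentIdeal (𝓞 k) (𝓞 K) := by
  simpa using pow_sub_one_dvd_differentIdeal_aux (𝓞 k) k K P (e := 2) (by norm_num) hp hP

theorem rmf_ram (k K : Type) [Field k] [NumberField k] [Field K] [NumberField K] [Algebra k K]
    (v : HeightOneSpectrum (𝓞 k)) (w : HeightOneSpectrum (𝓞 K)) (h : Lies k K v w)
    (hw : ¬ w.asIdeal ∣ differentIdeal (𝓞 k) (𝓞 K)) (x : kˣ) :
    ord w (iu k K x) = ord v x := by
  have hl : w.asIdeal.LiesOver v.asIdeal := ⟨h.symm⟩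
  have h1 := HeightOneSpectrum.valuation_liesOver (K := k) K v w (x : k)
  have h0 : v.asIdeal.ramificationIdx' w.asIdeal ≠ 0 :=
    Ideal.IsDedekindDomain.ramificationIdx'_ne_zero_of_liesOver w.asIdeal v.ne_bot
  have h2 : ¬ 2 ≤ v.asIdeal.ramificationIdx' w.asIdeal := by
    intro h2
    refine hw (rmf_dvd k K v.asIdeal w.asIdeal v.ne_bot ?_)
    exact Ideal.dvd_iff_le.mpr (Ideal.map_le_iff_le_comap.mpr
      (Ideal.map_le_iff_le_comap.mp (Ideal.le_pow_of_le_ramificationIdx' h2)))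
  have h3 : v.asIdeal.ramificationIdx' w.asIdeal = 1 := by omega
  rw [h3, pow_one] at h1
  unfold ord
  rw [h1]
  rfl

theorem th_RMF : Sh_RMF := by
  intro k K _ _ _ _ _
  have hne : differentIdeal (𝓞 k) (𝓞 K) ≠ 0 := differentIdeal_ne_bot
  have hfin := Ideal.finite_factors hne
  have hf2 : {v : HeightOneSpectrum (𝓞 k) | ∃ w : HeightOneSpectrum (𝓞 K),
      w.asIdeal ∣ differentIdeal (𝓞 k) (𝓞 K) ∧ Lies k K v w}.Finite := by
    classical
    have hf3 := hfin.image (fun w : HeightOneSpectrum (𝓞 K) => w.asIdeal.under (𝓞 k))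
    refine Set.Finite.of_finite_image (f := fun v : HeightOneSpectrum (𝓞 k) => v.asIdeal)
      (hf3.subset ?_) ?_
    · rintro _ ⟨v, ⟨w, hw, hv⟩, rfl⟩
      exact ⟨w, hw, hv⟩
    · intro a _ b _ hab
      exact HeightOneSpectrum.ext hab
  refine ⟨hf2.toFinset, ?_⟩
  intro v hv w hw x
  refine rmf_ram k K v w hw ?_ x
  intro hd
  exact hv (hf2.mem_toFinset.mpr ⟨w, hd, hw⟩)

end Pool.Agent.HB
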