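import Pool.Agent.HB.StHB

/-!
# (SEX): a finite set of primes which generates both class groups (helper15)
-/

set_option autoImplicit false

open NumberField IsDedekindDomain
open scoped nonZeroDivisors

namespace Pool.Agent.HB

namespace SEXx

variable {F : Type} [Field F] [NumberField F]

lemma ord_of_dvd (w : HeightOneSpectrum (𝓞 F)) (y : 𝓞 F) (x : Fˣ) (hx : (y : F) = x) (n : ℕ) :
    w.asIdeal ^ n ∣ Ideal.span {y} ↔ (n : ℤ) ≤ ord w x := by
  rw [← w.intValuation_le_pow_iff_dvd]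
  have e : w.intValuation y = w.valuation F (x : F) := by
    rw [← hx]
    exact (w.valuation_of_algebraMap y).symm
  rw [e, ord_val, WithZero.exp_le_exp]
  omega

lemma ord_eq_one (w : HeightOneSpectrum (𝓞 F)) (y : 𝓞 F) (x : Fˣ) (hx : (y : F) = x)
    (J : Ideal (𝓞 F)) (hJ : ¬ w.asIdeal ∣ J) (h : Ideal.span {y} = w.asIdeal * J) :
    ord w x = 1 := by
  have h1 := (ord_of_dvd w y x hx 1).1 (by rw [pow_one, h]; exact dvd_mul_right _ _)
  have h2 : ¬ ((2 : ℕ) : ℤ) ≤ ord w x := by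
    rw [← ord_of_dvd w y x hx 2, h, pow_two]
    intro h3
    exact hJ ((mul_dvd_mul_iff_left w.ne_bot).1 h3)
  push_cast at h1 h2
  omega

lemma ord_eq_zero (w w' : HeightOneSpectrum (𝓞 F)) (y : 𝓞 F) (x : Fˣ) (hx : (y : F) = x)
    (J : Ideal (𝓞 F)) (hJ : ¬ w'.asIdeal ∣ J) (h : Ideal.span {y} = w.asIdeal * J)
    (hw : w' ≠ w) : ord w' x = 0 := by
  have h0 := (ord_of_dvd w' y x hx 0).1 (by rw [pow_zero]; exact one_dvd _)
  have h1 : ¬ ((1 : ℕ) : ℤ) ≤ ord w' x := by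
    rw [← ord_of_dvd w' y x hx 1, h, pow_one]
    intro h3
    have hp : Prime w'.asIdeal := w'.prime
    rcases hp.dvd_or_dvd h3 with h4 | h4
    · apply hw
      apply HeightOneSpectrum.ext
      have hle : w.asIdeal ≤ w'.asIdeal := Ideal.le_of_dvd h4
      have hmax : w.asIdeal.IsMaximal := w.isMaximal
      exact (hmax.eq_of_le w'.isPrime.ne_top hle).symm
    · exact hJ h4
  push_cast at h0 h1
  omega

lemma exists_T (F : Type) [Field F] [NumberField F] :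
    ∃ T : Finset (HeightOneSpectrum (𝓞 F)), ∀ T' : Set (HeightOneSpectrum (𝓞 F)),
      (T : Set (HeightOneSpectrum (𝓞 F))) ⊆ T' → GenT T' := by
  classical
  choose J hJ using (ClassGroup.mk0_surjective (R := 𝓞 F))
  have hfin : ∀ c : ClassGroup (𝓞 F),
      {w : HeightOneSpectrum (𝓞 F) | w.asIdeal ∣ (J c : Ideal (𝓞 F))}.Finite := by
    intro c
    exact Ideal.finite_factors (mem_nonZeroDivisors_iff_ne_zero.1 (J c).2)
  refine ⟨Finset.univ.biUnion fun c => (hfin c).toFinset, ?_⟩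
  intro T' hT' w hw
  have hw0 : w.asIdeal ∈ (Ideal (𝓞 F))⁰ := mem_nonZeroDivisors_iff_ne_zero.2 w.ne_bot
  set c := (ClassGroup.mk0 ⟨w.asIdeal, hw0⟩)⁻¹ with hc
  have hprin : (w.asIdeal * (J c : Ideal (𝓞 F))).IsPrincipal := by
    have h1 : ClassGroup.mk0 (⟨w.asIdeal, hw0⟩ * J c) = 1 := by
      rw [map_mul, hJ c, hc, mul_inv_cancel]
    exact (ClassGroup.mk0_eq_one_iff (SetLike.coe_mem (⟨w.asIdeal, hw0⟩ * J c))).1 h1
  obtain ⟨y, hy⟩ := hprin
  have hy' : Ideal.span {y} = w.asIdeal * (J c : Ideal (𝓞 F)) := hy.symm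
  have hy0 : y ≠ 0 := by
    rintro rfl
    have h0 : w.asIdeal * (J c : Ideal (𝓞 F)) = 0 := by
      rw [← hy', Ideal.span_singleton_eq_bot.2 rfl]; rfl
    rcases mul_eq_zero.1 h0 with h | h
    · exact w.ne_bot h
    · exact (mem_nonZeroDivisors_iff_ne_zero.1 (J c).2) h
  have hy1 : (y : F) ≠ 0 := by exact_mod_cast hy0
  have hJT : ∀ w' ∉ T', ¬ w'.asIdeal ∣ (J c : Ideal (𝓞 F)) := by
    intro w' hw' hd
    apply hw'
    apply hT'
    rw [Finset.mem_coe, Finset.mem_biUnion]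
    exact ⟨c, Finset.mem_univ _, (hfin c).mem_toFinset.2 hd⟩
  refine ⟨Units.mk0 (y : F) hy1, ord_eq_one w y _ rfl _ (hJT w hw) hy', ?_⟩
  intro w' hw' hne
  exact ord_eq_zero w w' y _ rfl _ (hJT w' hw') hy' hne

end SEXx

theorem th_SEX : Sh_SEX := by
  classical
  intro k K _ _ _ _ _ S₀
  obtain ⟨T, hT⟩ := SEXx.exists_T k
  obtain ⟨T', hT'⟩ := SEXx.exists_T K
  refine ⟨S₀ ∪ T ∪ T'.image (fun w => HeightOneSpectrum.under (𝓞 k) w), ?_, ?_, ?_⟩
  · intro v hv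
    simp [hv]
  · apply hT
    intro v hv
    simp only [Finset.coe_union, Set.mem_union]
    exact Or.inl (Or.inr hv)
  · apply hT'
    intro w hw
    refine ⟨HeightOneSpectrum.under (𝓞 k) w, ?_, rfl⟩
    rw [Finset.mem_coe, Finset.mem_union, Finset.mem_image]
    exact Or.inr ⟨w, hw, rfl⟩

end Pool.Agent.HB
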