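import Pool.Agent.HB.StHB

/-!
# HB, module STR (helper83): an element which is invariant modulo `V_M` is in `kˣ V_M`
-/

set_option autoImplicit false

open NumberField IsDedekindDomain
open scoped nonZeroDivisors

namespace Pool.Agent.HB

namespace STR

section
variable {k K : Type} [Field k] [NumberField k] [Field K] [NumberField K] [Algebra k K]

omit [NumberField k] [NumberField K] in
lemma coe_iter (σ : K ≃ₐ[k] K) (u : Kˣ) (i : ℕ) :
    (((⇑(su σ))^[i] u : Kˣ) : K) = (⇑σ)^[i] (u : K) := by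
  induction i with
  | zero => rfl
  | succ i ih =>
    rw [Function.iterate_succ_apply', Function.iterate_succ_apply', ← ih]
    rfl

lemma val_le (w : HeightOneSpectrum (𝓞 K)) (x : Kˣ) :
    w.valuation K (x : K) ≤ 1 ↔ 0 ≤ ord w x := by
  rw [ord_val, ← WithZero.exp_zero, WithZero.exp_le_exp]
  omega

lemma ord_pow (w : HeightOneSpectrum (𝓞 K)) (x : Kˣ) (d : ℕ) :
    ord w (x ^ d) = d * ord w x := by
  induction d with
  | zero => simp
  | succ d ih =>
    rw [pow_succ, ord_mul, ih]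
    push_cast
    ring

variable {v : HeightOneSpectrum (𝓞 k)}

lemma int_add {x y : K} (hx : IntV k K v x) (hy : IntV k K v y) : IntV k K v (x + y) :=
  fun w hw => (w.valuation K).map_add_le (hx w hw) (hy w hw)

lemma int_mul {x y : K} (hx : IntV k K v x) (hy : IntV k K v y) : IntV k K v (x * y) := by
  intro w hw
  rw [map_mul]
  exact mul_le_one' (hx w hw) (hy w hw)

lemma int_sum {ι : Type} (s : Finset ι) (f : ι → K) (h : ∀ i ∈ s, IntV k K v (f i)) :
    IntV k K v (∑ i ∈ s, f i) := by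
  classical
  induction s using Finset.induction_on with
  | empty =>
    intro w _
    rw [Finset.sum_empty, map_zero]
    exact zero_le_one
  | insert a s ha ih =>
    rw [Finset.sum_insert ha]
    exact int_add (h a (Finset.mem_insert_self a s))
      (ih fun i hi => h i (Finset.mem_insert_of_mem hi))

lemma int_alg
    (h5 : ∀ (v : HeightOneSpectrum (𝓞 k)) w, Lies k K v w → ∃ e : ℕ, 1 ≤ e ∧
      ∀ x : kˣ, ord w (iu k K x) = e * ord v x)
    {c : k} (hc : v.valuation k c ≤ 1) : IntV k K v (algebraMap k K c) := by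
  intro w hw
  by_cases h0 : c = 0
  · rw [h0, map_zero, map_zero]
    exact zero_le_one
  obtain ⟨e, he, h⟩ := h5 v w hw
  have h1 : 0 ≤ ord v (Units.mk0 c h0) := by
    rw [← val_le]
    exact hc
  have h2 : 0 ≤ ord w (iu k K (Units.mk0 c h0)) := by
    rw [h]
    positivity
  rw [← val_le] at h2
  exact h2

lemma int_sig (σ : K ≃ₐ[k] K) (τ : Equiv.Perm (HeightOneSpectrum (𝓞 K)))
    (g1 : ∀ w x, ord (τ w) (su σ x) = ord w x)
    (g2 : ∀ v w, Lies k K v w → Lies k K v (τ w)) (g6 : ∀ w, ∃ v, Lies k K v w)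
    {x : K} (hx : IntV k K v x) : IntV k K v (σ x) := by
  intro w hw
  by_cases h0 : x = 0
  · rw [h0, map_zero, map_zero]
    exact zero_le_one
  obtain ⟨v', hv'⟩ := g6 (τ.symm w)
  have h1 := g2 v' _ hv'
  rw [Equiv.apply_symm_apply] at h1
  have h2 : v = v' := HeightOneSpectrum.ext (hw.symm.trans h1)
  rw [← h2] at hv'
  have h3 := hx _ hv'
  have h4 : 0 ≤ ord (τ.symm w) (Units.mk0 x h0) := by
    rw [← val_le]
    exact h3
  rw [← g1, Equiv.apply_symm_apply, ← val_le] at h4
  exact h4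

lemma int_iter (σ : K ≃ₐ[k] K) (τ : Equiv.Perm (HeightOneSpectrum (𝓞 K)))
    (g1 : ∀ w x, ord (τ w) (su σ x) = ord w x)
    (g2 : ∀ v w, Lies k K v w → Lies k K v (τ w)) (g6 : ∀ w, ∃ v, Lies k K v w)
    {x : K} (hx : IntV k K v x) (i : ℕ) : IntV k K v ((⇑σ)^[i] x) := by
  induction i with
  | zero => exact hx
  | succ i ih =>
    rw [Function.iterate_succ_apply']
    exact int_sig σ τ g1 g2 g6 ih

lemma lam_smul {n : ℕ} {σ : K ≃ₐ[k] K} {θ a : K} (ha : Lam n v σ θ a) {c : k}
    (hc : v.valuation k c ≤ 1) : Lam n v σ θ (algebraMap k K c * a) := by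
  obtain ⟨f, hf, h⟩ := ha
  refine ⟨fun i => c * f i, fun i => ?_, ?_⟩
  · rw [map_mul]
    exact mul_le_one' hc (hf i)
  · rw [h, Finset.mul_sum]
    apply Finset.sum_congr rfl
    intro i _
    rw [map_mul]
    ring

lemma lam_zero {n : ℕ} {σ : K ≃ₐ[k] K} {θ : K} : Lam n v σ θ 0 := by
  refine ⟨fun _ => 0, fun i => ?_, ?_⟩
  · rw [map_zero]
    exact zero_le_one
  · simp

lemma lam_neg {n : ℕ} {σ : K ≃ₐ[k] K} {θ a : K} (ha : Lam n v σ θ a) :
    Lam n v σ θ (-a) := by
  have h := lam_smul ha (c := -1) (by rw [Valuation.map_neg, map_one])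
  rwa [map_neg, map_one, neg_one_mul] at h

/-- shift of the coordinates -/
def sh (m : ℕ) (c : ℕ → k) : ℕ → k := fun i => if i = 0 then c m else c (i - 1)

omit [NumberField k] [NumberField K] in
lemma shift (σ : K ≃ₐ[k] K) (θ : K) (m : ℕ) (hθ : (⇑σ)^[m + 1] θ = θ) (c : ℕ → k) :
    σ (∑ i ∈ Finset.range (m + 1), algebraMap k K (c i) * (⇑σ)^[i] θ) =
      ∑ i ∈ Finset.range (m + 1), algebraMap k K (sh m c i) * (⇑σ)^[i] θ := by
  rw [map_sum, Finset.sum_range_succ, Finset.sum_range_succ' _ m]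
  congr 1
  · apply Finset.sum_congr rfl
    intro i _
    rw [map_mul, AlgEquiv.commutes, ← Function.iterate_succ_apply' (⇑σ) i θ]
    simp [sh]
  · rw [map_mul, AlgEquiv.commutes, ← Function.iterate_succ_apply' (⇑σ) m θ, hθ]
    simp [sh]

end

end STR

open STR in
theorem th_STR (hVST : Sh_VST) (hVGP : Sh_VGP) (hORG : Sh_ORG) (hORN : Sh_ORN) : Sh_STR := by
  intro k K _ _ _ _ _ n σ hC v π θ c hB M hM α hα
  obtain ⟨τ, g1, g2, -, -, g5, g6, g7, -⟩ := hORG k K n σ hC
  obtain ⟨o1, o2, -, o4, o5, -, -, -⟩ := hORN k K n σ hC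
  have hn : n ≠ 0 := by
    rw [← hC.deg]
    have := hC.gal
    exact (Module.finrank_pos (R := k) (M := K)).ne'
  obtain ⟨m, rfl⟩ := Nat.exists_eq_succ_of_ne_zero hn
  rw [Nat.succ_eq_add_one] at *
  obtain ⟨V, U, hV, hU, hVU, -, -, -⟩ := hVGP k K (m + 1) σ hC v π θ c hB M hM
  set p : K := algebraMap k K (π : k) with hp
  have hπ1 : v.valuation k (π : k) ≤ 1 := by
    have : (0 : ℤ) ≤ ord v π := by rw [hB.pi]; norm_num
    rwa [← val_le] at this
  have hπj : ∀ j : ℕ, v.valuation k ((π : k) ^ j) ≤ 1 := by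
    intro j
    rw [map_pow]
    exact pow_le_one' hπ1 j
  have hpow : ∀ j : ℕ, algebraMap k K ((π : k) ^ j) = p ^ j := fun j => map_pow _ _ _
  have p0 : p ≠ 0 := by
    rw [hp]
    exact (map_ne_zero _).2 π.ne_zero
  have iterθ : ∀ x : K, (⇑σ)^[m + 1] x = x := by
    intro x
    by_cases hx : x = 0
    · rw [hx]
      have : ∀ i : ℕ, (⇑σ)^[i] (0 : K) = 0 := by
        intro i
        induction i with
        | zero => rfl
        | succ i ih => rw [Function.iterate_succ_apply', ih, map_zero]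
      exact this _
    · have h := congrArg (fun u : Kˣ => (u : K)) (o4 (Units.mk0 x hx))
      have h' : (((⇑(su σ))^[m + 1] (Units.mk0 x hx) : Kˣ) : K) = x := h
      rw [coe_iter] at h'
      exact h'
  -- elements of `Λ` are integral
  have lam_int : ∀ a : K, Lam (m + 1) v σ θ a → IntV k K v a := by
    rintro a ⟨f, hf, rfl⟩
    apply int_sum
    intro i _
    exact int_mul (int_alg o5 (hf i)) (int_iter σ τ g1 g2 g6 hB.int i)
  -- iteration of VST
  have iter : ∀ j : ℕ, ∃ x : Kˣ, InVM (m + 1) σ v π θ M x ∧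
      InVM (m + 1) σ v π θ (M + j) (su σ (α / x) / (α / x)) := by
    intro j
    induction j with
    | zero =>
      refine ⟨1, ⟨0, lam_zero, by simp⟩, ?_⟩
      rw [div_one]
      exact hα
    | succ j ih =>
      obtain ⟨x, hx1, hx2⟩ := ih
      obtain ⟨x', hx3, hx4⟩ := hVST k K (m + 1) σ hC v π θ c hB (M + j) (by omega) (α / x) hx2
      refine ⟨x * x', ?_, ?_⟩
      · rw [← hV] at hx1 ⊢
        apply V.mul_mem hx1
        rw [hV]
        obtain ⟨a, ha, hxa⟩ := hx3
        refine ⟨algebraMap k K ((π : k) ^ j) * a, lam_smul ha (hπj j), ?_⟩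
        rw [hxa, hpow, pow_add]
        ring
      · rw [← div_div, ← add_assoc]
        exact hx4
  -- the bound `d`
  have := g7 v
  obtain ⟨d, hd⟩ : ∃ d : ℕ, ∀ w, Lies k K v w → |ord w α| ≤ d := by
    have h1 : (Set.range fun w : {w : HeightOneSpectrum (𝓞 K) // Lies k K v w} =>
      (ord w.1 α).natAbs).Finite := Set.finite_range _
    obtain ⟨d, hd⟩ := h1.bddAbove
    refine ⟨d, fun w hw => ?_⟩
    have h2 := hd (Set.mem_range_self (⟨w, hw⟩ : {w : HeightOneSpectrum (𝓞 K) // Lies k K v w}))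
    have h3 : (ord w α).natAbs ≤ d := h2
    rw [Int.abs_eq_natAbs]
    exact_mod_cast h3
  obtain ⟨x, hx1, hx2⟩ := iter (2 * d + 2 * c)
  have hxU : ∀ w, Lies k K v w → ord w x = 0 := by
    rw [← hU]
    exact hVU ((hV x).2 hx1)
  set β : Kˣ := α / x with hβ
  have hord : ∀ w, Lies k K v w → |ord w β| ≤ d := by
    intro w hw
    rw [hβ, div_eq_mul_inv, ord_mul, ord_inv, hxU w hw, neg_zero, add_zero]
    exact hd w hw
  have hpi : ∀ w, Lies k K v w → 1 ≤ ord w (iu k K π) := by
    intro w hw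
    obtain ⟨e, he, h⟩ := o5 v w hw
    rw [h, hB.pi, mul_one]
    exact_mod_cast he
  have hbig : ∀ w, Lies k K v w → (d : ℤ) ≤ ord w ((iu k K π) ^ d) := by
    intro w hw
    rw [ord_pow]
    have := hpi w hw
    nlinarith [Int.natCast_nonneg d]
  have hpi' : ((iu k K π : Kˣ) : K) = p := rfl
  have int1 : IntV k K v (p ^ d * β) := by
    intro w hw
    have h1 : 0 ≤ ord w ((iu k K π) ^ d * β) := by
      rw [ord_mul]
      have h2 := hbig w hw
      have h3 := (abs_le.1 (hord w hw)).1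
      omega
    rw [← val_le, Units.val_mul, Units.val_pow_eq_pow_val, hpi'] at h1
    exact h1
  have int2 : IntV k K v (p ^ d * (β : K)⁻¹) := by
    intro w hw
    have h1 : 0 ≤ ord w ((iu k K π) ^ d * β⁻¹) := by
      rw [ord_mul, ord_inv]
      have h2 := hbig w hw
      have h3 := (abs_le.1 (hord w hw)).2
      omega
    rw [← val_le, Units.val_mul, Units.val_pow_eq_pow_val, hpi', Units.val_inv_eq_inv_val] at h1
    exact h1
  -- `σ β - β`
  obtain ⟨a, ha, hxa⟩ := hx2
  have β0 : (β : K) ≠ 0 := β.ne_zero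
  have e1 : σ (β : K) - β = p ^ (M + (2 * d + 2 * c)) * (β * a) := by
    have h1 : ((su σ β / β : Kˣ) : K) = σ (β : K) / β := by
      rw [Units.val_div_eq_div_val]
      rfl
    rw [h1] at hxa
    have h2 : σ (β : K) = (1 + p ^ (M + (2 * d + 2 * c)) * a) * β := by
      rw [← hxa, div_mul_cancel₀ _ β0]
    rw [h2]
    ring
  obtain ⟨ε, hε, hεe⟩ := hB.lam (p ^ d * β * a) (int_mul int1 (lam_int a ha))
  set N : ℕ := M + d + c with hN
  have e2 : σ (β : K) - β = ∑ i ∈ Finset.range (m + 1),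
      algebraMap k K ((π : k) ^ N * ε i) * (⇑σ)^[i] θ := by
    have h1 : ∑ i ∈ Finset.range (m + 1), algebraMap k K ((π : k) ^ N * ε i) * (⇑σ)^[i] θ =
        p ^ N * ∑ i ∈ Finset.range (m + 1), algebraMap k K (ε i) * (⇑σ)^[i] θ := by
      rw [Finset.mul_sum]
      apply Finset.sum_congr rfl
      intro i _
      rw [map_mul, hpow]
      ring
    rw [h1, ← hεe, e1, hN]
    ring
  obtain ⟨b, hb⟩ := hB.span (β : K)
  have e3 := shift σ θ m (iterθ θ) b
  rw [← hb] at e3
  have e4 : ∑ i ∈ Finset.range (m + 1),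
      algebraMap k K (sh m b i - b i - (π : k) ^ N * ε i) * (⇑σ)^[i] θ = 0 := by
    have h1 : ∑ i ∈ Finset.range (m + 1),
        algebraMap k K (sh m b i - b i - (π : k) ^ N * ε i) * (⇑σ)^[i] θ =
        ∑ i ∈ Finset.range (m + 1), algebraMap k K (sh m b i) * (⇑σ)^[i] θ -
        ∑ i ∈ Finset.range (m + 1), algebraMap k K (b i) * (⇑σ)^[i] θ -
        ∑ i ∈ Finset.range (m + 1), algebraMap k K ((π : k) ^ N * ε i) * (⇑σ)^[i] θ := by
      rw [← Finset.sum_sub_distrib, ← Finset.sum_sub_distrib]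
      apply Finset.sum_congr rfl
      intro i _
      rw [map_sub, map_sub]
      ring
    rw [h1, ← e3, ← hb, ← e2]
    ring
  have e5 := hB.indep _ e4
  -- the coordinates of `β` are congruent
  have e6 : ∀ i, i ≤ m → b i = b 0 + (π : k) ^ N * -(∑ j ∈ Finset.range i, ε (j + 1)) := by
    intro i
    induction i with
    | zero => intro _; simp
    | succ i ih =>
      intro hi
      have h1 := ih (by omega)
      have h2 := e5 (i + 1) (by omega)
      have h3 : sh m b (i + 1) = b i := by simp [sh]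
      rw [h3] at h2
      rw [Finset.sum_range_succ]
      linear_combination h1 - h2
  set y' : K := algebraMap k K (b 0) * ∑ i ∈ Finset.range (m + 1), (⇑σ)^[i] θ with hy'
  have hfix : σ y' = y' := by
    have h1 := shift σ θ m (iterθ θ) (fun _ => b 0)
    have h2 : ∑ i ∈ Finset.range (m + 1), algebraMap k K (b 0) * (⇑σ)^[i] θ = y' := by
      rw [hy', Finset.mul_sum]
    have h3 : ∑ i ∈ Finset.range (m + 1), algebraMap k K (sh m (fun _ => b 0) i) * (⇑σ)^[i] θ =
        y' := by
      rw [← h2]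
      apply Finset.sum_congr rfl
      intro i _
      have : sh m (fun _ => b 0) i = b 0 := by simp [sh]
      rw [this]
    rw [h2, h3] at h1
    exact h1
  obtain ⟨y, hy⟩ := o1 y' (by
    intro i
    induction i with
    | zero => rfl
    | succ i ih => rw [Function.iterate_succ_apply', ih, hfix])
  -- `β - y'`
  have hlam : Lam (m + 1) v σ θ (∑ i ∈ Finset.range (m + 1),
      algebraMap k K (-(∑ j ∈ Finset.range i, ε (j + 1))) * (⇑σ)^[i] θ) := by
    refine ⟨_, fun i => ?_, rfl⟩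
    rw [Valuation.map_neg]
    exact Valuation.map_sum_le _ fun j _ => hε _
  set lam : K := ∑ i ∈ Finset.range (m + 1),
      algebraMap k K (-(∑ j ∈ Finset.range i, ε (j + 1))) * (⇑σ)^[i] θ with hlamdef
  have e7 : (β : K) - y' = p ^ N * lam := by
    have h1 : y' = ∑ i ∈ Finset.range (m + 1), algebraMap k K (b 0) * (⇑σ)^[i] θ := by
      rw [hy', Finset.mul_sum]
    rw [h1, hlamdef, Finset.mul_sum]
    nth_rewrite 1 [hb]
    rw [← Finset.sum_sub_distrib]
    apply Finset.sum_congr rfl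
    intro i hi
    rw [e6 i (by have := Finset.mem_range.1 hi; omega), map_add, map_mul, hpow]
    ring
  -- `y' / β` is in `V_M`
  obtain ⟨μ, hμ, hμe⟩ : ∃ μ : K, Lam (m + 1) v σ θ μ ∧
      p ^ c * (p ^ d * (β : K)⁻¹ * lam) = μ :=
    ⟨_, hB.lam _ (int_mul int2 (lam_int _ hlam)), rfl⟩
  have e8 : y' / β = 1 + p ^ M * -μ := by
    have h1 : y' = β - p ^ N * lam := by linear_combination -e7
    rw [h1, sub_div, div_self β0, ← hμe, hN]
    field_simp
    ring
  have hy0 : y' ≠ 0 := by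
    intro h0
    rw [h0, zero_div] at e8
    obtain ⟨w, hw⟩ := g5 v
    have h1 : p ^ M * μ = 1 := by linear_combination e8
    have h2 : w.valuation K (p ^ M * μ) < 1 := by
      rw [map_mul, map_pow]
      have h3 : w.valuation K p < 1 := by
        rw [← hpi', ord_val, ← WithZero.exp_zero, WithZero.exp_lt_exp]
        have := hpi w hw
        omega
      have h4 : w.valuation K p ^ M < 1 := pow_lt_one' h3 (by omega)
      exact mul_lt_one_of_lt_of_le h4 (lam_int _ hμ w hw)
    rw [h1, map_one] at h2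
    exact lt_irrefl _ h2
  have hyk : y ≠ 0 := by
    intro h0
    apply hy0
    rw [← hy, h0, map_zero]
  refine ⟨Units.mk0 y hyk, ?_⟩
  have hyV : iu k K (Units.mk0 y hyk) / β ∈ V := by
    rw [hV]
    refine ⟨-μ, lam_neg hμ, ?_⟩
    rw [Units.val_div_eq_div_val]
    have h1 : ((iu k K (Units.mk0 y hyk) : Kˣ) : K) = y' := hy
    rw [h1]
    exact e8
  rw [← hV]
  have h1 : α / iu k K (Units.mk0 y hyk) = x / (iu k K (Units.mk0 y hyk) / β) := by
    rw [hβ, div_div_eq_mul_div, mul_div_cancel]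
  rw [h1]
  exact V.div_mem ((hV x).2 hx1) hyV

end Pool.Agent.HB
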