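import Pool.Agent.HB.StHB

/-!
# HB, module SUR: the rank of the `T`-units
-/

set_option autoImplicit false

open NumberField IsDedekindDomain
open scoped nonZeroDivisors

namespace Pool.Agent.HB

noncomputable section

namespace SURx

/-- the rank of an extension of a nonzero subgroup of `ℤ` -/
lemma rank_step {M : Type} [AddCommGroup M] (f : M →ₗ[ℤ] ℤ)
    (hfin : Module.Finite ℤ (LinearMap.ker f)) (x : M) (hx : f x ≠ 0) :
    Module.Finite ℤ M ∧
      Module.finrank ℤ M = Module.finrank ℤ (LinearMap.ker f) + 1 := by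
  have h1 : Module.Finite ℤ (M ⧸ LinearMap.ker f) :=
    Module.Finite.equiv f.quotKerEquivRange.symm
  have h2 : Module.Finite ℤ M := Module.Finite.of_submodule_quotient (LinearMap.ker f)
  refine ⟨h2, ?_⟩
  rw [← (LinearMap.ker f).finrank_quotient_add_finrank, f.quotKerEquivRange.finrank_eq, add_comm]
  congr 1
  obtain ⟨a, ha⟩ : ∃ a : ℤ, LinearMap.range f = Submodule.span ℤ {a} :=
    (IsPrincipalIdealRing.principal (LinearMap.range f : Ideal ℤ)).principal
  have ha0 : a ≠ 0 := by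
    rintro rfl
    have h3 : f x ∈ LinearMap.range f := ⟨x, rfl⟩
    rw [ha, Submodule.span_zero_singleton, Submodule.mem_bot] at h3
    exact hx h3
  rw [ha, ← (LinearEquiv.toSpanNonzeroSingleton ℤ ℤ a ha0).finrank_eq, Module.finrank_self]

variable {F : Type} [Field F] [NumberField F]

/-- an element with prescribed divisor a power of `w` -/
lemma exists_pow (hO : Sh_ORD) (w : HeightOneSpectrum (𝓞 F)) :
    ∃ x : Fˣ, ord w x ≠ 0 ∧ ∀ w' ≠ w, ord w' x = 0 := by
  obtain ⟨-, -, h3, -⟩ := hO F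
  have hw0 : w.asIdeal ∈ (Ideal (𝓞 F))⁰ := mem_nonZeroDivisors_of_ne_zero w.ne_bot
  set h : ℕ := Fintype.card (ClassGroup (𝓞 F)) with hh
  have hpos : h ≠ 0 := Fintype.card_ne_zero
  have h4 : ClassGroup.mk0 ((⟨w.asIdeal, hw0⟩ : (Ideal (𝓞 F))⁰) ^ h) = 1 := by
    rw [map_pow, hh, pow_card_eq_one]
  have h5 : (w.asIdeal ^ h).IsPrincipal := by
    have h6 := (ClassGroup.mk0_eq_one_iff
      (((⟨w.asIdeal, hw0⟩ : (Ideal (𝓞 F))⁰) ^ h).2)).1 h4
    simpa using h6
  obtain ⟨a, ha⟩ := h5.principal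
  have ha' : w.asIdeal ^ h = Ideal.span {a} := ha
  have ha0 : a ≠ 0 := by
    rintro rfl
    rw [Ideal.span_singleton_zero] at ha'
    exact pow_ne_zero h w.ne_bot ha'
  have haF : (a : F) ≠ 0 := by
    intro h0
    exact ha0 (by exact_mod_cast h0)
  have key : ∀ w' : HeightOneSpectrum (𝓞 F), 0 ≤ ord w' (Units.mk0 (a : F) haF) ∧
      (0 < ord w' (Units.mk0 (a : F) haF) ↔ a ∈ w'.asIdeal) := fun w' =>
    h3 (Units.mk0 (a : F) haF) a rfl w'
  refine ⟨Units.mk0 (a : F) haF, ?_, ?_⟩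
  · have h6 : a ∈ w.asIdeal := by
      have h7 : a ∈ w.asIdeal ^ h := by
        rw [ha']
        exact Ideal.mem_span_singleton_self a
      exact Ideal.pow_le_self hpos h7
    exact ((key w).2.2 h6).ne'
  · intro w' hw'
    by_contra hne
    have h6 : 0 < ord w' (Units.mk0 (a : F) haF) := lt_of_le_of_ne (key w').1 (Ne.symm hne)
    have h7 := (key w').2.1 h6
    have h8 : w.asIdeal ^ h ≤ w'.asIdeal := by
      rw [ha', Ideal.span_singleton_le_iff_mem]
      exact h7
    have h9 : w.asIdeal ≤ w'.asIdeal := w'.isPrime.le_of_pow_le h8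
    have h10 : w.asIdeal = w'.asIdeal := w.isMaximal.eq_of_le w'.isPrime.ne_top h9
    exact hw' (HeightOneSpectrum.ext h10.symm)

/-- the units of the ring of integers are the `∅`-units -/
lemma base (hO : Sh_ORD) :
    Nonempty ((𝓞 F)ˣ ≃* EU ((∅ : Finset (HeightOneSpectrum (𝓞 F))) :
      Set (HeightOneSpectrum (𝓞 F)))) := by
  obtain ⟨-, h2, h3, -⟩ := hO F
  have hmem : ∀ u : (𝓞 F)ˣ, Units.map (algebraMap (𝓞 F) F : 𝓞 F →* F) u ∈
      EU ((∅ : Finset (HeightOneSpectrum (𝓞 F))) : Set (HeightOneSpectrum (𝓞 F))) := by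
    intro u w _
    have h4 := (h3 (Units.map (algebraMap (𝓞 F) F : 𝓞 F →* F) u) (u : 𝓞 F) rfl w).1
    have h5 := (h3 (Units.map (algebraMap (𝓞 F) F : 𝓞 F →* F) u⁻¹) ((u⁻¹ : (𝓞 F)ˣ) : 𝓞 F)
      rfl w).1
    rw [map_inv, ord_inv] at h5
    omega
  let f : (𝓞 F)ˣ →* EU ((∅ : Finset (HeightOneSpectrum (𝓞 F))) :
      Set (HeightOneSpectrum (𝓞 F))) :=
    (Units.map (algebraMap (𝓞 F) F : 𝓞 F →* F)).codRestrict _ hmem
  refine ⟨MulEquiv.ofBijective f ⟨?_, ?_⟩⟩
  · intro u v huv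
    have h4 := congrArg (fun t : EU ((∅ : Finset (HeightOneSpectrum (𝓞 F))) :
      Set (HeightOneSpectrum (𝓞 F))) => ((t : Fˣ) : F)) huv
    exact Units.ext (FaithfulSMul.algebraMap_injective (𝓞 F) F h4)
  · rintro ⟨x, hx⟩
    have h0 : ∀ w : HeightOneSpectrum (𝓞 F), ord w x = 0 := fun w => hx w (by simp)
    obtain ⟨y, hy⟩ := (h2 x).1 fun w => (h0 w).ge
    obtain ⟨z, hz⟩ := (h2 x⁻¹).1 fun w => by rw [ord_inv, h0 w, neg_zero]
    have hyz : y * z = 1 := by
      have h6 : algebraMap (𝓞 F) F (y * z) = algebraMap (𝓞 F) F 1 := by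
        rw [map_mul, map_one]
        exact (congrArg₂ (· * ·) hy hz).trans x.mul_inv
      exact FaithfulSMul.algebraMap_injective (𝓞 F) F h6
    refine ⟨⟨y, z, hyz, by rw [mul_comm, hyz]⟩, ?_⟩
    apply Subtype.ext
    apply Units.ext
    exact hy

/-- `ord w` as a linear map on the `T`-units -/
def ordL (U : Subgroup Fˣ) (w : HeightOneSpectrum (𝓞 F)) : Additive U →ₗ[ℤ] ℤ :=
  AddMonoidHom.toIntLinearMap
    { toFun := fun x => ord w ((Additive.toMul x : U) : Fˣ)
      map_zero' := ord_one w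
      map_add' := fun _ _ => ord_mul w _ _ }

/-- the kernel of `ord w` on the `T ∪ {w}`-units -/
lemma ker_equiv (T : Set (HeightOneSpectrum (𝓞 F))) (w : HeightOneSpectrum (𝓞 F)) (hw : w ∉ T) :
    Nonempty (Additive (EU T) ≃ₗ[ℤ] LinearMap.ker (ordL (EU (insert w T)) w)) := by
  have hle : EU T ≤ EU (insert w T) := fun x hx w' hw' =>
    hx w' fun h => hw' (Set.mem_insert_of_mem _ h)
  let g : Additive (EU T) →ₗ[ℤ] Additive (EU (insert w T)) :=
    AddMonoidHom.toIntLinearMap (MonoidHom.toAdditive (Subgroup.inclusion hle))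
  have hg : ∀ x, g x ∈ LinearMap.ker (ordL (EU (insert w T)) w) := by
    intro x
    rw [LinearMap.mem_ker]
    exact (Additive.toMul x : EU T).2 w hw
  refine ⟨LinearEquiv.ofBijective (g.codRestrict _ hg) ⟨?_, ?_⟩⟩
  · intro x y hxy
    have h1 : g x = g y := congrArg Subtype.val hxy
    exact Subgroup.inclusion_injective hle h1
  · rintro ⟨y, hy⟩
    rw [LinearMap.mem_ker] at hy
    have hy' : ((Additive.toMul y : EU (insert w T)) : Fˣ) ∈ EU T := by
      intro w' hw'
      by_cases h : w' = w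
      · rw [h]
        exact hy
      · exact (Additive.toMul y : EU (insert w T)).2 w' (by
          rintro (h1 | h1)
          · exact h h1
          · exact hw' h1)
    refine ⟨Additive.ofMul ⟨_, hy'⟩, ?_⟩
    apply Subtype.ext
    rfl

end SURx

open SURx in
theorem th_SUR (hO : Sh_ORD) : Sh_SUR := by
  classical
  intro F _ _ T
  induction T using Finset.induction_on with
  | empty =>
    obtain ⟨e⟩ := base (F := F) hO
    have e' : Additive (𝓞 F)ˣ ≃ₗ[ℤ] Additive (EU ((∅ : Finset (HeightOneSpectrum (𝓞 F))) :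
      Set (HeightOneSpectrum (𝓞 F)))) := (MulEquiv.toAdditive e).toIntLinearEquiv
    refine ⟨Module.Finite.equiv e', ?_⟩
    unfold rk
    rw [← e'.finrank_eq, NumberField.Units.finrank_eq, NumberField.Units.rank,
      Finset.card_empty, add_zero]
    have : 0 < Fintype.card (InfinitePlace F) := Fintype.card_pos
    omega
  | insert w T hw ih =>
    obtain ⟨ih1, ih2⟩ := ih
    obtain ⟨e⟩ := ker_equiv (T : Set (HeightOneSpectrum (𝓞 F))) w (by simpa using hw)
    obtain ⟨x, hx1, hx2⟩ := exists_pow hO w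
    have hxm : x ∈ EU (insert w (T : Set (HeightOneSpectrum (𝓞 F)))) := fun w' hw' =>
      hx2 w' fun h => hw' (h ▸ Set.mem_insert _ _)
    have hfin : Module.Finite ℤ
        (LinearMap.ker (ordL (EU (insert w (T : Set (HeightOneSpectrum (𝓞 F))))) w)) :=
      Module.Finite.equiv e
    obtain ⟨k1, k2⟩ := rank_step _ hfin (Additive.ofMul ⟨x, hxm⟩) hx1
    rw [Finset.coe_insert]
    refine ⟨k1, ?_⟩
    unfold rk at ih2 ⊢
    rw [k2, ← e.finrank_eq, Finset.card_insert_of_notMem hw]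
    omega

end

end Pool.Agent.HB
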