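import Pool.Agent.HB.StHB

/-!
# HB, T1E (helper2): `Ĥ⁻¹` of the `S`-units is trivial
-/

set_option autoImplicit false

open NumberField IsDedekindDomain

namespace Pool.Agent.HB

noncomputable section

private def t1eOrd {F : Type} [Field F] [NumberField F] (w : HeightOneSpectrum (𝓞 F)) :
    Fˣ →* Multiplicative ℤ where
  toFun x := Multiplicative.ofAdd (ord w x)
  map_one' := by rw [ord_one]; rfl
  map_mul' x y := by rw [ord_mul]; rfl

private lemma t1e_ord_div {F : Type} [Field F] [NumberField F] (w : HeightOneSpectrum (𝓞 F))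
    (x y : Fˣ) : ord w (x / y) = ord w x - ord w y := by
  rw [div_eq_mul_inv, ord_mul, ord_inv, sub_eq_add_neg]

private lemma t1e_ord_zpow {F : Type} [Field F] [NumberField F] (w : HeightOneSpectrum (𝓞 F))
    (x : Fˣ) (m : ℤ) : ord w (x ^ m) = m * ord w x := by
  have h := map_zpow (t1eOrd w) x m
  have h2 := congrArg Multiplicative.toAdd h
  simpa [t1eOrd] using h2

private lemma t1e_ord_prod {F : Type} [Field F] [NumberField F] (w : HeightOneSpectrum (𝓞 F))
    {ι : Type} (T : Finset ι) (f : ι → Fˣ) : ord w (∏ i ∈ T, f i) = ∑ i ∈ T, ord w (f i) := by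
  classical
  induction T using Finset.induction_on with
  | empty => simp
  | insert a T ha ih => rw [Finset.prod_insert ha, Finset.sum_insert ha, ord_mul, ih]

theorem th_T1E (hORG : Sh_ORG) (hORN : Sh_ORN) (hORD : Sh_ORD) : Sh_T1E := by
  intro k K _ _ _ _ _ n σ hc S hU hG
  classical
  obtain ⟨π, o1, o2, o3, -, o5, o6, -, -⟩ := hORG k K n σ hc
  obtain ⟨-, n2, n3, -, -, -, -, -⟩ := hORN k K n σ hc
  have d1 := (hORD K).1
  unfold t1
  rw [Subgroup.relIndex_eq_one, sup_bot_eq]
  rintro u ⟨hu1, hu2⟩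
  have hu2' : NN n (su σ) u = 1 := by simpa using hu2
  have hinj : Function.Injective (iu k K) :=
    Units.map_injective (f := ((algebraMap k K : k →+* K) : k →* K)) (algebraMap k K).injective
  have hnu : nu k K u = 1 := by
    apply hinj
    rw [n3, hu2', map_one]
  have hnorm : Algebra.norm k (u : K) = 1 := by
    have := congrArg (fun t : kˣ => (t : k)) hnu
    simpa [nu] using this
  have := hc.gal
  have : IsCyclic (K ≃ₐ[k] K) := ⟨σ, hc.gen⟩
  obtain ⟨y, hy⟩ := groupCohomology.exists_div_of_norm_eq_one hc.gen hnorm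
  obtain ⟨z, hz⟩ : ∃ z : Kˣ, su σ z / z = u := by
    refine ⟨y⁻¹, ?_⟩
    have : y / su σ y = u := by
      apply Units.ext
      rw [← hy]
      simp [su]
    rw [← this, map_inv, div_inv_eq_mul, mul_comm, ← div_eq_mul_inv]
  -- uniqueness of the prime below
  have huniq : ∀ v v' w, Lies k K v w → Lies k K v' w → v = v' := by
    intro v v' w h h'
    apply HeightOneSpectrum.ext
    exact h.symm.trans h'
  have hstep : ∀ v w, v ∉ S → Lies k K v w → ord (π w) z = ord w z := by
    intro v w hv hw
    have hnot : π w ∉ abv k K (S : Set (HeightOneSpectrum (𝓞 k))) := by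
      rintro ⟨v', hv', hw'⟩
      have := huniq v v' (π w) (o2 v w hw) hw'
      subst this
      exact hv (by simpa using hv')
    have h0 := hu1 (π w) hnot
    rw [← hz, t1e_ord_div] at h0
    have h1 := o1 w z
    omega
  have hiter : ∀ (i : ℕ) v w, v ∉ S → Lies k K v w →
      Lies k K v ((⇑π)^[i] w) ∧ ord ((⇑π)^[i] w) z = ord w z := by
    intro i
    induction i with
    | zero => intro v w _ hw; exact ⟨hw, rfl⟩
    | succ i ih =>
      intro v w hv hw
      obtain ⟨a, b⟩ := ih v w hv hw
      rw [Function.iterate_succ', Function.comp]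
      exact ⟨o2 _ _ a, (hstep v _ hv a).trans b⟩
  have hconst : ∀ v w w', v ∉ S → Lies k K v w → Lies k K v w' → ord w z = ord w' z := by
    intro v w w' hv hw hw'
    obtain ⟨i, hi⟩ := o3 v w w' hw hw'
    rw [← hi]
    exact (hiter i v w hv hw).2.symm
  choose w0 hw0 using o5
  have hw0inj : Function.Injective w0 := by
    intro v v' h
    have := hw0 v
    rw [h] at this
    exact huniq v v' _ this (hw0 v')
  set c : HeightOneSpectrum (𝓞 k) → ℤ := fun v => ord (w0 v) z with hcdef
  have hfin : {v : HeightOneSpectrum (𝓞 k) | v ∉ S ∧ c v ≠ 0}.Finite := by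
    refine Set.Finite.subset ((d1 z).preimage (hw0inj.injOn)) ?_
    rintro v ⟨_, hv⟩
    exact hv
  choose! xv hx1 hx2 using hG
  set T := hfin.toFinset with hT
  set x : kˣ := ∏ v ∈ T, xv v ^ (c v) with hxdef
  have hordx : ∀ v, v ∉ S → ord v x = c v := by
    intro v' hv'
    have hv'' : v' ∉ (S : Set (HeightOneSpectrum (𝓞 k))) := by simpa using hv'
    rw [hxdef, t1e_ord_prod]
    by_cases hmem : v' ∈ T
    · rw [Finset.sum_eq_single_of_mem v' hmem]
      · rw [t1e_ord_zpow, hx1 v' hv'', mul_one]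
      · intro b hb hne
        have hb' : b ∉ S := ((Set.Finite.mem_toFinset hfin).1 hb).1
        have hb'' : b ∉ (S : Set (HeightOneSpectrum (𝓞 k))) := by simpa using hb'
        rw [t1e_ord_zpow, hx2 b hb'' v' hv'' (Ne.symm hne), mul_zero]
    · rw [Finset.sum_eq_zero]
      · by_contra hne
        exact hmem ((Set.Finite.mem_toFinset hfin).2 ⟨hv', fun h => hne h.symm⟩)
      · intro b hb
        have hb' : b ∉ S := ((Set.Finite.mem_toFinset hfin).1 hb).1
        have hb'' : b ∉ (S : Set (HeightOneSpectrum (𝓞 k))) := by simpa using hb'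
        have hne : v' ≠ b := by rintro rfl; exact hmem hb
        rw [t1e_ord_zpow, hx2 b hb'' v' hv'' hne, mul_zero]
  refine ⟨z / iu k K x, ?_, ?_⟩
  · intro w hw
    obtain ⟨v, hv⟩ := o6 w
    have hvS : v ∉ S := by
      intro h
      exact hw ⟨v, by simpa using h, hv⟩
    rw [t1e_ord_div, hU v hvS w hv x, hordx v hvS, hcdef]
    simp only
    rw [hconst v w (w0 v) hvS hv (hw0 v), sub_self]
  · have hfix : su σ (iu k K x) = iu k K x := (n2 _).2 ⟨x, rfl⟩
    show su σ (z / iu k K x) / (z / iu k K x) = u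
    rw [map_div, hfix, ← hz, div_div_div_cancel_right]

end

end Pool.Agent.HB
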