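import Pool.Agent.HB.H_ORD

/-!
# (VGP): the groups `V_M` (helper1)
-/

set_option autoImplicit false

open NumberField IsDedekindDomain

namespace Pool.Agent.HB

namespace VGPx

variable {k K : Type} [Field k] [NumberField k] [Field K] [NumberField K] [Algebra k K]

lemma iv_add {v : HeightOneSpectrum (𝓞 k)} {x y : K} (hx : IntV k K v x) (hy : IntV k K v y) :
    IntV k K v (x + y) := fun w hw =>
  (Valuation.map_add _ _ _).trans (max_le (hx w hw) (hy w hw))

lemma iv_neg {v : HeightOneSpectrum (𝓞 k)} {x : K} (hx : IntV k K v x) : IntV k K v (-x) :=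
  fun w hw => by rw [Valuation.map_neg]; exact hx w hw

lemma iv_mul {v : HeightOneSpectrum (𝓞 k)} {x y : K} (hx : IntV k K v x) (hy : IntV k K v y) :
    IntV k K v (x * y) := fun w hw => by
  rw [map_mul]; exact mul_le_one' (hx w hw) (hy w hw)

lemma iv_zero (v : HeightOneSpectrum (𝓞 k)) : IntV k K v (0 : K) := fun w _ => by
  rw [map_zero]; exact zero_le

lemma iv_pow {v : HeightOneSpectrum (𝓞 k)} {x : K} (hx : IntV k K v x) (n : ℕ) :
    IntV k K v (x ^ n) := fun w hw => by
  rw [map_pow]; exact pow_le_one' (hx w hw) n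

lemma iv_sum {v : HeightOneSpectrum (𝓞 k)} {ι : Type} (s : Finset ι) (f : ι → K)
    (h : ∀ i ∈ s, IntV k K v (f i)) : IntV k K v (∑ i ∈ s, f i) := fun w hw =>
  Valuation.map_sum_le _ fun i hi => h i hi w hw

/-- elements of `k` integral at `v` -/
lemma iv_alg (v : HeightOneSpectrum (𝓞 k))
    (hN : ∀ w, Lies k K v w → ∃ e : ℕ, 1 ≤ e ∧ ∀ x : kˣ, ord w (iu k K x) = e * ord v x) {c : k}
    (hc : v.valuation k c ≤ 1) : IntV k K v (algebraMap k K c) := by
  intro w hw
  rcases eq_or_ne c 0 with rfl | h0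
  · rw [map_zero, map_zero]; exact zero_le
  · obtain ⟨e, he, h⟩ := hN w hw
    have h1 := h (Units.mk0 c h0)
    have h2 : 0 ≤ ord v (Units.mk0 c h0) := (ORDx.ord_nonneg_iff _ _).2 hc
    have h3 : 0 ≤ ord w (iu k K (Units.mk0 c h0)) := by
      rw [h1]; positivity
    exact (ORDx.ord_nonneg_iff _ _).1 h3

section lam
variable {n : ℕ} {σ : K ≃ₐ[k] K} {v : HeightOneSpectrum (𝓞 k)} {θ : K}

lemma lam_add {x y : K} (hx : Lam n v σ θ x) (hy : Lam n v σ θ y) : Lam n v σ θ (x + y) := by
  obtain ⟨c, hc, rfl⟩ := hx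
  obtain ⟨d, hd, rfl⟩ := hy
  refine ⟨fun i => c i + d i, fun i => (Valuation.map_add _ _ _).trans (max_le (hc i) (hd i)), ?_⟩
  rw [← Finset.sum_add_distrib]
  exact Finset.sum_congr rfl fun i _ => by rw [map_add, add_mul]

lemma lam_neg {x : K} (hx : Lam n v σ θ x) : Lam n v σ θ (-x) := by
  obtain ⟨c, hc, rfl⟩ := hx
  refine ⟨fun i => - c i, fun i => by rw [Valuation.map_neg]; exact hc i, ?_⟩
  rw [← Finset.sum_neg_distrib]
  exact Finset.sum_congr rfl fun i _ => by rw [map_neg, neg_mul]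

lemma lam_zero : Lam n v σ θ (0 : K) :=
  ⟨fun _ => 0, fun _ => by rw [map_zero]; exact zero_le, by simp⟩

lemma lam_sig (hn : 1 ≤ n) (hs : ∀ x : K, (⇑σ)^[n] x = x) {x : K} (hx : Lam n v σ θ x) :
    Lam n v σ θ (σ x) := by
  obtain ⟨m, rfl⟩ : ∃ m, n = m + 1 := ⟨n - 1, by omega⟩
  obtain ⟨c, hc, rfl⟩ := hx
  refine ⟨fun i => if i = 0 then c m else c (i - 1), fun i => by
    dsimp only
    split
    · exact hc _
    · exact hc _, ?_⟩
  rw [map_sum, Finset.sum_range_succ, Finset.sum_range_succ']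
  have e1 : σ (algebraMap k K (c m) * (⇑σ)^[m] θ) = algebraMap k K (c m) * (⇑σ)^[0] θ := by
    rw [map_mul, AlgEquiv.commutes, ← Function.iterate_succ_apply' (⇑σ), hs]
    rfl
  rw [e1]
  congr 1
  refine Finset.sum_congr rfl fun i _ => ?_
  rw [map_mul, AlgEquiv.commutes, ← Function.iterate_succ_apply' (⇑σ)]
  simp

end lam

end VGPx

open VGPx in
theorem th_VGP (hORG : Sh_ORG) (hORN : Sh_ORN) : Sh_VGP := by
  classical
  intro k K _ _ _ _ _ n σ hC v π θ c hNB M hM
  obtain ⟨P, hP1, hP2, -, hP4, -, -, hfin, -⟩ := hORG k K n σ hC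
  obtain ⟨-, -, -, hsn, hram, -⟩ := hORN k K n σ hC
  have hr := hram v
  have hn : 1 ≤ n := by
    rw [← hC.deg]
    exact Module.finrank_pos
  -- `σ^n = id`
  have hs : ∀ x : K, (⇑σ)^[n] x = x := by
    intro x
    rcases eq_or_ne x 0 with rfl | h0
    · exact Function.iterate_fixed (map_zero σ) n
    · have h1 := congrArg (fun u : Kˣ => (u : K)) (hsn (Units.mk0 x h0))
      have h2 : ∀ (i : ℕ) (u : Kˣ), (((⇑(su σ))^[i] u : Kˣ) : K) = (⇑σ)^[i] (u : K) := by
        intro i
        induction i with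
        | zero => intro u; rfl
        | succ i ih =>
          intro u
          rw [Function.iterate_succ_apply, Function.iterate_succ_apply, ih]
          rfl
      simp only [h2] at h1
      exact h1
  -- the prime `π`
  obtain ⟨p, hp⟩ : ∃ p : K, p = algebraMap k K (π : k) := ⟨_, rfl⟩
  have hp0 : p ≠ 0 := by
    rw [hp]
    exact (map_ne_zero _).2 π.ne_zero
  have hpv : ∀ w, Lies k K v w → w.valuation K p < 1 := by
    intro w hw
    obtain ⟨e, he, h⟩ := hr w hw
    have h1 := h π
    rw [hNB.pi, mul_one] at h1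
    have h2 : 0 < ord w (iu k K π) := by
      rw [h1]; exact_mod_cast he
    rw [hp]
    exact (ORDx.ord_pos_iff _ _).1 h2
  have hpi : IntV k K v p := fun w hw => (hpv w hw).le
  -- `σ` preserves integrality
  have hord : ∀ (x : Kˣ) (w : HeightOneSpectrum (𝓞 K)), Lies k K v w →
      ∃ w', Lies k K v w' ∧ ord w (su σ x) = ord w' x := by
    intro x w hw
    have hit : ∀ i : ℕ, Lies k K v ((⇑P)^[i] w) := by
      intro i
      induction i with
      | zero => exact hw
      | succ i ih =>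
        rw [Function.iterate_succ_apply']
        exact hP2 v _ ih
    refine ⟨(⇑P)^[n - 1] w, hit _, ?_⟩
    have h := hP1 ((⇑P)^[n - 1] w) x
    have e : (n - 1).succ = n := by omega
    rw [← Function.iterate_succ_apply' (⇑P), e, hP4] at h
    exact h
  have hsig : ∀ x : K, IntV k K v x → IntV k K v (σ x) := by
    intro x hx w hw
    rcases eq_or_ne x 0 with rfl | h0
    · rw [map_zero, map_zero]; exact zero_le
    · obtain ⟨w', hw', h⟩ := hord (Units.mk0 x h0) w hw
      have h1 := (ORDx.ord_nonneg_iff w' (Units.mk0 x h0)).2 (hx w' hw')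
      rw [← h] at h1
      exact (ORDx.ord_nonneg_iff w (su σ (Units.mk0 x h0))).1 h1
  have hit : ∀ i : ℕ, IntV k K v ((⇑σ)^[i] θ) := by
    intro i
    induction i with
    | zero => exact hNB.int
    | succ i ih =>
      rw [Function.iterate_succ_apply']
      exact hsig _ ih
  have hLI : ∀ x : K, Lam n v σ θ x → IntV k K v x := by
    rintro x ⟨a, ha, rfl⟩
    exact iv_sum _ _ fun i _ => iv_mul (iv_alg v hr (ha i)) (hit i)
  have hIL : ∀ (j : ℕ) (x : K), c ≤ j → IntV k K v x → Lam n v σ θ (p ^ j * x) := by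
    intro j x hj hx
    have h := hNB.lam (p ^ (j - c) * x) (iv_mul (iv_pow hpi _) hx)
    rw [← hp, ← mul_assoc, ← pow_add, Nat.add_sub_cancel' hj] at h
    exact h
  -- elements of `V_M` are units at `v`
  have hunit : ∀ (x : Kˣ) (a : K), IntV k K v a → (x : K) = 1 + p ^ M * a →
      ∀ w, Lies k K v w → ord w x = 0 := by
    intro x a ha hx w hw
    rw [ORDx.ord_zero_iff]
    have h1 : w.valuation K ((x : K) - 1) < w.valuation K (1 : K) := by
      have e1 : (x : K) - 1 = p ^ M * a := by rw [hx]; ring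
      rw [e1, map_mul, map_pow, map_one]
      refine lt_of_le_of_lt (mul_le_of_le_one_right' (ha w hw)) ?_
      exact pow_lt_one' (hpv w hw) (by omega)
    have h5 := Valuation.map_add_eq_of_lt_left (w.valuation K) h1
    rw [add_sub_cancel, map_one] at h5
    exact h5
  have hivinv : ∀ x : Kˣ, (∀ w, Lies k K v w → ord w x = 0) → IntV k K v ((x⁻¹ : Kˣ) : K) := by
    intro x hx w hw
    rw [← ORDx.ord_nonneg_iff, ord_inv, hx w hw, neg_zero]
  have hInV : ∀ x : Kˣ, InVM n σ v π θ M x ↔ ∃ a : K, Lam n v σ θ a ∧ (x : K) = 1 + p ^ M * a := by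
    intro x
    rw [hp]
    rfl
  let V : Subgroup Kˣ :=
    { carrier := {x | InVM n σ v π θ M x}
      one_mem' := by
        change InVM n σ v π θ M 1
        rw [hInV]
        exact ⟨0, lam_zero, by simp⟩
      mul_mem' := by
        intro x y hx hy
        change InVM n σ v π θ M (x * y)
        obtain ⟨a, ha, hxa⟩ := (hInV x).1 hx
        obtain ⟨b, hb, hyb⟩ := (hInV y).1 hy
        rw [hInV]
        refine ⟨a + b + p ^ M * (a * b), lam_add (lam_add ha hb)
          (hIL M _ (by omega) (iv_mul (hLI a ha) (hLI b hb))), ?_⟩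
        rw [Units.val_mul, hxa, hyb]
        ring
      inv_mem' := by
        intro x hx
        change InVM n σ v π θ M x⁻¹
        obtain ⟨a, ha, hxa⟩ := (hInV x).1 hx
        rw [hInV]
        have h1 := hivinv x (hunit x a (hLI a ha) hxa)
        refine ⟨-a + p ^ M * (a * a * ((x⁻¹ : Kˣ) : K)), lam_add (lam_neg ha)
          (hIL M _ (by omega) (iv_mul (iv_mul (hLI a ha) (hLI a ha)) h1)), ?_⟩
        have h2 : (x : K) * ((x⁻¹ : Kˣ) : K) = 1 := by
          rw [← Units.val_mul, mul_inv_cancel, Units.val_one]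
        have h3 : ((x⁻¹ : Kˣ) : K) = 1 - p ^ M * a * ((x⁻¹ : Kˣ) : K) := by
          rw [hxa] at h2
          linear_combination h2
        have h4 : ((x⁻¹ : Kˣ) : K) = 1 - p ^ M * a * (1 - p ^ M * a * ((x⁻¹ : Kˣ) : K)) := by
          rw [← h3, ← h3]
        linear_combination h4 }
  let U : Subgroup Kˣ :=
    { carrier := {x | ∀ w, Lies k K v w → ord w x = 0}
      one_mem' := fun w _ => ord_one w
      mul_mem' := by
        intro x y hx hy w hw
        rw [ord_mul, hx w hw, hy w hw, add_zero]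
      inv_mem' := by
        intro x hx w hw
        rw [ord_inv, hx w hw, neg_zero] }
  have hVm : ∀ x, x ∈ V ↔ InVM n σ v π θ M x := fun x => Iff.rfl
  have hUm : ∀ x, x ∈ U ↔ ∀ w, Lies k K v w → ord w x = 0 := fun x => Iff.rfl
  refine ⟨V, U, hVm, hUm, ?_, ?_, ?_, ?_⟩
  · intro x hx
    obtain ⟨a, ha, hxa⟩ := (hInV x).1 hx
    exact hunit x a (hLI a ha) hxa
  · intro x hx
    obtain ⟨a, ha, hxa⟩ := (hInV x).1 hx
    refine (hInV _).2 ⟨σ a, lam_sig hn hs ha, ?_⟩
    change σ (x : K) = _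
    rw [hxa, map_add, map_one, map_mul, map_pow, hp, AlgEquiv.commutes]
  · intro x hx w hw
    obtain ⟨w', hw', h⟩ := hord x w hw
    rw [h]
    exact hx w' hw'
  · -- finite index
    have hTf : (Set.range (Subtype.val : {w : HeightOneSpectrum (𝓞 K) // Lies k K v w} →
        HeightOneSpectrum (𝓞 K))).Finite := by
      have := hfin v
      exact Set.finite_range _
    obtain ⟨T, hT⟩ : ∃ T : Finset (HeightOneSpectrum (𝓞 K)), ∀ w, w ∈ T ↔ Lies k K v w :=
      ⟨hTf.toFinset, fun w => by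
        rw [Set.Finite.mem_toFinset, Set.mem_range]
        exact ⟨fun ⟨y, hy⟩ => hy ▸ y.2, fun h => ⟨⟨w, h⟩, rfl⟩⟩⟩
    -- the modulus
    obtain ⟨y0, hy0, hy0v⟩ := ORDx.crt_int T (fun w => (ord w (iu k K π ^ (M + c))).toNat)
    have hp' : ∀ w, w.valuation K (p ^ (M + c)) =
        WithZero.exp (-ord w (iu k K π ^ (M + c))) := by
      intro w
      rw [← ord_val, Units.val_pow_eq_pow_val, hp]
      rfl
    have hmod : ∀ a ∈ Ideal.span {y0}, ∀ w, Lies k K v w →
        w.valuation K (a : K) ≤ w.valuation K (p ^ (M + c)) := by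
      intro a ha w hw
      obtain ⟨b, rfl⟩ := Ideal.mem_span_singleton.1 ha
      have h1 : w.valuation K ((y0 * b : 𝓞 K) : K) = w.intValuation (y0 * b) :=
        w.valuation_of_algebraMap (y0 * b)
      rw [h1, map_mul, hy0v w ((hT w).2 hw), hp']
      refine (mul_le_of_le_one_right' (w.intValuation_le_one b)).trans ?_
      rw [WithZero.exp_le_exp]
      have := Int.self_le_toNat (ord w (iu k K π ^ (M + c)))
      omega
    have hI : Ideal.span {y0} ≠ ⊥ := by
      rw [Ne, Ideal.span_singleton_eq_bot]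
      exact hy0
    have hF : Finite (𝓞 K ⧸ Ideal.span {y0}) := Ideal.finiteQuotientOfFreeOfNeBot _ hI
    -- fractions
    have hfrac : ∀ x : Kˣ, (∀ w, Lies k K v w → ord w x = 0) → ∃ (a b : 𝓞 K) (ua ub : Kˣ),
        (ua : K) = a ∧ (ub : K) = b ∧ x * ub = ua ∧ (∀ w, Lies k K v w → ord w ua = 0) ∧
        ∀ w, Lies k K v w → ord w ub = 0 := by
      intro x hx
      have hfs := ORDx.fin_supp x
      obtain ⟨b, hb0, hb⟩ := ORDx.crt_int (T ∪ hfs.toFinset) (fun w => (-ord w x).toNat)
      have hb1 : (b : K) ≠ 0 := by exact_mod_cast hb0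
      have hob : ∀ w ∈ T ∪ hfs.toFinset, ord w (Units.mk0 (b : K) hb1) = (-ord w x).toNat := by
        intro w hw
        unfold ord
        rw [Units.val_mk0]
        have : w.valuation K (b : K) = w.intValuation b := w.valuation_of_algebraMap b
        rw [this, hb w hw, WithZero.log_exp]
        unfold ord
        ring
      have hub : ∀ w, Lies k K v w → ord w (Units.mk0 (b : K) hb1) = 0 := by
        intro w hw
        rw [hob w (Finset.mem_union_left _ ((hT w).2 hw)), hx w hw]
        rfl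
      have hint : ∀ w : HeightOneSpectrum (𝓞 K), 0 ≤ ord w (x * Units.mk0 (b : K) hb1) := by
        intro w
        rw [ord_mul]
        by_cases hw : ord w x = 0
        · rw [hw, zero_add]
          exact (ORDx.int_iff (Units.mk0 (b : K) hb1)).2 ⟨b, rfl⟩ w
        · rw [hob w (Finset.mem_union_right _ (by
            rw [Set.Finite.mem_toFinset]; exact hw))]
          have := Int.self_le_toNat (-ord w x)
          omega
      obtain ⟨a, ha⟩ := (ORDx.int_iff _).1 hint
      refine ⟨a, b, x * Units.mk0 (b : K) hb1, Units.mk0 (b : K) hb1, ha.symm, rfl, rfl, ?_, hub⟩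
      intro w hw
      rw [ord_mul, hx w hw, hub w hw, add_zero]
    -- congruent elements
    have hcong : ∀ (ua ub : Kˣ) (a b : 𝓞 K), (ua : K) = a → (ub : K) = b →
        (∀ w, Lies k K v w → ord w ub = 0) → a - b ∈ Ideal.span {y0} → ua / ub ∈ V := by
      intro ua ub a b hua hub hu hab
      rw [hVm, hInV]
      have h1 : IntV k K v (((a - b : 𝓞 K) : K) / p ^ (M + c)) := by
        intro w hw
        rw [map_div₀]
        have h0 : w.valuation K (p ^ (M + c)) ≠ 0 := by
          rw [Ne, Valuation.zero_iff]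
          exact pow_ne_zero _ hp0
        exact div_le_one_of_le₀ (hmod _ hab w hw) zero_le
      refine ⟨p ^ c * (((a - b : 𝓞 K) : K) / p ^ (M + c) * ((ub⁻¹ : Kˣ) : K)),
        hIL c _ le_rfl (iv_mul h1 (hivinv ub hu)), ?_⟩
      have h2 : (ub : K) ≠ 0 := ub.ne_zero
      have h3 : ((a - b : 𝓞 K) : K) = (a : K) - b := by push_cast; rfl
      rw [h3, Units.val_div_eq_div_val, Units.val_inv_eq_inv_val, hua, hub] at *
      field_simp
      ring
    -- the injection
    choose fa fb ua ub h1 h2 h3 h4 h5 using hfrac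
    have key : Finite (U ⧸ V.subgroupOf U) := by
      let g : U → (𝓞 K ⧸ Ideal.span {y0}) × (𝓞 K ⧸ Ideal.span {y0}) := fun x =>
        (Ideal.Quotient.mk _ (fa x.1 x.2), Ideal.Quotient.mk _ (fb x.1 x.2))
      refine Finite.of_injective (fun q : U ⧸ V.subgroupOf U => g (Quotient.out q)) ?_
      intro q q' hqq
      obtain ⟨x, hx⟩ : ∃ x : U, x = Quotient.out q := ⟨_, rfl⟩
      obtain ⟨y, hy⟩ : ∃ y : U, y = Quotient.out q' := ⟨_, rfl⟩
      simp only [← hx, ← hy, g, Prod.mk.injEq] at hqq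
      obtain ⟨e1, e2⟩ := hqq
      rw [Ideal.Quotient.eq] at e1 e2
      have c1 := hcong (ua x.1 x.2) (ua y.1 y.2) _ _ (h1 x.1 x.2) (h1 y.1 y.2) (h4 y.1 y.2) e1
      have c2 := hcong (ub x.1 x.2) (ub y.1 y.2) _ _ (h2 x.1 x.2) (h2 y.1 y.2) (h5 y.1 y.2) e2
      have c3 : (x.1)⁻¹ * y.1 ∈ V := by
        have e3 := h3 x.1 x.2
        have e4 := h3 y.1 y.2
        have e5 : (x.1)⁻¹ * y.1 = (ua x.1 x.2 / ua y.1 y.2)⁻¹ * (ub x.1 x.2 / ub y.1 y.2) := by
          rw [← e3, ← e4]
          apply Units.ext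
          have n1 := x.1.ne_zero
          have n2 := y.1.ne_zero
          have n3 := (ub x.1 x.2).ne_zero
          have n4 := (ub y.1 y.2).ne_zero
          push_cast
          field_simp
        rw [e5]
        exact V.mul_mem (V.inv_mem c1) c2
      rw [← Quotient.out_eq' q, ← Quotient.out_eq' q']
      refine QuotientGroup.eq.2 ?_
      rw [Subgroup.mem_subgroupOf]
      have e6 : (((Quotient.out q)⁻¹ * Quotient.out q' : U) : Kˣ) = (x.1)⁻¹ * y.1 := by
        rw [hx, hy]
        rfl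
      exact e6 ▸ c3
    have : (V.subgroupOf U).FiniteIndex := Subgroup.finiteIndex_of_finite_quotient
    exact this.index_ne_zero

end Pool.Agent.HB
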