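import Pool.Agent.HB.H_VGP

/-!
# (VST): one step of the approximation (helper96)
-/

set_option autoImplicit false

open NumberField IsDedekindDomain

namespace Pool.Agent.HB

namespace VSTx

variable {k K : Type} [Field k] [NumberField k] [Field K] [NumberField K] [Algebra k K]

open VGPx

/-- `∏ (1 + t a_i) = 1 + t ∑ a_i + t² e` -/
lemma expand {v : HeightOneSpectrum (𝓞 k)} (t : K) (ht : IntV k K v t) (a : ℕ → K)
    (ha : ∀ i, IntV k K v (a i)) : ∀ N : ℕ, ∃ e : K, IntV k K v e ∧
      ∏ i ∈ Finset.range N, (1 + t * a i) = 1 + t * ∑ i ∈ Finset.range N, a i + t ^ 2 * e := by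
  intro N
  induction N with
  | zero => exact ⟨0, iv_zero v, by simp⟩
  | succ N ih =>
    obtain ⟨e, he, h⟩ := ih
    refine ⟨e + (∑ i ∈ Finset.range N, a i) * a N + t * (e * a N),
      iv_add (iv_add he (iv_mul (iv_sum _ _ fun i _ => ha i) (ha N)))
        (iv_mul ht (iv_mul he (ha N))), ?_⟩
    rw [Finset.prod_range_succ, h, Finset.sum_range_succ]
    ring

omit [NumberField k] [NumberField K] in
lemma coe_iter (σ : K ≃ₐ[k] K) (u : Kˣ) (i : ℕ) :
    (((⇑(su σ))^[i] u : Kˣ) : K) = (⇑σ)^[i] (u : K) := by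
  induction i with
  | zero => rfl
  | succ i ih =>
    rw [Function.iterate_succ_apply', Function.iterate_succ_apply', ← ih]
    rfl

omit [NumberField k] [NumberField K] in
/-- the sum of the conjugates of `∑ c_j σ^j θ` -/
lemma tr_eq (σ : K ≃ₐ[k] K) (θ : K) (n : ℕ) (hs : ∀ x : K, (⇑σ)^[n] x = x) (c : ℕ → k) :
    ∑ i ∈ Finset.range n, (⇑σ)^[i] (∑ j ∈ Finset.range n, algebraMap k K (c j) * (⇑σ)^[j] θ) =
      algebraMap k K (∑ j ∈ Finset.range n, c j) * ∑ i ∈ Finset.range n, (⇑σ)^[i] θ := by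
  have h1 : ∀ i j : ℕ, (⇑σ)^[i] (algebraMap k K (c j) * (⇑σ)^[j] θ) =
      algebraMap k K (c j) * (⇑σ)^[j] ((⇑σ)^[i] θ) := by
    intro i j
    induction i with
    | zero => rfl
    | succ i ih =>
      rw [Function.iterate_succ_apply', ih, map_mul, AlgEquiv.commutes,
        ← Function.iterate_succ_apply' (⇑σ), Function.iterate_succ_apply (⇑σ) j,
        ← Function.iterate_succ_apply' (⇑σ) i]
  have h2 : ∀ (i : ℕ) (f : ℕ → K) (s : Finset ℕ), (⇑σ)^[i] (∑ j ∈ s, f j) =
      ∑ j ∈ s, (⇑σ)^[i] (f j) := by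
    intro i f s
    induction i with
    | zero => rfl
    | succ i ih =>
      rw [Function.iterate_succ_apply', ih, map_sum]
      exact Finset.sum_congr rfl fun j _ => by rw [Function.iterate_succ_apply']
  -- the sum of the conjugates is invariant
  set T : K := ∑ i ∈ Finset.range n, (⇑σ)^[i] θ with hT
  have h3 : σ T = T := by
    rw [hT, map_sum]
    have e1 := Finset.sum_range_succ (fun i => (⇑σ)^[i] θ) n
    have e2 := Finset.sum_range_succ' (fun i => (⇑σ)^[i] θ) n
    rw [e1] at e2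
    simp only [hs] at e2
    have e3 : (⇑σ)^[0] θ = θ := rfl
    rw [e3] at e2
    have e4 := add_right_cancel e2
    rw [e4]
    exact Finset.sum_congr rfl fun i _ => by rw [Function.iterate_succ_apply']
  have h4 : ∀ j : ℕ, (⇑σ)^[j] T = T := by
    intro j
    induction j with
    | zero => rfl
    | succ j ih => rw [Function.iterate_succ_apply', ih, h3]
  have h5 : ∀ i, (⇑σ)^[i] (∑ j ∈ Finset.range n, algebraMap k K (c j) * (⇑σ)^[j] θ) =
      ∑ j ∈ Finset.range n, algebraMap k K (c j) * (⇑σ)^[j] ((⇑σ)^[i] θ) := by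
    intro i
    rw [h2]
    exact Finset.sum_congr rfl fun j _ => h1 i j
  simp_rw [h5]
  rw [Finset.sum_comm, map_sum, Finset.sum_mul]
  refine Finset.sum_congr rfl fun j _ => ?_
  rw [← Finset.mul_sum, ← h2 j, h4]

end VSTx

open VGPx VSTx in
theorem th_VST (hORG : Sh_ORG) (hORN : Sh_ORN) : Sh_VST := by
  classical
  intro k K _ _ _ _ _ n σ hC v π θ c hNB M hM α hα
  obtain ⟨P, hP1, hP2, -, hP4, hex, -, -, -⟩ := hORG k K n σ hC
  obtain ⟨-, -, -, hsn, hram, -⟩ := hORN k K n σ hC
  have hr := hram v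
  have hn : 1 ≤ n := by
    rw [← hC.deg]
    exact Module.finrank_pos
  -- `σ^n = id`
  have hs : ∀ x : K, (⇑σ)^[n] x = x := by
    intro x
    rcases eq_or_ne x 0 with rfl | h0
    · exact Function.iterate_fixed (map_zero σ) n
    · have h1 := congrArg (fun u : Kˣ => (u : K)) (hsn (Units.mk0 x h0))
      simp only [coe_iter] at h1
      exact h1
  -- the prime `π`
  obtain ⟨p, hp⟩ : ∃ p : K, p = algebraMap k K (π : k) := ⟨_, rfl⟩
  have hpv : ∀ w, Lies k K v w → w.valuation K p < 1 := by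
    intro w hw
    obtain ⟨e, he, h⟩ := hr w hw
    have h1 := h π
    rw [hNB.pi, mul_one] at h1
    have h2 : 0 < ord w (iu k K π) := by
      rw [h1]; exact_mod_cast he
    rw [hp]
    exact (ORDx.ord_pos_iff _ _).1 h2
  have hpi : IntV k K v p := fun w hw => (hpv w hw).le
  have hord : ∀ (x : Kˣ) (w : HeightOneSpectrum (𝓞 K)), Lies k K v w →
      ∃ w', Lies k K v w' ∧ ord w (su σ x) = ord w' x := by
    intro x w hw
    have hit : ∀ i : ℕ, Lies k K v ((⇑P)^[i] w) := by
      intro i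
      induction i with
      | zero => exact hw
      | succ i ih =>
        rw [Function.iterate_succ_apply']
        exact hP2 v _ ih
    refine ⟨(⇑P)^[n - 1] w, hit _, ?_⟩
    have h := hP1 ((⇑P)^[n - 1] w) x
    have e : (n - 1).succ = n := by omega
    rw [← Function.iterate_succ_apply' (⇑P), e, hP4] at h
    exact h
  have hsig : ∀ x : K, IntV k K v x → IntV k K v (σ x) := by
    intro x hx w hw
    rcases eq_or_ne x 0 with rfl | h0
    · rw [map_zero, map_zero]; exact zero_le
    · obtain ⟨w', hw', h⟩ := hord (Units.mk0 x h0) w hw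
      have h1 := (ORDx.ord_nonneg_iff w' (Units.mk0 x h0)).2 (hx w' hw')
      rw [← h] at h1
      exact (ORDx.ord_nonneg_iff w (su σ (Units.mk0 x h0))).1 h1
  have hiti : ∀ (x : K), IntV k K v x → ∀ i : ℕ, IntV k K v ((⇑σ)^[i] x) := by
    intro x hx i
    induction i with
    | zero => exact hx
    | succ i ih =>
      rw [Function.iterate_succ_apply']
      exact hsig _ ih
  have hLI : ∀ x : K, Lam n v σ θ x → IntV k K v x := by
    rintro x ⟨a, ha, rfl⟩
    exact iv_sum _ _ fun i _ => iv_mul (iv_alg v hr (ha i)) (hiti θ hNB.int i)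
  have hIL : ∀ (j : ℕ) (x : K), c ≤ j → IntV k K v x → Lam n v σ θ (p ^ j * x) := by
    intro j x hj hx
    have h := hNB.lam (p ^ (j - c) * x) (iv_mul (iv_pow hpi _) hx)
    rw [← hp, ← mul_assoc, ← pow_add, Nat.add_sub_cancel' hj] at h
    exact h
  have hsp : ∀ i : ℕ, (⇑σ)^[i] p = p := by
    intro i
    induction i with
    | zero => rfl
    | succ i ih => rw [Function.iterate_succ_apply', ih, hp, AlgEquiv.commutes]
  -- `u = σ α / α = 1 + p^M a`
  obtain ⟨a, ⟨cc, hcc, hacc⟩, hua⟩ := hα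
  rw [← hp] at hua
  have haI : IntV k K v a := hLI a ⟨cc, hcc, hacc⟩
  have hprod : ∏ i ∈ Finset.range n, (1 + p ^ M * (⇑σ)^[i] a) = 1 := by
    have h1 : ∀ i : ℕ, (1 + p ^ M * (⇑σ)^[i] a) = (⇑σ)^[i] (1 + p ^ M * a) := by
      intro i
      induction i with
      | zero => rfl
      | succ i ih =>
        rw [Function.iterate_succ_apply', Function.iterate_succ_apply', ← ih, map_add, map_one,
          map_mul, map_pow, hp, AlgEquiv.commutes]
    have h2 : ∀ N : ℕ, ∏ i ∈ Finset.range N, (⇑σ)^[i] (1 + p ^ M * a) =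
        (⇑σ)^[N] (α : K) / α := by
      intro N
      have hα0 : (α : K) ≠ 0 := α.ne_zero
      induction N with
      | zero =>
        rw [Finset.prod_range_zero, Function.iterate_zero, id, div_self hα0]
      | succ N ih =>
        rw [Finset.prod_range_succ, ih, ← hua]
        have e1 : ((su σ α / α : Kˣ) : K) = σ (α : K) / α := by
          rw [Units.val_div_eq_div_val]
          rfl
        have e2 : ∀ (i : ℕ) (x y : K), (⇑σ)^[i] (x / y) = (⇑σ)^[i] x / (⇑σ)^[i] y := by
          intro i x y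
          induction i with
          | zero => rfl
          | succ i ih => simp only [Function.iterate_succ_apply', ih, map_div₀]
        rw [e1, e2, ← Function.iterate_succ_apply (⇑σ) N]
        have e3 : (⇑σ)^[N] (α : K) ≠ 0 := by
          rw [← coe_iter]
          exact Units.ne_zero _
        field_simp
    rw [Finset.prod_congr rfl fun i _ => h1 i, h2, hs, div_self α.ne_zero]
  obtain ⟨e, he, hexp⟩ := expand (p ^ M) (iv_pow hpi M) (fun i => (⇑σ)^[i] a)
    (fun i => hiti a haI i) n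
  have hp0 : p ≠ 0 := by
    rw [hp]
    exact (map_ne_zero _).2 π.ne_zero
  obtain ⟨M', rfl⟩ : ∃ M', M = M' + 1 := ⟨M - 1, by omega⟩
  -- the sum of the conjugates of `a`
  have htr : ∑ i ∈ Finset.range n, (⇑σ)^[i] a = p * (p ^ M' * -e) := by
    rw [hprod] at hexp
    have h1 : p ^ (M' + 1) * (∑ i ∈ Finset.range n, (⇑σ)^[i] a - p * (p ^ M' * -e)) = 0 := by
      linear_combination -hexp
    rcases mul_eq_zero.1 h1 with h | h
    · exact absurd h (pow_ne_zero _ hp0)
    · exact sub_eq_zero.1 h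
  obtain ⟨dd, hdd, hde⟩ := hIL M' (-e) (by omega) (iv_neg he)
  obtain ⟨s, hs'⟩ : ∃ s : k, s = ∑ j ∈ Finset.range n, cc j := ⟨_, rfl⟩
  have hsd : ∀ i < n, s - (π : k) * dd i = 0 := by
    refine hNB.indep (fun i => s - (π : k) * dd i) ?_
    have h1 := tr_eq σ θ n hs cc
    rw [← hacc, htr, hde, ← hs'] at h1
    have h2 : ∑ i ∈ Finset.range n, algebraMap k K (s - (π : k) * dd i) * (⇑σ)^[i] θ =
        algebraMap k K s * ∑ i ∈ Finset.range n, (⇑σ)^[i] θ -
          p * ∑ i ∈ Finset.range n, algebraMap k K (dd i) * (⇑σ)^[i] θ := by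
      rw [Finset.mul_sum, Finset.mul_sum, ← Finset.sum_sub_distrib]
      exact Finset.sum_congr rfl fun i _ => by
        rw [map_sub, map_mul, ← hp]
        ring
    rw [h2, ← h1]
    ring
  have hs0 : s = (π : k) * dd 0 := sub_eq_zero.1 (hsd 0 (by omega))
  -- the element `b`
  obtain ⟨m, rfl⟩ : ∃ m, n = m + 1 := ⟨n - 1, by omega⟩
  let bb : ℕ → k := fun i => -∑ j ∈ Finset.range (i + 1), cc j
  have hbb : ∀ i, v.valuation k (bb i) ≤ 1 := by
    intro i
    rw [Valuation.map_neg]
    exact Valuation.map_sum_le _ fun j _ => hcc j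
  obtain ⟨b, hb⟩ : ∃ b : K, b = ∑ i ∈ Finset.range (m + 1), algebraMap k K (bb i) * (⇑σ)^[i] θ :=
    ⟨_, rfl⟩
  have hbL : Lam (m + 1) v σ θ b := ⟨bb, hbb, hb⟩
  have hbI := hLI b hbL
  have hsb : σ b = ∑ i ∈ Finset.range m, algebraMap k K (bb i) * (⇑σ)^[i + 1] θ +
      algebraMap k K (bb m) * θ := by
    rw [hb, map_sum, Finset.sum_range_succ]
    congr 1
    · refine Finset.sum_congr rfl fun i _ => ?_
      rw [map_mul, AlgEquiv.commutes, ← Function.iterate_succ_apply' (⇑σ)]
    · rw [map_mul, AlgEquiv.commutes, ← Function.iterate_succ_apply' (⇑σ), hs]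
  have hab : a + b - σ b = p * (algebraMap k K (dd 0) * θ) := by
    have h1 : algebraMap k K s = p * algebraMap k K (dd 0) := by
      rw [hs0, map_mul, ← hp]
    have h2 : algebraMap k K (bb m) = -(p * algebraMap k K (dd 0)) := by
      rw [← h1, ← map_neg, hs']
    rw [hsb, hacc, hb, Finset.sum_range_succ' _ m, Finset.sum_range_succ' _ m]
    have h3 : ∑ i ∈ Finset.range m, algebraMap k K (cc (i + 1)) * (⇑σ)^[i + 1] θ +
        ∑ i ∈ Finset.range m, algebraMap k K (bb (i + 1)) * (⇑σ)^[i + 1] θ =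
        ∑ i ∈ Finset.range m, algebraMap k K (bb i) * (⇑σ)^[i + 1] θ := by
      rw [← Finset.sum_add_distrib]
      refine Finset.sum_congr rfl fun i _ => ?_
      have : bb i = cc (i + 1) + bb (i + 1) := by
        simp only [bb]
        rw [Finset.sum_range_succ _ (i + 1)]
        ring
      rw [this, map_add]
      ring
    have h4 : algebraMap k K (bb 0) = - algebraMap k K (cc 0) := by
      rw [← map_neg]
      simp only [bb]
      rw [zero_add, Finset.sum_range_one]
    have h5 : (⇑σ)^[0] θ = θ := rfl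
    rw [h5]
    linear_combination h3 + θ * h4 - θ * h2
  -- the unit `x`
  have hsmall : ∀ y : K, IntV k K v y → ∀ w, Lies k K v w →
      w.valuation K (1 + p ^ (M' + 1) * y) = 1 := by
    intro y hy w hw
    have h1 : w.valuation K (p ^ (M' + 1) * y) < w.valuation K (1 : K) := by
      rw [map_mul, map_pow, map_one]
      refine lt_of_le_of_lt (mul_le_of_le_one_right' (hy w hw)) ?_
      exact pow_lt_one' (hpv w hw) (by omega)
    have h5 := Valuation.map_add_eq_of_lt_left (w.valuation K) h1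
    rw [map_one] at h5
    exact h5
  have hx0 : 1 + p ^ (M' + 1) * b ≠ 0 := by
    intro h0
    obtain ⟨w, hw⟩ := hex v
    have h1 := hsmall b hbI w hw
    rw [h0, map_zero] at h1
    exact zero_ne_one h1
  obtain ⟨x, hx⟩ : ∃ x : Kˣ, (x : K) = 1 + p ^ (M' + 1) * b := ⟨Units.mk0 _ hx0, rfl⟩
  refine ⟨x, ⟨b, hbL, by rw [← hp]; exact hx⟩, ?_⟩
  have hsx : σ (x : K) = 1 + p ^ (M' + 1) * σ b := by
    rw [hx, map_add, map_one, map_mul, map_pow, hp, AlgEquiv.commutes]
  have hsx0 : σ (x : K) ≠ 0 := by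
    rw [Ne, map_eq_zero_iff σ σ.injective]
    exact x.ne_zero
  obtain ⟨z, hz⟩ : ∃ z : K, z = (σ (x : K))⁻¹ := ⟨_, rfl⟩
  have hzI : IntV k K v z := by
    intro w hw
    rw [hz, map_inv₀, hsx, hsmall _ (hsig b hbI) w hw, inv_one]
  have hz1 : z * σ (x : K) = 1 := by
    rw [hz]
    exact inv_mul_cancel₀ hsx0
  obtain ⟨g, hg⟩ : ∃ g : K, g = algebraMap k K (dd 0) * θ + p ^ M' * (a * b) := ⟨_, rfl⟩
  have hdθ : Lam (m + 1) v σ θ (algebraMap k K (dd 0) * θ) := by
    refine ⟨fun i => if i = 0 then dd 0 else 0, fun i => ?_, ?_⟩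
    · dsimp only
      split
      · exact hdd 0
      · rw [map_zero]; exact zero_le
    · rw [Finset.sum_eq_single 0]
      · simp
      · intro i _ hi
        simp [hi]
      · intro h
        exact absurd (Finset.mem_range.2 (by omega)) h
  have hgL : Lam (m + 1) v σ θ g := by
    rw [hg]
    exact lam_add hdθ (hIL M' _ (by omega) (iv_mul haI hbI))
  refine ⟨g + p ^ (M' + 1) * -(σ b * z * g), lam_add hgL (hIL _ _ (by omega)
    (iv_neg (iv_mul (iv_mul (hsig b hbI) hzI) (hLI g hgL)))), ?_⟩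
  rw [← hp]
  have e1 : ((su σ (α / x) / (α / x) : Kˣ) : K) = ((su σ α / α : Kˣ) : K) * x * z := by
    rw [map_div, hz]
    have h1 : ((su σ x : Kˣ) : K) = σ (x : K) := rfl
    have h2 := α.ne_zero
    have h3 := x.ne_zero
    have h4 := (su σ x).ne_zero
    push_cast
    rw [h1]
    rw [h1] at h4
    field_simp
  rw [e1, hua]
  have e2 : z = 1 - p ^ (M' + 1) * σ b * z := by
    rw [hsx] at hz1
    linear_combination hz1
  have e3 : (1 + p ^ (M' + 1) * a) * (x : K) = σ (x : K) + p ^ (M' + 1 + 1) * g := by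
    rw [hsx, hx, hg]
    linear_combination p ^ (M' + 1) * hab
  rw [e3]
  have e4 : (σ (x : K) + p ^ (M' + 1 + 1) * g) * z = 1 + p ^ (M' + 1 + 1) * (g * z) := by
    linear_combination hz1
  rw [e4]
  linear_combination p ^ (M' + 1 + 1) * g * e2

end Pool.Agent.HB
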