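import Pool.Agent.HB.StHB

/-!
# HB, module WAP: weak approximation with multiplicative congruences
-/

set_option autoImplicit false

open NumberField IsDedekindDomain
open scoped nonZeroDivisors

namespace Pool.Agent.HB

/-- WAP. -/
theorem th_WAP : Sh_WAP := by
  classical
  intro k _ _ T y M
  rcases T.eq_empty_or_nonempty with rfl | ⟨v₀, hv₀⟩
  · exact ⟨1, fun v hv => absurd hv (Finset.notMem_empty v)⟩
  obtain ⟨b, hb⟩ := IsLocalization.exist_integer_multiples_of_finset (nonZeroDivisors (𝓞 k))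
    (T.image fun v => (y v : k))
  have hb0 : algebraMap (𝓞 k) k (b : 𝓞 k) ≠ 0 := by
    rw [Ne, FaithfulSMul.algebraMap_eq_zero_iff]
    exact nonZeroDivisors.coe_ne_zero b
  have hex : ∀ v ∈ T, ∃ a : 𝓞 k, algebraMap (𝓞 k) k a = algebraMap (𝓞 k) k (b : 𝓞 k) * y v := by
    intro v hv
    obtain ⟨a, ha⟩ := hb (y v : k) (Finset.mem_image_of_mem _ hv)
    exact ⟨a, by rw [ha, Algebra.smul_def]⟩
  choose! a ha using hex
  have ha0 : ∀ v ∈ T, algebraMap (𝓞 k) k (a v) ≠ 0 := by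
    intro v hv
    rw [ha v hv]
    exact mul_ne_zero hb0 (y v).ne_zero
  have hex2 : ∀ v ∈ T, ∃ e : ℕ, WithZero.exp (-(e : ℤ)) ≤
      WithZero.exp (-((M + 1 : ℕ) : ℤ)) * v.valuation k (algebraMap (𝓞 k) k (a v)) := by
    intro v hv
    have h1 := ord_val v (Units.mk0 _ (ha0 v hv))
    rw [Units.val_mk0] at h1
    refine ⟨(((M + 1 : ℕ) : ℤ) + ord v (Units.mk0 _ (ha0 v hv))).toNat, ?_⟩
    rw [h1, ← WithZero.exp_add, WithZero.exp_le_exp]
    have h2 := Int.self_le_toNat (((M + 1 : ℕ) : ℤ) + ord v (Units.mk0 _ (ha0 v hv)))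
    omega
  choose! e he using hex2
  obtain ⟨c, hc⟩ := IsDedekindDomain.exists_forall_sub_mem_ideal (s := T)
    (fun v : HeightOneSpectrum (𝓞 k) => v.asIdeal) e (fun v _ => v.prime)
    (fun v _ w _ h h' => h (HeightOneSpectrum.ext h')) (fun v => a v.1)
  have key : ∀ v ∈ T, v.valuation k (algebraMap (𝓞 k) k c / algebraMap (𝓞 k) k (a v) - 1) ≤
      WithZero.exp (-((M + 1 : ℕ) : ℤ)) := by
    intro v hv
    have h1 : v.valuation k (algebraMap (𝓞 k) k (c - a v)) ≤ WithZero.exp (-(e v : ℤ)) := by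
      rw [HeightOneSpectrum.valuation_of_algebraMap, HeightOneSpectrum.intValuation_le_pow_iff_mem]
      exact hc v hv
    have h2 : algebraMap (𝓞 k) k c / algebraMap (𝓞 k) k (a v) - 1 =
        algebraMap (𝓞 k) k (c - a v) / algebraMap (𝓞 k) k (a v) := by
      rw [map_sub, sub_div, div_self (ha0 v hv)]
    have h3 : v.valuation k (algebraMap (𝓞 k) k (a v)) ≠ 0 :=
      (Valuation.ne_zero_iff _).2 (ha0 v hv)
    rw [h2, map_div₀, div_le_iff₀ (zero_lt_iff.2 h3)]
    exact h1.trans (he v hv)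
  have hc0 : algebraMap (𝓞 k) k c ≠ 0 := by
    intro h0
    have h1 := key v₀ hv₀
    rw [h0, zero_div, zero_sub, Valuation.map_neg, map_one, ← WithZero.exp_zero,
      WithZero.exp_le_exp] at h1
    omega
  refine ⟨Units.mk0 (algebraMap (𝓞 k) k c / algebraMap (𝓞 k) k (b : 𝓞 k))
    (div_ne_zero hc0 hb0), fun v hv => ?_⟩
  have h1 : ((Units.mk0 (algebraMap (𝓞 k) k c / algebraMap (𝓞 k) k (b : 𝓞 k))
      (div_ne_zero hc0 hb0) * (y v)⁻¹ : kˣ) : k) =
      algebraMap (𝓞 k) k c / algebraMap (𝓞 k) k (a v) := by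
    rw [Units.val_mul, Units.val_mk0, Units.val_inv_eq_inv_val, ha v hv, ← div_eq_mul_inv,
      div_div]
  rw [h1]
  refine (key v hv).trans ?_
  rw [WithZero.exp_le_exp]
  omega

end Pool.Agent.HB
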