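import Pool.Agent.HB.H_HQ
import Pool.Agent.HB.H_FIN
import Pool.Agent.HB.H_LTZ
import Pool.Agent.HB.H_LTF
import Pool.Agent.HB.H_LAT
import Pool.Agent.HB.H_ORD
import Pool.Agent.HB.H_WAP
import Pool.Agent.HB.H_ORG
import Pool.Agent.HB.H_ORN
import Pool.Agent.HB.H_RMF
import Pool.Agent.HB.H_SUR
import Pool.Agent.HB.H_GJ
import Pool.Agent.HB.H_PLC
import Pool.Agent.HB.H_INV
import Pool.Agent.HB.H_HSU
import Pool.Agent.HB.H_T1E
import Pool.Agent.HB.H_SUN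
import Pool.Agent.HB.H_NBL
import Pool.Agent.HB.H_VGP
import Pool.Agent.HB.H_VST
import Pool.Agent.HB.H_STR
import Pool.Agent.HB.H_KMU
import Pool.Agent.HB.H_LOC
import Pool.Agent.HB.H_LOU
import Pool.Agent.HB.H_IXW
import Pool.Agent.HB.H_NON
import Pool.Agent.HB.H_SEX
import Pool.Agent.HB.H_PSI
import Pool.Agent.HB.H_JT1
import Pool.Agent.HB.H_FIQ

/-!
# HB: all statements without hypotheses (helper3)
-/

set_option autoImplicit false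

namespace Pool.Agent.HB

theorem h_HQ : Sh_HQ := th_HQ
theorem h_FIN : Sh_FIN := th_FIN
theorem h_LTZ : Sh_LTZ := th_LTZ
theorem h_LTF : Sh_LTF := th_LTF h_HQ h_LTZ
theorem h_LAT : Sh_LAT := th_LAT h_HQ h_FIN h_LTF
theorem h_ORD : Sh_ORD := th_ORD
theorem h_WAP : Sh_WAP := th_WAP
theorem h_ORG : Sh_ORG := th_ORG
theorem h_ORN : Sh_ORN := th_ORN h_ORG
theorem h_RMF : Sh_RMF := th_RMF
theorem h_SUR : Sh_SUR := th_SUR h_ORD
theorem h_GJ : Sh_GJ := th_GJ h_ORG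
theorem h_PLC : Sh_PLC := th_PLC
theorem h_INV : Sh_INV := th_INV h_SUR h_GJ h_PLC h_ORN h_ORG
theorem h_HSU : Sh_HSU := th_HSU h_LAT h_INV h_ORN h_ORG
theorem h_T1E : Sh_T1E := th_T1E h_ORG h_ORN h_ORD
theorem h_SUN : Sh_SUN := th_SUN h_HSU h_T1E h_ORN
theorem h_NBL : Sh_NBL := th_NBL
theorem h_VGP : Sh_VGP := th_VGP h_ORG h_ORN
theorem h_VST : Sh_VST := th_VST h_ORG h_ORN
theorem h_STR : Sh_STR := th_STR h_VST h_VGP h_ORG h_ORN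
theorem h_KMU : Sh_KMU := th_KMU h_ORG h_ORD
theorem h_LOC : Sh_LOC := th_LOC h_HQ h_FIN h_NBL h_VGP h_STR h_KMU h_ORN
theorem h_LOU : Sh_LOU := th_LOU h_ORN h_ORG h_ORD
theorem h_IXW : Sh_IXW := th_IXW h_WAP
theorem h_NON : Sh_NON := th_NON h_IXW h_SUN h_ORG
theorem h_SEX : Sh_SEX := th_SEX
theorem h_PSI : Sh_PSI := th_PSI h_ORD h_ORN
theorem h_JT1 : Sh_JT1 := th_JT1 h_RMF h_SEX h_LOC h_NON h_PSI
theorem h_FIQ : Sh_FIQ := th_FIQ h_SEX h_LOU h_NON h_PSI h_ORD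

end Pool.Agent.HB
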