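import Pool.Agent.HB.Stmts

/-!
# A bound for the hit problem: the module HIT

The polynomials `pk y K * (FK y K a * f) ^ 2` are sums of values of the derivations `dn d n`.
-/

namespace HB

open MvPolynomial Pool.Agent.Lib_helper74.Hit

namespace HIT

variable {d : ℕ}

theorem sq_sum {ι : Type*} (s : Finset ι) (f : ι → P d) :
    (∑ i ∈ s, f i) ^ 2 = ∑ i ∈ s, f i ^ 2 := by
  classical
  induction s using Finset.induction_on with
  | empty => simp
  | insert a s ha ih => rw [Finset.sum_insert ha, Finset.sum_insert ha, sq_add, ih]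

theorem pow_sum {ι : Type*} (n : ℕ) (s : Finset ι) (f : ι → P d) :
    (∑ i ∈ s, f i) ^ 2 ^ n = ∑ i ∈ s, f i ^ 2 ^ n := by
  induction n with
  | zero => simp
  | succ n ih =>
    rw [pow_succ 2 n, pow_mul, ih, sq_sum]
    exact Finset.sum_congr rfl fun i _ => by rw [pow_mul]

theorem C_pow_two (n : ℕ) (c : ZMod 2) : (C c : P d) ^ 2 ^ n = C c := by
  induction n with
  | zero => simp
  | succ n ih => rw [pow_succ 2 n, pow_mul, ih, C_sq]

theorem dn_lf (n : ℕ) (a : W d) : dn d n (lf a) = lf a ^ 2 ^ (n + 1) := by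
  have h1 : lf a ^ 2 ^ (n + 1) = ∑ i, C (a i) * (X i : P d) ^ 2 ^ (n + 1) := by
    unfold lf
    rw [pow_sum]
    exact Finset.sum_congr rfl fun i _ => by rw [mul_pow, C_pow_two]
  rw [h1]
  unfold lf
  rw [map_sum]
  apply Finset.sum_congr rfl
  intro i _
  rw [← smul_eq_C_mul, Derivation.map_smul, smul_eq_C_mul]
  unfold dn
  rw [mkDerivation_X]

theorem dn_sq (n : ℕ) (g : P d) : dn d n (g ^ 2) = 0 := by
  rw [sq, Derivation.leibniz]
  exact add_self' _

theorem dn_mul (n : ℕ) (f g : P d) : dn d n (f * g) = f * dn d n g + g * dn d n f := by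
  rw [Derivation.leibniz, smul_eq_mul, smul_eq_mul]

theorem dn_pk (n : ℕ) {k : ℕ} (y : Fin k → W d) (K : Finset (Fin k)) :
    dn d n (pk y K) = ∑ b ∈ K, pk y (K.erase b) * lf (y b) ^ 2 ^ (n + 1) := by
  classical
  induction K using Finset.induction_on with
  | empty =>
    have h : pk y (∅ : Finset (Fin k)) = 1 := by simp [pk]
    rw [h, Finset.sum_empty]
    exact Derivation.map_one_eq_zero _
  | insert a s ha ih =>
    have h1 : pk y (insert a s) = lf (y a) * pk y s := by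
      unfold pk
      rw [Finset.prod_insert ha]
    rw [h1, dn_mul, ih, Finset.sum_insert ha, dn_lf, Finset.erase_insert ha, Finset.mul_sum,
      add_comm]
    congr 1
    apply Finset.sum_congr rfl
    intro b hb
    have hab : a ≠ b := fun h => ha (h ▸ hb)
    have h2 : (insert a s).erase b = insert a (s.erase b) :=
      Finset.erase_insert_of_ne hab
    have h3 : a ∉ s.erase b := fun h => ha (Finset.mem_of_mem_erase h)
    rw [h2]
    unfold pk
    rw [Finset.prod_insert h3, mul_assoc]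

theorem pw (n : ℕ) (w : P d) : w ^ 2 ^ (n + 1) = (w ^ 2 ^ n) ^ 2 := by
  rw [pow_succ 2 n, pow_mul]

theorem dn_lf' (n : ℕ) (a : W d) : dn d n (lf a) = (lf a ^ 2 ^ n) ^ 2 :=
  (dn_lf n a).trans (pw n (lf a))

theorem dn_pk' (n : ℕ) {k : ℕ} (y : Fin k → W d) (K : Finset (Fin k)) :
    dn d n (pk y K) = ∑ b ∈ K, pk y (K.erase b) * (lf (y b) ^ 2 ^ n) ^ 2 :=
  (dn_pk n y K).trans (Finset.sum_congr rfl fun b _ =>
    congrArg (fun z => pk y (K.erase b) * z) (pw n (lf (y b))))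

theorem r1 (p c f A : P d) : p * ((c * f) ^ 2 * A ^ 2) = p * ((c * A) ^ 2 * f ^ 2) := by ring

theorem r2 (p c f A B : P d) : A * (c * f) ^ 2 * (p * B ^ 2) = p * (A * f ^ 2) * (c * B) ^ 2 := by
  ring

theorem key {k : ℕ} (y : Fin k → W d) (K : Finset (Fin k)) (c : ℕ → P d)
    (hc : ∀ a, FK y K a = ∑ n ∈ Finset.range (K.card + 1), c n * lf a ^ 2 ^ n)
    (h0 : ∀ i ∈ K, FK y K (y i) = 0) (a : W d) (f : P d) :
    pk y K * (FK y K a * f) ^ 2 =
      ∑ n ∈ Finset.range (K.card + 1), dn d n (pk y K * (lf a * (c n * f) ^ 2)) := by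
  have hterm : ∀ n, dn d n (pk y K * (lf a * (c n * f) ^ 2)) =
      pk y K * ((c n * lf a ^ 2 ^ n) ^ 2 * f ^ 2) +
        ∑ b ∈ K, pk y (K.erase b) * (lf a * f ^ 2) * (c n * lf (y b) ^ 2 ^ n) ^ 2 := by
    intro n
    rw [dn_mul, dn_mul, dn_sq, dn_lf', dn_pk', mul_zero, zero_add, Finset.mul_sum]
    exact congrArg₂ (fun u v => u + v) (r1 _ _ _ _)
      (Finset.sum_congr rfl fun b _ => r2 _ _ _ _ _)
  rw [Finset.sum_congr rfl fun n _ => hterm n, Finset.sum_add_distrib, Finset.sum_comm,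
    ← Finset.mul_sum, ← Finset.sum_mul, ← sq_sum, ← hc]
  have h3 : ∑ b ∈ K, ∑ n ∈ Finset.range (K.card + 1),
      pk y (K.erase b) * (lf a * f ^ 2) * (c n * lf (y b) ^ 2 ^ n) ^ 2 = 0 := by
    apply Finset.sum_eq_zero
    intro b hb
    rw [← Finset.mul_sum, ← sq_sum, ← hc, h0 b hb, zero_pow two_ne_zero, mul_zero]
  rw [h3, add_zero, mul_pow]

end HIT

theorem t_HIT : Stmt_HIT := by
  intro hQ hF d k y K a m u f hu hu0 hf
  obtain ⟨c, hcdeg, hc, h0⟩ := hF d k y K
  rw [HIT.key y K c hc h0 a f]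
  apply Submodule.sum_mem
  intro n hn
  have hnK : n ≤ K.card := Nat.lt_succ_iff.1 (Finset.mem_range.1 hn)
  have hcn : c n ∈ Hg d (2 ^ K.card - 2 ^ n) := hcdeg n hnK
  have hdeg : pk y K * (lf a * (c n * f) ^ 2) ∈
      Hg d (K.card + (1 + (2 ^ K.card - 2 ^ n + m) * 2)) :=
    Hg_mul (pk_mem y K) (Hg_mul (lf_mem a) (Hg_pow (Hg_mul hcn hf) 2))
  have h := hQ d n _ u _ hu hu0 hdeg
  have hle : 2 ^ n ≤ 2 ^ K.card := Nat.pow_le_pow_right (by norm_num) hnK
  have he : K.card + (1 + (2 ^ K.card - 2 ^ n + m) * 2) + 2 ^ (n + 1) - 1 =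
      K.card + 2 * (2 ^ K.card + m) := by
    rw [pow_succ 2 n]
    omega
  rw [he] at h
  exact h

end HB
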