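import Pool.Agent.HB.Stmts

/-!
# HLV: halving
-/

namespace HB

open MvPolynomial Pool.Agent.Lib_helper74.Hit

namespace HLV

variable {d k : ℕ}

theorem zc (c : ZMod 2) : c ^ 2 = c := by
  revert c
  decide

/-- The linear map `f ↦ g * f ^ 2`. -/
noncomputable def sqm (g : P d) : P d →ₗ[ZMod 2] P d where
  toFun f := g * f ^ 2
  map_add' a b := by rw [sq_add, mul_add]
  map_smul' c f := by
    rw [smul_pow, zc, mul_smul_comm]
    rfl

theorem sqm_apply (g f : P d) : sqm g f = g * f ^ 2 := rfl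

/-- The piece of the set `K`. -/
noncomputable def VK (y : Fin k → W d) (n : ℕ) (K : Finset (Fin k)) : Submodule (ZMod 2) (P d) :=
  if K.card ≤ n ∧ 2 ∣ n - K.card then (Hg d ((n - K.card) / 2)).map (sqm (pk y K)) else ⊥

instance (y : Fin k → W d) (n : ℕ) (K : Finset (Fin k)) :
    FiniteDimensional (ZMod 2) (VK y n K) := by
  by_cases h : K.card ≤ n ∧ 2 ∣ n - K.card
  · have e : VK y n K = (Hg d ((n - K.card) / 2)).map (sqm (pk y K)) := if_pos h
    rw [e]
    infer_instance
  · have e : VK y n K = ⊥ := if_neg h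
    rw [e]
    infer_instance

theorem mem_VK (y : Fin k → W d) {n m : ℕ} {K : Finset (Fin k)} {f : P d} (hf : f ∈ Hg d m)
    (h : K.card + 2 * m = n) : pk y K * f ^ 2 ∈ VK y n K := by
  unfold VK
  have h1 : K.card ≤ n ∧ 2 ∣ n - K.card := ⟨by omega, ⟨m, by omega⟩⟩
  have h2 : (n - K.card) / 2 = m := by omega
  rw [if_pos h1, h2]
  exact ⟨f, hf, rfl⟩

/-- The sum of the pieces of the sets with less than `j` elements. -/
noncomputable def Vlt (y : Fin k → W d) (n j : ℕ) : Submodule (ZMod 2) (P d) :=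
  (Finset.univ.filter fun K : Finset (Fin k) => K.card < j).sup (VK y n)

/-- The sum of the pieces of the sets with `j` elements. -/
noncomputable def Veq (y : Fin k → W d) (n j : ℕ) : Submodule (ZMod 2) (P d) :=
  (Finset.univ.filter fun K : Finset (Fin k) => K.card = j).sup (VK y n)

instance (y : Fin k → W d) (n j : ℕ) : FiniteDimensional (ZMod 2) (Vlt y n j) :=
  Submodule.finite_finset_sup _ _

instance (y : Fin k → W d) (n j : ℕ) : FiniteDimensional (ZMod 2) (Veq y n j) :=
  Submodule.finite_finset_sup _ _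

theorem VK_le (y : Fin k → W d) (n : ℕ) {j : ℕ} {K : Finset (Fin k)} (h : K.card < j) :
    VK y n K ≤ Vlt y n j :=
  Finset.le_sup (f := VK y n) (by simpa using h)

theorem Vlt_succ (y : Fin k → W d) (n j : ℕ) : Vlt y n (j + 1) ≤ Veq y n j ⊔ Vlt y n j := by
  unfold Vlt
  apply Finset.sup_le
  intro K hK
  have hK' : K.card < j + 1 := by simpa using hK
  rcases Nat.lt_succ_iff_lt_or_eq.1 hK' with h | h
  · exact le_sup_of_le_right (Finset.le_sup (f := VK y n) (by simpa using h))
  · exact le_sup_of_le_left (Finset.le_sup (f := VK y n) (by simpa using h))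

/-- The term of `K` in the bound. -/
noncomputable def tm (y : Fin k → W d) (l : List (W d)) (Λ : Submodule (ZMod 2) (W d)) (n : ℕ)
    (K : Finset (Fin k)) : ℕ :=
  if K.card ≤ n ∧ 2 ∣ n - K.card then
    rk (Hg d ((n - K.card) / 2))
      (Un (tw l) Λ ((n - K.card) / 2) ⊔ PF (fls y K) ((n - K.card) / 2)) else 0

theorem step1 (HK : P_SQK) (y : Fin k → W d) (w : Polynomial (P d)) (hw : Hm 0 w)
    (Λ : Submodule (ZMod 2) (W d)) (K : Finset (Fin k)) {n m : ℕ} (h : K.card + 2 * m = n)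
    {g : P d} (hg : g ∈ Hn w m) : pk y K * g ^ 2 ∈ Un (w ^ 2) Λ n ⊔ Vlt y n K.card := by
  classical
  have key : Hn w m ≤ (Un (w ^ 2) Λ n ⊔ Vlt y n K.card).comap (sqm (pk y K)) := by
    rw [Hn, Submodule.span_le]
    rintro _ ⟨i, m', f, hf, hi, hm, rfl⟩
    show pk y K * (Sw w i f) ^ 2 ∈ Un (w ^ 2) Λ n ⊔ Vlt y n K.card
    have hs := HK d k y K w i f
    rw [← Finset.add_sum_erase _ _ (show (∅ : Finset (Fin k)) ∈
      K.powerset.filter (fun T => 2 ∣ T.card ∧ T.card ≤ 2 * i) by simp)] at hs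
    have e0 : pk y (K \ ∅) * (pk y ∅ * Sw w (i - (∅ : Finset (Fin k)).card / 2) f) ^ 2 =
        pk y K * (Sw w i f) ^ 2 := by
      simp [pk]
    rw [e0] at hs
    have hs2 : pk y K * (Sw w i f) ^ 2 = Sw (w ^ 2) (2 * i) (pk y K * f ^ 2) +
        ∑ T ∈ (K.powerset.filter (fun T => 2 ∣ T.card ∧ T.card ≤ 2 * i)).erase ∅,
          pk y (K \ T) * (pk y T * Sw w (i - T.card / 2) f) ^ 2 := by
      rw [hs, add_assoc, add_self', add_zero]
    rw [hs2]
    apply Submodule.add_mem
    · apply Submodule.mem_sup_left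
      apply Submodule.mem_sup_left
      exact Hn_mem (Hg_mul (pk_mem y K) (Hg_pow hf 2)) (by omega) (by omega)
    · apply Submodule.sum_mem
      intro T hT
      rw [Finset.mem_erase, Finset.mem_filter, Finset.mem_powerset] at hT
      obtain ⟨hT0, hTK, hT2, hTi⟩ := hT
      have hc : (K \ T).card + T.card = K.card := Finset.card_sdiff_add_card_eq_card hTK
      have hpos : 0 < T.card := Finset.card_pos.2 (Finset.nonempty_of_ne_empty hT0)
      apply Submodule.mem_sup_right
      apply VK_le y n (K := K \ T) (by omega)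
      have hdeg : pk y T * Sw w (i - T.card / 2) f ∈ Hg d (T.card + (m' + (i - T.card / 2))) :=
        Hg_mul (pk_mem y T) (Sw_mem hw _ hf)
      exact mem_VK y hdeg (by omega)
  exact key hg

theorem step2 (y : Fin k → W d) (w : Polynomial (P d))
    (Λ : Submodule (ZMod 2) (W d)) (K : Finset (Fin k)) {n m : ℕ} (h : K.card + 2 * m = n)
    {g : P d} (hg : g ∈ Ln Λ m) : pk y K * g ^ 2 ∈ Un (w ^ 2) Λ n ⊔ Vlt y n K.card := by
  have key : Ln Λ m ≤ (Un (w ^ 2) Λ n ⊔ Vlt y n K.card).comap (sqm (pk y K)) := by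
    rw [Ln, Submodule.span_le]
    rintro _ ⟨a, ha, m', f, hf, hm, rfl⟩
    show pk y K * (lf a * f) ^ 2 ∈ Un (w ^ 2) Λ n ⊔ Vlt y n K.card
    have e : pk y K * (lf a * f) ^ 2 = lf a * (pk y K * (lf a * f ^ 2)) := by ring
    rw [e]
    apply Submodule.mem_sup_left
    apply Submodule.mem_sup_right
    exact Ln_mem ha (Hg_mul (pk_mem y K) (Hg_mul (lf_mem a) (Hg_pow hf 2))) (by omega)
  exact key hg

theorem step3 (HI : P_HIT) (y : Fin k → W d) (l : List (W d))
    (Λ : Submodule (ZMod 2) (W d)) (K : Finset (Fin k)) {n m : ℕ} (h : K.card + 2 * m = n)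
    {g : P d} (hg : g ∈ PF (fls y K) m) :
    pk y K * g ^ 2 ∈ Un (tw l ^ 2) Λ n ⊔ Vlt y n K.card := by
  have key : PF (fls y K) m ≤ (Un (tw l ^ 2) Λ n ⊔ Vlt y n K.card).comap (sqm (pk y K)) := by
    rw [PF, Submodule.span_le]
    rintro _ ⟨φ, hφ, m', f, hf, hm, rfl⟩
    show pk y K * (pr φ * f) ^ 2 ∈ Un (tw l ^ 2) Λ n ⊔ Vlt y n K.card
    obtain ⟨i, _, rfl⟩ := List.mem_map.1 hφ
    rw [pr_fl]
    rw [fl_length] at hm
    apply Submodule.mem_sup_left
    apply Submodule.mem_sup_left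
    have := HI d k y K (y i) m' (tw l) f (Hm_tw l) (tw_coeff_zero l) hf
    rw [← h, ← hm]
    exact this
  exact key hg

theorem piece (HK : P_SQK) (HI : P_HIT) (y : Fin k → W d) (l : List (W d))
    (Λ : Submodule (ZMod 2) (W d)) (n : ℕ) (K : Finset (Fin k)) :
    rk (VK y n K) (Un (tw l ^ 2) Λ n ⊔ Vlt y n K.card) ≤ tm y l Λ n K := by
  unfold VK tm
  split_ifs with h
  · obtain ⟨h1, h2⟩ := h
    have hh : K.card + 2 * ((n - K.card) / 2) = n := by omega
    apply rk_map
    intro x hx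
    rw [sqm_apply]
    obtain ⟨a, ha, b, hb, rfl⟩ := Submodule.mem_sup.1 hx
    obtain ⟨a1, ha1, a2, ha2, rfl⟩ := Submodule.mem_sup.1 ha
    rw [sq_add, sq_add, mul_add, mul_add]
    exact Submodule.add_mem _ (Submodule.add_mem _ (step1 HK y (tw l) (Hm_tw l) Λ K hh ha1)
      (step2 y (tw l) Λ K hh ha2)) (step3 HI y l Λ K hh hb)
  · rw [rk_bot]

theorem main (HK : P_SQK) (HI : P_HIT) (y : Fin k → W d) (l : List (W d))
    (Λ : Submodule (ZMod 2) (W d)) (n : ℕ) : ∀ j, rk (Vlt y n j) (Un (tw l ^ 2) Λ n) ≤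
      ∑ K : Finset (Fin k) with K.card < j, tm y l Λ n K := by
  classical
  intro j
  induction j with
  | zero =>
    have : Vlt y n 0 = ⊥ := by simp [Vlt]
    rw [this, rk_bot]
    exact Nat.zero_le _
  | succ j ih =>
    have h1 := rk_chain (Vlt y n (j + 1)) (Vlt y n j) (Un (tw l ^ 2) Λ n)
    have h2 : rk (Vlt y n (j + 1)) (Un (tw l ^ 2) Λ n ⊔ Vlt y n j) ≤
        rk (Veq y n j) (Un (tw l ^ 2) Λ n ⊔ Vlt y n j) := by
      apply rk_le_sup
      refine (Vlt_succ y n j).trans ?_
      exact sup_le_sup_left le_sup_right _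
    have h3 : rk (Veq y n j) (Un (tw l ^ 2) Λ n ⊔ Vlt y n j) ≤
        ∑ K : Finset (Fin k) with K.card = j, rk (VK y n K) (Un (tw l ^ 2) Λ n ⊔ Vlt y n j) :=
      rk_iSup _ _ _
    have h4 : ∑ K : Finset (Fin k) with K.card = j, rk (VK y n K) (Un (tw l ^ 2) Λ n ⊔ Vlt y n j) ≤
        ∑ K : Finset (Fin k) with K.card = j, tm y l Λ n K := by
      apply Finset.sum_le_sum
      intro K hK
      rw [Finset.mem_filter] at hK
      have := piece HK HI y l Λ n K
      rw [hK.2] at this
      exact this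
    have h5 : (Finset.univ.filter fun K : Finset (Fin k) => K.card < j + 1) =
        (Finset.univ.filter fun K : Finset (Fin k) => K.card < j) ∪
          (Finset.univ.filter fun K : Finset (Fin k) => K.card = j) := by
      ext K
      simp only [Finset.mem_filter, Finset.mem_univ, true_and, Finset.mem_union]
      omega
    have h6 : Disjoint (Finset.univ.filter fun K : Finset (Fin k) => K.card < j)
        (Finset.univ.filter fun K : Finset (Fin k) => K.card = j) := by
      rw [Finset.disjoint_filter]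
      intro K _ h
      omega
    rw [h5, Finset.sum_union h6]
    omega

end HLV

open HLV

theorem t_HLV : Stmt_HLV := by
  intro HS HK HI d k y l Λ n hy
  classical
  have h1 : Hg d n ≤ Vlt y n (k + 1) ⊔ Un (tw l ^ 2) Λ n := by
    refine (HS d k y Λ n hy).trans ?_
    apply sup_le
    · apply le_sup_of_le_left
      rw [Submodule.span_le]
      rintro _ ⟨K, m, f, hf, hm, rfl⟩
      apply VK_le y n (K := K)
      · have := Finset.card_le_univ K
        rw [Fintype.card_fin] at this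
        omega
      · exact mem_VK y hf hm
    · apply le_sup_of_le_right
      exact le_sup_right
  refine (rk_le_sup h1).trans ((main HK HI y l Λ n (k + 1)).trans ?_)
  apply Finset.sum_le_sum_of_subset
  exact Finset.filter_subset _ _

end HB
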