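import Pool.Agent.HB.StHB

/-!
# HB, module HQ: the Herbrand quotient is multiplicative (helper81)
-/

set_option autoImplicit false

namespace Pool.Agent.HB

noncomputable section

namespace HQ

variable {G : Type} [CommGroup G]

/-- the order of the cohomology group -/
def T (D N : G →* G) (U V : Subgroup G) : ℕ := (U.map N ⊔ V).relIndex (U ⊓ V.comap D)

/-- the data of a hexagon -/
structure Hex (D N : G →* G) (U W V : Subgroup G) : Prop where
  dn : ∀ x, D (N x) = 1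
  nd : ∀ x, N (D x) = 1
  vw : V ≤ W
  wu : W ≤ U
  du : ∀ x ∈ U, D x ∈ U
  nu : ∀ x ∈ U, N x ∈ U
  dw : ∀ x ∈ W, D x ∈ W
  nw : ∀ x ∈ W, N x ∈ W
  dv : ∀ x ∈ V, D x ∈ V
  nv : ∀ x ∈ V, N x ∈ V

variable {D N : G →* G} {U W V : Subgroup G}

lemma Hex.swap (h : Hex D N U W V) : Hex N D U W V :=
  ⟨h.nd, h.dn, h.vw, h.wu, h.nu, h.du, h.nw, h.dw, h.nv, h.dv⟩

/-- the general step -/
lemma step (I A B K : Subgroup G) (hI : I ≤ K) (hA : A ≤ K) (h : B ⊓ K = A ⊔ I) :
    I.relIndex K = I.relIndex A * B.relIndex K := by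
  rw [← Subgroup.relIndex_mul_relIndex I (A ⊔ I) K le_sup_right (sup_le hA hI),
    Subgroup.relIndex_sup_right, ← h, Subgroup.inf_relIndex_right]

lemma one (h : Hex D N U W V) : T D N U V =
    (U.map N ⊔ V).relIndex (W ⊓ V.comap D) * (U.map N ⊔ W).relIndex (U ⊓ V.comap D) := by
  refine step _ _ _ _ ?_ ?_ ?_
  · refine sup_le ?_ ?_
    · rintro _ ⟨x, hx, rfl⟩
      refine ⟨h.nu x hx, ?_⟩
      show D (N x) ∈ V
      rw [h.dn]
      exact one_mem _
    · intro x hx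
      exact ⟨h.wu (h.vw hx), h.dv x hx⟩
  · exact inf_le_inf_right _ h.wu
  · ext x
    constructor
    · rintro ⟨h1, hxU, hxV⟩
      obtain ⟨_, ⟨u, hu, rfl⟩, w, hw, rfl⟩ := Subgroup.mem_sup.1 h1
      have h2 : D w ∈ V := by
        have h3 : D (N u * w) ∈ V := hxV
        rwa [map_mul, h.dn, one_mul] at h3
      rw [mul_comm]
      exact Subgroup.mul_mem_sup ⟨hw, h2⟩ (Subgroup.mem_sup_left ⟨u, hu, rfl⟩)
    · intro h1
      obtain ⟨w, ⟨hw, hwV⟩, _, h2, rfl⟩ := Subgroup.mem_sup.1 h1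
      obtain ⟨_, ⟨u, hu, rfl⟩, v, hv, rfl⟩ := Subgroup.mem_sup.1 h2
      have hwV' : D w ∈ V := hwV
      refine ⟨?_, mul_mem (h.wu hw) (mul_mem (h.nu u hu) (h.wu (h.vw hv))), ?_⟩
      · have e : w * (N u * v) = N u * (w * v) := by
          rw [mul_left_comm]
        rw [e]
        exact Subgroup.mul_mem_sup ⟨u, hu, rfl⟩ (mul_mem hw (h.vw hv))
      · show D (w * (N u * v)) ∈ V
        rw [map_mul, map_mul, h.dn, one_mul]
        exact mul_mem hwV' (h.dv v hv)

lemma two (h : Hex D N U W V) : T D N U W =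
    (U.map N ⊔ W).relIndex (U ⊓ V.comap D) *
      (W.map D ⊔ V).relIndex ((U ⊓ W.comap D).map D) := by
  rw [← Subgroup.relIndex_comap]
  refine step _ _ _ _ ?_ ?_ ?_
  · refine sup_le ?_ ?_
    · rintro _ ⟨x, hx, rfl⟩
      refine ⟨h.nu x hx, ?_⟩
      show D (N x) ∈ W
      rw [h.dn]
      exact one_mem _
    · intro x hx
      exact ⟨h.wu hx, h.dw x hx⟩
  · exact inf_le_inf_left _ (Subgroup.comap_mono h.vw)
  · ext x
    constructor
    · rintro ⟨h1, hxU, -⟩
      have h1' : D x ∈ W.map D ⊔ V := h1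
      have hxU' : x ∈ U := hxU
      obtain ⟨_, ⟨w, hw, rfl⟩, v, hv, h2⟩ := Subgroup.mem_sup.1 h1'
      have h3 : D (x / w) ∈ V := by
        rw [map_div, ← h2, mul_div_cancel_left]
        exact hv
      have e : x = x / w * w := by rw [div_mul_cancel]
      rw [e]
      have h4 : x / w ∈ U := div_mem hxU' (h.wu hw)
      exact Subgroup.mul_mem_sup ⟨h4, h3⟩ (Subgroup.mem_sup_right hw)
    · intro h1
      obtain ⟨y, ⟨hy, hyV⟩, _, h2, rfl⟩ := Subgroup.mem_sup.1 h1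
      obtain ⟨_, ⟨u, hu, rfl⟩, w, hw, rfl⟩ := Subgroup.mem_sup.1 h2
      have hyV' : D y ∈ V := hyV
      have e : D (y * (N u * w)) = D w * D y := by
        rw [map_mul, map_mul, h.dn, one_mul, mul_comm]
      refine ⟨?_, mul_mem hy (mul_mem (h.nu u hu) (h.wu hw)), ?_⟩
      · show D (y * (N u * w)) ∈ W.map D ⊔ V
        rw [e]
        exact Subgroup.mul_mem_sup ⟨w, hw, rfl⟩ hyV'
      · show D (y * (N u * w)) ∈ W
        rw [e]
        exact mul_mem (h.dw w hw) (h.vw hyV')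

lemma three (h : Hex D N U W V) : T N D W V =
    (W.map D ⊔ V).relIndex ((U ⊓ W.comap D).map D) *
      (U.map D ⊔ V).relIndex (W ⊓ V.comap N) := by
  refine step _ _ _ _ ?_ ?_ ?_
  · refine sup_le ?_ ?_
    · rintro _ ⟨x, hx, rfl⟩
      refine ⟨h.dw x hx, ?_⟩
      show N (D x) ∈ V
      rw [h.nd]
      exact one_mem _
    · intro x hx
      exact ⟨h.vw hx, h.nv x hx⟩
  · rintro _ ⟨x, hx, rfl⟩
    refine ⟨hx.2, ?_⟩
    show N (D x) ∈ V
    rw [h.nd]
    exact one_mem _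
  · ext x
    constructor
    · rintro ⟨h1, hxW, -⟩
      obtain ⟨_, ⟨u, hu, rfl⟩, v, hv, rfl⟩ := Subgroup.mem_sup.1 h1
      have hxW' : D u * v ∈ W := hxW
      have h2 : D u ∈ W := by
        have h3 := div_mem hxW' (h.vw hv)
        rwa [mul_div_cancel_right] at h3
      exact Subgroup.mul_mem_sup ⟨u, ⟨hu, h2⟩, rfl⟩ (Subgroup.mem_sup_right hv)
    · intro h1
      obtain ⟨_, ⟨u, ⟨hu, huW⟩, rfl⟩, _, h2, rfl⟩ := Subgroup.mem_sup.1 h1
      obtain ⟨_, ⟨w, hw, rfl⟩, v, hv, rfl⟩ := Subgroup.mem_sup.1 h2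
      have huW' : D u ∈ W := huW
      refine ⟨?_, mul_mem huW' (mul_mem (h.dw w hw) (h.vw hv)), ?_⟩
      · have e : D u * (D w * v) = D (u * w) * v := by rw [map_mul, mul_assoc]
        rw [e]
        exact Subgroup.mul_mem_sup ⟨u * w, mul_mem hu (h.wu hw), rfl⟩ hv
      · show N (D u * (D w * v)) ∈ V
        rw [map_mul, map_mul, h.nd, h.nd, one_mul, one_mul]
        exact h.nv v hv

/-- the multiplicativity for a hexagon -/
lemma main (h : Hex D N U W V) (h1 : T D N U W ≠ 0) (h2 : T N D U W ≠ 0) (h3 : T D N W V ≠ 0)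
    (h4 : T N D W V ≠ 0) : T D N U V ≠ 0 ∧ T N D U V ≠ 0 ∧
      T D N U V * (T N D U W * T N D W V) = T N D U V * (T D N U W * T D N W V) := by
  have a1 := one h
  have a2 := two h
  have a3 := three h
  have b1 := one h.swap
  have b2 := two h.swap
  have b3 := three h.swap
  rw [a2] at h1
  rw [b2] at h2
  rw [b3] at h3
  rw [a3] at h4
  rw [a1, a2, a3, b1, b2, b3]
  refine ⟨mul_ne_zero (right_ne_zero_of_mul h3) (left_ne_zero_of_mul h1),
    mul_ne_zero (right_ne_zero_of_mul h4) (left_ne_zero_of_mul h2), ?_⟩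
  ring

end HQ

open HQ in
theorem th_HQ : Sh_HQ := by
  intro G _ n s hs U W V hVW hWU hU hW hV h1 h2 h3 h4
  have it : ∀ X : Subgroup G, Stb s X → ∀ x ∈ X, ∀ i : ℕ, (⇑s)^[i] x ∈ X := by
    intro X hX x hx i
    induction i with
    | zero => exact hx
    | succ i ih =>
      rw [Function.iterate_succ_apply']
      exact hX _ ih
  have hd : ∀ X : Subgroup G, Stb s X → ∀ x ∈ X, DD s x ∈ X := fun X hX x hx =>
    div_mem (hX x hx) hx
  have hn : ∀ X : Subgroup G, Stb s X → ∀ x ∈ X, NN n s x ∈ X := by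
    intro X hX x hx
    show ∏ i ∈ Finset.range n, (⇑s)^[i] x ∈ X
    exact prod_mem fun i _ => it X hX x hx i
  have tel : ∀ x : G, ∏ i ∈ Finset.range n, ((⇑s)^[i + 1] x / (⇑s)^[i] x) = 1 := by
    intro x
    rw [Finset.prod_range_div (fun i => (⇑s)^[i] x), hs x]
    exact div_self' x
  have hex : Hex (DD s) (NN n s) U W V := by
    refine ⟨?_, ?_, hVW, hWU, hd U hU, hn U hU, hd W hW, hn W hW, hd V hV, hn V hV⟩
    · intro x
      show s (∏ i ∈ Finset.range n, (⇑s)^[i] x) / ∏ i ∈ Finset.range n, (⇑s)^[i] x = 1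
      rw [map_prod, ← Finset.prod_div_distrib, ← tel x]
      refine Finset.prod_congr rfl fun i _ => ?_
      rw [Function.iterate_succ_apply']
    · intro x
      show ∏ i ∈ Finset.range n, (⇑s)^[i] (s x / x) = 1
      rw [← tel x]
      refine Finset.prod_congr rfl fun i _ => ?_
      rw [iterate_map_div, Function.iterate_succ_apply]
  exact main hex h1 h2 h3 h4

end

end Pool.Agent.HB
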