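import Pool.Agent.HB.StHB

/-!
# HB, module SUN: the index of the norms of `S`-units
-/

set_option autoImplicit false

open NumberField IsDedekindDomain
open scoped nonZeroDivisors

namespace Pool.Agent.HB

namespace SUN

variable {k K : Type} [Field k] [NumberField k] [Field K] [NumberField K] [Algebra k K]

/-- every prime of `K` lies above a prime of `k` -/
lemma exists_below (w : HeightOneSpectrum (𝓞 K)) : ∃ v : HeightOneSpectrum (𝓞 k), Lies k K v w :=
  ⟨w.under (𝓞 k), rfl⟩

lemma iu_inj : Function.Injective (iu k K) :=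
  Units.map_injective (algebraMap k K).injective

lemma nu_iu (x : kˣ) : nu k K (iu k K x) = x ^ Module.finrank k K := by
  apply Units.ext
  rw [Units.val_pow_eq_pow_val]
  exact Algebra.norm_algebraMap _

lemma ord_pow (v : HeightOneSpectrum (𝓞 k)) (x : kˣ) (n : ℕ) : ord v (x ^ n) = n * ord v x := by
  induction n with
  | zero => simp
  | succ n ih =>
    rw [pow_succ, ord_mul, ih]
    push_cast
    ring

end SUN

open SUN in
/-- SUN. -/
theorem th_SUN (h1 : Sh_HSU) (h2 : Sh_T1E) (h3 : Sh_ORN) : Sh_SUN := by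
  intro k K _ _ _ _ _ l m σ hl hc htc S hun hgen
  obtain ⟨-, h5⟩ := h1 k K l m σ hl hc htc S
  rw [h2 k K (l ^ m) σ hc S hun hgen, one_mul] at h5
  obtain ⟨-, o2, o3, -, o5, o6, -, -⟩ := h3 k K (l ^ m) σ hc
  have hn0 : l ^ m ≠ 0 := pow_ne_zero _ hl.ne_zero
  -- the fixed `S`-units
  have hmem : ∀ x : kˣ, iu k K x ∈ EU (abv k K (S : Set (HeightOneSpectrum (𝓞 k)))) ↔
      x ∈ EU (S : Set (HeightOneSpectrum (𝓞 k))) := by
    intro x
    constructor
    · intro hx v hv
      have h6 : ord v (nu k K (iu k K x)) = 0 := by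
        apply o6 v (iu k K x)
        intro w hw
        apply hx w
        rintro ⟨v', hv', hw'⟩
        apply hv
        have h7 : v = v' := HeightOneSpectrum.ext (hw.symm.trans hw')
        rw [h7]
        exact hv'
      rw [nu_iu, hc.deg, ord_pow] at h6
      rcases mul_eq_zero.1 h6 with h7 | h7
      · exact absurd (by exact_mod_cast h7) hn0
      · exact h7
    · intro hx w hw
      obtain ⟨v, hv⟩ := exists_below (k := k) w
      obtain ⟨e, -, he⟩ := o5 v w hv
      rw [he, hx v fun h => hw ⟨v, h, hv⟩, mul_zero]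
  have e1 : EU (abv k K (S : Set (HeightOneSpectrum (𝓞 k)))) ⊓
      (⊥ : Subgroup Kˣ).comap (DD (su σ)) = (EU (S : Set (HeightOneSpectrum (𝓞 k)))).map (iu k K) := by
    ext z
    rw [Subgroup.mem_inf, Subgroup.mem_comap, Subgroup.mem_bot, Subgroup.mem_map]
    constructor
    · rintro ⟨hz1, hz2⟩
      have h6 : su σ z = z := div_eq_one.1 hz2
      obtain ⟨x, rfl⟩ := (o2 z).1 h6
      exact ⟨x, (hmem x).1 hz1, rfl⟩
    · rintro ⟨x, hx, rfl⟩
      exact ⟨(hmem x).2 hx, div_eq_one.2 ((o2 _).2 ⟨x, rfl⟩)⟩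
  have e2 : (EU (abv k K (S : Set (HeightOneSpectrum (𝓞 k))))).map (NN (l ^ m) (su σ)) ⊔ ⊥ =
      ((EU (abv k K (S : Set (HeightOneSpectrum (𝓞 k))))).map (nu k K)).map (iu k K) := by
    rw [sup_bot_eq, Subgroup.map_map]
    congr 1
    ext1 z
    exact (o3 z).symm
  unfold t0 at h5
  rw [e1, e2, Subgroup.relIndex_map_map_of_injective _ _ iu_inj] at h5
  exact h5

end Pool.Agent.HB
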