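import Pool.Agent.HB.JTBase
import Pool.Agent.N2.ZAll2

/-!
# JT: `p = 2`, all imaginary quadratic fields except `ℚ(i)`, `ℚ(√-3)` (helper3)
-/

set_option autoImplicit false

open NumberField

namespace Pool.Agent.JT

open _root_.MU3 Pool.Agent.MU3A Pool.Agent.RI Pool.Agent.MUX Pool.Agent.MUXJ Pool.Agent.HB
  Pool.Agent.N2Z Pool.Agent.N2

theorem finJ2_non (d : ℕ) (hd : Squarefree d) (h1 : d ≠ 1) (h3 : d ≠ 3) : FinJ 2 d :=
  finJ_of (fun A B hC h3 h4 F M K _ hF h a hT hG ha hK => z_all2 A B hC h3 h4 F M K hF h a hT hG ha hK)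
    d hd h1 h3

end Pool.Agent.JT
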