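import Pool.Agent.HB.JTBase
import Pool.Agent.NS.ZAll3

/-!
# JT: `p = 3`, all imaginary quadratic fields except `ℚ(i)`, `ℚ(√-3)` (helper3)
-/

set_option autoImplicit false

open NumberField

namespace Pool.Agent.JT

open _root_.MU3 Pool.Agent.MU3A Pool.Agent.RI Pool.Agent.MUX Pool.Agent.MUXJ Pool.Agent.HB
  Pool.Agent.NSZ Pool.Agent.NS

/-- `p = 3`, all `k` except `ℚ(i)`, `ℚ(√-3)`, for ray class fields -/
theorem z_all3 (A B : ℤ) (hC : MUX.CQ A B) (h3 : absD A B ≠ 3) (h4 : absD A B ≠ 4)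
    (F M K : IntermediateField ℚ ℂ) [FiniteDimensional ℚ M] (hF : kk A B ≤ F) (h : F ≤ M)
    (a : ℕ) (hT : TorU A B F) (hG : IsGalois F (IntermediateField.extendScalars h))
    (ha : Module.finrank F (IntermediateField.extendScalars h) = 3 ^ a) (hK : K ≤ M) :
    ∃ C : ℕ, ∀ (n : ℕ) (Q : IntermediateField ℚ ℂ), IsLayer 3 n Q →
      padicValNat 3 (classNo (K ⊔ Q)) ≤ C * (n + 1) ^ C := by
  unfold absD at h3 h4
  have h0 : (3 : ℤ) ∣ B ^ 2 + 4 * A ∨ (3 : ℤ) ∣ B ^ 2 + 4 * A - 1 ∨ (3 : ℤ) ∣ B ^ 2 + 4 * A + 1 := by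
    generalize B ^ 2 + 4 * A = D
    omega
  rcases h0 with h0 | h0 | h0
  · exact z_main3r A B { hC with
      three := h0
      exc := by
        rintro ⟨h5, h6⟩
        rw [h5, h6] at h3
        norm_num at h3 } F M K hF h a hT hG ha hK
  · exact MUXZ.z_main 3 A B { hC with split := Or.inl ⟨rfl, h0⟩ } F M K hF h a hT hG ha hK
  · exact z_main3 A B { hC with
      three := h0
      exc := by
        rintro ⟨h5, h6⟩
        rw [h5, h6] at h4
        norm_num at h4 } F M K hF h a hT hG ha hK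

theorem finJ3_non (d : ℕ) (hd : Squarefree d) (h1 : d ≠ 1) (h3 : d ≠ 3) : FinJ 3 d :=
  finJ_of (fun A B hC h3 h4 F M K _ hF h a hT hG ha hK => z_all3 A B hC h3 h4 F M K hF h a hT hG ha hK)
    d hd h1 h3

end Pool.Agent.JT
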