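import Pool.Agent.HB.StJT
import Pool.Agent.MUX.XCAll

/-!
# JT, module FRJ: automorphisms which fix `E` fix the field which belongs to `ψ` (helper18)
-/

set_option autoImplicit false

open NumberField IsDedekindDomain
open scoped nonZeroDivisors Pointwise

namespace Pool.Agent.JT

open _root_.MU3 Pool.Agent.MU3A Pool.Agent.RI Pool.Agent.MUX Pool.Agent.MUXJ Pool.Agent.HB
open Pool.Agent.MUXC (c_FRO Sc_FRO)
open Pool.Agent.MUXC.ZET (kk_fin fix_kk toAlg)

namespace FRJ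

section ring

variable {A B : ℤ}

lemma int_emb (hR : Pool.Agent.MUXE.RingE A B) (x : OO A B) : IsIntegral ℤ (emb x) :=
  (hR.int (emb x) (MU3A.emb_mem x)).2 ⟨x, rfl⟩

/-- `O → N` for a field which contains `k` -/
noncomputable def rho0 (hQ : CQ A B) {N : IntermediateField ℚ ℂ} (hN : kk A B ≤ N) :
    OO A B →+* N :=
  (embHom hQ).codRestrict N.toSubring fun x => by
    rw [embHom_apply hQ]
    exact hN (MU3A.emb_mem x)

lemma rho0_coe (hQ : CQ A B) {N : IntermediateField ℚ ℂ} (hN : kk A B ≤ N) (x : OO A B) :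
    ((rho0 hQ hN x : N) : ℂ) = emb x := embHom_apply hQ x

lemma rho0_int (hQ : CQ A B) (hR : Pool.Agent.MUXE.RingE A B) {N : IntermediateField ℚ ℂ}
    (hN : kk A B ≤ N) (x : OO A B) : IsIntegral ℤ (rho0 hQ hN x) := by
  have h1 : IsIntegral ℤ ((rho0 hQ hN x : N) : ℂ) := by
    rw [rho0_coe]
    exact int_emb hR x
  exact (isIntegral_algHom_iff (N.val.restrictScalars ℤ) N.val.injective).1 h1

/-- `O → 𝓞 N` for a field which contains `k` -/
noncomputable def rho (hQ : CQ A B) (hR : Pool.Agent.MUXE.RingE A B)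
    {N : IntermediateField ℚ ℂ} (hN : kk A B ≤ N) : OO A B →+* 𝓞 N where
  toFun x := ⟨rho0 hQ hN x, rho0_int hQ hR hN x⟩
  map_one' := by
    apply RingOfIntegers.ext
    exact map_one (rho0 hQ hN)
  map_zero' := by
    apply RingOfIntegers.ext
    exact map_zero (rho0 hQ hN)
  map_mul' x y := by
    apply RingOfIntegers.ext
    exact map_mul (rho0 hQ hN) x y
  map_add' x y := by
    apply RingOfIntegers.ext
    exact map_add (rho0 hQ hN) x y

lemma rho_coe (hQ : CQ A B) (hR : Pool.Agent.MUXE.RingE A B) {N : IntermediateField ℚ ℂ}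
    (hN : kk A B ≤ N) (x : OO A B) : (((rho hQ hR hN x : 𝓞 N) : N) : ℂ) = emb x :=
  rho0_coe hQ hN x

lemma coe_inj {N : IntermediateField ℚ ℂ} {x y : 𝓞 N} (h : ((x : N) : ℂ) = ((y : N) : ℂ)) :
    x = y := RingOfIntegers.ext (Subtype.ext h)

lemma rho_bij (hQ : CQ A B) (hR : Pool.Agent.MUXE.RingE A B) :
    Function.Bijective (rho hQ hR (le_refl (kk A B))) := by
  constructor
  · intro x y hxy
    have h1 : emb x = emb y := by
      rw [← rho_coe hQ hR (le_refl (kk A B)) x, ← rho_coe hQ hR (le_refl (kk A B)) y, hxy]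
    exact emb_inj hQ h1
  · intro y
    have h1 : IsIntegral ℤ (((y : kk A B)) : ℂ) :=
      (RingOfIntegers.isIntegral_coe y).map ((kk A B).val.restrictScalars ℤ)
    obtain ⟨x, hx⟩ := (hR.int _ (y : kk A B).2).1 h1
    exact ⟨x, coe_inj (by rw [rho_coe, hx])⟩

lemma card_quot (hQ : CQ A B) (hR : Pool.Agent.MUXE.RingE A B) {N : IntermediateField ℚ ℂ}
    (hN : kk A B ≤ N) (P : Ideal (𝓞 N)) :
    nI (P.comap (rho hQ hR hN)) = Nat.card (𝓞 (kk A B) ⧸ P.comap
      (RingOfIntegers.mapRingHom (IntermediateField.inclusion hN : kk A B →+* N))) := by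
  have h1 : rho hQ hR hN = (RingOfIntegers.mapRingHom
      (IntermediateField.inclusion hN : kk A B →+* N)).comp (rho hQ hR (le_refl (kk A B))) := by
    apply RingHom.ext
    intro x
    apply coe_inj
    rw [rho_coe]
    exact (rho_coe hQ hR (le_refl (kk A B)) x).symm
  rw [h1, ← Ideal.comap_comap]
  set J : Ideal (𝓞 (kk A B)) := P.comap
      (RingOfIntegers.mapRingHom (IntermediateField.inclusion hN : kk A B →+* N))
  let e : OO A B ≃+* 𝓞 (kk A B) := RingEquiv.ofBijective _ (rho_bij hQ hR)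
  have h2 : J = Ideal.map (e : OO A B →+* 𝓞 (kk A B))
      (J.comap (rho hQ hR (le_refl (kk A B)))) := by
    have := Ideal.map_comap_of_surjective (e : OO A B →+* 𝓞 (kk A B)) e.surjective J
    exact this.symm
  exact Nat.card_congr (Ideal.quotientEquiv _ J e h2).toEquiv

lemma coprime_of {f Q : Ideal (OO A B)} {q n : ℕ} (hq : q.Prime) (hqQ : (q : OO A B) ∈ Q)
    (hn : (n : OO A B) ∈ f) (hqn : ¬ q ∣ n) : IsCoprime Q f := by
  have hcop : IsCoprime (q : ℤ) (n : ℤ) :=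
    Nat.isCoprime_iff_coprime.2 ((hq.coprime_iff_not_dvd).2 hqn)
  obtain ⟨a, b, hab⟩ := hcop
  rw [Ideal.isCoprime_iff_exists]
  refine ⟨((a : ℤ) : OO A B) * q, Q.mul_mem_left _ hqQ, ((b : ℤ) : OO A B) * n,
    f.mul_mem_left _ hn, ?_⟩
  have := congrArg (fun t : ℤ => (t : OO A B)) hab
  simpa using this

end ring

end FRJ

open FRJ

theorem tj_FRJ (hFRQ : Sj_FRQ) : Sj_FRJ := by
  intro A B hQ T hNL E hEf hkE f A' _ ψ Ψ hf hψ hΨ s hs y hy
  have hR : Pool.Agent.MUXE.RingE A B := Pool.Agent.MUXE.te_RNG A B hQ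
  have hkf := kk_fin hQ
  have hRf : FiniteDimensional (kk A B) (RF f : IntermediateField (kk A B) ℂ) := T.fin f hf
  have hRg : IsGalois (kk A B) (RF f : IntermediateField (kk A B) ℂ) := T.gal f hf
  have hRQ : FiniteDimensional ℚ (RF f : IntermediateField (kk A B) ℂ) :=
    FiniteDimensional.trans ℚ (kk A B) _
  -- the field N
  set R₀ : IntermediateField ℚ ℂ := (RF f : IntermediateField (kk A B) ℂ).restrictScalars ℚ
    with hR₀
  have hR₀f : FiniteDimensional ℚ R₀ := hRQ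
  set M : IntermediateField ℚ ℂ := E ⊔ R₀ with hM
  have hMf : FiniteDimensional ℚ M := IntermediateField.finiteDimensional_sup E R₀
  set N : IntermediateField ℚ ℂ := IntermediateField.normalClosure ℚ M ℂ with hNdef
  have hMN : M ≤ N := IntermediateField.le_normalClosure M
  have hEN : E ≤ N := le_sup_left.trans hMN
  have hRN : R₀ ≤ N := le_sup_right.trans hMN
  have hkN : kk A B ≤ N := hkE.trans hEN
  have hNf : FiniteDimensional ℚ N := inferInstance
  have hNc : IsNormalClosure ℚ M N := Algebra.IsAlgebraic.isNormalClosure_normalClosure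
    fun _ => IsAlgClosed.splits _
  have hNn : Normal ℚ N := hNc.normal
  have hNg : IsGalois ℚ N := ⟨⟩
  -- the automorphism g
  let sQ : ℂ ≃ₐ[ℚ] ℂ := AlgEquiv.ofRingEquiv (f := s) fun x => map_ratCast s x
  let g : N ≃ₐ[ℚ] N := sQ.restrictNormal N
  have hg : ∀ x : N, ((g x : N) : ℂ) = s (x : ℂ) := fun x => sQ.restrictNormal_commutes N x
  obtain ⟨n₀, hn₀, hFRO⟩ := c_FRO A B hQ
  have hnf : nI f ≠ 0 := nI_ne_zero hQ hf
  obtain ⟨q, P, φ, V, hq, hqn, hP, hqP, hzp, hV, hφ, hD⟩ :=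
    hFRQ N g (n₀ * nI f) (mul_ne_zero hn₀ hnf)
  have hqn₀ : ¬ q ∣ n₀ := fun h => hqn (h.mul_right _)
  have hqf : ¬ q ∣ nI f := fun h => hqn (h.mul_left _)
  have hgE : ∀ x : N, (x : ℂ) ∈ E → g x = x := fun x hx => Subtype.ext ((hg x).trans (hs _ hx))
  have hgk : ∀ x : N, (x : ℂ) ∈ kk A B → g x = x := fun x hx => hgE x (hkE hx)
  -- φ is a power of g and conversely
  have hstab : ∀ x : N, (g x = x ↔ φ x = x) := by
    intro x
    have key : ∀ a b : N ≃ₐ[ℚ] N, b ∈ Subgroup.zpowers a → a x = x → b x = x := by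
      intro a b hb ha
      have h1 : Subgroup.zpowers a ≤ MulAction.stabilizer (N ≃ₐ[ℚ] N) x := by
        rw [Subgroup.zpowers_le]
        exact ha
      exact h1 hb
    exact ⟨key g φ (hzp ▸ Subgroup.mem_zpowers φ), key φ g (hzp ▸ Subgroup.mem_zpowers g)⟩
  -- the prime Q
  set Q : Ideal (OO A B) := P.comap (rho hQ hR hkN) with hQdef
  have hQp : Q.IsPrime := hP.comap _
  have hnQ : nI Q = q := by
    rw [hQdef, card_quot]
    exact hD (kk A B) hkN hgk
  have hqQ : ((q : ℕ) : OO A B) ∈ Q := by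
    rw [hQdef, Ideal.mem_comap, map_natCast]
    exact hqP
  have hcop : IsCoprime Q f := coprime_of hq hqQ (nI_mem hQ hf) hqf
  have hVQ : OverI V Q := by
    intro x
    rw [hQdef, Ideal.mem_comap, ← hV, rho_coe]
  have hAbv : AbvQ E Q q := by
    refine ⟨P.comap (RingOfIntegers.mapRingHom
      (IntermediateField.inclusion hEN : E →+* N)), hP.comap _, hD E hEN hgE, ?_⟩
    intro x z hz
    rw [hQdef, Ideal.mem_comap, Ideal.mem_comap]
    have : rho hQ hR hkN x = RingOfIntegers.mapRingHom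
      (IntermediateField.inclusion hEN : E →+* N) z := by
      apply coe_inj
      rw [rho_coe, ← hz]
      rfl
    rw [this]
  have hψQ : ψ Q = 1 := hψ Q q hq hQp hnQ hcop hAbv
  -- extension of φ
  obtain ⟨s', hs'⟩ := Pool.Agent.MUXU.u_AUE N inferInstance
    ((N.val : N →+* ℂ).comp (φ : N →+* N))
  have hs'1 : ∀ x : N, s' (x : ℂ) = ((φ x : N) : ℂ) := hs'
  have hfix : FixK A B s' := by
    have hw : wC A B ∈ N := hkN (wC_mem A B)
    have h1 := hs'1 ⟨wC A B, hw⟩
    have h2 : φ ⟨wC A B, hw⟩ = ⟨wC A B, hw⟩ := (hstab _).1 (hgk _ (wC_mem A B))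
    rw [h2] at h1
    exact h1
  obtain ⟨b, L, om, hL⟩ := hNL
  obtain ⟨b', L', om', mu, hL', hact⟩ := hFRO f hf Q q hq hnQ hqn₀ hqf V hVQ s' hfix (by
    intro x hx hxV
    have hxN : x ∈ N := hRN hx
    have h1 := hφ ⟨x, hxN⟩ hxV
    rw [← hs'1] at h1
    exact h1) b L om hL
  -- the restriction of s' to RF f
  let t : ℂ ≃ₐ[kk A B] ℂ := toAlg hfix
  let τ : (RF f : IntermediateField (kk A B) ℂ) ≃ₐ[kk A B] RF f := t.restrictNormal _
  have hτ : ∀ z : (RF f : IntermediateField (kk A B) ℂ), s' (z : ℂ) = ((τ z : _) : ℂ) :=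
    fun z => (t.restrictNormal_commutes (RF f : IntermediateField (kk A B) ℂ) z).symm
  have h1 : Ψ τ = 1 := by
    rw [hΨ τ s' hfix hτ Q b b' L L' om om' mu hL hL' hact, hψQ]
  have h2 : τ y = y := hy τ h1
  have hyN : (y : ℂ) ∈ N := hRN y.2
  have h3 : φ ⟨y, hyN⟩ = ⟨y, hyN⟩ := by
    apply Subtype.ext
    rw [← hs'1 ⟨(y : ℂ), hyN⟩]
    rw [show s' ((⟨(y : ℂ), hyN⟩ : N) : ℂ) = s' (y : ℂ) from rfl, hτ y, h2]
  have h4 : g ⟨y, hyN⟩ = ⟨y, hyN⟩ := (hstab _).2 h3
  have h5 := hg ⟨y, hyN⟩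
  rw [h4] at h5
  exact h5.symm

end Pool.Agent.JT
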