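import Pool.Agent.HB.StJT
import Pool.Agent.RI.FROB
import Pool.Agent.MU3.AVAll

/-!
# Module JT_FRQ: the theorem of Frobenius in the form needed
-/

set_option autoImplicit false

open NumberField IsDedekindDomain
open scoped nonZeroDivisors Pointwise

namespace Pool.Agent.JT

open _root_.MU3 Pool.Agent.MU3A Pool.Agent.RI Pool.Agent.MUX Pool.Agent.MUXJ Pool.Agent.HB

namespace FRQ

open Pool.Agent.Lib_helper28.FROB

/-- a set of primes of positive density has a prime outside of a finite set -/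
theorem dens {S : Set ℕ} (hS : PosDensity S) (T : Set ℕ) (hT : T.Finite) :
    ∃ q : ℕ, q.Prime ∧ q ∈ S ∧ q ∉ T := by
  classical
  by_contra hcon
  push Not at hcon
  obtain ⟨δ, hδ, C, h⟩ := hS
  set t : ℝ := (hT.toFinset.card : ℝ) with ht
  have ht0 : 0 ≤ t := by positivity
  set M : ℝ := (t + |C| + 1) / δ with hM
  have hM0 : 0 ≤ M := by positivity
  have hs1 : 1 < 1 + Real.exp (-M) := by linarith [Real.exp_pos (-M)]
  have hs2 : 1 + Real.exp (-M) ≤ 2 := by
    have : Real.exp (-M) ≤ 1 := Real.exp_le_one_iff.2 (by linarith)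
    linarith
  have h1 := h _ hs1 hs2
  have h2 : Real.log (1 / (1 + Real.exp (-M) - 1)) = M := by
    rw [add_sub_cancel_left, one_div, Real.log_inv, Real.log_exp, neg_neg]
  rw [h2] at h1
  have hfin : Finite {q : ℕ // q.Prime ∧ q ∈ S} := by
    refine Set.Finite.to_subtype (s := {q : ℕ | q.Prime ∧ q ∈ S}) (hT.subset ?_)
    intro q hq
    exact hcon q hq.1 hq.2
  have := Fintype.ofFinite {q : ℕ // q.Prime ∧ q ∈ S}
  have h3 : ∑' q : {q : ℕ // q.Prime ∧ q ∈ S}, ((q : ℕ) : ℝ) ^ (-(1 + Real.exp (-M))) ≤ t := by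
    rw [tsum_fintype]
    have h4 : ∀ q : {q : ℕ // q.Prime ∧ q ∈ S}, ((q : ℕ) : ℝ) ^ (-(1 + Real.exp (-M))) ≤ 1 := by
      intro q
      apply Real.rpow_le_one_of_one_le_of_nonpos
      · exact_mod_cast q.2.1.one_le
      · linarith
    refine (Finset.sum_le_sum fun q _ => h4 q).trans ?_
    rw [Finset.sum_const, nsmul_eq_mul, mul_one, ht]
    have h5 : (Finset.univ : Finset {q : ℕ // q.Prime ∧ q ∈ S}).card ≤ hT.toFinset.card := by
      refine Finset.card_le_card_of_injOn (fun q => (q : ℕ)) ?_ ?_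
      · intro q _
        simpa using hcon q q.2.1 q.2.2
      · intro a _ b _ hab
        exact Subtype.ext hab
    exact_mod_cast h5
  have h6 : δ * M = t + |C| + 1 := by rw [hM]; field_simp
  have h7 := le_abs_self C
  linarith

open Polynomial in
/-- at most `n` elements of a domain satisfy `x ^ n = x` -/
theorem card_le {κ : Type} [CommRing κ] [IsDomain κ] [Finite κ] (S : Set κ) (n : ℕ) (hn : 1 < n)
    (h : ∀ x ∈ S, x ^ n = x) : Nat.card S ≤ n := by
  classical
  have hdeg : (X ^ n - X : Polynomial κ).natDegree = n := by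
    rw [Polynomial.natDegree_sub_eq_left_of_natDegree_lt, natDegree_X_pow]
    rw [natDegree_X_pow, natDegree_X]
    exact hn
  have hne : (X ^ n - X : Polynomial κ) ≠ 0 := by
    intro h0
    rw [h0, natDegree_zero] at hdeg
    omega
  have h1 : S ⊆ ((X ^ n - X : Polynomial κ).roots.toFinset : Set κ) := by
    intro x hx
    rw [Finset.mem_coe, Multiset.mem_toFinset, mem_roots hne]
    simp [h x hx]
  have h2 : S.ncard ≤ ((X ^ n - X : Polynomial κ).roots.toFinset : Set κ).ncard :=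
    Set.ncard_le_ncard h1 (Finset.finite_toSet _)
  rw [Set.ncard_coe_finset] at h2
  have h3 : Nat.card S = S.ncard := Nat.card_coe_set_eq S
  have h4 : (X ^ n - X : Polynomial κ).roots.toFinset.card ≤
      Multiset.card (X ^ n - X : Polynomial κ).roots := Multiset.toFinset_card_le _
  have h5 : Multiset.card (X ^ n - X : Polynomial κ).roots ≤ (X ^ n - X : Polynomial κ).natDegree :=
    Polynomial.card_roots' _
  omega

/-- the Frobenius automorphism generates the decomposition group -/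
theorem frob (N : Type) [Field N] [NumberField N] [IsGalois ℚ N] (w : HeightOneSpectrum (𝓞 N))
    (hU : U N (pr w)) : ∃ φ : N ≃ₐ[ℚ] N, (∀ x : 𝓞 N, φ • x - x ^ pr w ∈ w.asIdeal) ∧
      Subgroup.zpowers φ = MulAction.stabilizer (N ≃ₐ[ℚ] N) w.asIdeal := by
  have hp : w.asIdeal.IsPrime := w.isPrime
  have hmax : w.asIdeal.IsMaximal := w.isMaximal
  have hram := hU w rfl
  have hcd := card_dec w hram
  have hfin : Finite (𝓞 N ⧸ w.asIdeal) := Ideal.finiteQuotientOfFreeOfNeBot _ w.ne_bot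
  have hcard : Nat.card (𝓞 N ⧸ w.asIdeal) = pr w ^ dg w := by
    rw [← norm_eq w, Ideal.absNorm_apply, Submodule.cardQuot_apply]
  obtain ⟨φ, hφ⟩ := IsArithFrobAt.exists_of_isInvariant ℤ (N ≃ₐ[ℚ] N) w.asIdeal
  have hq : Nat.card (ℤ ⧸ w.asIdeal.under ℤ) = pr w := by
    rw [under_eq, Nat.card_congr (Int.quotientSpanNatEquivZMod (pr w)).toEquiv, Nat.card_zmod]
  have hφ' : ∀ x : 𝓞 N, φ • x - x ^ pr w ∈ w.asIdeal := by
    intro x
    have := hφ x
    rw [hq] at this
    exact this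
  refine ⟨φ, hφ', ?_⟩
  have hst : φ ∈ MulAction.stabilizer (N ≃ₐ[ℚ] N) w.asIdeal := hφ.mem_stabilizer
  have hle : Subgroup.zpowers φ ≤ MulAction.stabilizer (N ≃ₐ[ℚ] N) w.asIdeal := by
    rw [Subgroup.zpowers_le]
    exact hst
  have hpow : ∀ (i : ℕ) (x : 𝓞 N), Ideal.Quotient.mk w.asIdeal (φ ^ i • x) =
      Ideal.Quotient.mk w.asIdeal x ^ (pr w ^ i) := by
    intro i
    induction i with
    | zero => intro x; simp
    | succ i ih =>
      intro x
      rw [pow_succ', mul_smul]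
      have h1 := hφ' (φ ^ i • x)
      rw [← Ideal.Quotient.eq, map_pow] at h1
      rw [h1, ih x, ← pow_mul, pow_succ]
  have hq2 := (pr_prime w).two_le
  have hord : dg w ≤ orderOf φ := by
    by_contra hlt
    push Not at hlt
    have hpos : 0 < orderOf φ := orderOf_pos φ
    have h1 : ∀ x ∈ (Set.univ : Set (𝓞 N ⧸ w.asIdeal)), x ^ (pr w ^ orderOf φ) = x := by
      intro x _
      obtain ⟨y, rfl⟩ := Ideal.Quotient.mk_surjective x
      rw [← hpow, pow_orderOf_eq_one, one_smul]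
    have h2 := card_le Set.univ (pr w ^ orderOf φ) (Nat.one_lt_pow hpos.ne' (by omega)) h1
    rw [Nat.card_univ, hcard] at h2
    have h3 := (Nat.pow_lt_pow_iff_right (a := pr w) (by omega)).2 hlt
    omega
  refine Subgroup.eq_of_le_of_card_ge hle ?_
  rw [Nat.card_zpowers]
  exact le_trans (le_of_eq hcd) hord

theorem loc (N : IntermediateField ℚ ℂ) [NumberField N] (w : HeightOneSpectrum (𝓞 N))
    (V : ValuationSubring ℂ) (hV : ∀ x : N, ((x : ℂ) ∈ V ↔ w.valuation N x ≤ 1) ∧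
      (V.valuation (x : ℂ) < 1 ↔ w.valuation N x < 1))
    (φ : N ≃ₐ[ℚ] N) (q : ℕ) (hφ : ∀ x : 𝓞 N, φ • x - x ^ q ∈ w.asIdeal) (x : N)
    (hx : (x : ℂ) ∈ V) : V.valuation (((φ x : N) : ℂ) - (x : ℂ) ^ q) < 1 := by
  have hx1 : w.valuation N x ≤ 1 := (hV x).1.mp hx
  obtain ⟨s, ⟨t, ht⟩, hst⟩ := w.exists_primeCompl_mul_eq_of_integer x hx1
  have ht' : t ∉ w.asIdeal := ht
  have hst' : x * (t : N) = (s : N) := hst
  obtain ⟨y1, hy1, hy1'⟩ : ∃ y ∈ w.asIdeal, (y : N) = φ (s : N) - (s : N) ^ q :=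
    ⟨_, hφ s, by simp; rfl⟩
  obtain ⟨y2, hy2, hy2'⟩ : ∃ y ∈ w.asIdeal, (y : N) = φ (t : N) - (t : N) ^ q :=
    ⟨_, hφ t, by simp; rfl⟩
  have vt : w.valuation N (t : N) = 1 := w.valuation_eq_one_iff_notMem.mpr ht'
  have vy1 : w.valuation N (y1 : N) < 1 := (w.valuation_lt_one_iff_mem y1).mpr hy1
  have vy2 : w.valuation N (y2 : N) < 1 := (w.valuation_lt_one_iff_mem y2).mpr hy2
  have vs : w.valuation N (s : N) ≤ 1 := w.valuation_le_one s
  have vtq : w.valuation N ((t : N) ^ q) = 1 := by rw [map_pow, vt, one_pow]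
  have vsq : w.valuation N ((s : N) ^ q) ≤ 1 := by
    rw [map_pow]
    exact pow_le_one' vs q
  have hσt : φ (t : N) = (y2 : N) + (t : N) ^ q := by rw [hy2']; ring
  have vσt : w.valuation N (φ (t : N)) = 1 := by
    rw [hσt, Valuation.map_add_eq_of_lt_right _ (by rw [vtq]; exact vy2), vtq]
  have hmul : φ x * φ (t : N) = φ (s : N) := by rw [← map_mul, hst']
  have key : (φ x - x ^ q) * (φ (t : N) * (t : N) ^ q) =
      (y1 : N) * (t : N) ^ q - (s : N) ^ q * (y2 : N) := by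
    have e1 : φ (s : N) = (y1 : N) + (s : N) ^ q := by rw [hy1']; ring
    have e2 : x ^ q * (t : N) ^ q = (s : N) ^ q := by rw [← mul_pow, hst']
    calc (φ x - x ^ q) * (φ (t : N) * (t : N) ^ q)
        = (φ x * φ (t : N)) * (t : N) ^ q - (x ^ q * (t : N) ^ q) * φ (t : N) := by ring
      _ = ((y1 : N) + (s : N) ^ q) * (t : N) ^ q - (s : N) ^ q * ((y2 : N) + (t : N) ^ q) := by
          rw [hmul, e1, e2, hσt]
      _ = (y1 : N) * (t : N) ^ q - (s : N) ^ q * (y2 : N) := by ring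
  have vlt : w.valuation N ((y1 : N) * (t : N) ^ q - (s : N) ^ q * (y2 : N)) < 1 := by
    refine Valuation.map_sub_lt _ ?_ ?_
    · rw [map_mul, vtq, mul_one]
      exact vy1
    · rw [map_mul]
      exact lt_of_le_of_lt (mul_le_of_le_one_left' vsq) vy2
  have vres : w.valuation N (φ x - x ^ q) < 1 := by
    rw [← key, map_mul, map_mul, vσt, vtq, mul_one, mul_one] at vlt
    exact vlt
  exact (hV (φ x - x ^ q)).2.mpr vres

/-- the residue field of a subfield fixed by the Frobenius automorphism -/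
theorem res (N : IntermediateField ℚ ℂ) [NumberField N] (P : Ideal (𝓞 N)) [P.IsPrime]
    (hP0 : P ≠ ⊥) (q : ℕ) (hq : q.Prime) (hqP : (q : 𝓞 N) ∈ P) (φ : N ≃ₐ[ℚ] N)
    (hφ : ∀ x : 𝓞 N, φ • x - x ^ q ∈ P) (D : IntermediateField ℚ ℂ) (h : D ≤ N)
    (hD : ∀ x : N, (x : ℂ) ∈ D → φ x = x) :
    Nat.card (𝓞 D ⧸ P.comap (RingOfIntegers.mapRingHom
      (IntermediateField.inclusion h : D →+* N))) = q := by
  set f : 𝓞 D →+* 𝓞 N := RingOfIntegers.mapRingHom (IntermediateField.inclusion h : D →+* N)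
    with hf
  have hfin : Finite (𝓞 N ⧸ P) := Ideal.finiteQuotientOfFreeOfNeBot _ hP0
  set F : 𝓞 D ⧸ P.comap f →+* 𝓞 N ⧸ P := Ideal.quotientMap P f le_rfl with hF
  have hinj : Function.Injective F := Ideal.quotientMap_injective
  have hfinD : Finite (𝓞 D ⧸ P.comap f) := Finite.of_injective _ hinj
  apply le_antisymm
  · have h1 : ∀ x ∈ Set.range F, x ^ q = x := by
      rintro _ ⟨y, rfl⟩
      obtain ⟨x, rfl⟩ := Ideal.Quotient.mk_surjective y
      rw [hF, Ideal.quotientMap_mk]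
      have h2 : φ • (f x) = f x := by
        apply RingOfIntegers.ext
        exact hD (((f x : 𝓞 N) : N)) (x : D).2
      have h3 := hφ (f x)
      rw [h2, ← Ideal.Quotient.eq, map_pow] at h3
      exact h3.symm
    have h2 := card_le (Set.range F) q hq.one_lt h1
    rwa [Nat.card_congr (Equiv.ofInjective F hinj).symm] at h2
  · have h1 : ((q : ℕ) : 𝓞 D ⧸ P.comap f) = 0 := by
      apply hinj
      rw [map_natCast, map_zero]
      have : Ideal.Quotient.mk P (q : 𝓞 N) = 0 := Ideal.Quotient.eq_zero_iff_mem.2 hqP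
      rwa [map_natCast] at this
    have hpr : (P.comap f).IsPrime := Ideal.comap_isPrime f P
    have hnt : Nontrivial (𝓞 D ⧸ P.comap f) := Ideal.Quotient.nontrivial_iff.2 hpr.ne_top
    have hch : CharP (𝓞 D ⧸ P.comap f) q := (CharP.charP_iff_prime_eq_zero hq).2 h1
    have h2 := ZMod.castHom_injective (𝓞 D ⧸ P.comap f) (n := q)
    have h3 := Nat.card_le_card_of_injective _ h2
    rwa [Nat.card_zmod] at h3

end FRQ

open FRQ Pool.Agent.Lib_helper28.FROB in
theorem tj_FRQ : Sj_FRQ := by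
  intro N _ _ g n₀ hn₀
  have hNF : NumberField N := NumberField.mk
  have hPD := FROB_thm N g
  have hT : ({p | ¬ U N p} ∪ {p | p ∣ n₀} : Set ℕ).Finite := by
    refine bad_finite.union ?_
    refine (Nat.divisors n₀).finite_toSet.subset ?_
    intro p hp
    simpa [hn₀] using hp
  obtain ⟨q, hq, ⟨P, hP, hqP, hstab⟩, hqT⟩ := dens hPD _ hT
  simp only [Set.mem_union, Set.mem_ofPred_eq, not_or, not_not] at hqT
  have hP0 : P ≠ ⊥ := by
    intro h
    rw [h, Ideal.mem_bot] at hqP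
    exact hq.ne_zero (by exact_mod_cast hqP)
  set w : HeightOneSpectrum (𝓞 N) := ⟨P, hP, hP0⟩ with hw
  have hpr : pr w = q := by
    have h1 : (q : ℤ) ∈ w.asIdeal.under ℤ := by
      rw [Ideal.mem_comap]
      simpa using hqP
    rw [under_eq, Ideal.mem_span_singleton] at h1
    exact (Nat.prime_dvd_prime_iff_eq (pr_prime w) hq).1 (by exact_mod_cast h1)
  obtain ⟨φ, hφ, hz⟩ := frob N w (by rw [hpr]; exact hqT.1)
  rw [hpr] at hφ
  obtain ⟨V, hV⟩ := Pool.Agent.MU3X.v_EXT N (N.val : N →+* ℂ) w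
  refine ⟨q, P, φ, V, hq, hqT.2, hP, hqP, hz.trans hstab, ?_, ?_, ?_⟩
  · intro y
    rw [ValuationSubring.mem_nonunits_iff]
    exact (hV (y : N)).2.1.trans (w.valuation_lt_one_iff_mem y)
  · intro x hx
    exact loc N w V (fun x => ⟨(hV x).1, (hV x).2.1⟩) φ q hφ x hx
  · intro D h hg
    refine res N P hP0 q hq hqP φ hφ D h ?_
    intro x hx
    have h1 : φ ∈ Subgroup.zpowers g := by
      rw [← hstab, ← hz]
      exact Subgroup.mem_zpowers φ
    have h2 : Subgroup.zpowers g ≤ MulAction.stabilizer (N ≃ₐ[ℚ] N) x := by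
      rw [Subgroup.zpowers_le]
      exact hg x hx
    exact h2 h1

end Pool.Agent.JT
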