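import Pool.Agent.HB.StJT
import Pool.Agent.MUX.E_RNG

/-!
# JT, module JQF: imaginary quadratic subfields of `ℂ`
-/

set_option autoImplicit false

open NumberField IsDedekindDomain
open scoped nonZeroDivisors Pointwise

namespace Pool.Agent.JT

open _root_.MU3 Pool.Agent.MU3A Pool.Agent.RI Pool.Agent.MUX Pool.Agent.MUXJ Pool.Agent.HB

namespace JQF

open Pool.Agent.MU3Z (rt)

lemma rt_sq (d : ℕ) : rt d * rt d = -(d : ℂ) := by
  have h2 : ((Real.sqrt d : ℝ) : ℂ) * ((Real.sqrt d : ℝ) : ℂ) = (d : ℂ) := by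
    rw [← Complex.ofReal_mul, Real.mul_self_sqrt (by positivity)]
    norm_num
  have h3 : Complex.I * Complex.I = -1 := Complex.I_mul_I
  unfold rt
  linear_combination (Complex.I * Complex.I) * h2 + (d : ℂ) * h3

lemma rt_conj {d : ℕ} (hd : d ≠ 0) : (starRingEnd ℂ) (rt d) ≠ rt d := by
  intro h
  have h1 := Complex.conj_eq_iff_im.1 h
  have h2 : (rt d).im = Real.sqrt d := by
    unfold rt
    simp
  rw [h2, Real.sqrt_eq_zero (by positivity)] at h1
  exact hd (by exact_mod_cast h1)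

/-- the field contains `√-d` -/
lemma exists_rt (k : IntermediateField ℚ ℂ) (h2 : Module.finrank ℚ k = 2) {z : ℂ} (hz : z ∈ k)
    (hc : (starRingEnd ℂ) z ≠ z) : ∃ d : ℕ, Squarefree d ∧ rt d ∈ k := by
  have hfd : FiniteDimensional ℚ k := Module.finite_of_finrank_pos (by rw [h2]; norm_num)
  -- a quadratic equation for `z`
  obtain ⟨b, c, hbc⟩ : ∃ b c : ℚ, z * z + b * z + c = 0 := by
    have hdep : ¬ LinearIndependent ℚ ![(1 : k), ⟨z, hz⟩, ⟨z, hz⟩ * ⟨z, hz⟩] := by
      intro hli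
      have := hli.fintype_card_le_finrank
      rw [h2] at this
      simp at this
    rw [Fintype.not_linearIndependent_iff] at hdep
    obtain ⟨g, hg, i, hi⟩ := hdep
    rw [Fin.sum_univ_three] at hg
    simp only [Matrix.cons_val_zero, Matrix.cons_val_one, Matrix.cons_val] at hg
    have hg' : (g 0 : ℂ) + g 1 * z + g 2 * (z * z) = 0 := by
      have := congrArg (algebraMap k ℂ) hg
      simp only [map_add, map_zero, Algebra.smul_def, map_mul, mul_one] at this
      exact this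
    have h20 : g 2 ≠ 0 := by
      intro h20
      rw [h20] at hg'
      have h10 : g 1 = 0 := by
        by_contra h10
        apply hc
        have hzq : z = ((-(g 0) / g 1 : ℚ) : ℂ) := by
          have h1' : (g 1 : ℂ) ≠ 0 := by exact_mod_cast h10
          push_cast
          rw [eq_div_iff h1']
          push_cast at hg'
          linear_combination hg'
        rw [hzq]
        exact map_ratCast (starRingEnd ℂ) _
      rw [h10] at hg'
      have h00 : g 0 = 0 := by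
        push_cast at hg'
        have : (g 0 : ℂ) = 0 := by linear_combination hg'
        exact_mod_cast this
      fin_cases i
      · exact hi h00
      · exact hi h10
      · exact hi h20
    refine ⟨g 1 / g 2, g 0 / g 2, ?_⟩
    have h2' : (g 2 : ℂ) ≠ 0 := by exact_mod_cast h20
    push_cast
    field_simp
    linear_combination hg'
  -- the number `w = z + b/2`
  set w : ℂ := z + ((b / 2 : ℚ) : ℂ) with hw
  have hwk : w ∈ k := add_mem hz (by
    have := k.algebraMap_mem (b / 2)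
    exact this)
  have hww : w * w = ((b ^ 2 / 4 - c : ℚ) : ℂ) := by
    rw [hw]
    push_cast
    linear_combination hbc
  have hwc : (starRingEnd ℂ) w ≠ w := by
    intro h
    apply hc
    have h1 : z = w - ((b / 2 : ℚ) : ℂ) := by rw [hw]; ring
    rw [h1, map_sub, h, map_ratCast]
  have hneg : b ^ 2 / 4 - c < 0 := by
    by_contra hnn
    push Not at hnn
    apply hwc
    rw [Complex.conj_eq_iff_im]
    have h1 : (w * w).im = 0 := by
      rw [hww]
      exact Complex.ratCast_im _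
    have h2 : 0 ≤ (w * w).re := by
      rw [hww, Complex.ratCast_re]
      exact_mod_cast hnn
    rw [Complex.mul_im] at h1
    rw [Complex.mul_re] at h2
    have h3 : w.re * w.im = 0 := by linarith
    rcases mul_eq_zero.1 h3 with h4 | h4
    · rw [h4] at h2
      nlinarith [mul_self_nonneg w.im]
    · exact h4
  set r : ℚ := -(b ^ 2 / 4 - c) with hr
  have hr0 : 0 < r := by rw [hr]; linarith
  have hnum : 0 < r.num := Rat.num_pos.2 hr0
  obtain ⟨d, e, hde, hd⟩ := Nat.sq_mul_squarefree (r.num.natAbs * r.den)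
  have hN0 : r.num.natAbs * r.den ≠ 0 := mul_ne_zero (by omega) r.den_nz
  have he0 : e ≠ 0 := by
    rintro rfl
    apply hN0
    rw [← hde]
    ring
  refine ⟨d, hd, ?_⟩
  have hrd : (r.den : ℂ) ≠ 0 := by exact_mod_cast r.den_nz
  have he0' : (e : ℂ) ≠ 0 := by exact_mod_cast he0
  have hrr : (r : ℂ) * (r.den : ℂ) ^ 2 = (e : ℂ) ^ 2 * (d : ℂ) := by
    have h1 : (r : ℚ) * (r.den : ℚ) = r.num := Rat.mul_den_eq_num r
    have h3 : (r : ℚ) * (r.den : ℚ) ^ 2 = (e : ℚ) ^ 2 * (d : ℚ) := by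
      have h5 : ((r.num.natAbs : ℕ) : ℚ) = (r.num : ℚ) := by
        have h6 : ((r.num.natAbs : ℕ) : ℤ) = r.num := by omega
        rw [← Int.cast_natCast (R := ℚ), h6]
      have h4 : ((e ^ 2 * d : ℕ) : ℚ) = ((r.num.natAbs * r.den : ℕ) : ℚ) := by
        rw [hde]
      push_cast at h4
      rw [h4, h5, ← h1]
      ring
    exact_mod_cast h3
  have hw2 : w * w = -(r : ℂ) := by
    rw [hww, hr]
    push_cast
    ring
  have hsq : (w * r.den / e) * (w * r.den / e) = rt d * rt d := by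
    rw [rt_sq]
    field_simp
    linear_combination (r.den : ℂ) ^ 2 * hw2 - hrr
  have hmem : w * r.den / e ∈ k :=
    div_mem (mul_mem hwk (natCast_mem _ _)) (natCast_mem _ _)
  rcases mul_self_eq_mul_self_iff.1 hsq with h | h
  · rwa [h] at hmem
  · rw [h] at hmem
    simpa using neg_mem hmem

/-- the splitting of `2` and `3` -/
lemma split {A B : ℤ} (hcq : CQ A B) {p : ℕ} (hp : p.Prime) {P Q : Ideal (𝓞 (kk A B))}
    (hP : P.IsPrime) (hQ : Q.IsPrime) (hpP : (p : 𝓞 (kk A B)) ∈ P) (hpQ : (p : 𝓞 (kk A B)) ∈ Q)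
    (hne : ¬ P ≤ Q) :
    ∃ r : ℤ, (p : ℤ) ∣ r * r - B * r - A ∧ ¬ (p : ℤ) ∣ 2 * r - B := by
  obtain ⟨⟨φ, hφ⟩, hinj, hded, hpos, hint⟩ := Pool.Agent.MUXE.te_RNG A B hcq
  have hw0 : IsIntegral ℤ (wC A B) := by
    rw [hint _ (wC_mem A B)]
    exact ⟨⟨0, 1⟩, by simp [emb]⟩
  have hw1 : wC A B * wC A B = A + B * wC A B := by
    have h1 : emb (⟨0, 1⟩ : OO A B) = wC A B := by simp [emb]
    have h2 : emb ((⟨0, 1⟩ : OO A B) * ⟨0, 1⟩) = A + B * wC A B := by
      simp [emb]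
    rw [← h2, ← hφ, map_mul, hφ, h1]
  have hwI : IsIntegral ℤ (⟨wC A B, wC_mem A B⟩ : kk A B) := by
    exact (isIntegral_algebraMap_iff (FaithfulSMul.algebraMap_injective (kk A B) ℂ)).mp hw0
  let w : 𝓞 (kk A B) := ⟨⟨wC A B, wC_mem A B⟩, hwI⟩
  have hcoe : ∀ a b : ℤ, ((((a : 𝓞 (kk A B)) + (b : 𝓞 (kk A B)) * w : 𝓞 (kk A B)) : kk A B) : ℂ)
      = a + b * wC A B := by
    intro a b
    change (algebraMap (kk A B) ℂ) ((algebraMap (𝓞 (kk A B)) (kk A B))
      ((a : 𝓞 (kk A B)) + (b : 𝓞 (kk A B)) * w)) = a + b * wC A B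
    simp only [map_add, map_mul, map_intCast]
    rfl
  have hw : w * w = (A : 𝓞 (kk A B)) + (B : 𝓞 (kk A B)) * w := by
    apply RingOfIntegers.ext
    apply Subtype.ext
    rw [hcoe]
    exact hw1
  have hall : ∀ x : 𝓞 (kk A B), ∃ a b : ℤ, x = (a : 𝓞 (kk A B)) + (b : 𝓞 (kk A B)) * w := by
    intro x
    have h2 : IsIntegral ℤ ((x : kk A B) : ℂ) :=
      (RingOfIntegers.isIntegral_coe x).map (Algebra.ofId (kk A B) ℂ |>.restrictScalars ℤ)
    obtain ⟨z, hz⟩ := (hint _ (x : kk A B).2).mp h2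
    refine ⟨z.re, z.im, ?_⟩
    apply RingOfIntegers.ext
    apply Subtype.ext
    rw [hz, hcoe]
    rfl
  have hZ : ∀ {R : Ideal (𝓞 (kk A B))}, R.IsPrime → (p : 𝓞 (kk A B)) ∈ R → ∀ a : ℤ,
      (a : 𝓞 (kk A B)) ∈ R → (p : ℤ) ∣ a := by
    intro R hR hpR a ha
    by_contra hna
    have hco : IsCoprime (p : ℤ) a := (Nat.prime_iff_prime_int.1 hp).coprime_iff_not_dvd.2 hna
    obtain ⟨u, v, huv⟩ := hco
    apply hR.ne_top
    rw [Ideal.eq_top_iff_one]
    have h1 : (1 : 𝓞 (kk A B)) = (u : 𝓞 (kk A B)) * (p : 𝓞 (kk A B)) + (v : 𝓞 (kk A B)) * a := by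
      have := congrArg (Int.cast : ℤ → 𝓞 (kk A B)) huv
      push_cast at this
      exact this.symm
    rw [h1]
    exact R.add_mem (R.mul_mem_left _ hpR) (R.mul_mem_left _ ha)
  obtain ⟨x, hxP, hxQ⟩ := Set.not_subset.1 (fun h => hne h)
  obtain ⟨a, b, rfl⟩ := hall x
  have hpb : ¬ (p : ℤ) ∣ b := by
    rintro ⟨c, rfl⟩
    have h1 : (((p : ℤ) * c : ℤ) : 𝓞 (kk A B)) * w = (p : 𝓞 (kk A B)) * ((c : 𝓞 (kk A B)) * w) := by
      push_cast
      ring
    rw [h1] at hxP hxQ
    have h2 : (a : 𝓞 (kk A B)) ∈ P := by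
      have := P.sub_mem hxP (P.mul_mem_right ((c : 𝓞 (kk A B)) * w) hpP)
      rwa [add_sub_cancel_right] at this
    obtain ⟨a', rfl⟩ := hZ hP hpP a h2
    apply hxQ
    push_cast
    exact Q.add_mem (Q.mul_mem_right _ hpQ) (Q.mul_mem_right _ hpQ)
  have hco : IsCoprime (p : ℤ) b := (Nat.prime_iff_prime_int.1 hp).coprime_iff_not_dvd.2 hpb
  obtain ⟨u, v, huv⟩ := hco
  -- `w ≡ r` modulo `P`, `r = - a v`
  have huv' : (u : 𝓞 (kk A B)) * (p : 𝓞 (kk A B)) + (v : 𝓞 (kk A B)) * b = 1 := by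
    have := congrArg (Int.cast : ℤ → 𝓞 (kk A B)) huv
    push_cast at this
    exact this
  have hrP : w - ((-(a * v) : ℤ) : 𝓞 (kk A B)) ∈ P := by
    have h1 : w - ((-(a * v) : ℤ) : 𝓞 (kk A B)) =
        (v : 𝓞 (kk A B)) * ((a : 𝓞 (kk A B)) + (b : 𝓞 (kk A B)) * w) +
          ((u : 𝓞 (kk A B)) * w) * (p : 𝓞 (kk A B)) := by
      push_cast
      linear_combination -w * huv'
    rw [h1]
    exact P.add_mem (P.mul_mem_left _ hxP) (P.mul_mem_left _ hpP)
  have hrQ : w - ((-(a * v) : ℤ) : 𝓞 (kk A B)) ∉ Q := by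
    intro h
    apply hxQ
    have h1 : (a : 𝓞 (kk A B)) + (b : 𝓞 (kk A B)) * w =
        (b : 𝓞 (kk A B)) * (w - ((-(a * v) : ℤ) : 𝓞 (kk A B))) +
          ((a : 𝓞 (kk A B)) * (u : 𝓞 (kk A B))) * (p : 𝓞 (kk A B)) := by
      push_cast
      linear_combination -(a : 𝓞 (kk A B)) * huv'
    rw [h1]
    exact Q.add_mem (Q.mul_mem_left _ h) (Q.mul_mem_left _ hpQ)
  set r : ℤ := -(a * v) with hr
  have hf : (w - (r : 𝓞 (kk A B))) * (w + (r : 𝓞 (kk A B)) - (B : 𝓞 (kk A B))) =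
      -(((r * r - B * r - A : ℤ)) : 𝓞 (kk A B)) := by
    push_cast
    linear_combination hw
  have hfP : (p : ℤ) ∣ r * r - B * r - A := by
    apply hZ hP hpP
    rw [← neg_mem_iff, ← hf]
    exact P.mul_mem_right _ hrP
  refine ⟨r, hfP, ?_⟩
  rintro ⟨c, hc⟩
  have h1 : (w - (r : 𝓞 (kk A B))) * (w + (r : 𝓞 (kk A B)) - (B : 𝓞 (kk A B))) ∈ Q := by
    rw [hf, neg_mem_iff]
    obtain ⟨t, ht⟩ := hfP
    rw [ht]
    push_cast
    exact Q.mul_mem_right _ hpQ
  rcases hQ.mem_or_mem h1 with h | h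
  · exact hrQ h
  · apply hrQ
    have h2 : w - (r : 𝓞 (kk A B)) = (w + (r : 𝓞 (kk A B)) - (B : 𝓞 (kk A B))) -
        (p : 𝓞 (kk A B)) * (c : 𝓞 (kk A B)) := by
      have := congrArg (Int.cast : ℤ → 𝓞 (kk A B)) hc
      push_cast at this
      linear_combination (-1 : 𝓞 (kk A B)) * this
    rw [h2]
    exact Q.sub_mem h (Q.mul_mem_right _ hpQ)

end JQF

open JQF Pool.Agent.MU3Z in
theorem tj_JQF : Sj_JQF := by
  intro k h2 hz
  obtain ⟨z, hzk, hzc⟩ := hz
  have hfd : FiniteDimensional ℚ k := Module.finite_of_finrank_pos (by rw [h2]; norm_num)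
  obtain ⟨d, hd, hdk⟩ := exists_rt k h2 hzk hzc
  have hk : k = kk (MUXZ.pA d) (MUXZ.pB d) := by
    rw [MUXZ.kk_p]
    symm
    have hle : IntermediateField.adjoin ℚ {rt d} ≤ k := by
      rw [IntermediateField.adjoin_simple_le_iff]
      exact hdk
    apply IntermediateField.eq_of_le_of_finrank_le hle
    rw [h2]
    by_contra hlt
    push Not at hlt
    have hfd' : FiniteDimensional ℚ (IntermediateField.adjoin ℚ {rt d}) :=
      IntermediateField.adjoin.finiteDimensional (by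
        have h1 : IsIntegral ℚ (⟨rt d, hdk⟩ : k) := IsIntegral.of_finite ℚ _
        exact h1.map k.val)
    have hpos : 0 < Module.finrank ℚ (IntermediateField.adjoin ℚ {rt d}) :=
      Module.finrank_pos
    have h1 : Module.finrank ℚ (IntermediateField.adjoin ℚ {rt d}) = 1 := by omega
    rw [IntermediateField.finrank_eq_one_iff] at h1
    have h3 : rt d ∈ (⊥ : IntermediateField ℚ ℂ) := by
      rw [← h1]
      exact IntermediateField.mem_adjoin_simple_self ℚ _
    rw [IntermediateField.mem_bot] at h3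
    obtain ⟨q, hq⟩ := h3
    apply rt_conj hd.ne_zero
    rw [← hq]
    exact map_ratCast (starRingEnd ℂ) q
  refine ⟨d, hd, hk, ?_⟩
  subst hk
  intro p hp ⟨P, Q, hP, hQ, hpP, hpQ, hne⟩
  have hcq := MUXZ.cq_p hd
  have hab := MUXZ.absD_p d
  have hpp : p.Prime := by
    rcases hp with rfl | rfl
    · exact Nat.prime_two
    · exact Nat.prime_three
  have hex : ∃ r : ℤ, (p : ℤ) ∣ r * r - MUXZ.pB d * r - MUXZ.pA d ∧
      ¬ (p : ℤ) ∣ 2 * r - MUXZ.pB d := by
    by_cases hPQ : P ≤ Q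
    · exact split hcq hpp hQ hP hpQ hpP (fun h => hne (le_antisymm hPQ h))
    · exact split hcq hpp hP hQ hpP hpQ hPQ
  obtain ⟨r, ⟨t, ht⟩, hr2⟩ := hex
  unfold absD at hab
  rcases hp with rfl | rfl
  · right
    refine ⟨rfl, ?_⟩
    have h4 : d % 4 = 3 := by
      by_contra h4
      apply hr2
      have : MUXZ.pB d = 0 := by
        unfold MUXZ.pB
        rw [if_neg h4]
      rw [this]
      exact ⟨r, by push_cast; ring⟩
    have hB : MUXZ.pB d = 1 := by
      unfold MUXZ.pB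
      rw [if_pos h4]
    rw [if_pos h4, hB] at hab
    rw [hB] at ht
    have hev : Even (r * r - r) := by
      have : r * r - r = r * (r - 1) := by ring
      rw [this]
      rcases Int.even_or_odd r with h | h
      · exact h.mul_right _
      · exact (h.sub_odd odd_one).mul_left _
    obtain ⟨s, hs⟩ := hev
    have hA : MUXZ.pA d = 2 * (s - t) := by
      push_cast at ht
      linarith
    have : (8 : ℤ) ∣ (d : ℤ) + 1 := ⟨-(s - t), by rw [hA] at hab; linarith⟩
    exact_mod_cast this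
  · left
    refine ⟨rfl, ?_⟩
    -- `(2 r - B)² = 4 (r² - B r - A) + B² + 4 A`
    have h1 : (2 * r - MUXZ.pB d) ^ 2 = 3 * (4 * t) + (MUXZ.pB d ^ 2 + 4 * MUXZ.pA d) := by
      push_cast at ht
      linear_combination 4 * ht
    have h2 : (3 : ℤ) ∣ (2 * r - MUXZ.pB d) ^ 2 - 1 := by
      push_cast at hr2
      generalize 2 * r - MUXZ.pB d = u at hr2
      have : u % 3 = 1 ∨ u % 3 = 2 := by omega
      rcases this with h | h
      · obtain ⟨q, hq⟩ : (3 : ℤ) ∣ u - 1 := by omega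
        exact ⟨q * (u + 1), by linear_combination (u + 1) * hq⟩
      · obtain ⟨q, hq⟩ : (3 : ℤ) ∣ u + 1 := by omega
        exact ⟨q * (u - 1), by linear_combination (u - 1) * hq⟩
    rw [h1] at h2
    split_ifs at hab <;> omega

end Pool.Agent.JT
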