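import Pool.Agent.HB.StJT
import Pool.Agent.MUX.E_RNG
import Pool.Agent.MUX.J_FLD

/-!
# JT, module JTA: the first inequality in terms of the ring `OO A B` (helper45)
-/

set_option autoImplicit false

open NumberField IsDedekindDomain
open scoped nonZeroDivisors Pointwise

namespace Pool.Agent.JT

open _root_.MU3 Pool.Agent.MU3A Pool.Agent.RI Pool.Agent.MUX Pool.Agent.MUXJ Pool.Agent.HB

noncomputable section

namespace JTA

/-- the ring isomorphism of `OO A B` and the ring of integers of `kk A B` -/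
lemma exists_equiv {A B : ℤ} (hR : Pool.Agent.MUXE.RingE A B) :
    ∃ φ : OO A B ≃+* 𝓞 (kk A B), ∀ x, ((φ x : kk A B) : ℂ) = emb x := by
  obtain ⟨φ₀, hφ₀⟩ := hR.hom
  have hint : ∀ x : OO A B, IsIntegral ℤ (⟨emb x, Pool.Agent.MU3A.emb_mem x⟩ : kk A B) := by
    intro x
    have h2 : IsIntegral ℤ (emb x) := (hR.int (emb x) (Pool.Agent.MU3A.emb_mem x)).mpr ⟨x, rfl⟩
    exact (isIntegral_algHom_iff (R := ℤ) ((kk A B).val.restrictScalars ℤ)
      (Subtype.val_injective)).1 h2
  let f : OO A B →+* 𝓞 (kk A B) :=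
    { toFun := fun x => ⟨⟨emb x, Pool.Agent.MU3A.emb_mem x⟩, hint x⟩
      map_one' := by
        apply RingOfIntegers.ext
        apply Subtype.ext
        show emb (1 : OO A B) = 1
        rw [← hφ₀, map_one]
      map_zero' := by
        apply RingOfIntegers.ext
        apply Subtype.ext
        show emb (0 : OO A B) = 0
        rw [← hφ₀, map_zero]
      map_add' := by
        intro x y
        apply RingOfIntegers.ext
        apply Subtype.ext
        show emb (x + y) = emb x + emb y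
        rw [← hφ₀, map_add, hφ₀, hφ₀]
      map_mul' := by
        intro x y
        apply RingOfIntegers.ext
        apply Subtype.ext
        show emb (x * y) = emb x * emb y
        rw [← hφ₀, map_mul, hφ₀, hφ₀] }
  have hf : ∀ x, ((f x : kk A B) : ℂ) = emb x := fun x => rfl
  have hinj : Function.Injective f := by
    rw [injective_iff_map_eq_zero]
    intro x hx
    apply hR.inj0
    rw [← hf, hx]
    rfl
  have hsur : Function.Surjective f := by
    intro y
    have h1 : IsIntegral ℤ ((y : kk A B) : ℂ) :=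
      (isIntegral_algHom_iff (R := ℤ) ((kk A B).val.restrictScalars ℤ)
        (Subtype.val_injective)).2 (RingOfIntegers.isIntegral_coe y)
    obtain ⟨x, hx⟩ := (hR.int _ (y : kk A B).2).1 h1
    refine ⟨x, ?_⟩
    apply RingOfIntegers.ext
    apply Subtype.ext
    rw [hf, hx]
  exact ⟨RingEquiv.ofBijective f ⟨hinj, hsur⟩, fun x => hf x⟩

end JTA

open JTA in
theorem tj_JTA (h1 : Sh_JT1) : Sj_JTA := by
  intro A B hc E _ hk l m hl hcyc
  have hR : Pool.Agent.MUXE.RingE A B := Pool.Agent.MUXE.te_RNG A B hc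
  obtain ⟨φ, hφ⟩ := exists_equiv hR
  obtain ⟨hfin, htc⟩ := Pool.Agent.MUXJ.t_FLD A B hc
  have : NumberField (kk A B) := { to_charZero := inferInstance, to_finiteDimensional := hfin }
  have : NumberField E := { to_charZero := inferInstance, to_finiteDimensional := inferInstance }
  letI : Algebra (kk A B) E := algC hk
  obtain ⟨hgal, hcy, hdeg⟩ := hcyc
  obtain ⟨σ, hσ⟩ := hcy.exists_generator
  have hC : Cyc (l ^ m) σ := ⟨hgal, hσ, hdeg⟩
  have hTC : TC (kk A B) := by
    intro v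
    rw [InfinitePlace.isComplex_iff, ComplexEmbedding.isReal_iff]
    intro h
    obtain ⟨x, hx⟩ := htc (kk A B) le_rfl v.embedding
    exact hx (DFunLike.congr_fun h x)
  obtain ⟨f', A', iG, iF, ψ', hf0, hcard, hmul, hray, hsur, hdeg1⟩ :=
    h1 (kk A B) E l m σ hl hC hTC
  have hφs : Function.Surjective (φ : OO A B →+* 𝓞 (kk A B)) := φ.surjective
  have hmc : ∀ I : Ideal (𝓞 (kk A B)),
      (I.comap (φ : OO A B →+* 𝓞 (kk A B))).map (φ : OO A B →+* 𝓞 (kk A B)) = I :=
    fun I => Ideal.map_comap_of_surjective _ hφs I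
  have hcop : ∀ a : Ideal (OO A B), IsCoprime a (f'.comap (φ : OO A B →+* 𝓞 (kk A B))) →
      IsCoprime (a.map (φ : OO A B →+* 𝓞 (kk A B))) f' := by
    intro a ha
    have := ha.map (Ideal.mapHom (φ : OO A B →+* 𝓞 (kk A B)))
    simpa [Ideal.mapHom, hmc] using this
  have hcop' : ∀ a : Ideal (𝓞 (kk A B)), IsCoprime a f' →
      IsCoprime (a.comap (φ : OO A B →+* 𝓞 (kk A B)))
        (f'.comap (φ : OO A B →+* 𝓞 (kk A B))) := by
    intro a ha
    have h2 := ha.map (Ideal.mapHom (φ.symm : 𝓞 (kk A B) →+* OO A B))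
    have h3 : ∀ I : Ideal (𝓞 (kk A B)), I.map (φ.symm : 𝓞 (kk A B) →+* OO A B) =
        I.comap (φ : OO A B →+* 𝓞 (kk A B)) := fun I => Ideal.map_symm φ
    simpa [Ideal.mapHom, h3] using h2
  have hbot : ∀ a : Ideal (OO A B), a ≠ ⊥ → a.map (φ : OO A B →+* 𝓞 (kk A B)) ≠ ⊥ := by
    intro a ha h
    exact ha ((Ideal.map_eq_bot_iff_of_injective φ.injective).1 h)
  have hsp : ∀ x : OO A B, (sp x).map (φ : OO A B →+* 𝓞 (kk A B)) = Ideal.span {φ x} := by
    intro x
    rw [Ideal.map_span, Set.image_singleton]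
    rfl
  refine ⟨f'.comap (φ : OO A B →+* 𝓞 (kk A B)), A', iG, iF,
    fun a => ψ' (a.map (φ : OO A B →+* 𝓞 (kk A B))), ?_, hcard, ⟨?_, ?_, ?_⟩, ?_⟩
  · intro h
    apply hf0
    rw [← hmc f', h, Ideal.map_bot]
  · intro a b ha hb hac hbc
    show ψ' (Ideal.map _ (a * b)) = _
    rw [Ideal.map_mul]
    exact hmul _ _ (hbot a ha) (hbot b hb) (hcop a hac) (hcop b hbc)
  · intro x y hx hy hxc hxy
    show ψ' _ = ψ' _
    rw [hsp, hsp]
    refine hray _ _ (by simpa using hx) (by simpa using hy) ?_ ?_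
    · rw [← hsp]; exact hcop _ hxc
    · rw [← map_sub]; exact hxy
  · intro g
    obtain ⟨a, ha, hac, hag⟩ := hsur g
    refine ⟨a.comap (φ : OO A B →+* 𝓞 (kk A B)), ?_, hcop' a hac, ?_⟩
    · intro h
      apply ha
      rw [← hmc a, h, Ideal.map_bot]
    · show ψ' _ = g
      rw [hmc]; exact hag
  · rintro Q q hq hQ hnQ hQc ⟨P, hP, hPc, hPQ⟩
    have hquot : ∀ (I : Ideal (𝓞 (kk A B))) (J : Ideal (OO A B)),
        I = J.map (φ : OO A B →+* 𝓞 (kk A B)) → Nat.card (𝓞 (kk A B) ⧸ I) = nI J := by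
      intro I J hIJ
      exact (Nat.card_congr (Ideal.quotientEquiv J I φ hIJ).toEquiv).symm
    have hv0 : Q.map (φ : OO A B →+* 𝓞 (kk A B)) ≠ ⊥ := by
      intro h
      have h2 := hquot _ Q rfl
      rw [h, hnQ] at h2
      have h3 : Nat.card (𝓞 (kk A B) ⧸ (⊥ : Ideal (𝓞 (kk A B)))) = 0 := by
        have : Infinite (𝓞 (kk A B) ⧸ (⊥ : Ideal (𝓞 (kk A B)))) :=
          Infinite.of_injective _ (RingEquiv.quotientBot (𝓞 (kk A B))).symm.injective
        exact Nat.card_eq_zero_of_infinite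
      rw [h3] at h2
      exact hq.ne_zero h2.symm
    have hw0 : P ≠ ⊥ := by
      intro h
      rw [h] at hPc
      have h3 : Nat.card (𝓞 E ⧸ (⊥ : Ideal (𝓞 E))) = 0 := by
        have : Infinite (𝓞 E ⧸ (⊥ : Ideal (𝓞 E))) :=
          Infinite.of_injective _ (RingEquiv.quotientBot (𝓞 E)).symm.injective
        exact Nat.card_eq_zero_of_infinite
      rw [h3] at hPc
      exact hq.ne_zero hPc.symm
    let v : HeightOneSpectrum (𝓞 (kk A B)) :=
      ⟨Q.map (φ : OO A B →+* 𝓞 (kk A B)), Ideal.map_isPrime_of_equiv φ, hv0⟩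
    let w : HeightOneSpectrum (𝓞 E) := ⟨P, hP, hw0⟩
    refine hdeg1 v (hcop Q hQc) ⟨w, ?_, ?_⟩
    · show P.under (𝓞 (kk A B)) = Q.map (φ : OO A B →+* 𝓞 (kk A B))
      ext z
      obtain ⟨x, rfl⟩ := φ.surjective z
      have h2 : φ x ∈ Q.map (φ : OO A B →+* 𝓞 (kk A B)) ↔ x ∈ Q := by
        constructor
        · intro h
          have h3 : x ∈ (Q.map (φ : OO A B →+* 𝓞 (kk A B))).comap
            (φ : OO A B →+* 𝓞 (kk A B)) := h
          rwa [Ideal.comap_map_of_bijective (φ : OO A B →+* 𝓞 (kk A B)) φ.bijective] at h3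
        · intro h
          exact Ideal.mem_map_of_mem _ h
      rw [h2, Ideal.under, Ideal.mem_comap]
      exact (hPQ x (algebraMap (𝓞 (kk A B)) (𝓞 E) (φ x)) (hφ x)).symm
    · show Ideal.absNorm P = Ideal.absNorm (Q.map (φ : OO A B →+* 𝓞 (kk A B)))
      rw [Ideal.absNorm_apply, Ideal.absNorm_apply, Submodule.cardQuot_apply,
        Submodule.cardQuot_apply, hPc, hquot _ Q rfl, hnQ]

end

end Pool.Agent.JT
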