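import Pool.Agent.HB.StJT
import Pool.Agent.MUX.U_AUE
import Pool.Agent.MUX.U_AUT
import Pool.Agent.MUX.U_AUF

/-!
# JT, module JTC: the cyclic case
-/

set_option autoImplicit false

open NumberField IsDedekindDomain
open scoped nonZeroDivisors Pointwise

namespace Pool.Agent.JT

open _root_.MU3 Pool.Agent.MU3A Pool.Agent.RI Pool.Agent.MUX Pool.Agent.MUXJ Pool.Agent.HB

namespace JTC

/-- the two module structures on `E` have the same rank -/
lemma finrank_ext {F E : IntermediateField ℚ ℂ} (hk : F ≤ E) :
    (letI := algC hk; Module.finrank F E) =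
      Module.finrank F (IntermediateField.extendScalars hk) := by
  letI := algC hk
  let e : E ≃ₗ[F] (IntermediateField.extendScalars hk) :=
    { toFun := fun x => ⟨x, x.2⟩
      invFun := fun x => ⟨x, x.2⟩
      left_inv := fun x => rfl
      right_inv := fun x => rfl
      map_add' := fun x y => rfl
      map_smul' := fun c x => rfl }
  exact e.finrank_eq

end JTC

open JTC in
/-- (JTC) the cyclic case. -/
theorem tj_JTC (hJTA : Sj_JTA) (hPHJ : Sj_PHJ) (hFRJ : Sj_FRJ) : Sj_JTC := by
  intro A B hCQ hT hNL E _ hk l m hl hcyc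
  obtain ⟨f, A', i1, i2, ψ, hf, hcard, hray, hQ⟩ := hJTA A B hCQ E hk l m hl hcyc
  obtain ⟨Ψ, hsur, hΨ⟩ := hPHJ A B hCQ hT hNL f A' ψ hf hray
  have hfix := hFRJ A B hCQ hT hNL E hk f A' ψ Ψ hf hQ hΨ
  have hfin := hT.fin f hf
  have hgal := hT.gal f hf
  let L : IntermediateField (kk A B) (RF f : IntermediateField (kk A B) ℂ) :=
    IntermediateField.fixedField Ψ.ker
  have h1 : Module.finrank (kk A B) L = Nat.card A' := by
    have h2 : Module.finrank L (RF f : IntermediateField (kk A B) ℂ) = Nat.card Ψ.ker :=
      IntermediateField.finrank_fixedField_eq_card Ψ.ker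
    have h3 := Module.finrank_mul_finrank (kk A B) L (RF f : IntermediateField (kk A B) ℂ)
    have h4 : Nat.card ((RF f : IntermediateField (kk A B) ℂ) ≃ₐ[kk A B] RF f) =
        Module.finrank (kk A B) (RF f : IntermediateField (kk A B) ℂ) :=
      IsGalois.card_aut_eq_finrank (kk A B) (RF f : IntermediateField (kk A B) ℂ)
    have h5 := Subgroup.card_mul_index Ψ.ker
    have h6 : Ψ.ker.index = Nat.card A' := by
      rw [Subgroup.index_ker, MonoidHom.range_eq_top.2 hsur]
      exact Subgroup.card_top
    rw [h2, ← h4, ← h5, h6, mul_comm] at h3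
    exact Nat.eq_of_mul_eq_mul_left Nat.card_pos h3
  have h2 : IntermediateField.lift L ≤ IntermediateField.extendScalars hk := by
    intro y hy
    have hyR : y ∈ (RF f : IntermediateField (kk A B) ℂ) := IntermediateField.lift_le L hy
    have hyL : (⟨y, hyR⟩ : (RF f : IntermediateField (kk A B) ℂ)) ∈ L :=
      (IntermediateField.mem_lift ⟨y, hyR⟩).1 hy
    have h3 : y ∈ E := by
      have : Algebra.IsAlgebraic ℚ E := Algebra.IsAlgebraic.of_finite ℚ E
      refine Pool.Agent.MUXU.tu_AUF Pool.Agent.MUXU.tu_AUE Pool.Agent.MUXU.tu_AUT E this y fun s hs => ?_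
      refine hfix s hs ⟨y, hyR⟩ fun τ hτ => ?_
      exact (IntermediateField.mem_fixedField_iff Ψ.ker _).1 hyL τ hτ
    exact h3
  have hfinE : FiniteDimensional (kk A B) (IntermediateField.extendScalars hk) := by
    have : FiniteDimensional ℚ (IntermediateField.extendScalars hk) :=
      inferInstanceAs (FiniteDimensional ℚ E)
    exact Module.Finite.of_restrictScalars_finite ℚ (kk A B) _
  have h3 : IntermediateField.lift L = IntermediateField.extendScalars hk := by
    refine IntermediateField.eq_of_le_of_finrank_le h2 ?_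
    have h4 : Module.finrank (kk A B) (IntermediateField.lift L) = Nat.card A' := by
      rw [← h1]
      exact (IntermediateField.liftAlgEquiv L).toLinearEquiv.finrank_eq.symm
    rw [h4, ← finrank_ext hk]
    have h5 := hcyc.2.2
    rw [h5]
    exact hcard
  intro x hx
  refine ⟨f, hf, ?_⟩
  have h4 : x ∈ IntermediateField.lift L := by
    rw [h3]
    exact hx
  exact IntermediateField.lift_le L h4

end Pool.Agent.JT
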