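import Pool.Agent.HB.StJT
import Pool.Agent.MUX.XLib

/-!
# JT, module JTR: reduction to the cyclic case
-/

set_option autoImplicit false

open NumberField IsDedekindDomain
open scoped nonZeroDivisors Pointwise

namespace Pool.Agent.JT

open _root_.MU3 Pool.Agent.MU3A Pool.Agent.RI Pool.Agent.MUX Pool.Agent.MUXJ Pool.Agent.HB

namespace JTR

/-- a character of prime power order that does not vanish at `g` -/
lemma exists_char (G : Type) [CommGroup G] [Finite G] (g : G) (hg : g ≠ 1) :
    ∃ (χ : G →* ℂˣ) (l m : ℕ), l.Prime ∧ χ g ≠ 1 ∧ Nat.card χ.range = l ^ m := by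
  have hexp : NeZero (Monoid.exponent G) := ⟨Monoid.exponent_ne_zero_of_finite⟩
  have hexp' : NeZero ((Monoid.exponent G : ℕ) : ℂ) :=
    ⟨Nat.cast_ne_zero.2 Monoid.exponent_ne_zero_of_finite⟩
  obtain ⟨χ, hχ⟩ := CommGroup.exists_apply_ne_one_of_hasEnoughRootsOfUnity G ℂ hg
  have hN : Nat.card G ≠ 0 := Nat.card_pos.ne'
  set d := orderOf (χ g) with hd
  have hd1 : d ≠ 1 := by
    rw [hd, Ne, orderOf_eq_one_iff]
    exact hχ
  set l := d.minFac with hl
  have hlp : l.Prime := Nat.minFac_prime hd1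
  obtain ⟨v, N', hN', hNv⟩ := Nat.exists_eq_pow_mul_and_not_dvd hN l hlp.ne_one
  refine ⟨χ ^ N', l, ?_⟩
  have h1 : (χ ^ N') g ≠ 1 := by
    rw [MonoidHom.pow_apply]
    intro h
    exact hN' ((Nat.minFac_dvd d).trans (orderOf_dvd_of_pow_eq_one h))
  have hfin : Finite (χ ^ N').range := Finite.of_surjective _ (χ ^ N').rangeRestrict_surjective
  have hcyc : IsCyclic (χ ^ N').range := inferInstance
  obtain ⟨x, hx⟩ := hcyc.exists_generator
  have hcard : Nat.card (χ ^ N').range = orderOf x := (orderOf_eq_card_of_forall_mem_zpowers hx).symm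
  have hdvd : orderOf x ∣ l ^ v := by
    apply orderOf_dvd_of_pow_eq_one
    apply Subtype.ext
    obtain ⟨y, hy⟩ := x.2
    rw [Subgroup.coe_pow, ← hy, Subgroup.coe_one, MonoidHom.pow_apply, ← pow_mul, mul_comm N',
      ← hNv, ← map_pow, pow_card_eq_one', map_one]
  obtain ⟨m, -, hm⟩ := (Nat.dvd_prime_pow hlp).1 hdvd
  exact ⟨m, hlp, h1, by rw [hcard, hm]⟩

lemma exists_char' (G : Type) [Group G] [Finite G] (hc : ∀ a b : G, a * b = b * a) (g : G)
    (hg : g ≠ 1) :
    ∃ (χ : G →* ℂˣ) (l m : ℕ), l.Prime ∧ χ g ≠ 1 ∧ Nat.card χ.range = l ^ m := by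
  let _ : CommGroup G := { (inferInstance : Group G) with mul_comm := hc }
  exact exists_char G g hg

theorem fin_ext {A C : IntermediateField ℚ ℂ} [FiniteDimensional ℚ C] (h : A ≤ C) :
    FiniteDimensional A (IntermediateField.extendScalars h) := by
  have h1 : FiniteDimensional ℚ (IntermediateField.extendScalars h) := by
    let f : C →+ IntermediateField.extendScalars h :=
      { toFun := fun x => ⟨x.1, x.2⟩
        map_zero' := rfl
        map_add' := fun _ _ => rfl }
    exact Module.Finite.of_surjective f.toRatLinearMap (fun x => ⟨⟨x.1, x.2⟩, rfl⟩)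
  exact Module.Finite.of_restrictScalars_finite ℚ A _

end JTR

open JTR in
theorem tj_JTR (h : Sj_JTC) : Sj_JTR := by
  intro A B hCQ hT hNL K _ hk hgal hcomm
  have hdom : IsDomain (OO A B) := Pool.Agent.MUX.isDomain hCQ
  have hfd : FiniteDimensional (kk A B) (IntermediateField.extendScalars hk) := fin_ext hk
  set K' := IntermediateField.extendScalars hk with hK'
  have hfG : Finite (K' ≃ₐ[kk A B] K') := inferInstance
  -- the elements in ray class fields
  let T : IntermediateField (kk A B) K' :=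
    { carrier := {x | ∃ m : Ideal (OO A B), m ≠ ⊥ ∧ (x : ℂ) ∈ RF m}
      mul_mem' := by
        rintro a b ⟨m, hm, ha⟩ ⟨m', hm', hb⟩
        exact ⟨m * m', mul_ne_zero hm hm', mul_mem (hT.mono m (m * m') Ideal.mul_le_left ha)
          (hT.mono m' (m * m') Ideal.mul_le_right hb)⟩
      one_mem' := ⟨⊤, top_ne_bot, one_mem _⟩
      add_mem' := by
        rintro a b ⟨m, hm, ha⟩ ⟨m', hm', hb⟩
        exact ⟨m * m', mul_ne_zero hm hm', add_mem (hT.mono m (m * m') Ideal.mul_le_left ha)
          (hT.mono m' (m * m') Ideal.mul_le_right hb)⟩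
      zero_mem' := ⟨⊤, top_ne_bot, zero_mem _⟩
      algebraMap_mem' := fun r => ⟨⊤, top_ne_bot, (RF (⊤ : Ideal (OO A B))).algebraMap_mem r⟩
      inv_mem' := by
        rintro a ⟨m, hm, ha⟩
        exact ⟨m, hm, inv_mem ha⟩ }
  have hmemT : ∀ x : K', x ∈ T ↔ ∃ m : Ideal (OO A B), m ≠ ⊥ ∧ (x : ℂ) ∈ RF m := fun x => Iff.rfl
  have htop : T = ⊤ := by
    by_contra hne
    have hfix : T.fixingSubgroup ≠ ⊥ := by
      intro hb
      apply hne
      rw [← IsGalois.fixedField_fixingSubgroup T, hb]
      exact IntermediateField.fixedField_bot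
    rw [Subgroup.ne_bot_iff_exists_ne_one] at hfix
    obtain ⟨⟨g, hgT⟩, hg1⟩ := hfix
    have hg1' : g ≠ 1 := fun h1 => hg1 (Subtype.ext h1)
    obtain ⟨χ, l, m, hl, hχg, hcard⟩ := exists_char' (K' ≃ₐ[kk A B] K') hcomm g hg1'
    set U := χ.ker with hU
    set EU := IntermediateField.fixedField U with hEU
    have hgalE : IsGalois (kk A B) EU := inferInstance
    let eq1 : (K' ≃ₐ[kk A B] K') ⧸ U ≃* (EU ≃ₐ[kk A B] EU) := IsGalois.normalAutEquivQuotient U
    let eq2 : (K' ≃ₐ[kk A B] K') ⧸ U ≃* χ.range := QuotientGroup.quotientKerEquivRange χ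
    have hfinr : Finite χ.range := Finite.of_surjective _ χ.rangeRestrict_surjective
    have hcyc0 : IsCyclic χ.range := inferInstance
    let eq3 : χ.range ≃* (EU ≃ₐ[kk A B] EU) := eq2.symm.trans eq1
    have hcycE : IsCyclic (EU ≃ₐ[kk A B] EU) :=
      isCyclic_of_surjective eq3.toMonoidHom eq3.surjective
    have hdeg : Module.finrank (kk A B) EU = l ^ m := by
      rw [← IsGalois.card_aut_eq_finrank, ← hcard]
      exact (Nat.card_congr eq3.toEquiv).symm
    -- as a subfield of `ℂ`
    set E : IntermediateField ℚ ℂ := (IntermediateField.lift EU).restrictScalars ℚ with hE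
    have hkE : kk A B ≤ E := fun x hx => (IntermediateField.lift EU).algebraMap_mem ⟨x, hx⟩
    have hEK : E ≤ K := fun x hx => IntermediateField.lift_le EU hx
    have hfE : FiniteDimensional ℚ E :=
      FiniteDimensional.of_injective (IntermediateField.inclusion hEK).toLinearMap
        (IntermediateField.inclusion_injective hEK)
    let _ := algC hkE
    let e : EU ≃ₐ[kk A B] E :=
      { toFun := fun x => ⟨x.1.1, (IntermediateField.mem_lift x.1).mpr x.2⟩
        invFun := fun x => ⟨⟨x.1, IntermediateField.lift_le EU x.2⟩,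
          (IntermediateField.mem_lift ⟨x.1, IntermediateField.lift_le EU x.2⟩).mp x.2⟩
        left_inv := fun _ => rfl
        right_inv := fun _ => rfl
        map_mul' := fun _ _ => rfl
        map_add' := fun _ _ => rfl
        commutes' := fun _ => rfl }
    have hCyc : CycE hkE (l ^ m) := by
      refine ⟨IsGalois.of_algEquiv e, ?_, ?_⟩
      · exact isCyclic_of_surjective (AlgEquiv.autCongr e).toMonoidHom
          (AlgEquiv.autCongr e).surjective
      · rw [← hdeg]
        exact e.toLinearEquiv.finrank_eq.symm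
    have hTor := h A B hCQ hT hNL E hkE l m hl hCyc
    apply hχg
    have hgU : g ∈ U := by
      rw [← IntermediateField.fixingSubgroup_fixedField U, IntermediateField.mem_fixingSubgroup_iff]
      intro x hx
      rw [IntermediateField.mem_fixingSubgroup_iff] at hgT
      apply hgT
      rw [hmemT]
      exact hTor x.1 ((IntermediateField.mem_lift x).mpr hx)
    exact hgU
  intro x hx
  have h1 : (⟨x, hx⟩ : K') ∈ T := by
    rw [htop]
    trivial
  exact (hmemT _).1 h1

end Pool.Agent.JT
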