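import Pool.Agent.HB.StJT

/-!
# JT, module PEX: from `F ≤ M`, `M / F` Galois of degree `p^a`, to `F k ≤ M k` (helper80)
-/

set_option autoImplicit false

open NumberField IsDedekindDomain
open scoped nonZeroDivisors Pointwise

namespace Pool.Agent.JT

open _root_.MU3 Pool.Agent.MU3A Pool.Agent.RI Pool.Agent.MUX Pool.Agent.MUXJ Pool.Agent.HB

open IntermediateField in
/-- (PEX) -/
theorem tj_PEX : Sj_PEX := by
  intro F M k _ _ h p a hp hG hdeg
  have h' : F ⊔ k ≤ M ⊔ k := sup_le_sup_right h k
  have hF : F ≤ M ⊔ k := h.trans le_sup_left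
  have hFk : F ≤ F ⊔ k := le_sup_left
  -- the fields inside `E = M k`, over `F`
  set E : IntermediateField F ℂ := extendScalars hF with hE
  have h1 : extendScalars h ≤ E := fun x hx => (le_sup_left : M ≤ M ⊔ k) hx
  have h2 : extendScalars hFk ≤ E := fun x hx => h' hx
  set K : IntermediateField F E := IntermediateField.restrict h1 with hK
  set L : IntermediateField F E := IntermediateField.restrict h2 with hL
  have hsup : K ⊔ L = ⊤ := by
    apply IntermediateField.lift_injective
    rw [IntermediateField.lift_sup, IntermediateField.lift_top, hK, hL,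
      IntermediateField.lift_restrict, IntermediateField.lift_restrict]
    apply le_antisymm (sup_le h1 h2)
    have h3 : M ⊔ k ≤ (extendScalars h ⊔ extendScalars hFk).restrictScalars ℚ := by
      refine sup_le ?_ ?_
      · intro x hx
        rw [IntermediateField.mem_restrictScalars]
        exact (le_sup_left : extendScalars h ≤ extendScalars h ⊔ extendScalars hFk) hx
      · intro x hx
        rw [IntermediateField.mem_restrictScalars]
        exact (le_sup_right : extendScalars hFk ≤ extendScalars h ⊔ extendScalars hFk)
          ((le_sup_right : k ≤ F ⊔ k) hx)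
    intro x hx
    exact h3 hx
  have hfQ : FiniteDimensional ℚ (extendScalars h) := inferInstanceAs (FiniteDimensional ℚ M)
  have hfM : FiniteDimensional F (extendScalars h) := FiniteDimensional.right ℚ F _
  have eK : extendScalars h ≃ₐ[F] K := IntermediateField.restrictAlgEquiv h1
  have hGK : IsGalois F K := IsGalois.of_algEquiv eK
  have hfK : FiniteDimensional F K := LinearEquiv.finiteDimensional eK.toLinearEquiv
  have hGE : IsGalois L E := IsGalois.sup_right K L hsup
  have hfEQ : FiniteDimensional ℚ E :=
    inferInstanceAs (FiniteDimensional ℚ ↥(M ⊔ k))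
  have hfE : FiniteDimensional F E := FiniteDimensional.right ℚ F _
  have hfL : FiniteDimensional L E := FiniteDimensional.right F L _
  have hcard : Module.finrank L E ∣ p ^ a := by
    rw [← IsGalois.card_aut_eq_finrank, ← hdeg, eK.toLinearEquiv.finrank_eq,
      ← IsGalois.card_aut_eq_finrank]
    exact Subgroup.card_dvd_of_injective _
      (IntermediateField.restrictRestrictAlgEquivMapHom_injective K L hsup)
  obtain ⟨b, -, hb⟩ := (Nat.dvd_prime_pow hp).1 hcard
  -- transport to `F k`, `M k`
  let f : L ≃+* ↥(F ⊔ k) :=
    { toFun := fun x => ⟨(x : E), (IntermediateField.mem_restrict h2 (x : E)).1 x.2⟩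
      invFun := fun x => ⟨⟨(x : ℂ), h' x.2⟩, (IntermediateField.mem_restrict h2 _).2 x.2⟩
      left_inv := fun x => rfl
      right_inv := fun x => rfl
      map_mul' := fun x y => rfl
      map_add' := fun x y => rfl }
  let g : E ≃+* extendScalars h' :=
    { toFun := fun x => ⟨(x : ℂ), x.2⟩
      invFun := fun x => ⟨(x : ℂ), x.2⟩
      left_inv := fun x => rfl
      right_inv := fun x => rfl
      map_mul' := fun x y => rfl
      map_add' := fun x y => rfl }
  have hc : (algebraMap ↥(F ⊔ k) (extendScalars h')).comp (f : L →+* ↥(F ⊔ k)) =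
      (g : E →+* extendScalars h').comp (algebraMap L E) := rfl
  refine ⟨h', b, ?_, ?_⟩
  · exact IsGalois.of_equiv_equiv hc
  · rw [← Algebra.finrank_eq_of_equiv_equiv f g hc, hb]

end Pool.Agent.JT
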