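import Pool.Agent.HB.JT2
import Pool.Agent.HB.JT3

/-!
# `μ = 0` for `p = 2, 3`, all imaginary quadratic fields and all their finite abelian extensions (helper3)
-/

set_option autoImplicit false

namespace Pool.Agent.JT

theorem finJ_non (p : ℕ) (hp : p = 2 ∨ p = 3) (d : ℕ) (hd : Squarefree d) (h1 : d ≠ 1)
    (h3 : d ≠ 3) : FinJ p d := by
  rcases hp with rfl | rfl
  · exact finJ2_non d hd h1 h3
  · exact finJ3_non d hd h1 h3

end Pool.Agent.JT
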