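import Pool.Agent.HB.Stmts

/-!
# A bound for the hit problem: codimension zero (module LV0)
-/

namespace HB

open MvPolynomial Pool.Agent.Lib_helper74.Hit

namespace LV0

variable {d : ℕ}

/-- A homogeneous polynomial of positive degree lies in the ideal generated by all forms. -/
theorem pos (n : ℕ) : Hg d (n + 1) ≤ Ln ⊤ (n + 1) := by
  classical
  intro f hf
  have hf' : f.IsHomogeneous (n + 1) := hf
  rw [f.as_sum]
  apply Submodule.sum_mem
  intro m hm
  have h1 : m.degree = n + 1 := by
    have := hf'.degree_eq_sum_deg_support hm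
    rw [Finsupp.degree_apply]
    exact this.symm
  have hne : m ≠ 0 := by
    rintro rfl
    simp at h1
  obtain ⟨i, hi⟩ := Finsupp.ne_iff.1 hne
  have hi' : 1 ≤ m i := Nat.one_le_iff_ne_zero.2 (by simpa using hi)
  have hle : Finsupp.single i 1 ≤ m := by
    rw [Finsupp.single_le_iff]
    exact hi'
  have hm' : m = Finsupp.single i 1 + (m - Finsupp.single i 1) := by
    rw [add_tsub_cancel_of_le hle]
  have e : monomial m (coeff m f) =
      lf (Pi.single i 1) * monomial (m - Finsupp.single i 1) (coeff m f) := by
    rw [lf_single, X, monomial_mul, one_mul, ← hm']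
  rw [e]
  refine Ln_mem Submodule.mem_top (m := n) ?_ rfl
  have hdeg : (m - Finsupp.single i 1).degree = n := by
    have h2 := congrArg Finsupp.degree hm'
    rw [map_add, Finsupp.degree_single, h1] at h2
    omega
  exact isHomogeneous_monomial _ hdeg

theorem zero (U : Submodule (ZMod 2) (P d)) : rk (Hg d 0) U ≤ 1 := by
  have h : Hg d 0 ≤ Submodule.span (ZMod 2) {(1 : P d)} := by
    intro f hf
    have hf' : f.IsHomogeneous 0 := hf
    rw [Submodule.mem_span_singleton]
    refine ⟨coeff 0 f, ?_⟩
    have h1 : f.totalDegree = 0 := Nat.le_zero.1 hf'.totalDegree_le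
    rw [totalDegree_eq_zero_iff_eq_C] at h1
    rw [smul_eq_C_mul, mul_one]
    exact h1.symm
  refine (rk_mono h U).trans ?_
  unfold rk
  rw [Submodule.map_span, Set.image_singleton]
  have := finrank_span_le_card (R := ZMod 2) ({U.mkQ (1 : P d)} : Set (P d ⧸ U))
  simpa using this

end LV0

/-- Codimension zero. -/
theorem t_LV0 : Stmt_LV0 := by
  intro d l n
  rcases n with _ | n
  · exact ⟨LV0.zero _, fun _ => rfl⟩
  · have h : q l ⊤ (n + 1) = 0 := rk_zero ((LV0.pos n).trans le_sup_right)
    refine ⟨by omega, fun hne => absurd h hne⟩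

end HB
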