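import Pool.Agent.HB.Stmts

/-!
# A bound for the hit problem: the main theorem
-/

namespace HB

open MvPolynomial Pool.Agent.Lib_helper74.Hit

namespace MAN

theorem Un_le (d n : ℕ) : Un (tw ([] : List (W d))) ⊥ n ≤ hits (Fin d) := by
  unfold Un
  apply sup_le
  · apply Submodule.span_le.2
    rintro g ⟨k, m, f, _, hk, _, rfl⟩
    refine Submodule.subset_span ⟨k, f, hk, ?_⟩
    rw [tw_nil, Sw_one]
  · apply Submodule.span_le.2
    rintro g ⟨a, ha, m, f, _, _, rfl⟩
    rw [Submodule.mem_bot] at ha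
    subst ha
    rw [lf_zero, zero_mul]
    exact Submodule.zero_mem _

theorem bd_le (d : ℕ) : bd d d ≤ 2 ^ (d * (d + 1) / 2) * (5 * (d + 1) ^ 2) ^ d := by
  unfold bd
  rw [mul_comm]
  apply Nat.mul_le_mul_left
  apply Nat.pow_le_pow_left
  nlinarith

end MAN

theorem t_MAN : Stmt_MAN := by
  intro hC hR d n
  have h0 : rk (Hg d n) (hits (Fin d)) ≤ rk (Hg d n) (Un (tw ([] : List (W d))) ⊥ n) :=
    rk_anti (MAN.Un_le d n)
  have h1 : qd (Fin d) n ≤ q ([] : List (W d)) ⊥ n := h0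
  have h2 := hR d ⊥ [] n (fun a ha => by simp at ha) (Nat.zero_le _)
  rw [(hC d ⊥).2.1] at h2
  exact h1.trans (h2.trans (MAN.bd_le d))

end HB
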