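import Pool.Agent.HB.Stmts

/-!
# NUM: the numerical inequality
-/

namespace HB

namespace NUM

lemma tri (i j : ℕ) :
    j * i + j * (j + 1) / 2 + i * (i + 1) / 2 = (i + j) * (i + j + 1) / 2 := by
  have h1 : 2 * (j * (j + 1) / 2) = j * (j + 1) :=
    Nat.mul_div_cancel' (even_iff_two_dvd.mp (Nat.even_mul_succ_self j))
  have h2 : 2 * (i * (i + 1) / 2) = i * (i + 1) :=
    Nat.mul_div_cancel' (even_iff_two_dvd.mp (Nat.even_mul_succ_self i))
  have h3 : 2 * ((i + j) * (i + j + 1) / 2) = (i + j) * (i + j + 1) :=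
    Nat.mul_div_cancel' (even_iff_two_dvd.mp (Nat.even_mul_succ_self (i + j)))
  have h4 : (i + j) * (i + j + 1) = 2 * (j * i) + j * (j + 1) + i * (i + 1) := by ring
  omega

lemma tri_ge (i : ℕ) : i ≤ i * (i + 1) / 2 := by
  rcases Nat.eq_zero_or_pos i with h | h
  · subst h; simp
  · rw [Nat.le_div_iff_mul_le (by norm_num)]
    exact Nat.mul_le_mul_left i (by omega)

lemma term (X i j : ℕ) (hX : i + j ≤ X) (hi : 1 ≤ i) :
    ((i + j).choose j * 2 ^ (j * i) * (X ^ j * 2 ^ (j * (j + 1) / 2))) * 2 ^ i ≤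
      (i + j) * X ^ (i + j - 1) * 2 ^ ((i + j) * (i + j + 1) / 2) := by
  have hch : (i + j).choose j ≤ (i + j) * X ^ (i - 1) := by
    rw [← Nat.choose_symm_add (a := i) (b := j)]
    calc (i + j).choose i ≤ (i + j) ^ i := Nat.choose_le_pow _ _
      _ = (i + j) * (i + j) ^ (i - 1) := by
          rw [← pow_succ']; congr 1; omega
      _ ≤ (i + j) * X ^ (i - 1) := Nat.mul_le_mul_left _ (Nat.pow_le_pow_left hX _)
  have hpow : 2 ^ (j * i) * 2 ^ (j * (j + 1) / 2) * 2 ^ i ≤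
      2 ^ ((i + j) * (i + j + 1) / 2) := by
    rw [← pow_add, ← pow_add]
    apply Nat.pow_le_pow_right (by norm_num)
    have := tri i j
    have := tri_ge i
    omega
  calc ((i + j).choose j * 2 ^ (j * i) * (X ^ j * 2 ^ (j * (j + 1) / 2))) * 2 ^ i
      = ((i + j).choose j * X ^ j) * (2 ^ (j * i) * 2 ^ (j * (j + 1) / 2) * 2 ^ i) := by ring
    _ ≤ ((i + j) * X ^ (i - 1) * X ^ j) * 2 ^ ((i + j) * (i + j + 1) / 2) :=
        Nat.mul_le_mul (Nat.mul_le_mul_right _ hch) hpow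
    _ = (i + j) * X ^ (i + j - 1) * 2 ^ ((i + j) * (i + j + 1) / 2) := by
        rw [mul_assoc (i + j), ← pow_add]
        congr 3; omega

lemma sum_le (X k : ℕ) (hX : k ≤ X) :
    ∑ j ∈ Finset.range k, k.choose j * 2 ^ (j * (k - j)) * (X ^ j * 2 ^ (j * (j + 1) / 2)) ≤
      k * X ^ (k - 1) * 2 ^ (k * (k + 1) / 2) := by
  set B := k * X ^ (k - 1) * 2 ^ (k * (k + 1) / 2) with hB
  have h1 : (∑ j ∈ Finset.range k,
      k.choose j * 2 ^ (j * (k - j)) * (X ^ j * 2 ^ (j * (j + 1) / 2))) * 2 ^ k ≤ B * 2 ^ k := by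
    calc (∑ j ∈ Finset.range k,
        k.choose j * 2 ^ (j * (k - j)) * (X ^ j * 2 ^ (j * (j + 1) / 2))) * 2 ^ k
        = ∑ j ∈ Finset.range k,
          (k.choose j * 2 ^ (j * (k - j)) * (X ^ j * 2 ^ (j * (j + 1) / 2))) * 2 ^ k := by
          rw [Finset.sum_mul]
      _ ≤ ∑ j ∈ Finset.range k, B * 2 ^ j := by
          apply Finset.sum_le_sum
          intro j hj
          have hjk : j < k := Finset.mem_range.mp hj
          obtain ⟨i, rfl⟩ : ∃ i, k = i + j := ⟨k - j, by omega⟩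
          have ht := term X i j hX (by omega)
          have e1 : i + j - j = i := by omega
          rw [e1]
          calc ((i + j).choose j * 2 ^ (j * i) * (X ^ j * 2 ^ (j * (j + 1) / 2))) * 2 ^ (i + j)
              = (((i + j).choose j * 2 ^ (j * i) * (X ^ j * 2 ^ (j * (j + 1) / 2))) * 2 ^ i)
                * 2 ^ j := by rw [pow_add]; ring
            _ ≤ B * 2 ^ j := Nat.mul_le_mul_right _ ht
      _ = B * ∑ j ∈ Finset.range k, 2 ^ j := by rw [Finset.mul_sum]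
      _ ≤ B * 2 ^ k := by
          apply Nat.mul_le_mul_left
          have := Nat.geomSum_lt (m := 2) (n := k) (s := Finset.range k) (by norm_num)
            (fun j hj => Finset.mem_range.mp hj)
          exact this.le
  exact Nat.le_of_mul_le_mul_right h1 (by positivity)

end NUM

/-- NUM: the numerical inequality. -/
theorem t_NUM : Stmt_NUM := by
  intro d k hk hkd
  set X := (5 * d + 4) * (d + 1) with hXd
  have hX : k ≤ X := by
    have : d ≤ X := by rw [hXd]; nlinarith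
    omega
  have hbd : ∀ j, bd d j = X ^ j * 2 ^ (j * (j + 1) / 2) := fun j => rfl
  have h1 : (2 ^ k - 1) * bd d (k - 1) ≤ X ^ (k - 1) * 2 ^ (k * (k + 1) / 2) := by
    rw [hbd]
    have h2 : (2 ^ k - 1) * 2 ^ ((k - 1) * (k - 1 + 1) / 2) ≤ 2 ^ (k * (k + 1) / 2) := by
      calc (2 ^ k - 1) * 2 ^ ((k - 1) * (k - 1 + 1) / 2)
          ≤ 2 ^ k * 2 ^ ((k - 1) * (k - 1 + 1) / 2) := Nat.mul_le_mul_right _ (Nat.sub_le _ _)
        _ = 2 ^ (k + (k - 1) * (k - 1 + 1) / 2) := by rw [pow_add]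
        _ ≤ 2 ^ (k * (k + 1) / 2) := by
            apply Nat.pow_le_pow_right (by norm_num)
            obtain ⟨m, rfl⟩ : ∃ m, k = m + 1 := ⟨k - 1, by omega⟩
            have ht := NUM.tri 1 m
            have e : m + 1 - 1 = m := by omega
            have e2 : 1 + m = m + 1 := by omega
            rw [e2] at ht
            rw [e]
            omega
    calc (2 ^ k - 1) * (X ^ (k - 1) * 2 ^ ((k - 1) * (k - 1 + 1) / 2))
        = X ^ (k - 1) * ((2 ^ k - 1) * 2 ^ ((k - 1) * (k - 1 + 1) / 2)) := by ring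
      _ ≤ X ^ (k - 1) * 2 ^ (k * (k + 1) / 2) := Nat.mul_le_mul_left _ h2
  have h3 := NUM.sum_le X k hX
  have h4 : Ck (bd d) k ≤ (k + 1) * (X ^ (k - 1) * 2 ^ (k * (k + 1) / 2)) := by
    unfold Ck
    calc (2 ^ k - 1) * bd d (k - 1) +
        ∑ j ∈ Finset.range k, k.choose j * 2 ^ (j * (k - j)) * bd d j
        ≤ X ^ (k - 1) * 2 ^ (k * (k + 1) / 2) +
          k * X ^ (k - 1) * 2 ^ (k * (k + 1) / 2) := Nat.add_le_add h1 h3
      _ = (k + 1) * (X ^ (k - 1) * 2 ^ (k * (k + 1) / 2)) := by ring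
  have h5 : (k + (4 * d + 4)) * (k + 1) ≤ X := by
    rw [hXd]
    exact Nat.mul_le_mul (by omega) (by omega)
  calc (k + (4 * d + 4)) * Ck (bd d) k
      ≤ (k + (4 * d + 4)) * ((k + 1) * (X ^ (k - 1) * 2 ^ (k * (k + 1) / 2))) :=
        Nat.mul_le_mul_left _ h4
    _ = ((k + (4 * d + 4)) * (k + 1)) * (X ^ (k - 1) * 2 ^ (k * (k + 1) / 2)) := by ring
    _ ≤ X * (X ^ (k - 1) * 2 ^ (k * (k + 1) / 2)) := Nat.mul_le_mul_right _ h5
    _ = X ^ (k - 1 + 1) * 2 ^ (k * (k + 1) / 2) := by rw [pow_succ]; ring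
    _ = bd d k := by
        rw [hbd]
        congr 2
        omega

end HB
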