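import Pool.Agent.HB.Stmts

/-!
# PEL: modulo several products of forms
-/

namespace HB.PEL

open MvPolynomial Pool.Agent.Lib_helper74.Hit HB

variable {d : ℕ}

theorem PF_nil (n : ℕ) : PF ([] : List (List (W d))) n = ⊥ := by
  unfold PF
  rw [Submodule.span_eq_bot]
  rintro g ⟨φ, hφ, _⟩
  simp at hφ

theorem PF_cons_le (φ : List (W d)) (φs : List (List (W d))) (n : ℕ) :
    PF φs n ≤ PF (φ :: φs) n := by
  apply Submodule.span_mono
  rintro g ⟨ψ, hψ, m, f, hf, hn, rfl⟩
  exact ⟨ψ, List.mem_cons_of_mem _ hψ, m, f, hf, hn, rfl⟩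

theorem Hg_le_PF (φs : List (List (W d))) (n : ℕ) :
    Hg d n ≤ PF (([] : List (W d)) :: φs) n := by
  intro f hf
  have h := PF_mem (φs := ([] : List (W d)) :: φs) (φ := []) (m := n) (n := n) (f := f)
    (List.mem_cons_self ..) hf (by simp)
  rwa [pr_nil, one_mul] at h

theorem mul_mem (v : W d) (ψ : List (W d)) (φs : List (List (W d))) (n : ℕ) (hn : 1 ≤ n)
    (f : P d) (hf : f ∈ PF (ψ :: φs) (n - 1)) : lf v * f ∈ PF ((v :: ψ) :: φs) n := by
  unfold PF at hf
  induction hf using Submodule.span_induction with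
  | mem x hx =>
    obtain ⟨φ, hφ, m, g, hg, hm, rfl⟩ := hx
    rcases List.mem_cons.1 hφ with rfl | hφ
    · have h := PF_mem (φs := (v :: φ) :: φs) (φ := v :: φ) (m := m) (n := n) (f := g)
        (List.mem_cons_self ..) hg (by rw [List.length_cons]; omega)
      rwa [pr_cons, mul_assoc] at h
    · have h := PF_mem (φs := (v :: ψ) :: φs) (φ := φ) (m := 1 + m) (n := n) (f := lf v * g)
        (List.mem_cons_of_mem _ hφ) (Hg_mul (lf_mem v) hg) (by omega)
      have e : lf v * (pr φ * g) = pr φ * (lf v * g) := by ring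
      rw [e]
      exact h
  | zero => rw [mul_zero]; exact Submodule.zero_mem _
  | add x y _ _ hx hy => rw [mul_add]; exact Submodule.add_mem _ hx hy
  | smul a x _ hx => rw [mul_smul_comm]; exact Submodule.smul_mem _ _ hx

theorem inner (hPST : P_PST) (φs : List (List (W d))) (φ : List (W d)) (l : List (W d))
    (Λ : Submodule (ZMod 2) (W d)) (n B : ℕ)
    (hout : ∀ (l' : List (W d)) (Λ' : Submodule (ZMod 2) (W d)) (n' : ℕ),
      (∀ (t v : List (W d)) (m : ℕ), List.Forall₂ (fun a φ => a ∈ φ) v φs →
        t.length ≤ (φs.map List.length).sum → t.length + m = n' →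
        q (t ++ l') (Λ' ⊔ Submodule.span (ZMod 2) {a | a ∈ v}) m ≤ B) →
      rk (Hg d n') (Un (tw l') Λ' n' ⊔ PF φs n') ≤ (φs.map List.length).prod * B)
    (hyp : ∀ (t v : List (W d)) (m : ℕ), List.Forall₂ (fun a φ => a ∈ φ) v (φ :: φs) →
      t.length ≤ ((φ :: φs).map List.length).sum → t.length + m = n →
      q (t ++ l) (Λ ⊔ Submodule.span (ZMod 2) {a | a ∈ v}) m ≤ B) :
    ∀ (ψ τ : List (W d)) (n' : ℕ), (∀ a ∈ ψ, a ∈ φ) → τ.length + ψ.length ≤ φ.length →
      τ.length + n' = n →
      rk (Hg d n') (Un (tw (τ ++ l)) Λ n' ⊔ PF (ψ :: φs) n') ≤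
        ψ.length * ((φs.map List.length).prod * B) := by
  intro ψ
  induction ψ with
  | nil =>
    intro τ n' _ _ _
    rw [rk_zero ((Hg_le_PF φs n').trans le_sup_right)]
    exact Nat.zero_le _
  | cons v ψ ih =>
    intro τ n' hsub hlen hn
    have h1 : rk (Hg d n') (Un (tw (τ ++ l)) (Λ ⊔ Submodule.span (ZMod 2) {v}) n' ⊔
        PF ((v :: ψ) :: φs) n') ≤ (φs.map List.length).prod * B := by
      refine (rk_anti (sup_le_sup_left (PF_cons_le _ φs n') _)).trans ?_
      apply hout
      intro t vs m hvs ht hm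
      have h := hyp (t ++ τ) (v :: vs) m (List.Forall₂.cons (hsub v (List.mem_cons_self ..)) hvs)
        (by
          rw [List.length_append, List.map_cons, List.sum_cons]
          omega)
        (by rw [List.length_append]; omega)
      have e : Λ ⊔ Submodule.span (ZMod 2) {a | a ∈ v :: vs} =
          Λ ⊔ Submodule.span (ZMod 2) {v} ⊔ Submodule.span (ZMod 2) {a | a ∈ vs} := by
        rw [sup_assoc, ← Submodule.span_union]
        congr 2
        ext a
        simp
      rw [e, List.append_assoc] at h
      exact h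
    have hle : (v :: ψ).length * ((φs.map List.length).prod * B) =
        (φs.map List.length).prod * B + ψ.length * ((φs.map List.length).prod * B) := by
      rw [List.length_cons]
      ring
    rw [hle]
    by_cases h0 : 1 ≤ n'
    · have h := hPST d v (τ ++ l) Λ n' (PF ((v :: ψ) :: φs) n') (PF (ψ :: φs) (n' - 1))
        (mul_mem v ψ φs n' h0)
      rw [if_pos h0] at h
      have h2 := ih (v :: τ) (n' - 1) (fun a ha => hsub a (List.mem_cons_of_mem _ ha))
        (by
          rw [List.length_cons] at hlen ⊢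
          omega)
        (by rw [List.length_cons]; omega)
      rw [List.cons_append] at h2
      exact h.trans (Nat.add_le_add h1 h2)
    · have h := hPST d v (τ ++ l) Λ n' (PF ((v :: ψ) :: φs) n') ⊥
        (by
          intro f hf
          rw [Submodule.mem_bot] at hf
          rw [hf, mul_zero]
          exact Submodule.zero_mem _)
      rw [if_neg h0, add_zero] at h
      exact (h.trans h1).trans (Nat.le_add_right _ _)

end HB.PEL

namespace HB

open MvPolynomial Pool.Agent.Lib_helper74.Hit

theorem t_PEL : Stmt_PEL := by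
  intro hPST d φs
  induction φs with
  | nil =>
    intro l Λ n B hyp
    have h := hyp [] [] n List.Forall₂.nil (by simp) (by simp)
    rw [PEL.PF_nil, sup_bot_eq]
    have e : Λ ⊔ Submodule.span (ZMod 2) {a | a ∈ ([] : List (W d))} = Λ := by
      have : {a | a ∈ ([] : List (W d))} = ∅ := by
        ext a
        simp
      rw [this, Submodule.span_empty, sup_bot_eq]
    rw [e, List.nil_append] at h
    simpa [q] using h
  | cons φ φs ih =>
    intro l Λ n B hyp
    have h := PEL.inner hPST φs φ l Λ n B (fun l' Λ' n' h => ih l' Λ' n' B h) hyp φ [] n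
      (fun a ha => ha) (by simp) (by simp)
    rw [List.nil_append] at h
    rw [List.map_cons, List.prod_cons, mul_assoc]
    exact h

end HB
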