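import Pool.Agent.HB.Stmts

/-!
# PST: division by one form
-/

namespace HB

open MvPolynomial Pool.Agent.Lib_helper74.Hit

namespace PST

variable {d : ℕ}

theorem mul_Sw (v : W d) (l : List (W d)) (k : ℕ) (f : P d) :
    lf v * Sw (tw (v :: l)) k f = Sw (tw l) k (lf v * f) := by
  have h : tw l * totalSq (Fin d) (lf v * f) =
      Polynomial.C (lf v) * (tw (v :: l) * totalSq (Fin d) f) := by
    rw [map_mul, totalSq_lf', tw_cons]
    ring
  rw [Sw, Sw, h, Polynomial.coeff_C_mul]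

/-- Multiplication by the form of `v`. -/
noncomputable def mu (v : W d) : P d →ₗ[ZMod 2] P d := LinearMap.mulLeft (ZMod 2) (lf v)

theorem mu_apply (v : W d) (f : P d) : mu v f = lf v * f := LinearMap.mulLeft_apply _ _ _

theorem mul_Hn (v : W d) (l : List (W d)) {n : ℕ} {f : P d} (hf : f ∈ Hn (tw (v :: l)) n) :
    lf v * f ∈ Hn (tw l) (n + 1) := by
  have h : Hn (tw (v :: l)) n ≤ (Hn (tw l) (n + 1)).comap (mu v) := by
    refine Submodule.span_le.2 ?_
    rintro g ⟨k, m, f, hf, hk, hn, rfl⟩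
    rw [SetLike.mem_coe, Submodule.mem_comap, mu_apply, mul_Sw]
    have h1 : lf v * f ∈ Hg d (m + 1) := by
      rw [add_comm]
      exact Hg_mul (lf_mem v) hf
    exact Hn_mem h1 hk (by omega)
  have h3 := h hf
  rw [Submodule.mem_comap, mu_apply] at h3
  exact h3

theorem mul_Ln (v : W d) (Λ : Submodule (ZMod 2) (W d)) {n : ℕ} {f : P d} (hf : f ∈ Ln Λ n) :
    lf v * f ∈ Ln Λ (n + 1) := by
  have h : Ln Λ n ≤ (Ln Λ (n + 1)).comap (mu v) := by
    refine Submodule.span_le.2 ?_
    rintro g ⟨a, ha, m, f, hf, hn, rfl⟩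
    have h1 : lf v * f ∈ Hg d (m + 1) := by
      rw [add_comm]
      exact Hg_mul (lf_mem v) hf
    rw [SetLike.mem_coe, Submodule.mem_comap, mu_apply, mul_left_comm]
    exact Ln_mem ha h1 (by omega)
  have h3 := h hf
  rw [Submodule.mem_comap, mu_apply] at h3
  exact h3

theorem Ln_zero (Λ : Submodule (ZMod 2) (W d)) : Ln Λ 0 = ⊥ := by
  rw [eq_bot_iff]
  refine Submodule.span_le.2 ?_
  rintro g ⟨a, ha, m, f, hf, hn, rfl⟩
  omega

theorem Ln_sup_le (v : W d) (Λ : Submodule (ZMod 2) (W d)) (n : ℕ) :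
    Ln (Λ ⊔ Submodule.span (ZMod 2) {v}) (n + 1) ≤ Ln Λ (n + 1) ⊔ (Hg d n).map (mu v) := by
  refine Submodule.span_le.2 ?_
  rintro g ⟨a, ha, m, f, hf, hn, rfl⟩
  obtain rfl : m = n := by omega
  obtain ⟨b, hb, c, hc, rfl⟩ := Submodule.mem_sup.1 ha
  obtain ⟨t, rfl⟩ := Submodule.mem_span_singleton.1 hc
  have h1 : lf (b + t • v) * f = lf b * f + t • (lf v * f) := by
    rw [lf_add, lf_smul, MvPolynomial.smul_eq_C_mul]
    ring
  rw [SetLike.mem_coe, h1]
  exact Submodule.add_mem _ (Submodule.mem_sup_left (Ln_mem hb hf rfl))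
    (Submodule.smul_mem _ _ (Submodule.mem_sup_right ⟨f, hf, mu_apply v f⟩))

end PST

open PST in
/-- PST: division by one form. -/
theorem t_PST : Stmt_PST := by
  intro d v l Λ n A A' hA
  rcases n with _ | n
  · rw [if_neg (by omega), add_zero]
    apply rk_anti
    unfold Un
    rw [Ln_zero, Ln_zero]
  · rw [if_pos (by omega), Nat.add_sub_cancel]
    have h1 := rk_chain (Hg d (n + 1)) ((Hg d n).map (mu v)) (Un (tw l) Λ (n + 1) ⊔ A)
    have h2 : rk (Hg d (n + 1)) (Un (tw l) Λ (n + 1) ⊔ A ⊔ (Hg d n).map (mu v)) ≤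
        rk (Hg d (n + 1)) (Un (tw l) (Λ ⊔ Submodule.span (ZMod 2) {v}) (n + 1) ⊔ A) := by
      apply rk_anti
      refine sup_le (sup_le ?_ ?_) ?_
      · exact le_sup_of_le_left (le_sup_of_le_left le_sup_left)
      · refine (Ln_sup_le v Λ n).trans (sup_le ?_ le_sup_right)
        exact le_sup_of_le_left (le_sup_of_le_left le_sup_right)
      · exact le_sup_of_le_left le_sup_right
    have h3 : rk ((Hg d n).map (mu v)) (Un (tw l) Λ (n + 1) ⊔ A) ≤
        rk (Hg d n) (Un (tw (v :: l)) Λ n ⊔ A') := by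
      apply rk_map
      have h4 : Un (tw (v :: l)) Λ n ⊔ A' ≤ (Un (tw l) Λ (n + 1) ⊔ A).comap (mu v) := by
        refine sup_le (sup_le ?_ ?_) ?_
        · intro f hf
          rw [Submodule.mem_comap, mu_apply]
          exact Submodule.mem_sup_left (Submodule.mem_sup_left (mul_Hn v l hf))
        · intro f hf
          rw [Submodule.mem_comap, mu_apply]
          exact Submodule.mem_sup_left (Submodule.mem_sup_right (mul_Ln v Λ hf))
        · intro f hf
          rw [Submodule.mem_comap, mu_apply]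
          exact Submodule.mem_sup_right (hA f hf)
      exact fun x hx => h4 hx
    omega

end HB
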