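import Pool.Agent.HB.Stmts

/-!
# QNH: the values of the derivations `dn` are hit
-/

namespace HB

open MvPolynomial Pool.Agent.Lib_helper74.Hit

namespace QNH

variable {d : ℕ}

/-- The derivation `D` acting on the coefficients. -/
noncomputable def Dc (D : Derivation (ZMod 2) (P d) (P d)) :
    Derivation (ZMod 2) (Polynomial (P d)) (Polynomial (P d)) :=
  (PolynomialModule.equivPolynomialSelf (R := P d)).toLinearMap.compDer D.mapCoeffs

theorem Dc_coeff (D : Derivation (ZMod 2) (P d) (P d)) (F : Polynomial (P d)) (i : ℕ) :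
    (Dc D F).coeff i = D (F.coeff i) := rfl

theorem Dc_C (D : Derivation (ZMod 2) (P d) (P d)) (f : P d) :
    Dc D (Polynomial.C f) = Polynomial.C (D f) := by
  ext1 i
  rw [Dc_coeff, Polynomial.coeff_C, Polynomial.coeff_C]
  split_ifs
  · rfl
  · exact map_zero D

theorem Dc_X (D : Derivation (ZMod 2) (P d) (P d)) :
    Dc D (Polynomial.X : Polynomial (P d)) = 0 := by
  ext1 i
  rw [Dc_coeff, Polynomial.coeff_X, Polynomial.coeff_zero]
  split_ifs
  · exact D.map_one_eq_zero
  · exact map_zero D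

theorem two_eq : (2 : Polynomial (P d)) = 0 := by
  have h : (2 : Polynomial (P d)) = Polynomial.C (2 : P d) := (map_ofNat Polynomial.C 2).symm
  rw [h, char2, map_zero]

theorem D_sq (D : Derivation (ZMod 2) (P d) (P d)) (f : P d) : D (f ^ 2) = 0 := by
  rw [sq, D.leibniz, smul_eq_mul]
  exact add_self' _

theorem Dc_sq (D : Derivation (ZMod 2) (P d) (P d)) (F G : Polynomial (P d)) :
    Dc D (F ^ 2 * G) = F ^ 2 * Dc D G := by
  have h : Dc D (F ^ 2) = 0 := by
    rw [sq, (Dc D).leibniz, smul_eq_mul, ← two_mul, two_eq, zero_mul]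
  rw [(Dc D).leibniz, h, smul_eq_mul, smul_zero, add_zero]

theorem dn_X (n : ℕ) (i : Fin d) : dn d n (X i) = X i ^ 2 ^ (n + 1) := by
  rw [dn, mkDerivation_X]

theorem dn_C (n : ℕ) (a : ZMod 2) : dn d n (C a) = 0 :=
  (dn d n).map_algebraMap a

theorem totalSq_C (a : ZMod 2) : totalSq (Fin d) (C a) = Polynomial.C (C a) :=
  (totalSq (Fin d)).commutes a

theorem totalSq_pow (n : ℕ) (i : Fin d) :
    totalSq (Fin d) (X i ^ 2 ^ (n + 1)) =
      Polynomial.C (X i ^ 2 ^ (n + 1)) +
        Polynomial.C (X i ^ 2 ^ (n + 2)) * Polynomial.X ^ 2 ^ (n + 1) := by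
  have hc : CharP (Polynomial (P d)) 2 := inferInstance
  rw [map_pow, totalSq_X, add_pow_char_pow, mul_pow, ← map_pow, ← map_pow, ← pow_mul,
    ← pow_succ' 2 (n + 1)]

theorem base_X (n : ℕ) (i : Fin d) :
    totalSq (Fin d) (dn d n (X i)) + Dc (dn d n) (totalSq (Fin d) (X i)) =
      Polynomial.X ^ 2 ^ (n + 1) * Dc (dn d (n + 1)) (totalSq (Fin d) (X i)) := by
  have h : ∀ k, Dc (dn d k) (totalSq (Fin d) (X i)) = Polynomial.C (X i ^ 2 ^ (k + 1)) := by
    intro k
    rw [totalSq_X, map_add, Dc_C, (Dc (dn d k)).leibniz, Dc_X, smul_zero, zero_add, Dc_C, D_sq,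
      map_zero, smul_zero, add_zero, dn_X]
  rw [h, h, dn_X, totalSq_pow]
  have h2 : Polynomial.C (X i ^ 2 ^ (n + 1) : P d) + Polynomial.C (X i ^ 2 ^ (n + 1)) = 0 := by
    rw [← map_add, add_self', map_zero]
  linear_combination h2

theorem main (n : ℕ) (f : P d) :
    totalSq (Fin d) (dn d n f) + Dc (dn d n) (totalSq (Fin d) f) =
      Polynomial.X ^ 2 ^ (n + 1) * Dc (dn d (n + 1)) (totalSq (Fin d) f) := by
  induction f using MvPolynomial.induction_on with
  | C a =>
    rw [dn_C, totalSq_C, Dc_C, Dc_C, dn_C, dn_C, map_zero, map_zero, add_zero, mul_zero]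
  | add p q hp hq =>
    rw [map_add, map_add, map_add, map_add, map_add, mul_add, ← hp, ← hq]
    ring
  | mul_X p i hp =>
    have h := base_X n i
    rw [(dn d n).leibniz, map_add, smul_eq_mul, smul_eq_mul, map_mul, map_mul, map_mul,
      (Dc (dn d n)).leibniz, (Dc (dn d (n + 1))).leibniz, smul_eq_mul, smul_eq_mul, smul_eq_mul,
      smul_eq_mul]
    linear_combination (totalSq (Fin d) p) * h + (totalSq (Fin d) (X i)) * hp

theorem step (n : ℕ) (u : Polynomial (P d)) (hu : u.coeff 0 = 1) (f : P d) :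
    dn d (n + 1) f = Sw (u ^ 2) (2 ^ (n + 1)) (dn d n f) +
      dn d n (Sw (u ^ 2) (2 ^ (n + 1)) f) := by
  have h := main n f
  have h1 : u ^ 2 * totalSq (Fin d) (dn d n f) + Dc (dn d n) (u ^ 2 * totalSq (Fin d) f) =
      Dc (dn d (n + 1)) (u ^ 2 * totalSq (Fin d) f) * Polynomial.X ^ 2 ^ (n + 1) := by
    rw [Dc_sq, Dc_sq]
    linear_combination u ^ 2 * h
  have h2 := congrArg (fun F : Polynomial (P d) => F.coeff (0 + 2 ^ (n + 1))) h1
  have h3 : (u ^ 2).coeff 0 = 1 := by
    rw [Polynomial.coeff_zero_eq_eval_zero] at hu ⊢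
    rw [Polynomial.eval_pow, hu, one_pow]
  simp only [Polynomial.coeff_add, Polynomial.coeff_mul_X_pow, Dc_coeff] at h2
  rw [zero_add] at h2
  have h4 : (u ^ 2 * totalSq (Fin d) f).coeff 0 = f := Sw_zero h3 f
  rw [h4] at h2
  exact h2.symm

theorem coeff_one_sq (u : Polynomial (P d)) : (u ^ 2).coeff 1 = 0 := by
  rw [sq, Polynomial.mul_coeff_one, mul_comm (u.coeff 1)]
  exact add_self' _

theorem zero_step (u : Polynomial (P d)) (hu : u.coeff 0 = 1) (f : P d) :
    dn d 0 f = Sw (u ^ 2) 1 f := by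
  have h3 : (u ^ 2).coeff 0 = 1 := by
    rw [Polynomial.coeff_zero_eq_eval_zero] at hu ⊢
    rw [Polynomial.eval_pow, hu, one_pow]
  have h0 : ∀ f : P d, (totalSq (Fin d) f).coeff 0 = f := fun f => Sq_zero f
  have h1 : ∀ f : P d, (totalSq (Fin d) f).coeff 1 = dn d 0 f := by
    intro f
    induction f using MvPolynomial.induction_on with
    | C a =>
      rw [dn_C, totalSq_C, Polynomial.coeff_C, if_neg one_ne_zero]
    | add p q hp hq =>
      rw [map_add, map_add, Polynomial.coeff_add, hp, hq]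
    | mul_X p i hp =>
      rw [map_mul, Polynomial.mul_coeff_one, h0, h0, hp, (dn d 0).leibniz, smul_eq_mul,
        smul_eq_mul, dn_X, totalSq_X]
      have : (Polynomial.C (X i : P d) + Polynomial.C (X i ^ 2) * Polynomial.X).coeff 1 =
          X i ^ 2 := by
        rw [Polynomial.coeff_add, Polynomial.coeff_C, if_neg one_ne_zero, zero_add,
          Polynomial.coeff_C_mul, Polynomial.coeff_X_one, mul_one]
      rw [this]
      ring
  rw [Sw, Polynomial.mul_coeff_one, h0, h1, h3, coeff_one_sq, one_mul, zero_mul, add_zero]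

end QNH

open QNH in
theorem t_QNH : Stmt_QNH := by
  intro d n
  induction n with
  | zero =>
    intro m u f hu hu0 hf
    rw [zero_step u hu0 f]
    exact Hn_mem hf le_rfl (by norm_num)
  | succ n ih =>
    intro m u f hu hu0 hf
    have hw : Hm 0 (u ^ 2) := by simpa using hu.pow 2
    have hle : ∀ k, Hn (u ^ 2) k ≤ Hg d k := by
      intro k
      unfold Hn
      rw [Submodule.span_le]
      rintro g ⟨j, m', f', hf', hj, hk, rfl⟩
      rw [← hk]
      exact Sw_mem hw j hf'
    have h2 : 1 ≤ 2 ^ (n + 1) := Nat.one_le_two_pow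
    have h3 : 2 ^ (n + 1 + 1) = 2 ^ (n + 1) + 2 ^ (n + 1) := by
      rw [pow_succ, mul_two]
    rw [step n u hu0 f]
    apply Submodule.add_mem
    · exact Hn_mem (hle _ (ih m u f hu hu0 hf)) h2 (by omega)
    · have h4 := ih (m + 2 ^ (n + 1)) u (Sw (u ^ 2) (2 ^ (n + 1)) f) hu hu0 (Sw_mem hw _ hf)
      have h5 : m + 2 ^ (n + 1) + 2 ^ (n + 1) - 1 = m + 2 ^ (n + 1 + 1) - 1 := by omega
      rw [h5] at h4
      exact h4

end HB
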