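import Pool.Agent.HB.Stmts

/-!
# A bound for the hit problem: REC, the bound for all codimensions
-/

namespace HB

open MvPolynomial Pool.Agent.Lib_helper74.Hit

namespace REC

theorem Ck_zero (k : ℕ) : Ck (fun _ => 0) k = 0 := by
  unfold Ck
  simp

theorem bd_zero (d : ℕ) : bd d 0 = 1 := by
  unfold bd
  simp

theorem two_pow_ge (d : ℕ) : d + 1 ≤ 2 ^ d := Nat.lt_two_pow_self

theorem Sk_le (d j : ℕ) : Sk d j ≤ 2 ^ (3 * d) := by
  unfold Sk
  have h1 : d + 1 - j ≤ 2 ^ d := le_trans (Nat.sub_le _ _) (two_pow_ge d)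
  have h2 : (d + 1) * 2 ^ d ≤ 2 ^ d * 2 ^ d := Nat.mul_le_mul_right _ (two_pow_ge d)
  calc (d + 1 - j) * ((d + 1) * 2 ^ d) ≤ 2 ^ d * (2 ^ d * 2 ^ d) := Nat.mul_le_mul h1 h2
    _ = 2 ^ (3 * d) := by rw [← pow_add, ← pow_add]; congr 1; ring

/-- the size of the correction -/
theorem size {d j L r' s : ℕ} (hj : j + 1 ≤ d) (hL : L ≤ Sk d j)
    (hr : r' ≤ 2 ^ (j + 1) * (L + 1)) (hs : s ≤ 2 ^ (3 * d + 3)) :
    s + 2 * r' ≤ 2 ^ (4 * d + 4) := by
  have h1 : L + 1 ≤ 2 ^ (3 * d + 1) := by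
    have h2 := Sk_le d j
    have h3 : 1 ≤ 2 ^ (3 * d) := Nat.one_le_two_pow
    rw [pow_succ]
    omega
  have h4 : 2 ^ (j + 1) ≤ 2 ^ d := Nat.pow_le_pow_right (by norm_num) hj
  have h5 : r' ≤ 2 ^ (4 * d + 1) := by
    calc r' ≤ 2 ^ (j + 1) * (L + 1) := hr
      _ ≤ 2 ^ d * 2 ^ (3 * d + 1) := Nat.mul_le_mul h4 h1
      _ = 2 ^ (4 * d + 1) := by rw [← pow_add]; congr 1; ring
  have h6 : 2 ^ (3 * d + 3) ≤ 2 ^ (4 * d + 2) := Nat.pow_le_pow_right (by norm_num) (by omega)
  have h7 : 2 ^ (4 * d + 2) = 2 * 2 ^ (4 * d + 1) := by rw [pow_succ]; ring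
  have h8 : 2 ^ (4 * d + 4) = 8 * 2 ^ (4 * d + 1) := by
    rw [show 4 * d + 4 = (4 * d + 1) + 3 by ring, pow_add]
    ring
  omega

end REC

theorem t_REC : Stmt_REC := by
  intro hLV hCOD hARI hVAN hSTP hNUM d
  -- strong induction on the codimension
  suffices h : ∀ k : ℕ, ∀ (Λ : Submodule (ZMod 2) (W d)), cod Λ = k → ∀ (l : List (W d)) (n : ℕ),
      (∀ a ∈ l, a ∉ Λ) → l.length ≤ Sk d (cod Λ) → q l Λ n ≤ bd d (cod Λ) by
    intro Λ l n h1 h2
    exact h (cod Λ) Λ rfl l n h1 h2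
  intro k
  induction k using Nat.strong_induction_on with
  | _ k ih =>
  intro Λ hk
  have hcd := hCOD d Λ
  have hkd : k ≤ d := hk ▸ hcd.1
  rcases Nat.eq_zero_or_pos k with h0 | hpos
  · -- codimension zero
    intro l n _ _
    have htop : Λ = ⊤ := hcd.2.2.1 (by omega)
    have hb : bd d (cod Λ) = 1 := by rw [hk, h0, REC.bd_zero]
    rw [hb, htop]
    exact (hLV d l n).1
  -- the induction hypothesis in the form needed by STP
  have hIH : ∀ (l : List (W d)) (n : ℕ) (Λ' : Submodule (ZMod 2) (W d)) (l' : List (W d)) (n' : ℕ),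
      cod Λ' < cod Λ → (∀ a ∈ l', a ∉ Λ') → l'.length ≤ Sk d (cod Λ') →
      Rl d (n + l.length + cod Λ) (n' + l'.length + cod Λ') → q l' Λ' n' ≤ bd d (cod Λ') := by
    intro l n Λ' l' n' hlt ha hlen _
    exact ih (cod Λ') (by omega) Λ' rfl l' n' ha hlen
  -- claim A
  have hA : ∀ i : ℕ, ∀ (l : List (W d)) (n : ℕ), (∀ a ∈ l, a ∉ Λ) → l.length ≤ Sk d (cod Λ) →
      ¬ 2 ^ i ∣ (n + l.length + cod Λ) → q l Λ n ≤ i * Ck (bd d) (cod Λ) := by
    intro i
    induction i with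
    | zero =>
      intro l n _ _ h
      exact absurd (by simp) h
    | succ i ihi =>
      intro l n ha hlen hdvd
      rcases hSTP d Λ l n (bd d) (by omega) ha hlen (hIH l n) with h | ⟨l', m, ha', hlen', hN, hq⟩
      · calc q l Λ n ≤ Ck (bd d) (cod Λ) := h
          _ ≤ (i + 1) * Ck (bd d) (cod Λ) := Nat.le_mul_of_pos_left _ (Nat.succ_pos i)
      · have hnd : ¬ 2 ^ i ∣ (m + l'.length + cod Λ) := by
          intro hd
          apply hdvd
          rw [← hN, pow_succ, mul_comm (2 ^ i) 2]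
          exact Nat.mul_dvd_mul_left 2 hd
        have h3 := ihi l' m ha' hlen' hnd
        calc q l Λ n ≤ Ck (bd d) (cod Λ) + q l' Λ m := hq
          _ ≤ Ck (bd d) (cod Λ) + i * Ck (bd d) (cod Λ) := Nat.add_le_add_left h3 _
          _ = (i + 1) * Ck (bd d) (cod Λ) := by ring
  -- claim B
  have hB : ∀ N : ℕ, ∀ (l : List (W d)) (n : ℕ), n + l.length + cod Λ = N → (∀ a ∈ l, a ∉ Λ) →
      l.length ≤ Sk d (cod Λ) → q l Λ n ≤ (cod Λ + (4 * d + 4)) * Ck (bd d) (cod Λ) := by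
    intro N
    induction N using Nat.strong_induction_on with
    | _ N ihN =>
    intro l n hN ha hlen
    by_cases hdvd : 2 ^ (cod Λ + (4 * d + 4)) ∣ (n + l.length + cod Λ)
    · have hz : ∀ (Λ' : Submodule (ZMod 2) (W d)) (l' : List (W d)) (n' : ℕ),
          cod Λ' < cod Λ → (∀ a ∈ l', a ∉ Λ') → l'.length ≤ Sk d (cod Λ') →
          Rl d (n + l.length + cod Λ) (n' + l'.length + cod Λ') → q l' Λ' n' ≤ 0 := by
        intro Λ' l' n' hlt ha' hlen' hR
        by_contra hne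
        have hne' : q l' Λ' n' ≠ 0 := by omega
        obtain ⟨r', hr1, hr2, hr3⟩ := hVAN d Λ' l' n' ha' hne'
        obtain ⟨s, hs1, hs2, hs3⟩ := hR
        have hsz := REC.size (d := d) (j := cod Λ') (L := l'.length) (r' := r') (s := s)
          (by omega) hlen' hr1 hs2
        rcases hs3 with h3 | h3
        · have h4 := hARI.2.2.2 (cod Λ + (4 * d + 4)) (4 * d + 4) (n + l.length + cod Λ) (s + r')
            hdvd (by omega) (by omega) (by omega) (by omega)
          have h5 : n + l.length + cod Λ - (s + r') = n' + l'.length + cod Λ' - r' := by omega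
          rw [h5] at h4
          omega
        · have h4 := hARI.2.2.2 (cod Λ + (4 * d + 4)) (4 * d + 4) (n + l.length + cod Λ)
            (s + 2 * r') hdvd (by omega) (by omega) (by omega) (by omega)
          have h5 : n + l.length + cod Λ - (s + 2 * r') =
              2 * (n' + l'.length + cod Λ' - r') := by omega
          rw [h5, hARI.1] at h4
          omega
      rcases hSTP d Λ l n (fun _ => 0) (by omega) ha hlen hz with h | ⟨l', m, ha', hlen', hN', hq⟩
      · rw [REC.Ck_zero] at h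
        exact le_trans h (Nat.zero_le _)
      · rw [REC.Ck_zero, zero_add] at hq
        have h6 := ihN (m + l'.length + cod Λ) (by omega) l' m rfl ha' hlen'
        exact le_trans hq h6
    · exact hA (cod Λ + (4 * d + 4)) l n ha hlen hdvd
  intro l n ha hlen
  exact le_trans (hB _ l n rfl ha hlen) (hNUM d (cod Λ) (by omega) (by omega))

end HB
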