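import Pool.Agent.HB.Stmts

/-!
# SPN: the polynomials modulo `Λ` in terms of squares
-/

namespace HB

open MvPolynomial Pool.Agent.Lib_helper74.Hit

namespace SPN

variable {d k : ℕ}

/-- The right side. -/
noncomputable def AA (y : Fin k → W d) (Λ : Submodule (ZMod 2) (W d)) (n : ℕ) :
    Submodule (ZMod 2) (P d) :=
  Submodule.span (ZMod 2) {g | ∃ (K : Finset (Fin k)) (m : ℕ), ∃ f ∈ Hg d m,
      K.card + 2 * m = n ∧ g = pk y K * f ^ 2} ⊔ Ln Λ n

theorem Ln_le (Λ : Submodule (ZMod 2) (W d)) (n : ℕ) : Ln Λ n ≤ Hg d n := by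
  apply Submodule.span_le.mpr
  rintro g ⟨a, _, m, f, hf, hn, rfl⟩
  have h := Hg_mul (lf_mem a) hf
  rw [add_comm, hn] at h
  exact h

theorem AA_le (y : Fin k → W d) (Λ : Submodule (ZMod 2) (W d)) (n : ℕ) : AA y Λ n ≤ Hg d n := by
  refine sup_le ?_ (Ln_le Λ n)
  apply Submodule.span_le.mpr
  rintro g ⟨K, m, f, hf, hn, rfl⟩
  have h := Hg_mul (pk_mem y K) (Hg_pow hf 2)
  rw [mul_comm m 2, hn] at h
  exact h

theorem mem_AA {y : Fin k → W d} {Λ : Submodule (ZMod 2) (W d)} {n : ℕ} (K : Finset (Fin k))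
    (m : ℕ) {f : P d} (hf : f ∈ Hg d m) (hn : K.card + 2 * m = n) : pk y K * f ^ 2 ∈ AA y Λ n :=
  (le_sup_left : _ ≤ AA y Λ n) (Submodule.subset_span ⟨K, m, f, hf, hn, rfl⟩)

theorem pk_erase (y : Fin k → W d) {K : Finset (Fin k)} {i : Fin k} (hi : i ∈ K) (f : P d) :
    lf (y i) * (pk y K * f ^ 2) = pk y (K.erase i) * (lf (y i) * f) ^ 2 := by
  have h : pk y K = lf (y i) * pk y (K.erase i) := (Finset.mul_prod_erase K _ hi).symm
  rw [h]
  generalize pk y (K.erase i) = a
  generalize lf (y i) = b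
  ring

theorem pk_insert (y : Fin k → W d) {K : Finset (Fin k)} {i : Fin k} (hi : i ∉ K) (f : P d) :
    lf (y i) * (pk y K * f ^ 2) = pk y (insert i K) * f ^ 2 := by
  have h : pk y (insert i K) = lf (y i) * pk y K := Finset.prod_insert hi
  rw [h, mul_assoc]

/-- Multiplication by `y i`. -/
theorem mul_y (y : Fin k → W d) (Λ : Submodule (ZMod 2) (W d)) (n : ℕ) (i : Fin k) {g : P d}
    (hg : g ∈ AA y Λ n) : lf (y i) * g ∈ AA y Λ (n + 1) := by
  obtain ⟨g1, h1, g2, h2, rfl⟩ := Submodule.mem_sup.mp hg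
  rw [mul_add]
  refine add_mem ?_ ?_
  · clear hg
    induction h1 using Submodule.span_induction with
    | mem x hx =>
      obtain ⟨K, m, f, hf, hn, rfl⟩ := hx
      by_cases hi : i ∈ K
      · rw [pk_erase y hi f]
        refine mem_AA (K.erase i) (1 + m) (Hg_mul (lf_mem _) hf) ?_
        have h3 := Finset.card_erase_add_one hi
        omega
      · rw [pk_insert y hi f]
        refine mem_AA (insert i K) m hf ?_
        rw [Finset.card_insert_of_notMem hi]
        omega
    | zero =>
      rw [mul_zero]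
      exact zero_mem _
    | add x z _ _ hx hz =>
      rw [mul_add]
      exact add_mem hx hz
    | smul c x _ hx =>
      rw [mul_smul_comm]
      exact Submodule.smul_mem _ c hx
  · clear hg
    induction h2 using Submodule.span_induction with
    | mem x hx =>
      obtain ⟨a, ha, m, f, hf, hn, rfl⟩ := hx
      rw [mul_left_comm]
      exact (le_sup_right : Ln Λ (n + 1) ≤ AA y Λ (n + 1))
        (Ln_mem ha (Hg_mul (lf_mem (y i)) hf) (by omega))
    | zero =>
      rw [mul_zero]
      exact zero_mem _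
    | add x z _ _ hx hz =>
      rw [mul_add]
      exact add_mem hx hz
    | smul c x _ hx =>
      rw [mul_smul_comm]
      exact Submodule.smul_mem _ c hx

theorem mul_lf (y : Fin k → W d) (Λ : Submodule (ZMod 2) (W d))
    (htop : Λ ⊔ Submodule.span (ZMod 2) (Set.range y) = ⊤) (n : ℕ) (w : W d) {g : P d}
    (hg : g ∈ AA y Λ n) : lf w * g ∈ AA y Λ (n + 1) := by
  have hw : w ∈ Λ ⊔ Submodule.span (ZMod 2) (Set.range y) := by
    rw [htop]
    exact Submodule.mem_top
  obtain ⟨a, ha, b, hb, rfl⟩ := Submodule.mem_sup.mp hw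
  rw [lf_add, add_mul]
  refine add_mem ?_ ?_
  · exact (le_sup_right : Ln Λ (n + 1) ≤ AA y Λ (n + 1)) (Ln_mem ha (AA_le y Λ n hg) rfl)
  · clear hw
    induction hb using Submodule.span_induction with
    | mem x hx =>
      obtain ⟨i, rfl⟩ := hx
      exact mul_y y Λ n i hg
    | zero =>
      rw [lf_zero, zero_mul]
      exact zero_mem _
    | add x z _ _ hx hz =>
      rw [lf_add, add_mul]
      exact add_mem hx hz
    | smul c x _ hx =>
      rw [lf_smul, mul_assoc, ← MvPolynomial.smul_eq_C_mul]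
      exact Submodule.smul_mem _ c hx

theorem zero_case (y : Fin k → W d) (Λ : Submodule (ZMod 2) (W d)) : Hg d 0 ≤ AA y Λ 0 := by
  intro f hf
  have h0 : f.totalDegree = 0 := by
    by_cases h : f = 0
    · rw [h, totalDegree_zero]
    · exact IsHomogeneous.totalDegree (show f.IsHomogeneous 0 from hf) h
  rw [totalDegree_eq_zero_iff_eq_C] at h0
  rw [h0]
  have h1 : (C (coeff 0 f) : P d) = coeff 0 f • (pk y ∅ * 1 ^ 2) := by
    have h2 : pk y ∅ = 1 := Finset.prod_empty
    rw [h2, one_pow, mul_one, MvPolynomial.smul_eq_C_mul, mul_one]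
  rw [h1]
  exact Submodule.smul_mem _ _ (mem_AA ∅ 0 Hg_one rfl)

theorem main (y : Fin k → W d) (Λ : Submodule (ZMod 2) (W d))
    (htop : Λ ⊔ Submodule.span (ZMod 2) (Set.range y) = ⊤) (n : ℕ) : Hg d n ≤ AA y Λ n := by
  induction n with
  | zero => exact zero_case y Λ
  | succ n ih =>
    intro f hf
    have hf' : f.IsHomogeneous (n + 1) := hf
    rw [f.as_sum]
    apply Submodule.sum_mem
    intro m hm
    have hdeg : m.degree = n + 1 := by
      have := hf'.degree_eq_sum_deg_support hm
      rw [Finsupp.degree_apply]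
      exact this.symm
    have hne : m ≠ 0 := by
      rintro rfl
      simp at hdeg
    obtain ⟨i, hi⟩ := Finsupp.ne_iff.mp hne
    have hi' : 1 ≤ m i := Nat.one_le_iff_ne_zero.mpr hi
    have hle : Finsupp.single i 1 ≤ m := by
      rw [Finsupp.single_le_iff]
      exact hi'
    obtain ⟨m', rfl⟩ := exists_add_of_le hle
    have h1 : (monomial (Finsupp.single i 1 + m') (coeff (Finsupp.single i 1 + m') f) : P d) =
        lf (Pi.single i 1) * monomial m' (coeff (Finsupp.single i 1 + m') f) := by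
      rw [lf_single, X, monomial_mul, one_mul]
    rw [h1]
    apply mul_lf y Λ htop n
    apply ih
    have h2 : m'.degree = n := by
      rw [map_add, Finsupp.degree_single] at hdeg
      omega
    exact isHomogeneous_monomial _ h2

end SPN

theorem t_SPN : Stmt_SPN := fun _ _ y Λ n htop => SPN.main y Λ htop n

end HB
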