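import Pool.Agent.HB.Stmts

/-!
# SQK: the twisted squares of `pk y K * z ^ 2`
-/

namespace HB

open MvPolynomial Pool.Agent.Lib_helper74.Hit

namespace SQK

theorem coeff_sq {d : ℕ} (F : Polynomial (P d)) (n : ℕ) :
    (F ^ 2).coeff n = if 2 ∣ n then (F.coeff (n / 2)) ^ 2 else 0 := by
  have hc : CharP (P d) 2 := inferInstance
  have he : ExpChar (P d) 2 := inferInstance
  rw [← Polynomial.map_frobenius_expand (p := 2) F, Polynomial.coeff_map,
    Polynomial.coeff_expand (by norm_num)]
  split_ifs with h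
  · rw [frobenius_def]
  · rw [map_zero]

theorem totalSq_pk {d k : ℕ} (y : Fin k → W d) (K : Finset (Fin k)) :
    totalSq (Fin d) (pk y K) =
      ∑ T ∈ K.powerset, Polynomial.C (pk y K * pk y T) * Polynomial.X ^ T.card := by
  classical
  have h1 : totalSq (Fin d) (pk y K) =
      Polynomial.C (pk y K) * ∏ j ∈ K, (1 + Polynomial.C (lf (y j)) * Polynomial.X) := by
    unfold pk
    rw [map_prod, map_prod, ← Finset.prod_mul_distrib]
    apply Finset.prod_congr rfl
    intro j _
    exact totalSq_lf' (y j)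
  rw [h1, Finset.prod_one_add, Finset.mul_sum]
  apply Finset.sum_congr rfl
  intro T _
  rw [Finset.prod_mul_distrib, Finset.prod_const, map_mul]
  unfold pk
  rw [map_prod Polynomial.C _ T, mul_assoc]

end SQK

open SQK in
theorem t_SQK : Stmt_SQK := by
  classical
  intro d k y K w i z
  have h1 : w ^ 2 * totalSq (Fin d) (pk y K * z ^ 2) =
      ∑ T ∈ K.powerset, Polynomial.C (pk y K * pk y T) *
        ((w * totalSq (Fin d) z) ^ 2 * Polynomial.X ^ T.card) := by
    rw [map_mul, map_pow, totalSq_pk, Finset.sum_mul, Finset.mul_sum]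
    apply Finset.sum_congr rfl
    intro T _
    ring
  unfold Sw
  rw [h1, Polynomial.finsetSum_coeff, Finset.sum_filter]
  apply Finset.sum_congr rfl
  intro T hT
  rw [Finset.mem_powerset] at hT
  rw [Polynomial.coeff_C_mul, Polynomial.coeff_mul_X_pow']
  by_cases h2 : T.card ≤ 2 * i
  · rw [if_pos h2, coeff_sq]
    by_cases h3 : 2 ∣ T.card
    · rw [if_pos ((Nat.dvd_sub (Dvd.intro i rfl) h3)), if_pos ⟨h3, h2⟩]
      have h4 : (2 * i - T.card) / 2 = i - T.card / 2 := by omega
      have h5 : pk y K = pk y (K \ T) * pk y T := by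
        unfold pk
        exact (Finset.prod_sdiff hT).symm
      rw [h4, h5]
      ring
    · rw [if_neg, if_neg (fun h => h3 h.1), mul_zero]
      intro h
      apply h3
      omega
  · rw [if_neg h2, if_neg (fun h => h2 h.2), mul_zero]

end HB
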