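import Pool.Agent.HB.Stmts

/-!
# A bound for the hit problem: vanishing (module VAN)
-/

namespace HB

namespace VAN

theorem set_single {d : ℕ} (a : W d) : {b : W d | b ∈ [a]} = {a} := by
  ext b
  simp

theorem forall2_single {α : Type*} {l : List α} {v : List α}
    (h : List.Forall₂ (fun a φ => a ∈ φ) v [l]) : ∃ a ∈ l, v = [a] := by
  cases h with
  | cons h1 h2 =>
    cases h2
    exact ⟨_, h1, rfl⟩

theorem num {k L t x s r r' m n : ℕ} (ht : t ≤ L) (hx : x ≤ t + L) (hm : t + m = n)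
    (hs : s + x = 1 + t + L) (hr : r = s + r') (h1 : r' ≤ 2 ^ (k + 1) * (x + 1))
    (h2 : r' ≤ m + x + k) :
    r ≤ 2 ^ (k + 1 + 1) * (L + 1) ∧ r ≤ n + L + (k + 1) ∧
      n + L + (k + 1) - r = m + x + k - r' := by
  refine ⟨?_, by omega, by omega⟩
  have hp : 1 ≤ 2 ^ (k + 1) := Nat.one_le_two_pow
  rw [pow_succ 2 (k + 1)]
  generalize 2 ^ (k + 1) = p at hp h1 ⊢
  have h3 : s + p * x ≤ 1 + p * (t + L) := by
    obtain ⟨y, hy⟩ := Nat.exists_eq_add_of_le hx
    have hs' : s = 1 + y := by omega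
    rw [hs', hy]
    nlinarith
  have h4 : p * (t + L) ≤ p * (2 * L) := Nat.mul_le_mul_left _ (by omega)
  calc r = s + r' := hr
    _ ≤ s + p * (x + 1) := by omega
    _ = s + p * x + p := by ring
    _ ≤ 1 + p * (2 * L) + p := by omega
    _ ≤ p * 2 * (L + 1) := by nlinarith

theorem main (hL : P_LV0) (hD : P_DRP) (hP : P_PEL) (hC : P_COD) (hV : P_VSP) (hA : P_ARI)
    (k : ℕ) : ∀ (d : ℕ) (Λ : Submodule (ZMod 2) (W d)) (l : List (W d)) (n : ℕ), cod Λ = k →
      (∀ a ∈ l, a ∉ Λ) → q l Λ n ≠ 0 → ∃ r, r ≤ 2 ^ (cod Λ + 1) * (l.length + 1) ∧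
        r ≤ n + l.length + cod Λ ∧ al (n + l.length + cod Λ - r) ≤ cod Λ := by
  induction k with
  | zero =>
    intro d Λ l n hk hl hq
    have hT : Λ = ⊤ := (hC d Λ).2.2.1 hk
    subst hT
    have hn : n = 0 := (hL d l n).2 hq
    have hl0 : l = [] := by
      rcases l with _ | ⟨a, l⟩
      · rfl
      · exact absurd Submodule.mem_top (hl a (by simp))
    subst hn
    subst hl0
    refine ⟨0, Nat.zero_le _, Nat.zero_le _, ?_⟩
    rw [hk]
    simp [al]
  | succ k ih =>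
    intro d Λ l n hk hl hq
    by_cases hS : S2 (cod Λ) (n + l.length + cod Λ)
    · exact ⟨0, Nat.zero_le _, Nat.zero_le _, hA.2.1 _ _ hS⟩
    have h1 : PF [l] n ≤ Un (tw l) Λ n := hV d Λ l n hS
    have h2 : Un (tw l) Λ n ⊔ PF [l] n = Un (tw l) Λ n := sup_eq_left.mpr h1
    by_cases hex : ∃ (t v : List (W d)) (m : ℕ), List.Forall₂ (fun a φ => a ∈ φ) v [l] ∧
        t.length ≤ (([l] : List (List (W d))).map List.length).sum ∧ t.length + m = n ∧
        q (t ++ l) (Λ ⊔ Submodule.span (ZMod 2) {a | a ∈ v}) m ≠ 0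
    swap
    · exfalso
      apply hq
      have h3 := hP d [l] l Λ n 0 (fun t v m hv ht hm => by
        by_contra hne
        exact hex ⟨t, v, m, hv, ht, hm, fun h0 => hne (le_of_eq h0)⟩)
      rw [h2, mul_zero] at h3
      exact Nat.le_zero.mp h3
    obtain ⟨t, v, m, hv, ht, hm, hne⟩ := hex
    obtain ⟨a, ha, rfl⟩ := forall2_single hv
    rw [set_single] at hne
    have ht' : t.length ≤ l.length := by simpa using ht
    have hcod : cod (Λ ⊔ Submodule.span (ZMod 2) {a}) + 1 = cod Λ :=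
      (hC d Λ).2.2.2.1 a (hl a ha)
    obtain ⟨l'', hlen, hout, heq⟩ := hD d (Λ ⊔ Submodule.span (ZMod 2) {a}) (t ++ l)
    have hlen' : l''.length ≤ t.length + l.length := by
      simpa using hlen
    have hk' : cod (Λ ⊔ Submodule.span (ZMod 2) {a}) = k := by omega
    rw [heq m] at hne
    obtain ⟨r', hr1, hr2, hr3⟩ := ih d _ l'' m hk' hout hne
    rw [hk'] at hr1 hr2 hr3
    rw [hk]
    obtain ⟨g1, g2, g3⟩ := num (s := 1 + t.length + l.length - l''.length)
      (r := 1 + t.length + l.length - l''.length + r') ht' hlen' hm (by omega) rfl hr1 hr2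
    refine ⟨_, g1, g2, ?_⟩
    rw [g3]
    omega

end VAN

/-- Vanishing. -/
theorem t_VAN : Stmt_VAN := by
  intro hL hD hP hC hV hA d Λ l n hl hq
  exact VAN.main hL hD hP hC hV hA (cod Λ) d Λ l n rfl hl hq

end HB
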