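import Pool.Agent.HB.Stmts

/-!
# VSP: the multiples of the product of the forms
-/

namespace HB

open MvPolynomial Pool.Agent.Lib_helper74.Hit

namespace VSP

variable {d k : ℕ}

theorem pr_toList (y : Fin k → W d) (K : Finset (Fin k)) : pr (K.toList.map y) = pk y K := by
  unfold pr pk
  rw [List.map_map, Finset.prod_map_toList]
  rfl

theorem mem_left {w : Polynomial (P d)} {Λ : Submodule (ZMod 2) (W d)} {n : ℕ} {f : P d}
    (h : f ∈ Hn w n) : f ∈ Un w Λ n := by
  unfold Un
  exact Submodule.mem_sup_left h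

theorem mem_right {w : Polynomial (P d)} {Λ : Submodule (ZMod 2) (W d)} {n : ℕ} {f : P d}
    (h : f ∈ Ln Λ n) : f ∈ Un w Λ n := by
  unfold Un
  exact Submodule.mem_sup_right h

theorem ln_mul (Λ : Submodule (ZMod 2) (W d)) (l : List (W d)) {m n : ℕ} (h : l.length + m = n)
    {f : P d} (hf : f ∈ Ln Λ m) : pr l * f ∈ Ln Λ n := by
  unfold Ln at hf
  induction hf using Submodule.span_induction with
  | mem g hg =>
    obtain ⟨a, ha, m', f, hf, hm, rfl⟩ := hg
    have h1 : pr l * (lf a * f) = lf a * (pr l * f) := by ring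
    rw [h1]
    exact Ln_mem ha (Hg_mul (pr_mem l) hf) (by omega)
  | zero =>
    rw [mul_zero]
    exact Submodule.zero_mem _
  | add g g' _ _ h1 h2 =>
    rw [mul_add]
    exact Submodule.add_mem _ h1 h2
  | smul c g _ h1 =>
    rw [mul_smul_comm]
    exact Submodule.smul_mem _ _ h1

theorem arith {a b m n k : ℕ} (hk : a ≤ k) (h1 : a + 2 * m = b) (l : ℕ) (h2 : l + b = n) :
    2 * (m + l + a) + (k - a) = n + l + k := by
  omega

theorem sq_mul (hCHI : P_CHI) (hARI : P_ARI) (y : Fin k → W d) (l : List (W d)) {m n : ℕ}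
    (hn : l.length + m = n) (hS : ¬ S2 k (n + l.length + k)) (K : Finset (Fin k)) {m' : ℕ}
    (hK : K.card + 2 * m' = m) {z : P d} (hz : z ∈ Hg d m') :
    pr l * (pk y K * z ^ 2) ∈ Hn (tw l) n := by
  have hKc : K.card ≤ k := by
    have := Finset.card_le_univ K
    rwa [Fintype.card_fin] at this
  have hl : (K.toList.map y).length = K.card := by
    rw [List.length_map, Finset.length_toList]
  have h3 : ¬ S2 (K.toList.map y).length (m' + l.length + (K.toList.map y).length) := by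
    rw [hl]
    intro hS2
    apply hS
    have h4 := hARI.2.2.1 K.card k (m' + l.length + K.card) hKc hS2
    rwa [arith hKc hK l.length hn] at h4
  have h6 := hCHI d (K.toList.map y) l m' z hz h3
  rw [pr_toList, hl] at h6
  have h8 : K.card + l.length + 2 * m' = n := by omega
  rw [h8] at h6
  rw [mul_left_comm]
  exact h6

theorem span_mul (hCHI : P_CHI) (hARI : P_ARI) (y : Fin k → W d) (l : List (W d)) {m n : ℕ}
    (hn : l.length + m = n) (hS : ¬ S2 k (n + l.length + k)) {f : P d}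
    (hf : f ∈ Submodule.span (ZMod 2) {g | ∃ (K : Finset (Fin k)) (m' : ℕ), ∃ f ∈ Hg d m',
      K.card + 2 * m' = m ∧ g = pk y K * f ^ 2}) :
    pr l * f ∈ Hn (tw l) n := by
  induction hf using Submodule.span_induction with
  | mem g hg =>
    obtain ⟨K, m', z, hz, hK, rfl⟩ := hg
    exact sq_mul hCHI hARI y l hn hS K hK hz
  | zero =>
    rw [mul_zero]
    exact Submodule.zero_mem _
  | add g g' _ _ h1 h2 =>
    rw [mul_add]
    exact Submodule.add_mem _ h1 h2
  | smul c g _ h1 =>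
    rw [mul_smul_comm]
    exact Submodule.smul_mem _ _ h1

theorem gen_mul (hSPN : P_SPN) (hCHI : P_CHI) (hARI : P_ARI) (Λ : Submodule (ZMod 2) (W d))
    (y : Fin k → W d) (hy : Λ ⊔ Submodule.span (ZMod 2) (Set.range y) = ⊤) (l : List (W d))
    {m n : ℕ} (hn : l.length + m = n) (hS : ¬ S2 k (n + l.length + k)) {f : P d}
    (hf : f ∈ Hg d m) : pr l * f ∈ Un (tw l) Λ n := by
  obtain ⟨g, hg, g', hg', rfl⟩ := Submodule.mem_sup.1 (hSPN d k y Λ m hy hf)
  rw [mul_add]
  exact Submodule.add_mem _ (mem_left (span_mul hCHI hARI y l hn hS hg))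
    (mem_right (ln_mul Λ l hn hg'))

theorem pf (hSPN : P_SPN) (hCHI : P_CHI) (hARI : P_ARI) (Λ : Submodule (ZMod 2) (W d))
    (y : Fin k → W d) (hy : Λ ⊔ Submodule.span (ZMod 2) (Set.range y) = ⊤) (l : List (W d))
    {n : ℕ} (hS : ¬ S2 k (n + l.length + k)) : PF [l] n ≤ Un (tw l) Λ n := by
  unfold PF
  rw [Submodule.span_le]
  rintro g ⟨φ, hφ, m, f, hf, hm, rfl⟩
  rw [List.mem_singleton] at hφ
  rw [hφ] at hm ⊢
  exact gen_mul hSPN hCHI hARI Λ y hy l hm hS hf

end VSP

theorem t_VSP : Stmt_VSP := by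
  intro hCOD hSPN hCHI hARI d Λ l n hS
  obtain ⟨y, hy⟩ := (hCOD d Λ).2.2.2.2.1
  exact VSP.pf hSPN hCHI hARI Λ y hy l hS

end HB
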