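import Pool.Agent.HB.CNG
import Pool.Agent.HB.DRP
import Pool.Agent.HB.EVN
import Pool.Agent.HB.PST
import Pool.Agent.HB.CHO
import Pool.Agent.HB.PEL
import Pool.Agent.HB.COD
import Pool.Agent.HB.SPN
import Pool.Agent.HB.SQK
import Pool.Agent.HB.QNH
import Pool.Agent.HB.FKP
import Pool.Agent.HB.HIT
import Pool.Agent.HB.HLV
import Pool.Agent.HB.CHI
import Pool.Agent.HB.ARI
import Pool.Agent.HB.VSP
import Pool.Agent.HB.LV0
import Pool.Agent.HB.VAN
import Pool.Agent.HB.STP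
import Pool.Agent.HB.NUM
import Pool.Agent.HB.REC
import Pool.Agent.HB.MAN

/-!
# A bound for the hit problem: assembly
-/

namespace HB

theorem main : P_MAN :=
  have h1 : P_CNG := t_CNG
  have h2 : P_DRP := t_DRP h1
  have h3 : P_EVN := t_EVN
  have h4 : P_PST := t_PST
  have h5 : P_CHO := t_CHO h4
  have h6 : P_PEL := t_PEL h4
  have h7 : P_COD := t_COD
  have h8 : P_SPN := t_SPN
  have h9 : P_SQK := t_SQK
  have h10 : P_HIT := t_HIT t_QNH t_FKP
  have h11 : P_HLV := t_HLV h8 h9 h10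
  have h12 : P_CHI := t_CHI
  have h13 : P_ARI := t_ARI
  have h14 : P_VSP := t_VSP h7 h8 h12 h13
  have h15 : P_LV0 := t_LV0
  have h16 : P_VAN := t_VAN h15 h2 h6 h7 h14 h13
  have h17 : P_STP := t_STP h1 h2 h3 h5 h6 h7 h11
  have h18 : P_REC := t_REC h15 h7 h13 h16 h17 t_NUM
  t_MAN h7 h18

end HB
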