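import Pool.Agent.HB.Base

/-!
# The dimension of a subspace modulo another one
-/

namespace HB

open Module

variable {M M' : Type*} [AddCommGroup M] [Module (ZMod 2) M] [AddCommGroup M']
  [Module (ZMod 2) M']

theorem rk_mono {V V' : Submodule (ZMod 2) M} [FiniteDimensional (ZMod 2) V'] (h : V ≤ V')
    (U : Submodule (ZMod 2) M) : rk V U ≤ rk V' U := by
  unfold rk
  exact Submodule.finrank_mono (Submodule.map_mono h)

/-- `V` may be replaced by a subspace with the same image. -/
theorem rk_le_sup {V V' U : Submodule (ZMod 2) M} [FiniteDimensional (ZMod 2) V']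
    (h : V ≤ V' ⊔ U) : rk V U ≤ rk V' U := by
  unfold rk
  apply Submodule.finrank_mono
  rw [Submodule.map_le_iff_le_comap, Submodule.comap_map_mkQ, sup_comm]
  exact h

/-- A linear map. -/
theorem rk_map (φ : M →ₗ[ZMod 2] M') {V U : Submodule (ZMod 2) M} {U' : Submodule (ZMod 2) M'}
    [FiniteDimensional (ZMod 2) V] (h : ∀ x ∈ U, φ x ∈ U') : rk (V.map φ) U' ≤ rk V U := by
  unfold rk
  have e : (V.map φ).map U'.mkQ = (V.map U.mkQ).map (U.mapQ U' φ h) := by
    rw [← Submodule.map_comp, ← Submodule.map_comp]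
    rfl
  rw [e]
  exact Submodule.finrank_map_le _ _

theorem rk_anti {V U U' : Submodule (ZMod 2) M} [FiniteDimensional (ZMod 2) V] (h : U ≤ U') :
    rk V U' ≤ rk V U := by
  have := rk_map (LinearMap.id : M →ₗ[ZMod 2] M) (V := V) (U := U) (U' := U') (fun x hx => h hx)
  rwa [Submodule.map_id] at this

theorem rk_zero_iff {V U : Submodule (ZMod 2) M} [FiniteDimensional (ZMod 2) V] :
    rk V U = 0 ↔ V ≤ U := by
  unfold rk
  rw [Submodule.finrank_eq_zero, ← le_bot_iff, Submodule.map_le_iff_le_comap, Submodule.comap_bot,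
    Submodule.ker_mkQ]

theorem rk_zero {V U : Submodule (ZMod 2) M} [FiniteDimensional (ZMod 2) V] (h : V ≤ U) :
    rk V U = 0 := rk_zero_iff.2 h

/-- The chain rule. -/
theorem rk_chain (V V' U : Submodule (ZMod 2) M) [FiniteDimensional (ZMod 2) V]
    [FiniteDimensional (ZMod 2) V'] : rk V U ≤ rk V' U + rk V (U ⊔ V') := by
  classical
  have h1 : rk V U ≤ rk (V ⊔ V') U := rk_mono le_sup_left U
  refine h1.trans ?_
  unfold rk
  set A : Submodule (ZMod 2) (M ⧸ U) := (V ⊔ V').map U.mkQ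
  set B : Submodule (ZMod 2) (M ⧸ U) := V'.map U.mkQ
  let ψ : (M ⧸ U) →ₗ[ZMod 2] (M ⧸ (U ⊔ V')) := Submodule.mapQ U (U ⊔ V') LinearMap.id le_sup_left
  have hψ : ∀ x : M, ψ (U.mkQ x) = (U ⊔ V').mkQ x := fun x => rfl
  have hA : A.map ψ = V.map (U ⊔ V').mkQ := by
    apply le_antisymm
    · rintro _ ⟨_, ⟨x, hx, rfl⟩, rfl⟩
      obtain ⟨v, hv, v', hv', rfl⟩ := Submodule.mem_sup.1 hx
      refine ⟨v, hv, ?_⟩
      rw [hψ, map_add]
      have : (U ⊔ V').mkQ v' = 0 := by
        rw [Submodule.mkQ_apply, Submodule.Quotient.mk_eq_zero]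
        exact Submodule.mem_sup_right hv'
      rw [this, add_zero]
    · rintro _ ⟨v, hv, rfl⟩
      exact ⟨U.mkQ v, ⟨v, Submodule.mem_sup_left hv, rfl⟩, hψ v⟩
  rw [← hA]
  have hrn := LinearMap.finrank_range_add_finrank_ker (ψ.domRestrict A)
  have hrange : LinearMap.range (ψ.domRestrict A) = A.map ψ := by
    rw [LinearMap.domRestrict, LinearMap.range_comp, Submodule.range_subtype]
  rw [hrange] at hrn
  have hker : finrank (ZMod 2) (LinearMap.ker (ψ.domRestrict A)) ≤ finrank (ZMod 2) B := by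
    have : (LinearMap.ker (ψ.domRestrict A)).map A.subtype ≤ B := by
      rintro _ ⟨⟨x, hx⟩, hx0, rfl⟩
      have hx1 : ψ x = 0 := hx0
      obtain ⟨y, hy, hyx⟩ := hx
      show x ∈ B
      rw [← hyx] at hx1 ⊢
      rw [hψ, Submodule.mkQ_apply, Submodule.Quotient.mk_eq_zero] at hx1
      obtain ⟨u, hu, v', hv', rfl⟩ := Submodule.mem_sup.1 hx1
      rw [map_add]
      have : U.mkQ u = 0 := by
        rw [Submodule.mkQ_apply, Submodule.Quotient.mk_eq_zero]
        exact hu
      rw [this, zero_add]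
      exact ⟨v', hv', rfl⟩
    have h2 := Submodule.finrank_mono this
    rwa [Submodule.finrank_map_subtype_eq] at h2
  omega

theorem rk_sup (V V' U : Submodule (ZMod 2) M) [FiniteDimensional (ZMod 2) V]
    [FiniteDimensional (ZMod 2) V'] : rk (V ⊔ V') U ≤ rk V U + rk V' U := by
  have h1 := rk_chain (V ⊔ V') V' U
  have h2 : rk (V ⊔ V') (U ⊔ V') ≤ rk V (U ⊔ V') := by
    apply rk_le_sup
    apply sup_le_sup_left
    exact le_sup_right
  have h3 : rk V (U ⊔ V') ≤ rk V U := rk_anti le_sup_left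
  omega

theorem rk_bot (U : Submodule (ZMod 2) M) : rk ⊥ U = 0 := rk_zero bot_le

/-- A finite sum of subspaces. -/
theorem rk_iSup {ι : Type*} (s : Finset ι) (V : ι → Submodule (ZMod 2) M)
    [∀ i, FiniteDimensional (ZMod 2) (V i)] (U : Submodule (ZMod 2) M) :
    rk (s.sup V) U ≤ ∑ i ∈ s, rk (V i) U := by
  classical
  induction s using Finset.induction_on with
  | empty => simp [rk_bot]
  | insert a s ha ih =>
    rw [Finset.sup_insert, Finset.sum_insert ha]
    have : FiniteDimensional (ZMod 2) (s.sup V : Submodule (ZMod 2) M) :=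
      Submodule.finite_finset_sup s V
    have := rk_sup (V a) (s.sup V) U
    omega

end HB
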