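import Pool.Agent.HB.Stmts

/-!
# STP: one step of the recursion
-/

namespace HB

open MvPolynomial Pool.Agent.Lib_helper74.Hit

namespace STP

variable {d k : ℕ}

theorem d1 (d : ℕ) : d + 1 ≤ 2 ^ d := Nat.lt_two_pow_self

theorem Sk_le (d j : ℕ) : Sk d j ≤ 2 ^ (3 * d) := by
  unfold Sk
  have h1 := d1 d
  have h2 : d + 1 - j ≤ 2 ^ d := by omega
  have h3 : (2 : ℕ) ^ (3 * d) = 2 ^ d * (2 ^ d * 2 ^ d) := by
    rw [← pow_add, ← pow_add]
    congr 1
    ring
  rw [h3]
  exact Nat.mul_le_mul h2 (Nat.mul_le_mul_right _ h1)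

theorem Sk_sub {d j k : ℕ} (hj : j ≤ k) (hk : k ≤ d) :
    Sk d j = Sk d k + (k - j) * ((d + 1) * 2 ^ d) := by
  unfold Sk
  rw [← add_mul]
  congr 1
  omega

theorem Sk_ge {d k : ℕ} (hk : k ≤ d) : 2 ^ k ≤ Sk d k := by
  unfold Sk
  have h1 : (2 : ℕ) ^ k ≤ 2 ^ d := Nat.pow_le_pow_right (by norm_num) hk
  have h2 : 1 * (1 * 2 ^ d) ≤ (d + 1 - k) * ((d + 1) * 2 ^ d) :=
    Nat.mul_le_mul (by omega) (Nat.mul_le_mul_right _ (by omega))
  omega

theorem fls_len (y : Fin k → W d) (K : Finset (Fin k)) :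
    (fls y K).map List.length = List.replicate (k - K.card) (2 ^ K.card) := by
  unfold fls
  rw [List.map_map]
  have e : (List.length ∘ fl y K) = fun _ => 2 ^ K.card := by
    funext i
    exact fl_length y K i
  rw [e, List.map_const']
  congr 1
  rw [Finset.length_toList, Finset.card_compl, Fintype.card_fin]

theorem fls_univ (y : Fin k → W d) : fls y Finset.univ = [] := by
  simp [fls]

theorem PF_nil (n : ℕ) : PF ([] : List (List (W d))) n = ⊥ := by
  unfold PF
  simp

end STP

open STP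

theorem t_STP : Stmt_STP := by
  intro HC HD HE HO HP HCod HH d Λ l n b hk hl hlen hb
  classical
  obtain ⟨c1, -, -, c4, c5, c6⟩ := HCod d Λ
  obtain ⟨o, l', ho, hl', holen, hsum, hcg⟩ := HE d Λ l hl
  have hSk := Sk_ge c1
  have hl'len : l'.length ≤ Sk d (cod Λ) := by omega
  have h2k : (2 : ℕ) ^ cod Λ ≤ 2 ^ d := Nat.pow_le_pow_right (by norm_num) c1
  have hpow : (2 : ℕ) ^ (3 * d + 3) = 8 * 2 ^ (3 * d) := by
    rw [pow_add]
    ring
  have hd13 : 2 ^ d ≤ 2 ^ (3 * d) := Nat.pow_le_pow_right (by norm_num) (by omega)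
  have hd1 := d1 d
  -- the first part
  have hO := HO d o l Λ n (b (cod Λ - 1)) (by
    intro t v m hv htl htm
    have hcv := c4 v (ho v hv)
    obtain ⟨l'', h1, h2, h3⟩ := HD d (Λ ⊔ Submodule.span (ZMod 2) {v}) (t ++ l)
    rw [List.length_append] at h1
    rw [h3]
    have hcv' : cod (Λ ⊔ Submodule.span (ZMod 2) {v}) = cod Λ - 1 := by omega
    have hS := Sk_sub (d := d) (j := cod Λ - 1) (k := cod Λ) (by omega) c1
    have hS1 : cod Λ - (cod Λ - 1) = 1 := by omega
    rw [hS1, one_mul] at hS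
    have hS2 : 1 * 2 ^ d ≤ (d + 1) * 2 ^ d := Nat.mul_le_mul_right _ (by omega)
    have hS3 := Sk_le d (cod Λ)
    have := hb (Λ ⊔ Submodule.span (ZMod 2) {v}) l'' m (by omega) h2
      (by rw [hcv']; omega)
      ⟨1 + t.length + l.length - l''.length, by omega, by omega, Or.inl (by omega)⟩
    rw [hcv'] at this
    exact this)
  -- the second part
  have hO1 : o.length * b (cod Λ - 1) ≤ (2 ^ cod Λ - 1) * b (cod Λ - 1) :=
    Nat.mul_le_mul_right _ (by omega)
  by_cases hon : o.length ≤ n
  swap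
  · left
    rw [if_neg hon, add_zero] at hO
    unfold Ck
    omega
  rw [if_pos hon] at hO
  set n1 := n - o.length with hn1
  have hq1 : q (o ++ l) Λ n1 = rk (Hg d n1) (Un (tw l' ^ 2) Λ n1) := by
    unfold q
    rw [HC d Λ _ _ n1 (Hm_tw _) (Hm_tw_sq l') hcg]
  obtain ⟨y, hy⟩ := c5
  have hH := HH d (cod Λ) y l' Λ n1 hy
  rw [← hq1] at hH
  -- the bound of the pieces
  let f : ℕ → ℕ := fun j => if j < cod Λ then 2 ^ (j * (cod Λ - j)) * b j else 0
  have hpiece : ∀ K : Finset (Fin (cod Λ)), (if K.card ≤ n1 ∧ 2 ∣ n1 - K.card then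
        rk (Hg d ((n1 - K.card) / 2))
          (Un (tw l') Λ ((n1 - K.card) / 2) ⊔ PF (fls y K) ((n1 - K.card) / 2)) else 0) ≤
      (if K = Finset.univ then (if cod Λ ≤ n1 ∧ 2 ∣ n1 - cod Λ then
        q l' Λ ((n1 - cod Λ) / 2) else 0) else 0) + f K.card := by
    intro K
    by_cases hKu : K = Finset.univ
    · subst hKu
      have e1 : (Finset.univ : Finset (Fin (cod Λ))).card = cod Λ := by
        rw [Finset.card_univ, Fintype.card_fin]
      rw [e1, fls_univ, PF_nil, sup_bot_eq, if_pos rfl]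
      exact Nat.le_add_right _ _
    · have hKc : K.card < cod Λ := by
        have h1 := Finset.card_le_univ K
        rw [Fintype.card_fin] at h1
        rcases Nat.lt_or_ge K.card (cod Λ) with h | h
        · exact h
        · exfalso
          apply hKu
          apply Finset.eq_univ_of_card
          rw [Fintype.card_fin]
          omega
      rw [if_neg hKu, zero_add]
      have hf : f K.card = 2 ^ (K.card * (cod Λ - K.card)) * b K.card := if_pos hKc
      rw [hf]
      split_ifs with hcond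
      swap
      · exact Nat.zero_le _
      obtain ⟨hc1, hc2⟩ := hcond
      have hrep := fls_len y K
      have hP := HP d (fls y K) l' Λ ((n1 - K.card) / 2) (b K.card) (by
        intro t v m hv htl htm
        have hcv := c6 y hy K v hv
        obtain ⟨l'', h1, h2, h3⟩ := HD d (Λ ⊔ Submodule.span (ZMod 2) {a | a ∈ v}) (t ++ l')
        rw [List.length_append] at h1
        rw [h3]
        rw [hrep, List.sum_replicate, smul_eq_mul] at htl
        have hS := Sk_sub (d := d) (j := K.card) (k := cod Λ) hKc.le c1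
        have h2j : (2 : ℕ) ^ K.card ≤ (d + 1) * 2 ^ d := by
          have a1 : (2 : ℕ) ^ K.card ≤ 2 ^ d := Nat.pow_le_pow_right (by norm_num) (by omega)
          have a2 : 1 * 2 ^ d ≤ (d + 1) * 2 ^ d := Nat.mul_le_mul_right _ (by omega)
          omega
        have hS2 : (cod Λ - K.card) * 2 ^ K.card ≤ (cod Λ - K.card) * ((d + 1) * 2 ^ d) :=
          Nat.mul_le_mul_left _ h2j
        have hS3 := Sk_le d K.card
        have hlen'' : l''.length ≤ Sk d K.card := by omega
        have := hb (Λ ⊔ Submodule.span (ZMod 2) {a | a ∈ v}) l'' m (by omega) h2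
          (by rw [hcv]; exact hlen'')
          ⟨(cod Λ - K.card) + 2 * (t.length + l'.length - l''.length), by omega, by omega,
            Or.inr (by omega)⟩
        rw [hcv] at this
        exact this)
      refine hP.trans ?_
      rw [hrep, List.prod_replicate, ← pow_mul]
  have hsumK : ∑ K : Finset (Fin (cod Λ)), f K.card =
      ∑ j ∈ Finset.range (cod Λ), (cod Λ).choose j * 2 ^ (j * (cod Λ - j)) * b j := by
    have h1 := Finset.sum_powerset_apply_card (x := (Finset.univ : Finset (Fin (cod Λ)))) f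
    rw [Finset.powerset_univ, Finset.card_univ, Fintype.card_fin, Finset.sum_range_succ] at h1
    rw [h1]
    have h2 : f (cod Λ) = 0 := if_neg (lt_irrefl _)
    rw [h2, smul_zero, add_zero]
    apply Finset.sum_congr rfl
    intro j hj
    have h3 : f j = 2 ^ (j * (cod Λ - j)) * b j := if_pos (Finset.mem_range.1 hj)
    rw [h3, smul_eq_mul, mul_assoc]
  have hall := hH.trans (Finset.sum_le_sum fun K _ => hpiece K)
  rw [Finset.sum_add_distrib, hsumK, Finset.sum_ite_eq' Finset.univ Finset.univ,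
    if_pos (Finset.mem_univ _)] at hall
  by_cases hcond : cod Λ ≤ n1 ∧ 2 ∣ n1 - cod Λ
  · right
    rw [if_pos hcond] at hall
    obtain ⟨hc1, hc2⟩ := hcond
    refine ⟨l', (n1 - cod Λ) / 2, hl', hl'len, by omega, ?_⟩
    unfold Ck
    omega
  · left
    rw [if_neg hcond] at hall
    unfold Ck
    omega

end HB
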