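import Pool.Agent.HB.Defs

/-!
# HB: statements (helper3)

Herbrand quotients and the first inequality of class field theory for cyclic extensions of prime power
degree. Every `def Sh_X : Prop` is the statement of a module; it is proved as
`theorem th_X (h : Sh_Y) .. : Sh_X` in `Pool/Agent/HB/H_X.lean`, namespace `Pool.Agent.HB`, where the `Sh_Y`
are the statements named after USES (or fewer).

PLAN. `K / k` cyclic of degree `n = l^m`, `k` totally complex. `S` a finite set of primes of `k` which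
generates both class groups (`GenT`) and contains the ramified primes, `E = EU (abv S)` the `S`-units of `K`.
(HSU) `[E_k : N E] = (1/n) ∏_(v ∈ S) n_v`, `n_v = n / g_v`. (LOC) subgroups `W_v ∋ N z` of `kˣ`, open at `v`, of
index `≥ n_v`. So `W' = ⋂ W_v`, `[kˣ : W' E_k] ≥ ∏ n_v / [E_k : N E] = n` (NON), and the ideals prime to `S`
map onto `A = kˣ / W' E_k` (PSI), norms of ideals to `1`. (JT1) is the result for ray classes, (FIQ) for the
class group if `K / k` is unramified.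
-/

set_option autoImplicit false

open NumberField IsDedekindDomain
open scoped nonZeroDivisors

namespace Pool.Agent.HB

/-! ## 1. Abstract Herbrand quotients

`s^n = id` on `G`. -/

/-- (HQ) the Herbrand quotient is multiplicative.

PROOF. The exact hexagon for `0 → W/V → U/V → U/W → 0`. All groups are commutative. Write `D = DD s`, `N = NN n s`: `D (N x) = 1 = N (D x)` (`s^n = id`), `D`, `N` commute with `s`.
`H0(X/Y) = (X ⊓ Y.comap D) / (X.map N ⊔ Y)`, `H1(X/Y) = (X ⊓ Y.comap N) / (X.map D ⊔ Y)`. Six maps: inclusion `i0 : H0(W/V) → H0(U/V)`, projection `p0 : H0(U/V) → H0(U/W)`, `δ0 : H0(U/W) → H1(W/V)`, `x ↦ D x` (`x ∈ U`, `D x ∈ W`: `N D x = 1 ∈ V`), and `i1, p1`,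
`δ1 : H1(U/W) → H0(W/V)`, `x ↦ N x`. Exactness at each of the six places is direct. For an exact hexagon of finite groups the alternating product of the orders is `1` (`|X| = |ker| |im|`). One way in Lean: `Subgroup.relIndex` and `Subgroup.card_eq_card_quotient_mul_card_subgroup`
for the six quotient groups, or the abstract lemma: six finite commutative groups `X_i` (`i : ZMod 6` or a list) with homomorphisms `f_i : X_i → X_(i+1)`, `ker f_(i+1) = range f_i` (cyclically): `|X_0||X_2||X_4| = |X_1||X_3||X_5|`. Finiteness of `H(U/V)`: it is between the finite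
groups. -/
def Sh_HQ : Prop := ∀ (G : Type) [CommGroup G] (n : ℕ) (s : G →* G), (∀ x, (⇑s)^[n] x = x) →
  ∀ U W V : Subgroup G, V ≤ W → W ≤ U → Stb s U → Stb s W → Stb s V →
  t0 n s U W ≠ 0 → t1 n s U W ≠ 0 → t0 n s W V ≠ 0 → t1 n s W V ≠ 0 →
  t0 n s U V ≠ 0 ∧ t1 n s U V ≠ 0 ∧
    t0 n s U V * (t1 n s U W * t1 n s W V) = t1 n s U V * (t0 n s U W * t0 n s W V)

/-- (FIN) finite groups have Herbrand quotient `1`.

PROOF. `V ≤ U`, `Q = U / V` finite, `D, N : Q → Q`: `|Q| = |ker D| |im D| = |ker N| |im N|`, so `|ker D|/|im N| = |ker N|/|im D|`. -/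
def Sh_FIN : Prop := ∀ (G : Type) [CommGroup G] (n : ℕ) (s : G →* G), (∀ x, (⇑s)^[n] x = x) →
  ∀ U V : Subgroup G, V ≤ U → Stb s U → Stb s V → V.relIndex U ≠ 0 →
  t0 n s U V = t1 n s U V ∧ t0 n s U V ≠ 0

/-- (LTZ) lattices over `ℤ[ζ]`.

PROOF. `Y = U / V` is a finitely generated torsion-free abelian group (so free), `n = l^m`, `q = l^(m-1)`, and `Φ(s) = 1 + s^q + .. + s^((l-1)q) = 0` on `Y`. Use `Y` as a module over `ℤ[X]`, additively. `N = Φ(s) (1 + s + .. + s^(q-1)) = 0` on `Y`. `s - 1` is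
injective on `Y`: if `s y = y` then `0 = Φ(s) y = l y`. So `H0 = ker(s - 1)/.. = 0`: `t0 = 1` (the group `U ⊓ V.comap D` is `V`), `H1 = Y/(s-1)Y`. `φ = φ(l^m) = (l-1) q`. In `ℤ[X]/(Φ_(l^m))` (`Φ_(l^m)(X) = Σ X^(q i)`, `Polynomial.cyclotomic_prime_pow_eq_geom_sum`)
`l = unit * (X - 1)^φ`: Mathlib: `IsPrimitiveRoot.associated_norm_zeta_sub_one..` or directly: `(X-1)^φ = Φ + l g(X)` in `ℤ[X]` (modulo `l`: `Φ = (X^l^m - 1)/(X^q - 1) = (X-1)^φ`), so `(s-1)^φ = l g(s)` on `Y` and `l = Φ(1) = Φ(1) - Φ(s) = (s - 1) h(s)` on `Y`. Hence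
`(s-1)^φ Y ⊆ l Y ⊆ (s-1) Y`; `|Y/(s-1)Y|` divides `|Y/lY| = l^(rank)`: a power `l^a`; `(s-1)` is injective so `|Y/(s-1)^i Y| = l^(a i)`. It remains `(s-1)^φ Y = l Y`: `g(s)` is bijective on `Y`: injective on `Y/lY`?: `l^(a φ) = |Y/(s-1)^φ Y| = |Y/lY| |lY/l g(s) Y| = l^(rank) |Y/g(s)Y|`
and from `l = (s-1) h(s)` iterate: with `ζ^j` in place of `ζ`: `l = ∏_(0<j<l^m, l∤j) (1 - X^j)` modulo `Φ`, and `1 - X^j = (1 - X) u_j(X)`, `1 - X = (1 - X^j) u'_j(X)` modulo `X^(l^m) - 1` (`j j' ≡ 1` modulo `l^m`), so `(s-1)^φ Y = l Y` directly: `(1 - s^j) Y = (1 - s) Y`. (This second way needs only the formula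
`∏_(0<j<l^m, l∤j) (1 - X^j) ≡ l` modulo `Φ_(l^m)`: `cyclotomic` at `1` in the field `ℚ(ζ)`, `Φ` is the minimal polynomial of `ζ`.) Determinants are a third way: `|Y/(s-1)Y| = |det(s-1)|`, the characteristic polynomial of `s` is `Φ_(l^m)^a` (all its roots in `ℂ` are
roots of `Φ_(l^m)`, which is irreducible over `ℚ`), so `|det(1 - s)| = Φ_(l^m)(1)^a = l^a`, `a φ = rank`. Choose what is easiest. `rk U = rk V + rank Y`. -/
def Sh_LTZ : Prop := ∀ (G : Type) [CommGroup G] (l m : ℕ) (s : G →* G), l.Prime → 1 ≤ m →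
  (∀ x, (⇑s)^[l ^ m] x = x) →
  ∀ U V : Subgroup G, V ≤ U → Stb s U → Stb s V → Module.Finite ℤ (Additive U) →
  (∀ x ∈ U, ∀ j : ℕ, j ≠ 0 → x ^ j ∈ V → x ∈ V) →
  (∀ x ∈ U, ∏ i ∈ Finset.range l, (⇑s)^[i * l ^ (m - 1)] x ∈ V) →
  t0 (l ^ m) s U V = 1 ∧ ∃ a : ℕ, t1 (l ^ m) s U V = l ^ a ∧
    rk U = rk V + (l ^ m).totient * a

/-- (LTF) the Herbrand quotient of a lattice from the ranks of the fixed subgroups.

USES HQ, LTZ. PROOF. Induction on `m`, for all `G`, `s`, `U` (only `s^(l^m) = id` on `U` is used: restrict to `G = U`, or state the induction with `G = U`). `m = 0`: `N = id`, `D = 1`: `t0 = t1 = 1`. Step: `q = l^m`, `n = l^(m+1)`, `U' = U ⊓ fixS s q`: stable, `x^j ∈ U'` implies `x ∈ U'`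
(`s^q(x)/x` is a torsion element of `U`), `U/U'` is killed by `Φ`: `y = ∏_(i<l) s^(iq) x` is fixed by `s^q`. (LTZ) (`m + 1`, `V = U'`): `t0(U/U') = 1`, `t1(U/U') = l^(a m)`, `rk U = rk U' + φ(l^(m+1)) a_m`. `U'` with `n`: `NN n = (NN q)^l` on `U'`. For `U' ⊓ ker D = U ⊓ fixS s 1 =: U''`:
`t0_n(U'/1) = [U'' : N_q(U')^l] = [U'' : N_q U'] [N_q U' : (N_q U')^l] = t0_q(U'/1) l^(rk U'')` (`N_q U' ≤ U''` has finite index, induction: `t0_q ≠ 0`; it is free of rank `rk U''`: `[L : L^l] = l^rank`), `t1_n(U'/1) = [ker N_q^l : D U'] = t1_q(U'/1)` (no torsion). Induction for `U'` and `q` (the group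
`G' = U'`, on which `s^q = id`; `t0`, `t1` only depend on `s` on `U`), `U' ⊓ fixS s (l^j) = U ⊓ fixS s (l^j)` for `j ≤ m`. (HQ). -/
def Sh_LTF : Prop := ∀ (G : Type) [CommGroup G] (l m : ℕ) (s : G →* G), l.Prime →
  (∀ x, (⇑s)^[l ^ m] x = x) →
  ∀ U : Subgroup G, Stb s U → Module.Finite ℤ (Additive U) →
  (∀ x ∈ U, ∀ j : ℕ, j ≠ 0 → x ^ j = 1 → x = 1) →
  t0 (l ^ m) s U ⊥ ≠ 0 ∧ t1 (l ^ m) s U ⊥ ≠ 0 ∧ ∃ a : ℕ → ℕ,
    (∀ j < m, rk (U ⊓ fixS s (l ^ (j + 1))) =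
      rk (U ⊓ fixS s (l ^ j)) + (l ^ (j + 1)).totient * a j) ∧
    t0 (l ^ m) s U ⊥ * l ^ (∑ j ∈ Finset.range m, a j) =
      t1 (l ^ m) s U ⊥ * l ^ (m * rk (U ⊓ fixS s 1))

/-- (LAT) the same with torsion.

USES HQ, FIN, LTF. PROOF. The torsion subgroup of `U` is finite, of exponent `w`, say; `U₁ = {x^w : x ∈ U}` is torsion-free (`y = x^w` of finite order: `x` is torsion, `y = 1`), stable, `U/U₁` is finite. (HQ) for `1 ≤ U₁ ≤ U` with (FIN) for `U/U₁`: `t0(U) t1(U₁) = t1(U) t0(U₁)`. Ranks: `(U ⊓ fixS)^w ≤ U₁ ⊓ fixS ≤ U ⊓ fixS`: the same rank.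
(LTF) for `U₁`; cancel. -/
def Sh_LAT : Prop := ∀ (G : Type) [CommGroup G] (l m : ℕ) (s : G →* G), l.Prime →
  (∀ x, (⇑s)^[l ^ m] x = x) →
  ∀ U : Subgroup G, Stb s U → Module.Finite ℤ (Additive U) →
  t0 (l ^ m) s U ⊥ ≠ 0 ∧ t1 (l ^ m) s U ⊥ ≠ 0 ∧ ∃ a : ℕ → ℕ,
    (∀ j < m, rk (U ⊓ fixS s (l ^ (j + 1))) =
      rk (U ⊓ fixS s (l ^ j)) + (l ^ (j + 1)).totient * a j) ∧
    t0 (l ^ m) s U ⊥ * l ^ (∑ j ∈ Finset.range m, a j) =
      t1 (l ^ m) s U ⊥ * l ^ (m * rk (U ⊓ fixS s 1))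

/-! ## 2. Orders at primes -/

/-- (ORD) elementary facts on orders.

PROOF. (1) finite support: `HeightOneSpectrum.Support.finite` or the factorisation of the fractional ideal. (2) `x ∈ Fˣ` is an integer iff all orders are `≥ 0` (`mem_integers_of_valuation_le_one`, `valuation_le_one`). (3) for `x ∈ 𝓞 F`, `x ≠ 0`: `0 < ord w x` iff `x ∈ w` (`valuation_lt_one_iff_mem`).
(4) approximation: a finite set `T` and integers `c w`: CRT (`Ideal.exists_forall_sub_mem_ideal` or `IsDedekindDomain.exists_forall_sub_mem_ideal`): for `w ∈ T` choose `π_w ∈ 𝓞 F` with `ord w π_w = 1`; an element `y ≡ π_w^(c w + N)` modulo `w^(c w + N + 1)` for `w ∈ T` (all `c w + N ≥ 0`), and `z ∈ 𝓞 F` with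
`z ≡ π_w^N` modulo `w^(N+1)`; `x = y/z`. (5) `1 + small`: `v(x - 1) ≤ exp(-M)`, `M ≥ 1`, implies `ord x = 0` (ultrametric). -/
def Sh_ORD : Prop := ∀ (F : Type) [Field F] [NumberField F],
  (∀ x : Fˣ, {w : HeightOneSpectrum (𝓞 F) | ord w x ≠ 0}.Finite) ∧
  (∀ x : Fˣ, (∀ w : HeightOneSpectrum (𝓞 F), 0 ≤ ord w x) ↔ ∃ y : 𝓞 F, (y : F) = x) ∧
  (∀ (x : Fˣ) (y : 𝓞 F), (y : F) = x → ∀ w : HeightOneSpectrum (𝓞 F),
    0 ≤ ord w x ∧ (0 < ord w x ↔ y ∈ w.asIdeal)) ∧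
  (∀ (T : Finset (HeightOneSpectrum (𝓞 F))) (c : HeightOneSpectrum (𝓞 F) → ℤ),
    ∃ x : Fˣ, ∀ w ∈ T, ord w x = c w) ∧
  ∀ (w : HeightOneSpectrum (𝓞 F)) (x : Fˣ) (M : ℕ), 1 ≤ M →
    w.valuation F ((x : F) - 1) ≤ WithZero.exp (-(M : ℤ)) → ord w x = 0

/-- (WAP) weak approximation with multiplicative congruences.

USES ORD. PROOF. `y_v = a_v / b` with `a_v, b ∈ 𝓞 k` nonzero, a common denominator `b` (for `v ∈ T`). CRT: `a ∈ 𝓞 k`, `a ≡ a_v` modulo `v^(M + ord_v a_v)` (and `+ 1`, so that `a ≠ 0`; if `T = ∅` take `1`). `x = a / b`: `x/y_v - 1 = (a - a_v)/a_v` has valuation `≤ exp(-M)`. -/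
def Sh_WAP : Prop := ∀ (k : Type) [Field k] [NumberField k]
  (T : Finset (HeightOneSpectrum (𝓞 k))) (y : HeightOneSpectrum (𝓞 k) → kˣ) (M : ℕ),
  ∃ x : kˣ, ∀ v ∈ T, v.valuation k (((x * (y v)⁻¹ : kˣ) : k) - 1) ≤ WithZero.exp (-(M : ℤ))

/-- (ORG) orders and Galois conjugation; primes above `v` are conjugate.

PROOF. `σ` acts on the primes of `K` (`w' = σ(w)`, the image of the ideal under `RingOfIntegers.mapRingEquiv σ`), `ord (σ w) (σ x) = ord w x`, `σ w` lies above the same `v`. (1) A permutation `π` of the primes of `K` with this property. (2) transitivity (`IsGalois`, `σ` a generator: every `τ` is `σ^i` with `i ≥ 0`,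
finite group; Mathlib: `Ideal.exists_map_eq_of_isGalois`/`IsInvariant`). (3) `gpr` is finite, positive, and divides `n` (orbit of a cyclic group of order `n`: `π^n = id`). (4) if `n = l^m` then `gpr = l^c`. -/
def Sh_ORG : Prop := ∀ (k K : Type) [Field k] [NumberField k] [Field K] [NumberField K]
  [Algebra k K] (n : ℕ) (σ : K ≃ₐ[k] K), Cyc n σ →
  ∃ π : Equiv.Perm (HeightOneSpectrum (𝓞 K)), (∀ w x, ord (π w) (su σ x) = ord w x) ∧
    (∀ v w, Lies k K v w → Lies k K v (π w)) ∧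
    (∀ v w w', Lies k K v w → Lies k K v w' → ∃ i : ℕ, (⇑π)^[i] w = w') ∧
    (∀ w, (⇑π)^[n] w = w) ∧
    (∀ v, ∃ w, Lies k K v w) ∧ (∀ w, ∃ v, Lies k K v w) ∧
    (∀ v, Finite {w : HeightOneSpectrum (𝓞 K) // Lies k K v w}) ∧
    ∀ v, gpr k K v ∣ n ∧ gpr k K v ≠ 0

/-- (ORN) orders, the inclusion and the norm.

USES ORG. PROOF. (1) `v, w`: `ord w (iu x) = e(w|v) ord v x` (`Mathlib/NumberTheory/RamificationInertia/Valuation.lean`, or `v 𝓞 K = ∏ w^e`), `e ≥ 1`. (2) `iu (nu z) = ∏_(i<n) σ^i z` (`Algebra.norm_eq_prod_automorphisms`, all automorphisms are `σ^i`, `i < n`). (3) `ord w (iu (nu z)) = Σ_i ord w (σ^i z) = Σ_i ord (π^(-i) w) z`,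
the orbit of `w` has `g` elements, each taken `n/g` times: `= (n/g) Σ_(w' | v) ord w' z`. (4) `ord v (nu z) = Σ_(w | v) f(w|v) ord w z` with `f` the residue degree; we need: if `ord w z = 0` for all `w` above `v` then `ord v (nu z) = 0` (from (3)); if `ord w z = 1` for one `w` above `v` of the same norm
(`f = 1`) and `0` for the others above `v` then `ord v (nu z) = 1` (`e f g = n`, all `f` are equal, so `e = n/g`: (3) gives `e ord v (nu z) = n/g`); if `v` is unramified (`Unr`) then `ord v (nu z) = (n/g) Σ_(w|v) ord w z`. (5) `Unr`, at some `w`: `e = 1`. (6) an element of `K` fixed by `σ` is in `k`. -/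
def Sh_ORN : Prop := ∀ (k K : Type) [Field k] [NumberField k] [Field K] [NumberField K]
  [Algebra k K] (n : ℕ) (σ : K ≃ₐ[k] K), Cyc n σ →
  (∀ x : K, (∀ i : ℕ, (⇑σ)^[i] x = x) → ∃ y : k, algebraMap k K y = x) ∧
  (∀ x : Kˣ, su σ x = x ↔ ∃ y : kˣ, iu k K y = x) ∧
  (∀ z : Kˣ, iu k K (nu k K z) = NN n (su σ) z) ∧
  (∀ x : Kˣ, (⇑(su σ))^[n] x = x) ∧
  (∀ v w, Lies k K v w → ∃ e : ℕ, 1 ≤ e ∧ ∀ x : kˣ, ord w (iu k K x) = e * ord v x) ∧
  (∀ v (z : Kˣ), (∀ w, Lies k K v w → ord w z = 0) → ord v (nu k K z) = 0) ∧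
  (∀ v w (z : Kˣ), Lies k K v w → Ideal.absNorm w.asIdeal = Ideal.absNorm v.asIdeal →
    ord w z = 1 → (∀ w', Lies k K v w' → w' ≠ w → ord w' z = 0) → ord v (nu k K z) = 1) ∧
  ∀ v, Unr k K v → ∀ z : Kˣ, ((n / gpr k K v : ℕ) : ℤ) ∣ ord v (nu k K z)

/-- (RMF) almost all primes are unramified.

PROOF. Only finitely many primes `v` have a prime `w` above with `e(w|v) ≠ 1` (different or discriminant: `Mathlib/NumberTheory/RamificationInertia/Unramified.lean`, `Mathlib/RingTheory/DedekindDomain/Different.lean`; or: `K = k(α)`, `α` an integer with minimal polynomial `f`, the primes not dividing the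
discriminant of `f`; look also at `Pool/Agent/RI` (the finite set of ramified primes), `Pool/Agent/MU3/StD.lean` and its proofs). For the others `ord w (iu x) = ord v x` (ORN (1) with `e = 1`: `ord w (iu π) = 1` for a uniformizer). -/
def Sh_RMF : Prop := ∀ (k K : Type) [Field k] [NumberField k] [Field K] [NumberField K]
  [Algebra k K], ∃ S : Finset (HeightOneSpectrum (𝓞 k)), ∀ v ∉ S, Unr k K v

/-! ## 3. `S`-units -/

/-- (SUR) the rank of the `T`-units.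

USES ORD. PROOF. `1 → (𝓞 F)ˣ → EU T → ℤ^T`, `x ↦ (ord w x)_(w ∈ T)`; the kernel are the units (`ord w x = 0` for all `w`: (ORD)), finitely generated of rank `r = #places - 1` (`NumberField.Units.rank`, `NumberField.Units.finrank_eq_rank`, `Units.basisModTorsion`); the image has finite index in `ℤ^T`: `w^h = (x)`, `h` the
class number, `ord w x = h`, other orders `0`. So `EU T` is finitely generated and the ranks add (`Submodule.finrank_quotient_add_finrank`, rank of a subgroup of finite index). -/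
def Sh_SUR : Prop := ∀ (F : Type) [Field F] [NumberField F]
  (T : Finset (HeightOneSpectrum (𝓞 F))),
  Module.Finite ℤ (Additive (EU (T : Set (HeightOneSpectrum (𝓞 F))))) ∧
  rk (EU (T : Set (HeightOneSpectrum (𝓞 F)))) + 1 = Fintype.card (InfinitePlace F) + T.card

/-- (GJ) the number of primes of an intermediate field above `v`.

USES ORG. PROOF. `K / k` cyclic of degree `l^m`, `F` the fixed field of `σ^(l^j)` (`j ≤ m`), `F / k` cyclic of degree `l^j` with generator `σ|F`. `X` = the primes of `K` above `v`, `|X| = g = l^c`, `π` acts on `X` as one cycle. The primes of `F` above `v` correspond to the orbits of `π^(l^j)` on `X` (two primes of `K` lie above the same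
prime of `F` iff they are conjugate under `Gal(K/F) = ⟨σ^(l^j)⟩`): a cycle of length `l^c` falls into `l^(min(j,c))` orbits. -/
def Sh_GJ : Prop := ∀ (k K : Type) [Field k] [NumberField k] [Field K] [NumberField K]
  [Algebra k K] (l m : ℕ) (σ : K ≃ₐ[k] K), l.Prime → Cyc (l ^ m) σ → ∀ j ≤ m,
  ∀ F : IntermediateField k K, (∀ x : K, x ∈ F ↔ (⇑σ)^[l ^ j] x = x) →
    Module.finrank k F = l ^ j ∧
    ∀ v : HeightOneSpectrum (𝓞 k), gpr k F v = min (l ^ j) (gpr k K v)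

/-- (PLC) the number of infinite places.

PROOF. `k` is totally complex, so `F ⊇ k` is totally complex, the number of places is half the degree over `ℚ` (`NumberField.InfinitePlace.card_add_two_mul_card_eq_rank`), `[F : ℚ] = [F : k] [k : ℚ]`. -/
def Sh_PLC : Prop := ∀ (k F : Type) [Field k] [NumberField k] [Field F] [NumberField F]
  [Algebra k F], TC k → TC F ∧
    Fintype.card (InfinitePlace F) = Module.finrank k F * Fintype.card (InfinitePlace k)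

/-- (INV) the rank of the fixed `S`-units.

USES SUR, GJ, PLC, ORN. PROOF. `F` = the fixed field of `σ^(l^j)` (`IntermediateField.fixedField`). `EU (abv k K S) ⊓ fixS (su σ) (l^j)` is the image of `EU (abv k F S)` under `Fˣ → Kˣ` (an `x ∈ Fˣ` has order `0` at a prime of `F` iff it has order `0` at the primes of `K` above: (ORN) for `K / F`; `Lies` is transitive). Isomorphic groups
have the same rank. (SUR) for `F`, `abv k F S` has `Σ_(v ∈ S) gpr k F v` elements; (GJ); (PLC). Finiteness of `EU (abv k K S)`: (SUR) for `K`. -/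
def Sh_INV : Prop := ∀ (k K : Type) [Field k] [NumberField k] [Field K] [NumberField K]
  [Algebra k K] (l m : ℕ) (σ : K ≃ₐ[k] K), l.Prime → Cyc (l ^ m) σ → TC k →
  ∀ S : Finset (HeightOneSpectrum (𝓞 k)),
  Module.Finite ℤ (Additive (EU (abv k K (S : Set (HeightOneSpectrum (𝓞 k)))))) ∧
  ∀ j ≤ m, rk (EU (abv k K (S : Set (HeightOneSpectrum (𝓞 k)))) ⊓ fixS (su σ) (l ^ j)) + 1 =
    l ^ j * Fintype.card (InfinitePlace k) + ∑ v ∈ S, min (l ^ j) (gpr k K v)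

/-- (HSU) the Herbrand quotient of the `S`-units.

USES LAT, INV, ORN, ORG. PROOF. `U = EU (abv S)` is stable (ORG). (LAT), (INV): `gpr k K v = l^(c v)`, `c v ≤ m` (ORG: divides `l^m`; `Nat.dvd_prime_pow`). `rk_(j+1) - rk_j = φ(l^(j+1)) (s + #{v ∈ S : c v > j})`, `s = card (InfinitePlace k)`, so `a j = s + #{v ∈ S : j < c v}` and `Σ_(j<m) a j = m s + Σ_v c v`; `rk_0 = s - 1 + |S|`. So
`t0 l^(m s + Σ c v) = t1 l^(m (s - 1 + |S|))`, `t0 l^m l^(Σ c v) = t1 l^(m |S|)` (`s ≥ 1`), and `∏_(v ∈ S) (l^m / l^(c v)) l^(Σ c v) = l^(m |S|)`. -/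
def Sh_HSU : Prop := ∀ (k K : Type) [Field k] [NumberField k] [Field K] [NumberField K]
  [Algebra k K] (l m : ℕ) (σ : K ≃ₐ[k] K), l.Prime → Cyc (l ^ m) σ → TC k →
  ∀ S : Finset (HeightOneSpectrum (𝓞 k)),
  t0 (l ^ m) (su σ) (EU (abv k K (S : Set (HeightOneSpectrum (𝓞 k))))) ⊥ ≠ 0 ∧
  t0 (l ^ m) (su σ) (EU (abv k K (S : Set (HeightOneSpectrum (𝓞 k))))) ⊥ * l ^ m =
    t1 (l ^ m) (su σ) (EU (abv k K (S : Set (HeightOneSpectrum (𝓞 k))))) ⊥ *
      ∏ v ∈ S, (l ^ m / gpr k K v)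

/-- (T1E) `Ĥ⁻¹` of the `S`-units is trivial.

USES ORG, ORN, ORD. PROOF. `u ∈ E = EU (abv S)`, `NN n (su σ) u = 1`, so `Algebra.norm k u = 1` (ORN). Hilbert 90 (`groupCohomology.exists_div_of_norm_eq_one`): `u = σ y / y` (replace `y` by `y⁻¹`). For `w` not above `S`: `ord w (σ y) = ord w y`, so the order of `y` is constant on the orbits of `π` (ORG): `ord w y = c v` for all
`w | v`, `v ∉ S`, `c` of finite support (ORD). `GenT S` gives `x_v ∈ kˣ`; `x = ∏ x_v^(c v)`, `ord w (iu x) = ord v x = c v` for `w | v ∉ S` (`Unr`). So `y' = y / iu x ∈ E` and `σ y' / y' = u`: `u ∈ E.map (DD (su σ))`. -/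
def Sh_T1E : Prop := ∀ (k K : Type) [Field k] [NumberField k] [Field K] [NumberField K]
  [Algebra k K] (n : ℕ) (σ : K ≃ₐ[k] K), Cyc n σ →
  ∀ S : Finset (HeightOneSpectrum (𝓞 k)), (∀ v ∉ S, Unr k K v) →
  GenT (S : Set (HeightOneSpectrum (𝓞 k))) →
  t1 n (su σ) (EU (abv k K (S : Set (HeightOneSpectrum (𝓞 k))))) ⊥ = 1

/-- (SUN) the index of the norms of `S`-units.

USES HSU, T1E, ORN. PROOF. `t0 = [E ⊓ ker D : N E]`; `E ⊓ ker D = iu (E_k)`, `E_k = EU S` (ORN: fixed elements are in `k`; orders: `ord w (iu x) = e ord v x`; every `v` has a `w` above it), `NN z = iu (nu z)`: `iu` is injective, so `t0 = (E.map nu).relIndex E_k`. -/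
def Sh_SUN : Prop := ∀ (k K : Type) [Field k] [NumberField k] [Field K] [NumberField K]
  [Algebra k K] (l m : ℕ) (σ : K ≃ₐ[k] K), l.Prime → Cyc (l ^ m) σ → TC k →
  ∀ S : Finset (HeightOneSpectrum (𝓞 k)), (∀ v ∉ S, Unr k K v) →
  GenT (S : Set (HeightOneSpectrum (𝓞 k))) →
  ((EU (abv k K (S : Set (HeightOneSpectrum (𝓞 k))))).map (nu k K)).relIndex
      (EU (S : Set (HeightOneSpectrum (𝓞 k)))) * l ^ m = ∏ v ∈ S, (l ^ m / gpr k K v)

/-! ## 4. The local part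

`v` a prime of `k`, `R = {x ∈ k : v(x) ≤ 1}`, `B = {x ∈ K : w(x) ≤ 1 for all w | v}`, `π ∈ k` of order 1 at
`v`, `θ` a normal basis, `Λ = Σ_i R σ^i θ ⊆ B`. `Lam v σ θ x`: `x ∈ Λ`. -/

/-- `x` is integral at all primes above `v` -/
def IntV (k K : Type) [Field k] [NumberField k] [Field K] [NumberField K] [Algebra k K]
    (v : HeightOneSpectrum (𝓞 k)) (x : K) : Prop :=
  ∀ w : HeightOneSpectrum (𝓞 K), Lies k K v w → w.valuation K x ≤ 1

/-- `x ∈ Λ = Σ_(i < n) R σ^i θ` -/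
def Lam {k K : Type} [Field k] [NumberField k] [Field K] [NumberField K] [Algebra k K]
    (n : ℕ) (v : HeightOneSpectrum (𝓞 k)) (σ : K ≃ₐ[k] K) (θ x : K) : Prop :=
  ∃ c : ℕ → k, (∀ i, v.valuation k (c i) ≤ 1) ∧
    x = ∑ i ∈ Finset.range n, algebraMap k K (c i) * (⇑σ)^[i] θ

/-- (NBL) a normal basis and its lattice.

USES ORN. PROOF. `IsGalois.normalBasis`: `θ₀` whose conjugates `σ^i θ₀`, `i < n`, are a basis of `K / k`. `π ∈ k` with `v.valuation k π = exp(-1)` (`valuation_exists_uniformizer`). `θ = π^a θ₀` is integral above `v` for large `a` (finitely many `w | v`, `w(π) < 1`). The coordinates of an `x ∈ K`: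
`x = Σ c_i σ^i θ`; applying `Tr(σ^j θ ·)`: `Tr(σ^j θ x) = Σ_i c_i Tr(σ^j θ σ^i θ)`, a linear system with matrix `T` over `R` and determinant `d ≠ 0` (`Algebra.discr_not_zero_of_basis`, the discriminant of the basis); for `x` integral above `v` the left sides are in `R` (the trace of an element of `B` is in `R`: it is in `k` and
integral above `v`, and `v(y) ≤ 1` iff `w(y) ≤ 1` for `y ∈ k`). Cramer: `d c_i ∈ R`. `c` = the order of `d` at `v`. -/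
def Sh_NBL : Prop := ∀ (k K : Type) [Field k] [NumberField k] [Field K] [NumberField K]
  [Algebra k K] (n : ℕ) (σ : K ≃ₐ[k] K), Cyc n σ → ∀ v : HeightOneSpectrum (𝓞 k),
  ∃ (π : kˣ) (θ : K) (c : ℕ), ord v π = 1 ∧ IntV k K v θ ∧
    (∀ a : ℕ → k, ∑ i ∈ Finset.range n, algebraMap k K (a i) * (⇑σ)^[i] θ = 0 →
      ∀ i < n, a i = 0) ∧
    (∀ x : K, ∃ a : ℕ → k, x = ∑ i ∈ Finset.range n, algebraMap k K (a i) * (⇑σ)^[i] θ) ∧
    ∀ x : K, IntV k K v x → Lam n v σ θ (algebraMap k K (π : k) ^ c * x)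

/-- the data of (NBL) -/
structure NB {k K : Type} [Field k] [NumberField k] [Field K] [NumberField K] [Algebra k K]
    (n : ℕ) (σ : K ≃ₐ[k] K) (v : HeightOneSpectrum (𝓞 k)) (π : kˣ) (θ : K) (c : ℕ) : Prop where
  pi : ord v π = 1
  int : IntV k K v θ
  indep : ∀ a : ℕ → k, ∑ i ∈ Finset.range n, algebraMap k K (a i) * (⇑σ)^[i] θ = 0 →
    ∀ i < n, a i = 0
  span : ∀ x : K, ∃ a : ℕ → k, x = ∑ i ∈ Finset.range n, algebraMap k K (a i) * (⇑σ)^[i] θ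
  lam : ∀ x : K, IntV k K v x → Lam n v σ θ (algebraMap k K (π : k) ^ c * x)

/-- `V_M = {x ∈ Kˣ : x = 1 + π^M a, a ∈ Λ}` as a set -/
def InVM {k K : Type} [Field k] [NumberField k] [Field K] [NumberField K] [Algebra k K]
    (n : ℕ) (σ : K ≃ₐ[k] K) (v : HeightOneSpectrum (𝓞 k)) (π : kˣ) (θ : K) (M : ℕ) (x : Kˣ) :
    Prop :=
  ∃ a : K, Lam n v σ θ a ∧ (x : K) = 1 + algebraMap k K (π : k) ^ M * a

/-- (VGP) `V_M` is a group, stable under `σ`, for large `M`, and of finite index in the units at `v`.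

USES ORG, ORD. PROOF. `π' = algebraMap π`. `Λ ⊆ B` (`B` is a ring, stable under `σ`; `R ⊆ B`), `R Λ ⊆ Λ`, `σ Λ ⊆ Λ` (`σ^n = id`), `π'^c B ⊆ Λ`. `M ≥ c + 1`. `(1 + π'^M a)(1 + π'^M b) = 1 + π'^M (a + b + π'^M a b)`, `π'^M a b ∈ Λ`. `x = 1 + π'^M a ∈ Kˣ`: `π'^M a` has valuation `< 1` at the `w | v`, so `ord w x = 0`, `x⁻¹ ∈ B`,
`x⁻¹ = 1 - π'^M a x⁻¹ = 1 - π'^M (a - π'^M a² x⁻¹)`, in `V_M`. Finite index in `U = {x : ord w x = 0 for all w | v}`: `x, y ∈ U` with `x ≡ y` modulo `π'^(M + c) B` have `x/y = 1 + (x - y)/y ∈ 1 + π'^(M+c) B ⊆ V_M`; `B / π'^(M+c) B` is finite: every class of `B` contains an element of `𝓞 K` (an `x ∈ B` is `y/s`, `y ∈ 𝓞 K`, `s ∈ 𝓞 K`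
a unit at all `w | v`; `s` is invertible modulo a power of the product of the `w | v`), and `𝓞 K / (π₀)` is finite, where `π₀ ∈ 𝓞 K` is nonzero and divisible by `∏_(w|v) w^N`, `N` large. -/
def Sh_VGP : Prop := ∀ (k K : Type) [Field k] [NumberField k] [Field K] [NumberField K]
  [Algebra k K] (n : ℕ) (σ : K ≃ₐ[k] K), Cyc n σ →
  ∀ (v : HeightOneSpectrum (𝓞 k)) (π : kˣ) (θ : K) (c : ℕ), NB n σ v π θ c →
  ∀ M : ℕ, c + 1 ≤ M → ∃ V U : Subgroup Kˣ, (∀ x, x ∈ V ↔ InVM n σ v π θ M x) ∧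
    (∀ x, x ∈ U ↔ ∀ w, Lies k K v w → ord w x = 0) ∧ V ≤ U ∧ Stb (su σ) V ∧ Stb (su σ) U ∧
    V.relIndex U ≠ 0

/-- (VST) one step of the approximation.

USES VGP. PROOF. `u = σ α/α = 1 + π'^M a`, `a ∈ Λ`. `∏_(i<n) σ^i u = 1`: expand modulo `π'^(M+1) Λ` (`π'^(2M) B ⊆ π'^(M+1) Λ` as `M ≥ c + 1`): `Tr a = Σ σ^i a ∈ π' Λ`. `a = Σ c_i σ^i θ` (`c_i ∈ R`): `Tr a = (Σ c_i) Σ σ^i θ`, so `Σ c_i ∈ π R` (NB.indep). Choose `b = Σ b_i σ^i θ`, `b_i ∈ R`, with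
`σ b - b ≡ a` modulo `π' Λ`: `b_(i-1) - b_i ≡ c_i` (indices modulo `n`): `b_(n-1) = 0`, `b_0 = -c_0`, `b_i = b_(i-1) - c_i = -(c_0 + .. + c_i)`, and `b_(n-1) = -Σ c_i ≡ 0`. Let `x = 1 + π'^M b` (nonzero: `ord = 0` at `w | v`), `x ∈ V_M`, `α' = α / x`: `σ α'/α' = u x / σ x`, and `u x/σ x - 1 = (u x - σ x)/σ x`,
`u x - σ x = π'^M (a + b - σ b) + π'^(2M) a b ∈ π'^(M+1) Λ`, and `1/σ x = 1 - π'^M (..)`, `(..) ∈ B`: the quotient is in `π'^(M+1) Λ + π'^(2M+1) B ⊆ π'^(M+1) Λ`. -/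
def Sh_VST : Prop := ∀ (k K : Type) [Field k] [NumberField k] [Field K] [NumberField K]
  [Algebra k K] (n : ℕ) (σ : K ≃ₐ[k] K), Cyc n σ →
  ∀ (v : HeightOneSpectrum (𝓞 k)) (π : kˣ) (θ : K) (c : ℕ), NB n σ v π θ c →
  ∀ M : ℕ, c + 1 ≤ M → ∀ α : Kˣ, InVM n σ v π θ M (su σ α / α) →
    ∃ x : Kˣ, InVM n σ v π θ M x ∧ InVM n σ v π θ (M + 1) (su σ (α / x) / (α / x))

/-- (STR) an element which is invariant modulo `V_M` is in `kˣ V_M`.

USES VST, VGP, ORG. PROOF. Iterate (VST) (`V_(M+1) ≤ V_M`): for every `N ≥ M` there is `x ∈ V_M` with `β = α/x`, `σ β/β ∈ V_N`. `σ β - β = β (σβ/β - 1) ∈ π'^N β Λ`. `β/α ∈ V_M` has order `0` at `w | v`, so with `d` such that `π'^d α`, `π'^d α⁻¹ ∈ B` also `π'^d β, π'^d β⁻¹ ∈ B`: `σ β - β ∈ π'^(N-d) B ⊆ π'^(N-d-c) Λ`. `β = Σ c_i σ^i θ` (NB.span):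
`σ β - β = Σ (c_(i-1) - c_i) σ^i θ`, so `c_(i-1) - c_i ∈ π^(N-d-c) R` (indep), `β ≡ y' := c_0 Σ σ^i θ` modulo `π'^(N-d-c) Λ`; `y' ∈ K` is fixed by `σ`: `y' = algebraMap y` (ORN). `y'/β - 1 = (y' - β)/β ∈ π'^(N-d-c) β⁻¹ Λ ⊆ π'^(N-2d-c) B ⊆ π'^(N-2d-2c) Λ ⊆ π'^M Λ` for `N = M + 2d + 2c`; it has valuation `< 1`, so `y' ≠ 0`. So
`y'/β ∈ V_M`, `α/y' = x β/y' ∈ V_M`. -/
def Sh_STR : Prop := ∀ (k K : Type) [Field k] [NumberField k] [Field K] [NumberField K]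
  [Algebra k K] (n : ℕ) (σ : K ≃ₐ[k] K), Cyc n σ →
  ∀ (v : HeightOneSpectrum (𝓞 k)) (π : kˣ) (θ : K) (c : ℕ), NB n σ v π θ c →
  ∀ M : ℕ, c + 1 ≤ M → ∀ α : Kˣ, InVM n σ v π θ M (su σ α / α) →
    ∃ y : kˣ, InVM n σ v π θ M (α / iu k K y)

/-- (KMU) the Herbrand quotient of `Kˣ / U`, `U` the units at `v`.

USES ORG, ORD, ORN. PROOF. `X` = the `g = gpr` primes above `v`, `ν : Kˣ → ℤ^X`, surjective (ORD (4)), kernel `U`. `x` with `D x ∈ U`: `ord w (σ x) = ord w x`: the orders are constant on `X` (ORG). `NN x`: `ord w = (n/g) Σ_(w' ∈ X) ord w' x`. So `H0 ≅ ℤ / (n/g)`: `t0 * g = n`. `H1`: `NN x ∈ U` iff `Σ_X ord w x = 0` iff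
`ν(x) = π f - f` for some `f : X → ℤ` (a cycle: `f` the partial sums), iff `x ∈ D(Kˣ) U`. So `t1 = 1`. -/
def Sh_KMU : Prop := ∀ (k K : Type) [Field k] [NumberField k] [Field K] [NumberField K]
  [Algebra k K] (n : ℕ) (σ : K ≃ₐ[k] K), Cyc n σ →
  ∀ (v : HeightOneSpectrum (𝓞 k)) (U : Subgroup Kˣ),
  (∀ x, x ∈ U ↔ ∀ w, Lies k K v w → ord w x = 0) →
  t0 n (su σ) ⊤ U * gpr k K v = n ∧ t1 n (su σ) ⊤ U = 1

/-- (LOC) the local first inequality.

USES HQ, FIN, NBL, VGP, STR, KMU, ORN. PROOF. `M = c + 1`, `V`, `U` from (VGP). (HQ) for `V ≤ U ≤ ⊤`, with (FIN) for `U / V` and (KMU): `t0(⊤, V) = t1(⊤, V) t0(⊤, U)`, not `0`, so `t0(⊤, V) g ≥ n`. `W = {x ∈ kˣ : ∃ z, iu x / NN z ∈ V} = (V ⊔ range NN).comap iu`. By (STR) the map `kˣ → (⊤ ⊓ V.comap D)/(⊤.map N ⊔ V)`, `x ↦ iu x`, is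
surjective, with kernel `W`, so `W.index = t0(⊤, V)`. `nu z ∈ W` (ORN: `iu (nu z) = NN z`). Open: `x ∈ kˣ`, `v(x - 1) ≤ exp(-(M + c))`: `x - 1 = π^(M + c) y`, `y ∈ R ⊆ B`, `π'^c y ∈ Λ`, so `iu x ∈ V`. -/
def Sh_LOC : Prop := ∀ (k K : Type) [Field k] [NumberField k] [Field K] [NumberField K]
  [Algebra k K] (n : ℕ) (σ : K ≃ₐ[k] K), Cyc n σ → ∀ v : HeightOneSpectrum (𝓞 k),
  ∃ W : Subgroup kˣ, LocN n K v W

/-- (LOU) the unramified case: all units at `v` are allowed.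

USES ORN, ORG, ORD. PROOF. `W = {x ∈ kˣ : n/g ∣ ord v x}`, of index `n/g` (`ord v` is onto `ℤ`). `ord v (nu z) ∈ (n/g) ℤ` (ORN). Open with `M = 1`. `n = (n/g) g`. -/
def Sh_LOU : Prop := ∀ (k K : Type) [Field k] [NumberField k] [Field K] [NumberField K]
  [Algebra k K] (n : ℕ) (σ : K ≃ₐ[k] K), Cyc n σ → ∀ v : HeightOneSpectrum (𝓞 k),
  Unr k K v → ∃ W : Subgroup kˣ, LocN n K v W ∧ ∀ x : kˣ, ord v x = 0 → x ∈ W

/-! ## 5. The global part -/

/-- (IXW) the index of the intersection.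

USES WAP. PROOF. `kˣ → ∏_(v ∈ S) kˣ / W v` has the kernel `⋂ W v` and is surjective: (WAP) with `M` the maximum of the numbers `opn`: `x ≡ y_v` modulo `W v`. `Subgroup.index_iInf..` or a direct count; induction on `S` is also possible (`[kˣ : A ∩ B] = [kˣ : A][kˣ : B]` if `A B = kˣ`). -/
def Sh_IXW : Prop := ∀ (k K : Type) [Field k] [NumberField k] [Field K] [NumberField K]
  [Algebra k K] (n : ℕ) (S : Finset (HeightOneSpectrum (𝓞 k)))
  (W : HeightOneSpectrum (𝓞 k) → Subgroup kˣ), (∀ v ∈ S, LocN n K v (W v)) →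
  (⨅ v ∈ S, W v).index = ∏ v ∈ S, (W v).index

/-- (NON) the first inequality.

USES IXW, SUN, ORG. PROOF. `W' = ⨅ W v`, `E_k = EU S`, `E = EU (abv S)`. `[kˣ : W'] = ∏ [kˣ : W v]` is not `0`. `[kˣ : W'] = [kˣ : W' E_k] [W' E_k : W']`, `[W' E_k : W'] = [E_k : E_k ⊓ W'] ≤ [E_k : N E]` (`N E ≤ W' ⊓ E_k`; `[E_k : N E] ≠ 0` by (SUN)). `[kˣ : W v] ≥ n/g_v` (`n = l^m ≤ index * g_v`, `g_v ∣ n`). So
`[kˣ : W' E_k] [E_k : N E] ≥ ∏ (n/g_v) = [E_k : N E] n` (SUN). -/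
def Sh_NON : Prop := ∀ (k K : Type) [Field k] [NumberField k] [Field K] [NumberField K]
  [Algebra k K] (l m : ℕ) (σ : K ≃ₐ[k] K), l.Prime → Cyc (l ^ m) σ → TC k →
  ∀ S : Finset (HeightOneSpectrum (𝓞 k)), (∀ v ∉ S, Unr k K v) →
  GenT (S : Set (HeightOneSpectrum (𝓞 k))) →
  ∀ W : HeightOneSpectrum (𝓞 k) → Subgroup kˣ, (∀ v ∈ S, LocN (l ^ m) K v (W v)) →
  ((⨅ v ∈ S, W v) ⊔ EU (S : Set (HeightOneSpectrum (𝓞 k)))).index ≠ 0 ∧
  l ^ m ≤ ((⨅ v ∈ S, W v) ⊔ EU (S : Set (HeightOneSpectrum (𝓞 k)))).index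

/-- (SEX) a finite set of primes which generates both class groups.

USES ORD, ORG. PROOF. The class group of `F` is finite; choose for every class a nonzero ideal in it and let `T` contain the prime factors of these ideals. Then `GenT T'` for all finite `T' ⊇ T`: for `w ∉ T'` the class of `w⁻¹` contains an ideal `J` with all prime factors in `T`, `w J = (x)`: `ord w x = 1`, `ord w' x = 0` for
`w' ∉ T'`, `w' ≠ w`. (The order of `x ∈ 𝓞 F` at `w` is the multiplicity of `w` in `(x)`.) `S` = `S₀`, the set for `k`, and the primes of `k` below the set for `K`. -/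
def Sh_SEX : Prop := ∀ (k K : Type) [Field k] [NumberField k] [Field K] [NumberField K]
  [Algebra k K] (S₀ : Finset (HeightOneSpectrum (𝓞 k))),
  ∃ S : Finset (HeightOneSpectrum (𝓞 k)), S₀ ⊆ S ∧ GenT (S : Set (HeightOneSpectrum (𝓞 k))) ∧
    GenT (abv k K (S : Set (HeightOneSpectrum (𝓞 k))))

/-- (PSI) the map from the ideals prime to `S` onto `kˣ / Wt`, for every subgroup `Wt` which contains the
`S`-units and the norms.

USES ORD, ORN, ORG. PROOF. For a nonzero ideal `a` prime to `S` (not contained in a `v ∈ S`) let `a_v` be the multiplicity of `v` in `a` (`(Associates.mk v.asIdeal).count ..`, `emultiplicity`, or `FractionalIdeal.count`); `GenT S` gives `x_v ∈ kˣ`, `x_a = ∏_(v ∉ S) x_v^(a_v)`: `ord v x_a = a_v` for all `v ∉ S`. `ψ a` = the class of `x_a`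
(it is the class of every `x` with `ord v x = a_v` for all `v ∉ S`, as two of them differ by an `S`-unit). (1) multiplicative. (2) `x ∈ 𝓞 k`, prime to `S`: `ψ (x) = [x]`. (3) surjective: `x ∈ kˣ`; let `h`, `w`: choose `N` with `N + ord v x ≥ 0` for all `v ∉ S` in the support; we need `y ∈ Wt` with `ord v (x y) ≥ 0` for all
`v ∉ S`: `v^h = (t_v)`, `Wt` contains the norms, so the `n`-th powers `nu (iu t) = t^n`; `y = ∏ t_v^(n N)` over the `v ∉ S` with `ord v x < 0`. Then `a = ∏_(v ∉ S) v^(ord v (x y))`, `ψ a = [x y] = [x]`. (4) `v ∉ S`, `w | v` with the same norm: `GenT (abv S)`: `z ∈ Kˣ` with `ord w z = 1`, `ord w' z = 0` for the other `w' ∉ abv S`; by (ORN)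
`ord v (nu z) = 1`, `ord v' (nu z) = 0` for `v' ∉ S`, `v' ≠ v`. So `ψ v = [nu z] = 1`. -/
def Sh_PSI : Prop := ∀ (k K : Type) [Field k] [NumberField k] [Field K] [NumberField K]
  [Algebra k K] (n : ℕ) (σ : K ≃ₐ[k] K), n ≠ 0 → Cyc n σ →
  ∀ S : Finset (HeightOneSpectrum (𝓞 k)), GenT (S : Set (HeightOneSpectrum (𝓞 k))) →
  GenT (abv k K (S : Set (HeightOneSpectrum (𝓞 k)))) →
  ∀ Wt : Subgroup kˣ, EU (S : Set (HeightOneSpectrum (𝓞 k))) ≤ Wt → (∀ z : Kˣ, nu k K z ∈ Wt) →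
  ∃ ψ : Ideal (𝓞 k) → kˣ ⧸ Wt,
    (∀ a b : Ideal (𝓞 k), a ≠ ⊥ → b ≠ ⊥ → (∀ v ∈ S, ¬ a ≤ v.asIdeal) →
      (∀ v ∈ S, ¬ b ≤ v.asIdeal) → ψ (a * b) = ψ a * ψ b) ∧
    (∀ (x : kˣ) (y : 𝓞 k), (y : k) = x → (∀ v ∈ S, y ∉ v.asIdeal) →
      ψ (Ideal.span {y}) = QuotientGroup.mk x) ∧
    (∀ g : kˣ ⧸ Wt, ∃ a : Ideal (𝓞 k), a ≠ ⊥ ∧ (∀ v ∈ S, ¬ a ≤ v.asIdeal) ∧ ψ a = g) ∧
    ∀ v ∉ S, Deg1 k K v → ψ v.asIdeal = 1

/-- (JT1) the first inequality for cyclic extensions of prime power degree.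

USES RMF, SEX, LOC, NON, PSI, ORD. PROOF. `S₀` from (RMF), `S` from (SEX), `W v` from (LOC), `Wt = (⨅ W v) ⊔ EU S`, of index `≥ l^m`, finite (NON). `A = kˣ ⧸ Wt`. `M v` from `opn`; `f = ∏_(v ∈ S) v^(M v + 1)`. Coprime to `f` means prime to `S`. `x, y ∈ 𝓞 k` nonzero, `x - y ∈ f`, `x` prime to `f`: then `y` is prime to `f`,
`v(x/y - 1) = v(x - y) ≤ exp(-M v)`, so `x/y ∈ W v` for all `v ∈ S`. (`1 ≤ M v + 1` makes the support of `f` the set `S`.) -/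
def Sh_JT1 : Prop := ∀ (k K : Type) [Field k] [NumberField k] [Field K] [NumberField K]
  [Algebra k K] (l m : ℕ) (σ : K ≃ₐ[k] K), l.Prime → Cyc (l ^ m) σ → TC k →
  ∃ (f : Ideal (𝓞 k)) (A : Type) (_ : CommGroup A) (_ : Finite A) (ψ : Ideal (𝓞 k) → A),
    f ≠ ⊥ ∧ l ^ m ≤ Nat.card A ∧
    (∀ a b : Ideal (𝓞 k), a ≠ ⊥ → b ≠ ⊥ → IsCoprime a f → IsCoprime b f →
      ψ (a * b) = ψ a * ψ b) ∧
    (∀ x y : 𝓞 k, x ≠ 0 → y ≠ 0 → IsCoprime (Ideal.span {x}) f → x - y ∈ f →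
      ψ (Ideal.span {x}) = ψ (Ideal.span {y})) ∧
    (∀ g : A, ∃ a : Ideal (𝓞 k), a ≠ ⊥ ∧ IsCoprime a f ∧ ψ a = g) ∧
    ∀ v : HeightOneSpectrum (𝓞 k), IsCoprime v.asIdeal f → Deg1 k K v → ψ v.asIdeal = 1

/-- (FIQ) the first inequality for unramified cyclic extensions of prime power degree.

USES SEX, LOU, NON, PSI, ORD. PROOF. `S` from (SEX) (`S₀ = ∅`), `W v` from (LOU), `Wt` as in (JT1): `x ∈ kˣ` with `ord v x = 0` for all `v ∈ S` is in `⨅ W v ≤ Wt`. Every class of `ClassGroup (𝓞 k)` contains an ideal `a` prime to `S` (Mathlib or (ORD (4)): multiply by an element with given orders at `S`). `Ψ [a] = ψ a` is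
well defined: `a, a'` prime to `S`, `x a = y a'`: choose `b` prime to `S` in the inverse class: `a b = (z)`, `a' b = (z')`, `z, z' ∈ 𝓞 k` prime to `S`, `ψ a ψ b = [z]`, `ψ a' ψ b = [z']`, `z/z'` has order `0` at `S`, so `[z] = [z']`. `Ψ` is a homomorphism of `ClassGroup (𝓞 k)` onto `kˣ ⧸ Wt`; `U` = its kernel, of index
`|kˣ ⧸ Wt| ≥ l^m`; for `v ∉ S` with `Deg1`: `Ψ [v] = ψ v = 1`. -/
def Sh_FIQ : Prop := ∀ (k K : Type) [Field k] [NumberField k] [Field K] [NumberField K]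
  [Algebra k K] (l m : ℕ) (σ : K ≃ₐ[k] K), l.Prime → Cyc (l ^ m) σ → TC k →
  (∀ v : HeightOneSpectrum (𝓞 k), Unr k K v) →
  ∃ (U : Subgroup (ClassGroup (𝓞 k))) (S : Finset (HeightOneSpectrum (𝓞 k))),
    l ^ m ≤ U.index ∧ ∀ v ∉ S, Deg1 k K v →
      ClassGroup.mk0 ⟨v.asIdeal, mem_nonZeroDivisors_of_ne_zero v.ne_bot⟩ ∈ U

end Pool.Agent.HB
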