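import Pool.Agent.HB.StHB
import Pool.Agent.MUX.StXC
import Pool.Agent.MUX.StJX
import Pool.Agent.MUX.StXE
import Pool.Agent.MUX.ZUni

/-!
# JT: every finite abelian extension of `k` is contained in a ray class field (helper3)

`k = kk A B` imaginary quadratic, `RF f` the ray class fields with their properties `TorX A B` (which hold:
`Pool.Agent.MUXC.c_TOR`). Every `def Sj_X : Prop` is the statement of a module; it is proved as
`theorem tj_X (h : ..) .. : Sj_X` in `Pool/Agent/HB/J_X.lean`, namespace `Pool.Agent.JT`, where the hypotheses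
are the statements named after USES (or fewer). Theorems which are already on main may be cited.

PLAN. `E / k` cyclic of degree `n = l^m`. (JT1) gives `f`, a group `A'` of order `≥ n` and a map `ψ` of the ideals
prime to `f` onto `A'`. `ψ` factors through `Ψ : Gal(RF f / k) → A'` (PHJ). `L` = the fixed field of its kernel,
`[L : k] = |A'| ≥ n`. By the theorem of Frobenius all automorphisms of `ℂ` which fix `E` fix `L` (FRJ). So
`L ≤ E`, `L = E ≤ RF f`.
-/

set_option autoImplicit false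

open NumberField IsDedekindDomain
open scoped nonZeroDivisors Pointwise

namespace Pool.Agent.JT

open _root_.MU3 Pool.Agent.MU3A Pool.Agent.RI Pool.Agent.MUX Pool.Agent.MUXJ Pool.Agent.HB

/-- a homomorphism from the ideals prime to `f` onto `A'` which is trivial on the ray modulo `f` -/
structure RayHom {A B : ℤ} (f : Ideal (OO A B)) (A' : Type) [CommGroup A']
    (ψ : Ideal (OO A B) → A') : Prop where
  mul : ∀ a b : Ideal (OO A B), a ≠ ⊥ → b ≠ ⊥ → IsCoprime a f → IsCoprime b f →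
    ψ (a * b) = ψ a * ψ b
  ray : ∀ x y : OO A B, x ≠ 0 → y ≠ 0 → IsCoprime (sp x) f → x - y ∈ f → ψ (sp x) = ψ (sp y)
  sur : ∀ g : A', ∃ a : Ideal (OO A B), a ≠ ⊥ ∧ IsCoprime a f ∧ ψ a = g

/-- some prime of `E` of norm `q` lies above the ideal `Q` -/
def AbvQ {A B : ℤ} (E : IntermediateField ℚ ℂ) (Q : Ideal (OO A B)) (q : ℕ) : Prop :=
  ∃ P : Ideal (𝓞 E), P.IsPrime ∧ Nat.card (𝓞 E ⧸ P) = q ∧
    ∀ (x : OO A B) (y : 𝓞 E), ((y : E) : ℂ) = emb x → (x ∈ Q ↔ y ∈ P)

/-- `E / k` is cyclic of degree `n` -/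
def CycE {A B : ℤ} {E : IntermediateField ℚ ℂ} (hk : kk A B ≤ E) (n : ℕ) : Prop :=
  letI := algC hk
  IsGalois (kk A B) E ∧ IsCyclic (E ≃ₐ[kk A B] E) ∧ Module.finrank (kk A B) E = n

/-- (JTA) the first inequality in terms of the ring `O = OO A B`.

USES Sh_JT1; `xe_RNG : RingE A B` (`MUX/EXAll.lean`), `j_FLD` (`MUX/JAll.lean`). PROOF. The ring isomorphism `φ : OO A B ≃+* 𝓞 (kk A B)`, `x ↦ emb x` (`RingE.int`, `hom`, `inj0`). `kk A B` is totally complex: it contains the nonreal number `wC A B` and has degree 2: every embedding maps `wC` to `wC` or its conjugate. `E` with `algC hk`; a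
generator `σ` of the cyclic group gives `Cyc (l^m) σ`. Transport `f`, `ψ` along `φ` (`Ideal.map`/`comap` of a ring isomorphism preserves `≠ ⊥`, products, coprimality, `span`). Last property: `Q` a prime of norm `q`, `v` = the corresponding prime of `𝓞 (kk A B)`, `absNorm v = q` (`nI Q = Nat.card (OO ⧸ Q)`), the prime `P` of `𝓞 E` lies above `v`:
`P.under = v` and has the same norm: `Deg1`. -/
def Sj_JTA : Prop := ∀ (A B : ℤ), CQ A B → ∀ (E : IntermediateField ℚ ℂ) [FiniteDimensional ℚ E]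
    (hk : kk A B ≤ E) (l m : ℕ), l.Prime →
    CycE hk (l ^ m) →
    ∃ (f : Ideal (OO A B)) (A' : Type) (_ : CommGroup A') (_ : Finite A')
      (ψ : Ideal (OO A B) → A'), f ≠ ⊥ ∧ l ^ m ≤ Nat.card A' ∧ RayHom f A' ψ ∧
      ∀ (Q : Ideal (OO A B)) (q : ℕ), q.Prime → Q.IsPrime → nI Q = q → IsCoprime Q f →
        AbvQ E Q q → ψ Q = 1

/-- (PHJ) the map factors through the Galois group of the ray class field.

USES `Su_AUE` (`u_AUE` in `MUX/UAll.lean`: extension of automorphisms to `ℂ`). PROOF. `T : TorX A B`, a normalised lattice `L₀` exists. For `s : Aut(ℂ)`, `FixK s`, say `a` is an ideal of `s` if `ActI s f a L₀ L' mu` for some `L'`, `mu`, `L'` normalised (`IsNL b' L' om'`); it exists (`T.act`; two normalised lattices with the same `kap` are the same lattice: `u_DET`, `c_SGQ`, so `L'` may be exchanged), is `≠ ⊥` (`IsQ ⊥ L L' mu` would mean `mu z ∈ L'` for all `z`), prime to `f`.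
(i) Two ideals `a, a'` of the same `s`: `T.uniq`: `sp x * a = sp y * a'`, `x - y ∈ f`, `x` (so also `y`) prime to `f`: `ψ a = ψ a'`. `T.act` gives one ideal for all lattices, so by `T.comp` (i) `a` an ideal of `s`, `b` of `t`: `a * b` is an ideal of `s.trans t` up to (i): `ψ` of the ideals of `s.trans t` is `ψ a * ψ b`. (ii) `s, s'` agree on `RF f`: `t = s.symm.trans s'`
(`t (s y) = s' y = s y`, and `RF f` is stable under `s`, as it is normal) is trivial on `RF f`, its ideal is `sp c` with `c - 1 ∈ f` (`T.triv`), `ψ (sp c) = ψ (sp 1) = 1`, `s' = s.trans t`: the same `ψ`. So `Ψ τ = ψ a` for any `s` which extends `τ` (`u_AUE`; `RF f` is algebraic over `ℚ`) is well defined and a homomorphism (the group is commutative, so the order of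
composition does not matter). Onto: `g = ψ a`, `T.surj f a` gives `s`, its restriction to the normal extension `RF f` is `τ` (`s` fixes `kk A B` elementwise: `FixK`). -/
def Sj_PHJ : Prop := ∀ (A B : ℤ), CQ A B → TorX A B → NLex A B →
    ∀ (f : Ideal (OO A B)) (A' : Type) [CommGroup A'] (ψ : Ideal (OO A B) → A'), f ≠ ⊥ →
    RayHom f A' ψ →
    ∃ Ψ : ((RF f : IntermediateField (kk A B) ℂ) ≃ₐ[kk A B] RF f) →* A',
      Function.Surjective Ψ ∧
      ∀ (τ : (RF f : IntermediateField (kk A B) ℂ) ≃ₐ[kk A B] RF f) (s : ℂ ≃+* ℂ), FixK A B s →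
        (∀ y : (RF f : IntermediateField (kk A B) ℂ), s (y : ℂ) = ((τ y : _) : ℂ)) →
        ∀ (a b b' : Ideal (OO A B)) (L L' : PeriodPair) (om om' mu : ℂ), IsNL b L om →
          IsNL b' L' om' → ActI s f a L L' mu → Ψ τ = ψ a

/-- (FRQ) the theorem of Frobenius, in the form needed: every automorphism `g` of `N / ℚ` is, up to a generator of the
same cyclic group, the Frobenius automorphism `φ` of a prime of `N` above a prime number `q` outside a finite set.

USES `RI.FROB_thm` (`RI/FROB.lean`), `Sv_EXT` (`MU3V.v_EXT` / `MU3X.v_EXT` in `MU3/AVAll.lean`), `Sw_LOC` (`MU3X.w_LOC`). PROOF. (FROB): infinitely many prime numbers `q` (`PosDensity`: a finite set has bounded sum) with a prime `P ∋ q` of `𝓞 N` whose stabilizer is `⟨g⟩`; choose `q ∤ n₀` and unramified in `N` (finitely many ramified primes, `RI`). Let `φ` be an arithmetic Frobenius at `P`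
(`IsArithFrobAt`, exists for `Gal(N/ℚ)`); it is in the stabilizer, and generates it as `P` is unramified (`RI`: look for the lemma, inertia group trivial, the residue field extension is generated by Frobenius), so `⟨φ⟩ = ⟨g⟩`: `g = φ^i`, `φ = g^j`. `V` extends `P` (EXT), (LOC): `v(φ x - x^q) < 1` for `x ∈ N ∩ V`. The last property: `D ≤ N` a subfield fixed by `g`,
so by `φ`: for `x ∈ 𝓞 D`: `x^q - x = x^q - φ x ∈ P`; `𝓞 D ⧸ (P ∩ 𝓞 D)` is a finite field in which `x^q = x`: it has `q` elements (a polynomial of degree `q` has at most `q` roots; it contains `𝔽_q`). -/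
def Sj_FRQ : Prop := ∀ (N : IntermediateField ℚ ℂ) [FiniteDimensional ℚ N] [IsGalois ℚ N]
    (g : N ≃ₐ[ℚ] N) (n₀ : ℕ), n₀ ≠ 0 →
    ∃ (q : ℕ) (P : Ideal (𝓞 N)) (φ : N ≃ₐ[ℚ] N) (V : ValuationSubring ℂ), q.Prime ∧ ¬ q ∣ n₀ ∧
      P.IsPrime ∧ (q : 𝓞 N) ∈ P ∧ Subgroup.zpowers φ = Subgroup.zpowers g ∧
      (∀ y : 𝓞 N, ((y : N) : ℂ) ∈ V.nonunits ↔ y ∈ P) ∧
      (∀ x : N, (x : ℂ) ∈ V → V.valuation (((φ x : N) : ℂ) - (x : ℂ) ^ q) < 1) ∧
      ∀ (D : IntermediateField ℚ ℂ) (h : D ≤ N), (∀ x : N, (x : ℂ) ∈ D → g x = x) →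
        Nat.card (𝓞 D ⧸ P.comap (RingOfIntegers.mapRingHom
          (IntermediateField.inclusion h : D →+* N))) = q

/-- (FRJ) automorphisms which fix `E` fix the field `L` which belongs to `ψ`.

USES FRQ; `c_FRO : Sc_FRO` (`MUX/XCAll.lean`), `u_AUE`, `xe_RNG`. PROOF. `N` = a finite Galois extension of `ℚ` in `ℂ` which contains `E` and `RF f` (normal closure; `RF f` is finite over `ℚ`). `s` restricts to `g ∈ Gal(N/ℚ)`, trivial on `E` and on `kk A B`. `n₀` from (FRO); (FRQ) with `n₀ nI f`: `q, P, φ, V`. `Q = {x ∈ OO : emb x ∈ V.nonunits}`: the prime `P ∩ 𝓞 (kk A B)`,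
transported to `OO A B` (`RingE.int`); `nI Q = q` (last property for `D = kk A B`), `OverI V Q`. `P' = P ∩ 𝓞 E` has norm `q` (last property for `D = E`): `AbvQ E Q q`. `Q` is prime to `f` (`q ∤ nI f`: `q` and `nI f` are coprime integers in `Q`, `f`). So `ψ Q = 1`. Extend `φ` to `s' ∈ Aut(ℂ)` (AUE), `FixK s'`. (FRO): `ActI s' f Q L L' mu`, so `Ψ (s'|RF f) = ψ Q = 1`:
`s'|RF f ∈ ker Ψ`, so `φ` fixes every `y ∈ RF f` which is fixed by `ker Ψ`. `g = φ^i` fixes it too. -/
def Sj_FRJ : Prop := ∀ (A B : ℤ), CQ A B → TorX A B → NLex A B →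
    ∀ (E : IntermediateField ℚ ℂ) [FiniteDimensional ℚ E], kk A B ≤ E →
    ∀ (f : Ideal (OO A B)) (A' : Type) [CommGroup A'] (ψ : Ideal (OO A B) → A')
      (Ψ : ((RF f : IntermediateField (kk A B) ℂ) ≃ₐ[kk A B] RF f) →* A'), f ≠ ⊥ →
    (∀ (Q : Ideal (OO A B)) (q : ℕ), q.Prime → Q.IsPrime → nI Q = q → IsCoprime Q f →
      AbvQ E Q q → ψ Q = 1) →
    (∀ (τ : (RF f : IntermediateField (kk A B) ℂ) ≃ₐ[kk A B] RF f) (s : ℂ ≃+* ℂ), FixK A B s →
      (∀ y : (RF f : IntermediateField (kk A B) ℂ), s (y : ℂ) = ((τ y : _) : ℂ)) →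
      ∀ (a b b' : Ideal (OO A B)) (L L' : PeriodPair) (om om' mu : ℂ), IsNL b L om →
        IsNL b' L' om' → ActI s f a L L' mu → Ψ τ = ψ a) →
    ∀ s : ℂ ≃+* ℂ, (∀ x ∈ E, s x = x) →
      ∀ y : (RF f : IntermediateField (kk A B) ℂ),
        (∀ τ : (RF f : IntermediateField (kk A B) ℂ) ≃ₐ[kk A B] RF f, Ψ τ = 1 → τ y = y) →
        s (y : ℂ) = y

/-- (JTC) the cyclic case.

USES JTA, PHJ, FRJ; `Su_AUF` (`u_AUF`: an algebraic number, or an element of `ℂ`, which is fixed by all automorphisms of `ℂ` over `E` is in `E`; look at its statement in `MUX/StU.lean`). PROOF. `f, A', ψ` (JTA), `Ψ` (PHJ). `L` = the fixed field of `ker Ψ` in `RF f / kk A B`: `[L : k] = |A'| ≥ l^m`. (FRJ), (AUF): `L ≤ E`. `[E : k] = l^m`. So `L = E` as subsets of `ℂ`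
(`IntermediateField.eq_of_le_of_finrank_le`), `E ≤ RF f`. -/
def Sj_JTC : Prop := ∀ (A B : ℤ), CQ A B → TorX A B → NLex A B →
    ∀ (E : IntermediateField ℚ ℂ) [FiniteDimensional ℚ E] (hk : kk A B ≤ E) (l m : ℕ), l.Prime →
    CycE hk (l ^ m) →
    TorU A B E

/-- (JTR) reduction to the cyclic case: for all abelian extensions.

USES JTC; `Sj_DIR` is not needed. PROOF. `G = Gal(K/k)` finite abelian. For a subgroup `U` with `G/U` cyclic of prime power order `l^m` the fixed field `E_U` is Galois over `k` with group `G/U`: (JTC): every element of `E_U` is in some `RF f_U`, `E_U` is finite over `k`, so (`T.mono`, the product of finitely many ideals) `E_U ≤ RF f_U`. The intersection of all these `U` is trivial: for `g ≠ 1` take a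
subgroup `U` maximal among those which do not contain `g`: `G/U` is a finite abelian group in which every nontrivial subgroup contains the image of `g`, so it is cyclic of prime power order (all its minimal subgroups coincide; or use a character of prime power order with `χ(g) ≠ 1`). So the fixed fields `E_U` generate `K` (the compositum is the fixed field of the intersection). With
`f` the product of the `f_U`: `K ≤ RF f`. The empty case `G = 1`: `K = kk A B`. -/
def Sj_JTR : Prop := ∀ (A B : ℤ), CQ A B → TorX A B → NLex A B →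
    ∀ (K : IntermediateField ℚ ℂ) [FiniteDimensional ℚ K] (hk : kk A B ≤ K),
    IsGalois (kk A B) (IntermediateField.extendScalars hk) →
    (∀ σ τ : (IntermediateField.extendScalars hk) ≃ₐ[kk A B]
      (IntermediateField.extendScalars hk), σ * τ = τ * σ) → TorU A B K

/-- (JQF) imaginary quadratic subfields of `ℂ`.

PROOF. `k = ℚ(z)`, `z² + b z + c = 0`, `ℚ(z) = ℚ(√D)`, `D = b² - 4c < 0` rational (`z` not real), `D = -d r²` with `d` squarefree, `r ∈ ℚ`. `kk (pA d) (pB d) = ℚ(wd d) = ℚ(√-d)` (`wC_p` in `MUX/ZUni.lean`). Splitting: `OO A B ≅ 𝓞 k`, `O/p ≅ 𝔽_p[X]/(X² - B X - A)`. If `P ≠ Q` are primes above `p` (`2` or `3`) then `X² - B X - A` has two different roots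
modulo `p`: for `p = 3` the discriminant `B² + 4A ≡ 1` modulo 3; for `p = 2`: `B = 1`, `A` even, `B² + 4A ≡ 1` modulo 8. `absD_p` (`MUX/ZUni.lean`): `B² + 4A = -d` (`d ≡ 3` modulo 4) or `-4d`. -/
def Sj_JQF : Prop := ∀ k : IntermediateField ℚ ℂ, Module.finrank ℚ k = 2 →
    (∃ z ∈ k, (starRingEnd ℂ) z ≠ z) →
    ∃ d : ℕ, Squarefree d ∧ k = kk (MUXZ.pA d) (MUXZ.pB d) ∧
      ∀ p : ℕ, (p = 2 ∨ p = 3) →
        (∃ P Q : Ideal (𝓞 k), P.IsPrime ∧ Q.IsPrime ∧ (p : 𝓞 k) ∈ P ∧ (p : 𝓞 k) ∈ Q ∧ P ≠ Q) →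
        p = 3 ∧ 3 ∣ d + 1 ∨ p = 2 ∧ 8 ∣ d + 1

/-- (PEX) from `F ≤ M`, `M / F` Galois of degree `p^a`, to `F k ≤ M k`.

PROOF. Restriction `Gal(M k / F k) → Gal(M / F)` is injective; `M k / F k` is Galois (`M k = F k · M`). The order divides `p^a`. -/
def Sj_PEX : Prop := ∀ (F M k : IntermediateField ℚ ℂ) [FiniteDimensional ℚ M]
    [FiniteDimensional ℚ k] (h : F ≤ M) (p a : ℕ), p.Prime →
    IsGalois F (IntermediateField.extendScalars h) →
    Module.finrank F (IntermediateField.extendScalars h) = p ^ a →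
    ∃ (h' : F ⊔ k ≤ M ⊔ k) (b : ℕ), IsGalois ↥(F ⊔ k) (IntermediateField.extendScalars h') ∧
      Module.finrank ↥(F ⊔ k) (IntermediateField.extendScalars h') = p ^ b

end Pool.Agent.JT
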