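import Pool.Agent.HB.RK

/-!
# A bound for the hit problem: the statements of the modules

`P_X` is the statement of the module `X`; `Stmt_X` is `P_X` with the modules on which it depends as
hypotheses. The paper proofs are in `PAPER.md`.
-/

namespace HB

open MvPolynomial Pool.Agent.Lib_helper74.Hit

/-! ### 1. twists -/

/-- CNG: congruent twists have the same hits. -/
def P_CNG : Prop :=
  ∀ (d : ℕ) (Λ : Submodule (ZMod 2) (W d)) (w w' : Polynomial (P d)) (n : ℕ),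
    Hm 0 w → Hm 0 w' → Cg Λ w w' → Un w Λ n = Un w' Λ n

/-- CNG -/
def Stmt_CNG : Prop := P_CNG

/-- DRP: the forms in `Λ` can be dropped. -/
def P_DRP : Prop :=
  ∀ (d : ℕ) (Λ : Submodule (ZMod 2) (W d)) (l : List (W d)), ∃ l' : List (W d),
    l'.length ≤ l.length ∧ (∀ a ∈ l', a ∉ Λ) ∧ ∀ n, q l Λ n = q l' Λ n

/-- DRP -/
def Stmt_DRP : Prop := P_CNG → P_DRP

/-- EVN: few more forms make the twist a square. -/
def P_EVN : Prop :=
  ∀ (d : ℕ) (Λ : Submodule (ZMod 2) (W d)) (l : List (W d)), (∀ a ∈ l, a ∉ Λ) →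
    ∃ o l' : List (W d), (∀ a ∈ o, a ∉ Λ) ∧ (∀ a ∈ l', a ∉ Λ) ∧ o.length + 1 ≤ 2 ^ cod Λ ∧
      l.length + o.length = 2 * l'.length ∧ Cg Λ (tw (o ++ l)) (tw l' ^ 2)

/-- EVN -/
def Stmt_EVN : Prop := P_EVN

/-- PST: division by one form. -/
def P_PST : Prop :=
  ∀ (d : ℕ) (v : W d) (l : List (W d)) (Λ : Submodule (ZMod 2) (W d)) (n : ℕ)
    (A A' : Submodule (ZMod 2) (P d)), (∀ f ∈ A', lf v * f ∈ A) →
    rk (Hg d n) (Un (tw l) Λ n ⊔ A) ≤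
      rk (Hg d n) (Un (tw l) (Λ ⊔ Submodule.span (ZMod 2) {v}) n ⊔ A) +
        (if 1 ≤ n then rk (Hg d (n - 1)) (Un (tw (v :: l)) Λ (n - 1) ⊔ A') else 0)

/-- PST -/
def Stmt_PST : Prop := P_PST

/-- CHO: division by the forms of a list, one after the other. -/
def P_CHO : Prop :=
  ∀ (d : ℕ) (o l : List (W d)) (Λ : Submodule (ZMod 2) (W d)) (n B : ℕ),
    (∀ (t : List (W d)) (v : W d) (m : ℕ), v ∈ o → t.length < o.length → t.length + m = n →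
      q (t ++ l) (Λ ⊔ Submodule.span (ZMod 2) {v}) m ≤ B) →
    q l Λ n ≤ o.length * B + (if o.length ≤ n then q (o ++ l) Λ (n - o.length) else 0)

/-- CHO -/
def Stmt_CHO : Prop := P_PST → P_CHO

/-- PEL: modulo several products of forms. -/
def P_PEL : Prop :=
  ∀ (d : ℕ) (φs : List (List (W d))) (l : List (W d)) (Λ : Submodule (ZMod 2) (W d)) (n B : ℕ),
    (∀ (t v : List (W d)) (m : ℕ), List.Forall₂ (fun a φ => a ∈ φ) v φs →
      t.length ≤ (φs.map List.length).sum → t.length + m = n →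
      q (t ++ l) (Λ ⊔ Submodule.span (ZMod 2) {a | a ∈ v}) m ≤ B) →
    rk (Hg d n) (Un (tw l) Λ n ⊔ PF φs n) ≤ (φs.map List.length).prod * B

/-- PEL -/
def Stmt_PEL : Prop := P_PST → P_PEL

/-- COD: codimensions. -/
def P_COD : Prop :=
  ∀ (d : ℕ) (Λ : Submodule (ZMod 2) (W d)), cod Λ ≤ d ∧ cod (⊥ : Submodule (ZMod 2) (W d)) = d ∧
    (cod Λ = 0 → Λ = ⊤) ∧
    (∀ v, v ∉ Λ → cod (Λ ⊔ Submodule.span (ZMod 2) {v}) + 1 = cod Λ) ∧
    (∃ y : Fin (cod Λ) → W d, Λ ⊔ Submodule.span (ZMod 2) (Set.range y) = ⊤) ∧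
    ∀ y : Fin (cod Λ) → W d, Λ ⊔ Submodule.span (ZMod 2) (Set.range y) = ⊤ →
      ∀ (K : Finset (Fin (cod Λ))) (v : List (W d)),
        List.Forall₂ (fun a φ => a ∈ φ) v (fls y K) →
        cod (Λ ⊔ Submodule.span (ZMod 2) {a | a ∈ v}) = K.card

/-- COD -/
def Stmt_COD : Prop := P_COD

/-! ### 2. square twists -/

/-- SPN: the polynomials modulo `Λ` in terms of squares. -/
def P_SPN : Prop :=
  ∀ (d k : ℕ) (y : Fin k → W d) (Λ : Submodule (ZMod 2) (W d)) (n : ℕ),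
    Λ ⊔ Submodule.span (ZMod 2) (Set.range y) = ⊤ →
    Hg d n ≤ Submodule.span (ZMod 2) {g | ∃ (K : Finset (Fin k)) (m : ℕ), ∃ f ∈ Hg d m,
      K.card + 2 * m = n ∧ g = pk y K * f ^ 2} ⊔ Ln Λ n

/-- SPN -/
def Stmt_SPN : Prop := P_SPN

/-- SQK: the twisted squares of `pk y K * z ^ 2`. -/
def P_SQK : Prop :=
  ∀ (d k : ℕ) (y : Fin k → W d) (K : Finset (Fin k)) (w : Polynomial (P d)) (i : ℕ) (z : P d),
    Sw (w ^ 2) (2 * i) (pk y K * z ^ 2) =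
      ∑ T ∈ K.powerset with (2 ∣ T.card ∧ T.card ≤ 2 * i),
        pk y (K \ T) * (pk y T * Sw w (i - T.card / 2) z) ^ 2

/-- SQK -/
def Stmt_SQK : Prop := P_SQK

/-- The derivation which sends the variables to their powers of exponent `2 ^ (n + 1)`. -/
noncomputable def dn (d n : ℕ) : Derivation (ZMod 2) (P d) (P d) :=
  mkDerivation (ZMod 2) fun i : Fin d => (X i : P d) ^ 2 ^ (n + 1)

/-- QNH: the values of these derivations are hit. -/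
def P_QNH : Prop :=
  ∀ (d n m : ℕ) (u : Polynomial (P d)) (f : P d), Hm 0 u → u.coeff 0 = 1 → f ∈ Hg d m →
    dn d n f ∈ Hn (u ^ 2) (m + 2 ^ (n + 1) - 1)

/-- QNH -/
def Stmt_QNH : Prop := P_QNH

/-- FKP: the product of the forms of a coset is an additive polynomial. -/
def P_FKP : Prop :=
  ∀ (d k : ℕ) (y : Fin k → W d) (K : Finset (Fin k)), ∃ c : ℕ → P d,
    (∀ n ≤ K.card, c n ∈ Hg d (2 ^ K.card - 2 ^ n)) ∧
      (∀ a, FK y K a = ∑ n ∈ Finset.range (K.card + 1), c n * lf a ^ 2 ^ n) ∧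
      ∀ i ∈ K, FK y K (y i) = 0

/-- FKP -/
def Stmt_FKP : Prop := P_FKP

/-- HIT: a family of hit polynomials. -/
def P_HIT : Prop :=
  ∀ (d k : ℕ) (y : Fin k → W d) (K : Finset (Fin k)) (a : W d) (m : ℕ) (u : Polynomial (P d))
    (f : P d), Hm 0 u → u.coeff 0 = 1 → f ∈ Hg d m →
    pk y K * (FK y K a * f) ^ 2 ∈ Hn (u ^ 2) (K.card + 2 * (2 ^ K.card + m))

/-- HIT -/
def Stmt_HIT : Prop := P_QNH → P_FKP → P_HIT

/-- HLV: halving. -/
def P_HLV : Prop :=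
  ∀ (d k : ℕ) (y : Fin k → W d) (l : List (W d)) (Λ : Submodule (ZMod 2) (W d)) (n : ℕ),
    Λ ⊔ Submodule.span (ZMod 2) (Set.range y) = ⊤ →
    rk (Hg d n) (Un (tw l ^ 2) Λ n) ≤
      ∑ K : Finset (Fin k), if K.card ≤ n ∧ 2 ∣ n - K.card then
        rk (Hg d ((n - K.card) / 2))
          (Un (tw l) Λ ((n - K.card) / 2) ⊔ PF (fls y K) ((n - K.card) / 2)) else 0

/-- HLV -/
def Stmt_HLV : Prop := P_SPN → P_SQK → P_HIT → P_HLV

/-! ### 3. vanishing -/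

/-- CHI: the chi trick. -/
def P_CHI : Prop :=
  ∀ (d : ℕ) (κ l : List (W d)) (m : ℕ) (f : P d), f ∈ Hg d m →
    ¬ S2 κ.length (m + l.length + κ.length) →
    pr κ * (pr l * f ^ 2) ∈ Hn (tw l) (κ.length + l.length + 2 * m)

/-- CHI -/
def Stmt_CHI : Prop := P_CHI

/-- ARI: sums of powers of two and binary digits. -/
def P_ARI : Prop :=
  (∀ x, al (2 * x) = al x) ∧ (∀ k N, S2 k N → al N ≤ k) ∧
    (∀ j k M, j ≤ k → S2 j M → S2 k (2 * M + (k - j))) ∧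
    ∀ v e N r : ℕ, 2 ^ v ∣ N → 1 ≤ r → r ≤ 2 ^ e → e ≤ v → r ≤ N → v - e ≤ al (N - r)

/-- ARI -/
def Stmt_ARI : Prop := P_ARI

/-- VSP: the multiples of the product of the forms. -/
def P_VSP : Prop :=
  ∀ (d : ℕ) (Λ : Submodule (ZMod 2) (W d)) (l : List (W d)) (n : ℕ),
    ¬ S2 (cod Λ) (n + l.length + cod Λ) → PF [l] n ≤ Un (tw l) Λ n

/-- VSP -/
def Stmt_VSP : Prop := P_COD → P_SPN → P_CHI → P_ARI → P_VSP

/-- LV0: codimension zero. -/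
def P_LV0 : Prop :=
  ∀ (d : ℕ) (l : List (W d)) (n : ℕ), q l ⊤ n ≤ 1 ∧ (q l ⊤ n ≠ 0 → n = 0)

/-- LV0 -/
def Stmt_LV0 : Prop := P_LV0

/-- VAN: vanishing. -/
def P_VAN : Prop :=
  ∀ (d : ℕ) (Λ : Submodule (ZMod 2) (W d)) (l : List (W d)) (n : ℕ), (∀ a ∈ l, a ∉ Λ) →
    q l Λ n ≠ 0 → ∃ r, r ≤ 2 ^ (cod Λ + 1) * (l.length + 1) ∧ r ≤ n + l.length + cod Λ ∧
      al (n + l.length + cod Λ - r) ≤ cod Λ

/-- VAN -/
def Stmt_VAN : Prop := P_LV0 → P_DRP → P_PEL → P_COD → P_VSP → P_ARI → P_VAN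

/-! ### 4. the recursion -/

/-- The relation between the numbers `N` of a space and of the smaller spaces. -/
def Rl (d N N' : ℕ) : Prop := ∃ s, 1 ≤ s ∧ s ≤ 2 ^ (3 * d + 3) ∧ (N' + s = N ∨ 2 * N' + s = N)

/-- The bound for the length of the lists in codimension `k`. -/
def Sk (d k : ℕ) : ℕ := (d + 1 - k) * ((d + 1) * 2 ^ d)

/-- The cost of one step in codimension `k`, if `b j` is a bound in codimension `j`. -/
def Ck (b : ℕ → ℕ) (k : ℕ) : ℕ :=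
  (2 ^ k - 1) * b (k - 1) + ∑ j ∈ Finset.range k, k.choose j * 2 ^ (j * (k - j)) * b j

/-- STP: one step. -/
def P_STP : Prop :=
  ∀ (d : ℕ) (Λ : Submodule (ZMod 2) (W d)) (l : List (W d)) (n : ℕ) (b : ℕ → ℕ), 1 ≤ cod Λ →
    (∀ a ∈ l, a ∉ Λ) → l.length ≤ Sk d (cod Λ) →
    (∀ (Λ' : Submodule (ZMod 2) (W d)) (l' : List (W d)) (n' : ℕ), cod Λ' < cod Λ →
      (∀ a ∈ l', a ∉ Λ') → l'.length ≤ Sk d (cod Λ') →
      Rl d (n + l.length + cod Λ) (n' + l'.length + cod Λ') → q l' Λ' n' ≤ b (cod Λ')) →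
    q l Λ n ≤ Ck b (cod Λ) ∨ ∃ (l' : List (W d)) (m : ℕ), (∀ a ∈ l', a ∉ Λ) ∧
      l'.length ≤ Sk d (cod Λ) ∧ 2 * (m + l'.length + cod Λ) = n + l.length + cod Λ ∧
      q l Λ n ≤ Ck b (cod Λ) + q l' Λ m

/-- STP -/
def Stmt_STP : Prop := P_CNG → P_DRP → P_EVN → P_CHO → P_PEL → P_COD → P_HLV → P_STP

/-- The bound in codimension `k`. -/
def bd (d k : ℕ) : ℕ := ((5 * d + 4) * (d + 1)) ^ k * 2 ^ (k * (k + 1) / 2)

/-- NUM: the numerical inequality. -/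
def P_NUM : Prop :=
  ∀ d k : ℕ, 1 ≤ k → k ≤ d → (k + (4 * d + 4)) * Ck (bd d) k ≤ bd d k

/-- NUM -/
def Stmt_NUM : Prop := P_NUM

/-- REC: the bound for all codimensions. -/
def P_REC : Prop :=
  ∀ (d : ℕ) (Λ : Submodule (ZMod 2) (W d)) (l : List (W d)) (n : ℕ), (∀ a ∈ l, a ∉ Λ) →
    l.length ≤ Sk d (cod Λ) → q l Λ n ≤ bd d (cod Λ)

/-- REC -/
def Stmt_REC : Prop := P_LV0 → P_COD → P_ARI → P_VAN → P_STP → P_NUM → P_REC

/-- MAN: the bound for the hit problem. -/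
def P_MAN : Prop := ∀ d n : ℕ, qd (Fin d) n ≤ 2 ^ (d * (d + 1) / 2) * (5 * (d + 1) ^ 2) ^ d

/-- MAN -/
def Stmt_MAN : Prop := P_COD → P_REC → P_MAN

end HB
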